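import Pool.Agent.N628.EP.G1

/-!
N628/EP: packings above the Minkowski density are exponentially rare.
-/

set_option autoImplicit false

open MeasureTheory Set Real Metric Filter Topology

namespace Pool.Agent.N628.EP

open Pool.Agent.Y509.LS

variable {n : ℕ}

/-- the constant `(1 - log 2) / 2` -/
noncomputable def b0 : ℝ := (1 - Real.log 2) / 2

lemma b0_pos : 0 < b0 := by
  unfold b0
  linarith [Real.log_two_lt_d9]

lemma b0_lt : b0 < 1 / 2 := by
  unfold b0
  linarith [Real.log_two_gt_d9]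

/-- the volume of the space of packings -/
theorem conf_main (hn : 0 < n) {r L θ : ℝ} (hr : 0 < r) (hr2 : r < 2) (hL : 0 < L) (hθ : 0 < θ)
    (hθ1 : θ ≤ 1) {q k : ℕ} (hqk : q ≤ k) {m₀ : ℝ}
    (hm₀ : m₀ = 2 * (r * √(4 * π / n)) ^ n * (L + 4) ^ n / (θ * (r ^ n * V1 n)))
    (hb1 : (1 - θ) * (r ^ n * V1 n) / (L + 4) ^ n ≤ 1)
    (hq : L ^ n * (1 - (1 - θ) * (r ^ n * V1 n) / (L + 4) ^ n) ^ q < m₀) :
    volume.real (conf n k L) ≤ 2 ^ k * ((L ^ n) ^ q * m₀ ^ (k - q)) := by
  obtain ⟨M, hM⟩ : ∃ M : ℝ → ℝ, M = fun s => (2 * (r * √(4 * π / n)) ^ n + s ^ n) * (L + 4) ^ n /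
    (θ * (r ^ n * V1 n)) := ⟨_, rfl⟩
  have hM0 : M 0 = m₀ := by
    rw [hM, hm₀]
    simp only
    rw [zero_pow hn.ne', add_zero]
  have hMc : Continuous M := by
    rw [hM]
    fun_prop
  obtain ⟨β, hβ⟩ : ∃ β : ℝ, β = 1 - (1 - θ) * (r ^ n * V1 n) / (L + 4) ^ n := ⟨_, rfl⟩
  have hlim : Tendsto (fun s : ℝ => 2 ^ k * (((L + s) ^ n) ^ q * (M s + s ^ n) ^ (k - q)))
      (𝓝[>] 0) (𝓝 (2 ^ k * (((L + 0) ^ n) ^ q * (M 0 + 0 ^ n) ^ (k - q)))) := by
    refine (Continuous.tendsto ?_ 0).mono_left nhdsWithin_le_nhds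
    fun_prop
  rw [hM0, zero_pow hn.ne', add_zero, add_zero] at hlim
  refine ge_of_tendsto hlim ?_
  have e1 : ∀ᶠ s : ℝ in 𝓝[>] 0, s + 2 * r < 4 := by
    have : Tendsto (fun s : ℝ => s + 2 * r) (𝓝[>] 0) (𝓝 (0 + 2 * r)) :=
      (Continuous.tendsto (by fun_prop) 0).mono_left nhdsWithin_le_nhds
    exact this.eventually (gt_mem_nhds (by linarith))
  have e2 : ∀ᶠ s : ℝ in 𝓝[>] 0, r + 2 * (s * √n) < 2 := by
    have : Tendsto (fun s : ℝ => r + 2 * (s * √n)) (𝓝[>] 0) (𝓝 (r + 2 * (0 * √n))) :=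
      (Continuous.tendsto (by fun_prop) 0).mono_left nhdsWithin_le_nhds
    exact this.eventually (gt_mem_nhds (by linarith))
  have e3 : ∀ᶠ s : ℝ in 𝓝[>] 0, 0 < M s - (L + s) ^ n * β ^ q := by
    have : Tendsto (fun s : ℝ => M s - (L + s) ^ n * β ^ q) (𝓝[>] 0)
        (𝓝 (M 0 - (L + 0) ^ n * β ^ q)) :=
      (Continuous.tendsto (by fun_prop) 0).mono_left nhdsWithin_le_nhds
    refine this.eventually (lt_mem_nhds ?_)
    rw [hM0, add_zero, hβ]
    linarith
  filter_upwards [e1, e2, e3, self_mem_nhdsWithin] with s h1 h2 h3 h4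
  have hs : 0 < s := h4
  refine conf_grid hn hs hr hL hθ hθ1 h1.le h2 hqk (by rw [hM]) hb1 ?_
  rw [← hβ]
  linarith

/-- the volume of the unit ball -/
lemma V1_le (hn : 0 < n) : V1 n * √(n / (4 * π)) ^ n ≤ Real.exp (b0 * n) := by
  have hn' : (0 : ℝ) < n := by exact_mod_cast hn
  have h1 := GaussianFourier.integral_rexp_neg_mul_sq_norm (V := E n) (b := n / 2) (by positivity)
  rw [finrank_euclideanSpace_fin] at h1
  have hint : Integrable (fun v : E n => Real.exp (-(n / 2) * ‖v‖ ^ 2)) :=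
    gauss_int (by positivity)
  have h2 : ∫ v in closedBall (0 : E n) 1, Real.exp (-(n / 2) : ℝ) ≤
      ∫ v : E n, Real.exp (-(n / 2) * ‖v‖ ^ 2) := by
    refine le_trans ?_ (setIntegral_le_integral (s := closedBall (0 : E n) 1) hint
      (Eventually.of_forall fun _ => (Real.exp_pos _).le))
    refine setIntegral_mono_on (integrableOn_const (isCompact_closedBall _ _).measure_lt_top.ne)
      hint.integrableOn isClosed_closedBall.measurableSet fun v hv => ?_
    rw [mem_closedBall_zero_iff] at hv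
    rw [Real.exp_le_exp]
    have : ‖v‖ ^ 2 ≤ 1 := pow_le_one₀ (norm_nonneg _) hv
    nlinarith
  rw [setIntegral_const, smul_eq_mul, vol_cb zero_le_one, one_pow, one_mul, h1] at h2
  have h3 : √(n / (4 * π)) ^ n = (n / (4 * π)) ^ ((n : ℝ) / 2) := by
    rw [Real.sqrt_eq_rpow, ← Real.rpow_natCast, ← Real.rpow_mul (by positivity)]
    congr 1
    ring
  rw [h3]
  have h4 : V1 n ≤ Real.exp (n / 2) * (π / (n / 2)) ^ ((n : ℝ) / 2) := by
    have h5 : V1 n = Real.exp (n / 2) * (V1 n * Real.exp (-(n / 2) : ℝ)) := by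
      rw [mul_comm (V1 n), ← mul_assoc, ← Real.exp_add]
      simp
    rw [h5]
    exact mul_le_mul_of_nonneg_left h2 (Real.exp_pos _).le
  calc V1 n * (n / (4 * π)) ^ ((n : ℝ) / 2) ≤
      (Real.exp (n / 2) * (π / (n / 2)) ^ ((n : ℝ) / 2)) * (n / (4 * π)) ^ ((n : ℝ) / 2) := by
        gcongr
    _ = Real.exp (n / 2) * (1 / 2 : ℝ) ^ ((n : ℝ) / 2) := by
        rw [mul_assoc, ← Real.mul_rpow (by positivity) (by positivity)]
        congr 2
        field_simp
        ring
    _ = Real.exp (b0 * n) := by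
        rw [Real.rpow_def_of_pos (by norm_num), ← Real.exp_add, one_div, Real.log_inv]
        unfold b0
        congr 1
        ring

/-- the number of unit balls of a packing of the cube `[0, L]^n` of density `2^(-n)` -/
noncomputable def TT (n : ℕ) (L : ℝ) : ℝ := L ^ n / (2 ^ n * V1 n)

lemma V1_crude (hn : 0 < n) : V1 n ≤ 18 ^ n := by
  have hn' : (1 : ℝ) ≤ n := by exact_mod_cast hn
  have h1 := V1_le hn
  have h2 : (1 / 4 : ℝ) ^ n ≤ √(n / (4 * π)) ^ n := by
    refine pow_le_pow_left₀ (by norm_num) ?_ n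
    apply Real.le_sqrt_of_sq_le
    rw [le_div_iff₀ (by positivity)]
    have := Real.pi_lt_d2
    norm_num
    linarith
  have h3 : Real.exp (b0 * n) ≤ 2 ^ n := by
    have h4 : (2 : ℝ) ^ n = Real.exp (Real.log 2 * n) := by
      rw [mul_comm, Real.exp_nat_mul, Real.exp_log (by norm_num)]
    rw [h4, Real.exp_le_exp]
    refine mul_le_mul_of_nonneg_right ?_ (by positivity)
    unfold b0
    linarith [Real.log_two_gt_d9]
  have h5 : V1 n * (1 / 4 : ℝ) ^ n ≤ 2 ^ n :=
    (mul_le_mul_of_nonneg_left h2 (V1_pos n).le).trans (h1.trans h3)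
  have h6 : V1 n = V1 n * (1 / 4 : ℝ) ^ n * 4 ^ n := by
    rw [mul_assoc, ← mul_pow]
    norm_num
  rw [h6]
  calc V1 n * (1 / 4 : ℝ) ^ n * 4 ^ n ≤ 2 ^ n * 4 ^ n := by gcongr
    _ = 8 ^ n := by rw [← mul_pow]; norm_num
    _ ≤ 18 ^ n := pow_le_pow_left₀ (by norm_num) (by norm_num) n

lemma TT_large (hn : 36 < n) {L : ℝ} (hL : (n : ℝ) ^ 2 ≤ L) : (n : ℝ) ≤ TT n L := by
  have hn' : (36 : ℝ) < n := by exact_mod_cast hn
  have h1 := V1_crude (n := n) (by omega)
  unfold TT
  rw [le_div_iff₀ (mul_pos (by positivity) (V1_pos n))]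
  calc (n : ℝ) * (2 ^ n * V1 n) ≤ n * (2 ^ n * 18 ^ n) := by gcongr
    _ = n * 36 ^ n := by rw [← mul_pow]; norm_num
    _ ≤ n ^ n * n ^ n := by
        have h2 : (36 : ℝ) ^ n ≤ n ^ n := pow_le_pow_left₀ (by norm_num) hn'.le n
        have h3 : (n : ℝ) ≤ n ^ n := by
          calc (n : ℝ) = n ^ 1 := (pow_one _).symm
            _ ≤ n ^ n := pow_le_pow_right₀ (by linarith) (by omega)
        gcongr
    _ = ((n : ℝ) ^ 2) ^ n := by rw [← mul_pow]; ring_nf
    _ ≤ L ^ n := pow_le_pow_left₀ (by positivity) hL n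

lemma conf_le_one {L : ℝ} (hL : 0 < L) (k : ℕ) : volume.real (conf n k L) ≤ (L ^ n) ^ k := by
  have h1 : conf n k L ⊆ Set.pi univ fun _ => {x : E n | ∀ i, x i ∈ Icc 0 L} := by
    intro x hx i _ j
    exact hx.1 i j
  have h2 : volume (Set.pi univ fun _ : Fin k => {x : E n | ∀ i, x i ∈ Icc 0 L}) =
      ENNReal.ofReal ((L ^ n) ^ k) := by
    rw [volume_pi_pi]
    simp only [box_vol n hL.le, Finset.prod_const, Finset.card_univ, Fintype.card_fin, sub_zero]
    rw [ENNReal.ofReal_pow (p := L ^ n) (by positivity) k, ENNReal.ofReal_pow hL.le n]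
  have h3 := measureReal_mono h1 (μ := volume) (by rw [h2]; exact ENNReal.ofReal_ne_top)
  rwa [measureReal_def, measureReal_def, h2, ENNReal.toReal_ofReal (by positivity),
    ← measureReal_def] at h3

lemma cube_enlarge (hn : 0 < n) {L : ℝ} (hL : (n : ℝ) ^ 2 ≤ L) {c : ℝ} (hc : 0 ≤ c) :
    (L + c) ^ n ≤ L ^ n * Real.exp (c / n) := by
  have hn' : (0 : ℝ) < n := by exact_mod_cast hn
  have hL0 : 0 < L := lt_of_lt_of_le (by positivity) hL
  have h1 : L + c ≤ L * Real.exp (c / L) := by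
    have h2 := Real.add_one_le_exp (c / L)
    calc L + c = L * (c / L + 1) := by field_simp; ring
      _ ≤ L * Real.exp (c / L) := by gcongr
  calc (L + c) ^ n ≤ (L * Real.exp (c / L)) ^ n := pow_le_pow_left₀ (by positivity) h1 n
    _ = L ^ n * Real.exp (n * (c / L)) := by rw [mul_pow, Real.exp_nat_mul]
    _ ≤ L ^ n * Real.exp (c / n) := by
        gcongr
        rw [← mul_div_assoc, div_le_div_iff₀ hL0 hn']
        nlinarith

/-- **rarity of the packings above the Minkowski density** -/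
theorem rare {ε : ℝ} (hε : 0 < ε) (hεb : ε < b0) : ∀ᶠ n : ℕ in atTop, ∀ L : ℝ, (n : ℝ) ^ 2 ≤ L →
    ∀ k : ℕ, volume.real (conf n k L) / (L ^ n) ^ k ≤
      Real.exp (-((b0 - ε) * n * (k - (b0 + ε) * n * TT n L))) := by
  have hb := b0_pos
  have hb' := b0_lt
  obtain ⟨η, hη⟩ : ∃ η : ℝ, η = ε / 8 := ⟨_, rfl⟩
  have hεη : ε = 8 * η := by rw [hη]; ring
  have hη0 : 0 < η := by rw [hη]; positivity
  have hη1 : η < 1 / 16 := by linarith
  have hW := W_low (η := η) hη0
  have hlin : ∀ c : ℝ, ∀ᶠ n : ℕ in atTop, c ≤ n := fun c =>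
    (tendsto_natCast_atTop_atTop.eventually_ge_atTop c)
  filter_upwards [hW, hlin ((Real.log (2 / η) + 1) / η), hlin (4 / η),
    eventually_gt_atTop 36] with n hWn hn1 hn2 hn36 L hL k
  have hn : 0 < n := by omega
  have hn' : (36 : ℝ) < n := by exact_mod_cast hn36
  have hn0 : (0 : ℝ) < n := by linarith
  have hL0 : 0 < L := lt_of_lt_of_le (by positivity) hL
  obtain ⟨T, hT⟩ : ∃ T : ℝ, T = TT n L := ⟨_, rfl⟩
  have hTn : (n : ℝ) ≤ T := by rw [hT]; exact TT_large hn36 hL
  have hT0 : 0 < T := by linarith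
  have hV := V1_pos n
  have h2V : (0 : ℝ) < 2 ^ n * V1 n := by positivity
  have hTL : T * (2 ^ n * V1 n) = L ^ n := by
    rw [hT]
    unfold TT
    field_simp
  rw [← hT, hεη]
  have hLn : 0 < L ^ n := by positivity
  rcases le_or_gt (k : ℝ) ((b0 + 8 * η) * n * T) with hk | hk
  · calc volume.real (conf n k L) / (L ^ n) ^ k ≤ 1 := by
          rw [div_le_one (by positivity)]
          exact conf_le_one hL0 k
      _ ≤ Real.exp (-((b0 - 8 * η) * n * (k - (b0 + 8 * η) * n * T))) := by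
          rw [← Real.exp_zero, Real.exp_le_exp]
          have : 0 ≤ (b0 - 8 * η) * n := mul_nonneg (by linarith) hn0.le
          nlinarith
  · have h4n : 4 / (n : ℝ) ≤ η := by
      rw [div_le_iff₀ hη0] at hn2
      rw [div_le_iff₀ hn0]
      linarith
    -- the radius
    obtain ⟨r, hr⟩ : ∃ r : ℝ, r = 2 * Real.exp (-(η / n)) := ⟨_, rfl⟩
    have hr0 : 0 < r := by rw [hr]; positivity
    have hr2 : r < 2 := by
      rw [hr]
      have : Real.exp (-(η / n)) < 1 := by
        rw [Real.exp_lt_one_iff]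
        have : 0 < η / n := by positivity
        linarith
      linarith
    have hrn : r ^ n = 2 ^ n * Real.exp (-η) := by
      rw [hr, mul_pow, ← Real.exp_nat_mul]
      congr 2
      field_simp
    have hL4 : (L + 4) ^ n ≤ L ^ n * Real.exp η := by
      refine (cube_enlarge hn hL (by norm_num)).trans ?_
      gcongr
    have hLle : L ^ n ≤ (L + 4) ^ n := pow_le_pow_left₀ hL0.le (by linarith) n
    obtain ⟨b, hbdef⟩ : ∃ b : ℝ, b = (1 - η) * (r ^ n * V1 n) / (L + 4) ^ n := ⟨_, rfl⟩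
    have hL4p : 0 < (L + 4) ^ n := by positivity
    have hb0' : 0 < b := by
      rw [hbdef]
      have : 0 < 1 - η := by linarith
      positivity
    have hb1 : b ≤ 1 := by
      rw [hbdef, div_le_one hL4p]
      calc (1 - η) * (r ^ n * V1 n) ≤ 1 * ((2 ^ n * 1) * V1 n) := by
            rw [hrn]
            gcongr
            · linarith
            · rw [Real.exp_le_one_iff]; linarith
        _ = 1 * (2 ^ n * V1 n) := by ring
        _ ≤ T * (2 ^ n * V1 n) := by gcongr; linarith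
        _ = L ^ n := hTL
        _ ≤ (L + 4) ^ n := hLle
    have hbT : (1 - 3 * η) ≤ b * T := by
      have e1 : Real.exp (-(2 * η)) ≥ 1 - 2 * η := by
        have := Real.add_one_le_exp (-(2 * η))
        linarith
      have e2 : (1 - 3 * η) ≤ (1 - η) * Real.exp (-(2 * η)) := by nlinarith
      have e3 : (1 - η) * Real.exp (-(2 * η)) * (L + 4) ^ n ≤ (1 - η) * (r ^ n * V1 n) * T := by
        calc (1 - η) * Real.exp (-(2 * η)) * (L + 4) ^ n ≤
            (1 - η) * Real.exp (-(2 * η)) * (L ^ n * Real.exp η) := by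
              have : 0 < 1 - η := by linarith
              gcongr
          _ = (1 - η) * ((Real.exp (-(2 * η)) * Real.exp η) * L ^ n) := by ring
          _ = (1 - η) * (r ^ n * V1 n) * T := by
              rw [← Real.exp_add, hrn, ← hTL]
              have : -(2 * η) + η = -η := by ring
              rw [this]
              ring
      have e4 : (1 - η) * Real.exp (-(2 * η)) ≤ b * T := by
        rw [hbdef, div_mul_eq_mul_div, le_div_iff₀ hL4p]
        exact e3
      linarith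
    obtain ⟨q, hq⟩ : ∃ q : ℕ, q = ⌈b0 * n / b⌉₊ := ⟨_, rfl⟩
    have hqb : b0 * n ≤ b * q := by
      have := Nat.le_ceil (b0 * n / b)
      rw [← hq, div_le_iff₀ hb0'] at this
      linarith
    have hqT : (q : ℝ) ≤ (b0 + 4 * η) * n * T := by
      have e1 : (q : ℝ) < b0 * n / b + 1 := by
        rw [hq]
        exact Nat.ceil_lt_add_one (by positivity)
      have e2 : b0 * n / b ≤ (b0 + 2 * η) * n * T := by
        rw [div_le_iff₀ hb0']
        have e3 : b0 ≤ (b0 + 2 * η) * (1 - 3 * η) := by nlinarith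
        calc b0 * n ≤ (b0 + 2 * η) * (1 - 3 * η) * n := by gcongr
          _ ≤ (b0 + 2 * η) * (b * T) * n := by gcongr
          _ = (b0 + 2 * η) * n * T * b := by ring
      have e3 : 1 ≤ 2 * η * n * T := by
        rw [div_le_iff₀ hη0] at hn2
        nlinarith
      nlinarith
    have hqk : q ≤ k := by
      have : (q : ℝ) ≤ k := by
        refine hqT.trans (le_trans ?_ hk.le)
        gcongr
        linarith
      exact_mod_cast this
    -- the threshold
    obtain ⟨κ, hκ⟩ : ∃ κ : ℝ, κ = √(n / (4 * π)) ^ n * V1 n := ⟨_, rfl⟩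
    have hκ0 : 0 < κ := by rw [hκ]; positivity
    have hsq : √(4 * π / n) ^ n = (√(n / (4 * π)) ^ n)⁻¹ := by
      rw [← inv_pow, ← Real.sqrt_inv, inv_div]
    obtain ⟨m₀, hm₀⟩ : ∃ m₀ : ℝ, m₀ = 2 * (r * √(4 * π / n)) ^ n * (L + 4) ^ n /
      (η * (r ^ n * V1 n)) := ⟨_, rfl⟩
    have hm₀' : m₀ = 2 / η * κ⁻¹ * (L + 4) ^ n := by
      rw [hm₀, mul_pow, hsq, hκ]
      have : 0 < r ^ n := by positivity
      field_simp
    have hκ1 : κ ≤ Real.exp (b0 * n) := by
      rw [hκ, mul_comm]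
      exact V1_le hn
    have hκ2 : Real.exp ((b0 - η) * n) ≤ κ := by
      rw [hκ]
      refine le_trans (le_of_eq ?_) hWn
      unfold b0
      congr 1
      ring
    have hlow : L ^ n * (1 - b) ^ q < m₀ := by
      have e1 : (1 - b) ^ q ≤ Real.exp (-(b0 * n)) := by
        calc (1 - b) ^ q ≤ Real.exp (-b) ^ q := by
              refine pow_le_pow_left₀ (by linarith) ?_ q
              have := Real.add_one_le_exp (-b)
              linarith
          _ = Real.exp (-(b * q)) := by rw [← Real.exp_nat_mul]; congr 1; ring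
          _ ≤ Real.exp (-(b0 * n)) := by
              rw [Real.exp_le_exp]
              linarith
      have e2 : Real.exp (-(b0 * n)) ≤ κ⁻¹ := by
        rw [Real.exp_neg]
        exact inv_anti₀ hκ0 hκ1
      have e3 : 1 < 2 / η := by
        rw [lt_div_iff₀ hη0]
        linarith
      rw [hm₀']
      have hκi : 0 < κ⁻¹ := inv_pos.2 hκ0
      calc L ^ n * (1 - b) ^ q ≤ L ^ n * κ⁻¹ := by
            gcongr
            exact e1.trans e2
        _ = 1 * κ⁻¹ * L ^ n := by ring
        _ < 2 / η * κ⁻¹ * L ^ n := by gcongr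
        _ ≤ 2 / η * κ⁻¹ * (L + 4) ^ n := by gcongr
    have hmain := conf_main hn hr0 hr2 hL0 hη0 (by linarith) hqk hm₀ (by rw [← hbdef]; exact hb1)
      (by rw [← hbdef]; exact hlow)
    have hm1 : m₀ ≤ L ^ n * Real.exp (-((b0 - 2 * η) * n)) := by
      rw [hm₀']
      have e1 : κ⁻¹ ≤ Real.exp (-((b0 - η) * n)) := by
        rw [Real.exp_neg]
        exact inv_anti₀ (Real.exp_pos _) hκ2
      have e2 : 2 / η * Real.exp η ≤ Real.exp (η * n) := by
        rw [div_le_iff₀ hη0] at hn1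
        have e3 : 2 / η = Real.exp (Real.log (2 / η)) := (Real.exp_log (by positivity)).symm
        rw [e3, ← Real.exp_add, Real.exp_le_exp]
        linarith
      calc 2 / η * κ⁻¹ * (L + 4) ^ n ≤
          2 / η * Real.exp (-((b0 - η) * n)) * (L ^ n * Real.exp η) := by gcongr
        _ = L ^ n * ((2 / η * Real.exp η) * Real.exp (-((b0 - η) * n))) := by ring
        _ ≤ L ^ n * (Real.exp (η * n) * Real.exp (-((b0 - η) * n))) := by gcongr
        _ = L ^ n * Real.exp (-((b0 - 2 * η) * n)) := by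
            rw [← Real.exp_add]
            congr 2
            ring
    have hm0 : 0 ≤ m₀ := by
      rw [hm₀']
      positivity
    rw [div_le_iff₀ (by positivity)]
    refine hmain.trans ?_
    have e5 : (L ^ n) ^ k = (L ^ n) ^ q * (L ^ n) ^ (k - q) := by
      rw [← pow_add]
      congr 1
      omega
    have e6 : m₀ ^ (k - q) ≤ (L ^ n) ^ (k - q) * Real.exp (-((b0 - 2 * η) * n * (k - q))) := by
      calc m₀ ^ (k - q) ≤ (L ^ n * Real.exp (-((b0 - 2 * η) * n))) ^ (k - q) :=
            pow_le_pow_left₀ hm0 hm1 _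
        _ = (L ^ n) ^ (k - q) * Real.exp (-((b0 - 2 * η) * n * (k - q))) := by
            rw [mul_pow, ← Real.exp_nat_mul, Nat.cast_sub hqk]
            congr 2
            ring
    have e7 : (2 : ℝ) ^ k = Real.exp (Real.log 2 * k) := by
      rw [mul_comm, Real.exp_nat_mul, Real.exp_log (by norm_num)]
    calc 2 ^ k * ((L ^ n) ^ q * m₀ ^ (k - q)) ≤
        2 ^ k * ((L ^ n) ^ q * ((L ^ n) ^ (k - q) * Real.exp (-((b0 - 2 * η) * n * (k - q))))) := by
          gcongr
      _ = (Real.exp (Real.log 2 * k) * Real.exp (-((b0 - 2 * η) * n * (k - q)))) * (L ^ n) ^ k := by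
          rw [e5, e7]
          ring
      _ ≤ Real.exp (-((b0 - 8 * η) * n * (k - (b0 + 8 * η) * n * T))) * (L ^ n) ^ k := by
          refine mul_le_mul_of_nonneg_right ?_ (by positivity)
          rw [← Real.exp_add, Real.exp_le_exp]
          obtain ⟨x, hx⟩ : ∃ x : ℝ, x = n * T := ⟨_, rfl⟩
          have hx0 : 0 < x := by rw [hx]; positivity
          have f1 : (q : ℝ) ≤ (b0 + 4 * η) * x := by rw [hx]; linarith
          have f2 : (b0 + 8 * η) * x < k := by rw [hx]; linarith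
          have f3 : (b0 + 8 * η) * n * T = (b0 + 8 * η) * x := by rw [hx]; ring
          rw [f3]
          have hk0 : (0 : ℝ) < k := lt_trans (by positivity) f2
          have f4 : (b0 - 2 * η) * ((b0 + 4 * η) * x) ≥ (b0 - 2 * η) * q :=
            mul_le_mul_of_nonneg_left f1 (by linarith)
          have f5 : (2 * η * b0 + 56 * η ^ 2) * x ≤ 9 / 2 * η * k := by
            have g1 : 9 / 2 * η * ((b0 + 8 * η) * x) ≤ 9 / 2 * η * k := by
              gcongr
            have g2 : 2 * η * b0 + 56 * η ^ 2 ≤ 9 / 2 * η * (b0 + 8 * η) := by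
              nlinarith
            have g3 : (2 * η * b0 + 56 * η ^ 2) * x ≤ 9 / 2 * η * (b0 + 8 * η) * x :=
              mul_le_mul_of_nonneg_right g2 hx0.le
            linarith
          have f6 : Real.log 2 * k ≤ n * (3 / 2 * η * k) := by
            rw [div_le_iff₀ hη0] at hn2
            have g1 := Real.log_two_lt_d9
            nlinarith
          have f7 : 0 ≤ 9 / 2 * η * k - (2 * η * b0 + 56 * η ^ 2) * x := by linarith
          have f8 : (b0 - 2 * η) * (k - q) - (b0 - 8 * η) * (k - (b0 + 8 * η) * x) ≥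
              3 / 2 * η * k := by nlinarith
          nlinarith [mul_le_mul_of_nonneg_left f8 hn0.le]

end Pool.Agent.N628.EP
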