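import Pool.Agent.N628.EP.H1

/-!
N628/EP: the density of the hard sphere model at exponential fugacity.
-/

set_option autoImplicit false

open MeasureTheory Set Real Metric Filter Topology

namespace Pool.Agent.N628.EP

open Pool.Agent.Y509.LS
open Pool.Agent.H818R2 (rho Sep)

variable {n : ℕ} {L lam : ℝ}

/-- the density of the hard sphere model -/
noncomputable def hsD (n : ℕ) (L lam : ℝ) : ℝ := V1 n * hsM n L lam / L ^ n

/-- the fugacity `2^(κ n) / v_n` -/
noncomputable def fug (n : ℕ) (κ : ℝ) : ℝ := (2 : ℝ) ^ (κ * n) / V1 n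

lemma fug_pos (n : ℕ) (κ : ℝ) : 0 < fug n κ := div_pos (by positivity) (V1_pos n)

lemma ev_lin (c : ℝ) : ∀ᶠ n : ℕ in atTop, c ≤ n :=
  (tendsto_natCast_atTop_atTop.eventually_ge_atTop c)

lemma hsM_le_of_rare (hn : 0 < n) (hL : 0 < L) {x κ : ℝ} (hx : 0 < x) (hxb : x < b0)
    (h : ∀ k : ℕ, volume.real (conf n k L) / (L ^ n) ^ k ≤
      Real.exp (-((b0 - x) * n * (k - (b0 + x) * n * TT n L)))) :
    hsM n L (fug n κ) ≤ (b0 + x) * n ^ 2 * TT n L +
      Real.exp 4 * (fug n κ * L ^ n * Real.exp (-((b0 - x) * n))) + 2 := by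
  have hlam := fug_pos n κ
  have hV := V1_pos n
  have hLn : 0 < L ^ n := by positivity
  have hn0 : (0 : ℝ) < n := by exact_mod_cast hn
  have hb := b0_pos
  have hb' := b0_lt
  obtain ⟨lam, hlamdef⟩ : ∃ lam, lam = fug n κ := ⟨_, rfl⟩
  rw [← hlamdef] at hlam ⊢
  obtain ⟨Y, hY⟩ : ∃ Y : ℝ, Y = lam * L ^ n * Real.exp (-((b0 - x) * n)) := ⟨_, rfl⟩
  have hY0 : 0 < Y := by rw [hY]; positivity
  obtain ⟨Q, hQ⟩ : ∃ Q : ℝ, Q = (b0 + x) * n * TT n L := ⟨_, rfl⟩
  have hT0 : 0 < TT n L := by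
    unfold TT
    positivity
  have hQ0 : 0 < Q := by rw [hQ]; positivity
  have e1 : (b0 + x) * n ^ 2 * TT n L = n * Q := by rw [hQ]; ring
  rw [e1, ← hY]
  refine hsM_upper hL hlam.le (by positivity) fun k hk => ?_
  have hkpos : (0 : ℝ) < k := lt_trans (by positivity) hk
  have hk1 : n * Q < k := lt_of_le_of_lt (by
    have : 0 ≤ Real.exp 4 * Y := by positivity
    linarith) hk
  have hk2 : Real.exp 4 * Y < k := lt_of_le_of_lt (by
    have : 0 ≤ n * Q := by positivity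
    linarith) hk
  have h1 := h k
  rw [div_le_iff₀ (by positivity)] at h1
  have h2 : ut n L lam k ≤ (Real.exp (-3)) ^ k * Real.exp (k / 2) := by
    unfold ut
    have hkf : (0 : ℝ) < k.factorial := by exact_mod_cast Nat.factorial_pos k
    have h3 : (k : ℝ) ^ k / k.factorial ≤ Real.exp k := Real.pow_div_factorial_le_exp _ hkpos.le k
    calc lam ^ k / k.factorial * volume.real (conf n k L) ≤
        lam ^ k / k.factorial * (Real.exp (-((b0 - x) * n * (k - (b0 + x) * n * TT n L))) *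
          (L ^ n) ^ k) := by gcongr
      _ = Y ^ k / k.factorial * Real.exp ((b0 - x) * (n * Q)) := by
          rw [hY, mul_pow, mul_pow, ← Real.exp_nat_mul, ← hQ]
          have h4 : Real.exp (-((b0 - x) * n * (k - Q))) =
              Real.exp (k * (-((b0 - x) * n))) * Real.exp ((b0 - x) * (n * Q)) := by
            rw [← Real.exp_add]
            congr 1
            ring
          rw [h4]
          ring
      _ = (Y / k) ^ k * ((k : ℝ) ^ k / k.factorial) * Real.exp ((b0 - x) * (n * Q)) := by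
          rw [div_pow]
          field_simp
      _ ≤ (Y / k) ^ k * Real.exp k * Real.exp (k / 2) := by
          gcongr
          have h5 : 0 < n * Q := by positivity
          nlinarith
      _ ≤ (Real.exp (-4)) ^ k * Real.exp k * Real.exp (k / 2) := by
          gcongr
          rw [Real.exp_neg, div_le_iff₀ hkpos, ← div_eq_inv_mul, le_div_iff₀ (Real.exp_pos _)]
          linarith
      _ = (Real.exp (-3)) ^ k * Real.exp (k / 2) := by
          congr 1
          rw [← Real.exp_nat_mul, ← Real.exp_nat_mul, ← Real.exp_add]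
          congr 1
          ring
  have h3 : (k : ℝ) ≤ 2 ^ k := by exact_mod_cast Nat.lt_two_pow_self.le
  calc (k : ℝ) * ut n L lam k ≤ 2 ^ k * ((Real.exp (-3)) ^ k * Real.exp (k / 2)) := by
        have := ut_nonneg (n := n) (L := L) hlam.le k
        gcongr
    _ ≤ 2 ^ k * ((Real.exp (-3)) ^ k * (Real.exp 1) ^ k) := by
        rw [← Real.exp_nat_mul 1 k]
        gcongr
        linarith
    _ = (2 * (Real.exp (-3) * Real.exp 1)) ^ k := by rw [mul_pow, mul_pow]
    _ ≤ (1 / 2) ^ k := by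
        refine pow_le_pow_left₀ (by positivity) ?_ k
        rw [← Real.exp_add]
        have h4 : Real.exp (-3 + 1) = (Real.exp 1 ^ 2)⁻¹ := by
          rw [← Real.exp_nat_mul, ← Real.exp_neg]
          congr 1
          push_cast
          ring
        rw [h4]
        have h5 : 2 ≤ Real.exp 1 := by
          have := Real.add_one_le_exp (1 : ℝ)
          linarith
        have h6 : (4 : ℝ) ≤ Real.exp 1 ^ 2 := by nlinarith
        rw [← div_eq_mul_inv, div_le_div_iff₀ (by positivity) (by norm_num)]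
        linarith

/-- `(1 / 2) log_2 (e / 2)` -/
noncomputable def be : ℝ := 1 / 2 * Real.logb 2 (Real.exp 1 / 2)

lemma be_eq : be * Real.log 2 = b0 := by
  unfold be b0 Real.logb
  rw [Real.log_div (Real.exp_pos 1).ne' (by norm_num), Real.log_exp]
  have : Real.log 2 ≠ 0 := (Real.log_pos (by norm_num)).ne'
  field_simp

lemma poly_ev (a : ℝ) (m : ℕ) {b : ℝ} (hb : 0 < b) :
    ∀ᶠ n : ℕ in atTop, a * (n : ℝ) ^ m ≤ Real.exp (b * n) := by
  filter_upwards [poly_exp a b hb m one_pos] with n hn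
  have h1 := mul_le_mul_of_nonneg_right hn (Real.exp_pos (b * n)).le
  rw [one_mul, mul_assoc, ← Real.exp_add, neg_add_cancel, Real.exp_zero, mul_one] at h1
  exact h1

lemma two_rpow (y : ℝ) : (2 : ℝ) ^ y = Real.exp (Real.log 2 * y) :=
  Real.rpow_def_of_pos (by norm_num) y

/-- **upper bound for the density of the hard sphere model** -/
theorem hs_upper (κ : ℝ) {ε : ℝ} (hε : 0 < ε) : ∀ᶠ n : ℕ in atTop, ∀ L : ℝ, (n : ℝ) ^ 2 ≤ L →
    hsD n L (fug n κ) ≤ (2 : ℝ) ^ (-((min 1 (be - κ) - ε) * n)) := by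
  have hb := b0_pos
  have hb' := b0_lt
  have hl2 : 0 < Real.log 2 := Real.log_pos (by norm_num)
  obtain ⟨x, hx⟩ : ∃ x : ℝ, x = min (ε * Real.log 2 / 4) (b0 / 2) := ⟨_, rfl⟩
  have hx0 : 0 < x := by rw [hx]; positivity
  have hxb : x < b0 := by
    have : x ≤ b0 / 2 := by rw [hx]; exact min_le_right _ _
    linarith
  have hxe : x ≤ ε * Real.log 2 / 4 := by rw [hx]; exact min_le_left _ _
  have hε2 : 0 < ε * Real.log 2 / 4 := by positivity
  filter_upwards [rare hx0 hxb, eventually_gt_atTop 36, poly_ev 6 2 hε2, poly_ev (2 * Real.exp 4) 0 hε2]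
    with n hrare hn36 hp1 hp2 L hL
  have hn : 0 < n := by omega
  have hn' : (36 : ℝ) < n := by exact_mod_cast hn36
  have hn0 : (0 : ℝ) < n := by linarith
  have hL0 : 0 < L := lt_of_lt_of_le (by positivity) hL
  have hV := V1_pos n
  have hLn : 0 < L ^ n := by positivity
  have h1 := hsM_le_of_rare (κ := κ) hn hL0 hx0 hxb (hrare L hL)
  obtain ⟨T, hT⟩ : ∃ T : ℝ, T = TT n L := ⟨_, rfl⟩
  have hTn : (n : ℝ) ≤ T := by rw [hT]; exact TT_large hn36 hL
  have hT0 : 0 < T := by linarith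
  have hTL : T * (2 ^ n * V1 n) = L ^ n := by
    rw [hT]
    unfold TT
    field_simp
  rw [← hT] at h1
  obtain ⟨m, hm⟩ : ∃ m : ℝ, m = min 1 (be - κ) := ⟨_, rfl⟩
  have hm1 : m ≤ 1 := by rw [hm]; exact min_le_left _ _
  have hm2 : m ≤ be - κ := by rw [hm]; exact min_le_right _ _
  rw [← hm]
  unfold hsD
  have h2 : V1 n * hsM n L (fug n κ) / L ^ n ≤ V1 n * ((b0 + x) * n ^ 2 * T +
      Real.exp 4 * (fug n κ * L ^ n * Real.exp (-((b0 - x) * n))) + 2) / L ^ n := by gcongr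
  refine h2.trans ?_
  have h3 : V1 n * ((b0 + x) * n ^ 2 * T +
      Real.exp 4 * (fug n κ * L ^ n * Real.exp (-((b0 - x) * n))) + 2) / L ^ n =
      (b0 + x) * n ^ 2 * (1 / 2 ^ n) + Real.exp 4 * ((2 : ℝ) ^ (κ * n) * Real.exp (-((b0 - x) * n))) +
        2 / (2 ^ n * T) := by
    rw [← hTL]
    unfold fug
    field_simp
  rw [h3]
  have h4 : (1 : ℝ) / 2 ^ n ≤ (2 : ℝ) ^ (-(m * n)) := by
    rw [one_div, ← Real.rpow_natCast, ← Real.rpow_neg (by norm_num)]
    refine Real.rpow_le_rpow_of_exponent_le (by norm_num) ?_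
    have : m * n ≤ 1 * n := by gcongr
    linarith
  have h5 : (2 : ℝ) ^ (κ * n) * Real.exp (-((b0 - x) * n)) ≤ (2 : ℝ) ^ (-(m * n)) * Real.exp (x * n) := by
    rw [two_rpow, two_rpow, ← Real.exp_add, ← Real.exp_add, Real.exp_le_exp, ← be_eq]
    have : Real.log 2 * (m * n) ≤ Real.log 2 * ((be - κ) * n) := by gcongr
    nlinarith
  have h6 : 2 / (2 ^ n * T) ≤ 2 * (2 : ℝ) ^ (-(m * n)) := by
    calc 2 / (2 ^ n * T) ≤ 2 / (2 ^ n * 1) := by
          gcongr
          linarith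
      _ = 2 * (1 / 2 ^ n) := by ring
      _ ≤ _ := by gcongr
  obtain ⟨z, hz⟩ : ∃ z : ℝ, z = (2 : ℝ) ^ (-(m * n)) := ⟨_, rfl⟩
  rw [← hz] at h4 h5 h6
  have hz0 : 0 < z := by rw [hz]; positivity
  have h7 : (2 : ℝ) ^ (-((m - ε) * n)) = z * Real.exp (ε * Real.log 2 * n) := by
    rw [hz, two_rpow, two_rpow, ← Real.exp_add]
    congr 1
    ring
  rw [h7]
  rw [pow_zero, mul_one] at hp2
  have h8 : (1 : ℝ) ≤ n ^ 2 := by nlinarith
  have h9 : (b0 + x) * n ^ 2 * (1 / 2 ^ n) ≤ n ^ 2 * z := by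
    calc (b0 + x) * n ^ 2 * (1 / 2 ^ n) ≤ 1 * n ^ 2 * z := by
          gcongr
          linarith
      _ = n ^ 2 * z := by ring
  have h10 : Real.exp (x * n) ≤ Real.exp (ε * Real.log 2 / 4 * n) := by
    rw [Real.exp_le_exp]
    gcongr
  obtain ⟨w, hw⟩ : ∃ w : ℝ, w = Real.exp (ε * Real.log 2 / 4 * n) := ⟨_, rfl⟩
  rw [← hw] at hp1 hp2 h10
  have hw1 : 1 ≤ w := by nlinarith
  have h11 : Real.exp (ε * Real.log 2 * n) = w ^ 4 := by
    rw [hw, ← Real.exp_nat_mul]
    congr 1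
    push_cast
    ring
  rw [h11]
  have h12 : Real.exp 4 * ((2 : ℝ) ^ (κ * n) * Real.exp (-((b0 - x) * n))) ≤ w / 2 * (z * w) := by
    calc Real.exp 4 * ((2 : ℝ) ^ (κ * n) * Real.exp (-((b0 - x) * n))) ≤
        w / 2 * (z * Real.exp (x * n)) := by
          gcongr
          linarith
      _ ≤ w / 2 * (z * w) := by gcongr
  have h13 : w ≤ w ^ 4 := by
    calc w = w ^ 1 := (pow_one w).symm
      _ ≤ w ^ 4 := pow_le_pow_right₀ hw1 (by norm_num)
  have h14 : w ^ 2 ≤ w ^ 4 := pow_le_pow_right₀ hw1 (by norm_num)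
  have h15 : n ^ 2 * z + w / 2 * (z * w) + 2 * z ≤ z * w ^ 4 := by
    have h16 : (n : ℝ) ^ 2 + 2 ≤ w / 2 := by linarith
    have h17 : (n : ℝ) ^ 2 * z + 2 * z ≤ w / 2 * z := by nlinarith
    nlinarith
  linarith

end Pool.Agent.N628.EP
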