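import Pool.Agent.N628.EP.G3
import Pool.Agent.N628.EP.M1

/-!
N628/EP: the refined rarity of packings.
-/

set_option autoImplicit false

open MeasureTheory Set Real Metric Filter Topology

namespace Pool.Agent.N628.EP

open Pool.Agent.Y509.LS

variable {n : ℕ}

lemma sup_single (hn : 0 < n) {r : ℝ} (hr : 0 < r) : Sup n r (2 * (r * √(4 * π / n)) ^ n) 1 := by
  intro S Ω hS hΩ hΩb hSΩ hΩ0
  rw [one_mul]
  exact supersat hn hr hS hΩ hΩb hSΩ hΩ0

lemma setup1 {η : ℝ} (hη0 : 0 < η) (hη1 : η < 1 / 16) : ∀ᶠ n : ℕ in atTop, ∀ L : ℝ,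
    (n : ℝ) ^ 2 ≤ L → ∃ r m₀ b : ℝ, 0 < r ∧ r < 2 ∧
      m₀ = (2 * (r * √(4 * π / n)) ^ n) * (L + 4) ^ n / (η * (r ^ n * V1 n)) ∧
      b = (1 - η) * (r ^ n * V1 n) / (1 * (L + 4) ^ n) ∧ 0 < b ∧ b ≤ 1 ∧
      1 - 3 * η ≤ b * TT n L ∧ m₀ ≤ L ^ n * Real.exp (-((b0 - 2 * η) * n)) := by
  have hb := b0_pos
  have hb' := b0_lt
  have hW := W_low (η := η) hη0
  filter_upwards [hW, ev_lin ((Real.log (2 / η) + 1) / η), ev_lin (4 / η),
    eventually_gt_atTop 36] with n hWn hn1 hn2 hn36 L hL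
  have hn : 0 < n := by omega
  have hn' : (36 : ℝ) < n := by exact_mod_cast hn36
  have hn0 : (0 : ℝ) < n := by linarith
  have hL0 : 0 < L := lt_of_lt_of_le (by positivity) hL
  obtain ⟨T, hT⟩ : ∃ T : ℝ, T = TT n L := ⟨_, rfl⟩
  have hTn : (n : ℝ) ≤ T := by rw [hT]; exact TT_large hn36 hL
  have hT0 : 0 < T := by linarith
  have hV := V1_pos n
  have h2V : (0 : ℝ) < 2 ^ n * V1 n := by positivity
  have hTL : T * (2 ^ n * V1 n) = L ^ n := by
    rw [hT]
    unfold TT
    field_simp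
  rw [← hT]
  have hLn : 0 < L ^ n := by positivity
  have h4n : 4 / (n : ℝ) ≤ η := by
    rw [div_le_iff₀ hη0] at hn2
    rw [div_le_iff₀ hn0]
    linarith
  obtain ⟨r, hr⟩ : ∃ r : ℝ, r = 2 * Real.exp (-(η / n)) := ⟨_, rfl⟩
  have hr0 : 0 < r := by rw [hr]; positivity
  have hr2 : r < 2 := by
    rw [hr]
    have : Real.exp (-(η / n)) < 1 := by
      rw [Real.exp_lt_one_iff]
      have : 0 < η / n := by positivity
      linarith
    linarith
  have hrn : r ^ n = 2 ^ n * Real.exp (-η) := by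
    rw [hr, mul_pow, ← Real.exp_nat_mul]
    congr 2
    field_simp
  have hL4 : (L + 4) ^ n ≤ L ^ n * Real.exp η := by
    refine (cube_enlarge hn hL (by norm_num)).trans ?_
    gcongr
  have hLle : L ^ n ≤ (L + 4) ^ n := pow_le_pow_left₀ hL0.le (by linarith) n
  obtain ⟨b, hbdef⟩ : ∃ b : ℝ, b = (1 - η) * (r ^ n * V1 n) / (L + 4) ^ n := ⟨_, rfl⟩
  have hL4p : 0 < (L + 4) ^ n := by positivity
  have hb0' : 0 < b := by
    rw [hbdef]
    have : 0 < 1 - η := by linarith
    positivity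
  have hb1 : b ≤ 1 := by
    rw [hbdef, div_le_one hL4p]
    calc (1 - η) * (r ^ n * V1 n) ≤ 1 * ((2 ^ n * 1) * V1 n) := by
          rw [hrn]
          gcongr
          · linarith
          · rw [Real.exp_le_one_iff]; linarith
      _ = 1 * (2 ^ n * V1 n) := by ring
      _ ≤ T * (2 ^ n * V1 n) := by gcongr; linarith
      _ = L ^ n := hTL
      _ ≤ (L + 4) ^ n := hLle
  have hbT : (1 - 3 * η) ≤ b * T := by
    have e1 : Real.exp (-(2 * η)) ≥ 1 - 2 * η := by
      have := Real.add_one_le_exp (-(2 * η))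
      linarith
    have e2 : (1 - 3 * η) ≤ (1 - η) * Real.exp (-(2 * η)) := by nlinarith
    have e3 : (1 - η) * Real.exp (-(2 * η)) * (L + 4) ^ n ≤ (1 - η) * (r ^ n * V1 n) * T := by
      calc (1 - η) * Real.exp (-(2 * η)) * (L + 4) ^ n ≤
          (1 - η) * Real.exp (-(2 * η)) * (L ^ n * Real.exp η) := by
            have : 0 < 1 - η := by linarith
            gcongr
        _ = (1 - η) * ((Real.exp (-(2 * η)) * Real.exp η) * L ^ n) := by ring
        _ = (1 - η) * (r ^ n * V1 n) * T := by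
            rw [← Real.exp_add, hrn, ← hTL]
            have : -(2 * η) + η = -η := by ring
            rw [this]
            ring
    have e4 : (1 - η) * Real.exp (-(2 * η)) ≤ b * T := by
      rw [hbdef, div_mul_eq_mul_div, le_div_iff₀ hL4p]
      exact e3
    linarith
  obtain ⟨κ, hκ⟩ : ∃ κ : ℝ, κ = √(n / (4 * π)) ^ n * V1 n := ⟨_, rfl⟩
  have hκ0 : 0 < κ := by rw [hκ]; positivity
  have hsq : √(4 * π / n) ^ n = (√(n / (4 * π)) ^ n)⁻¹ := by
    rw [← inv_pow, ← Real.sqrt_inv, inv_div]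
  obtain ⟨m₀, hm₀⟩ : ∃ m₀ : ℝ, m₀ = (2 * (r * √(4 * π / n)) ^ n) * (L + 4) ^ n /
    (η * (r ^ n * V1 n)) := ⟨_, rfl⟩
  have hm₀' : m₀ = 2 / η * κ⁻¹ * (L + 4) ^ n := by
    rw [hm₀, mul_pow, hsq, hκ]
    have : 0 < r ^ n := by positivity
    field_simp
  have hκ2 : Real.exp ((b0 - η) * n) ≤ κ := by
    rw [hκ]
    refine le_trans (le_of_eq ?_) hWn
    unfold b0
    congr 1
    ring
  refine ⟨r, m₀, b, hr0, hr2, hm₀, by rw [hbdef, one_mul], hb0', hb1, hbT, ?_⟩
  rw [hm₀']
  have e1 : κ⁻¹ ≤ Real.exp (-((b0 - η) * n)) := by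
    rw [Real.exp_neg]
    exact inv_anti₀ (Real.exp_pos _) hκ2
  have e2 : 2 / η * Real.exp η ≤ Real.exp (η * n) := by
    rw [div_le_iff₀ hη0] at hn1
    have e3 : 2 / η = Real.exp (Real.log (2 / η)) := (Real.exp_log (by positivity)).symm
    rw [e3, ← Real.exp_add, Real.exp_le_exp]
    linarith
  calc 2 / η * κ⁻¹ * (L + 4) ^ n ≤
      2 / η * Real.exp (-((b0 - η) * n)) * (L ^ n * Real.exp η) := by gcongr
    _ = L ^ n * ((2 / η * Real.exp η) * Real.exp (-((b0 - η) * n))) := by ring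
    _ ≤ L ^ n * (Real.exp (η * n) * Real.exp (-((b0 - η) * n))) := by gcongr
    _ = L ^ n * Real.exp (-((b0 - 2 * η) * n)) := by
        rw [← Real.exp_add]
        congr 2
        ring

lemma sum_choose_le (q k : ℕ) : ∑ j ∈ Finset.range (q + 1), (k.choose j : ℝ) ≤ 2 ^ k := by
  have h1 : ∑ j ∈ Finset.range (q + 1), k.choose j ≤ ∑ j ∈ Finset.range (k + 1), k.choose j := by
    refine Finset.sum_le_sum_of_ne_zero fun j _ hj => ?_
    rw [Finset.mem_range]
    by_contra h2
    exact hj (Nat.choose_eq_zero_of_lt (by omega))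
  rw [Nat.sum_range_choose] at h1
  exact_mod_cast h1

/-- **the entropy of packings, upper bound** -/
theorem rare3 {ε : ℝ} (hε : 0 < ε) (hεb : ε < b0) : ∀ᶠ n : ℕ in atTop, ∀ L : ℝ, (n : ℝ) ^ 2 ≤ L →
    ∀ v : ℝ, 0 ≤ v → v ≤ b0 - ε → ∀ k : ℕ, volume.real (conf n k L) / (L ^ n) ^ k ≤
      Real.exp (-(n * (v * k - 1 / 2 * (v ^ 2 + ε) * n * TT n L))) := by
  have hbp := b0_pos
  have hbp' := b0_lt
  obtain ⟨η, hη⟩ : ∃ η : ℝ, η = ε / 10 := ⟨_, rfl⟩
  have hεη : ε = 10 * η := by rw [hη]; ring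
  have hη0 : 0 < η := by rw [hη]; positivity
  have hη1 : η < 1 / 16 := by linarith
  filter_upwards [setup1 hη0 hη1, ev_lin (4 / η), eventually_gt_atTop 36]
    with n hset hn2 hn36 L hL v hv0 hv k
  have hn : 0 < n := by omega
  have hn' : (36 : ℝ) < n := by exact_mod_cast hn36
  have hn0 : (0 : ℝ) < n := by linarith
  have hL0 : 0 < L := lt_of_lt_of_le (by positivity) hL
  obtain ⟨r, m₀, b, hr, hr2, hm₀, hb, hbpos, hb1, hbT, hm2⟩ := hset L hL
  obtain ⟨T, hT⟩ : ∃ T : ℝ, T = TT n L := ⟨_, rfl⟩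
  have hTn : (n : ℝ) ≤ T := by rw [hT]; exact TT_large hn36 hL
  have hT0 : 0 < T := by linarith
  rw [← hT] at hbT ⊢
  have hLn : 0 < L ^ n := by positivity
  rw [div_le_iff₀ hη0] at hn2
  obtain ⟨w, hw⟩ : ∃ w : ℝ, w = v + 2 / n := ⟨_, rfl⟩
  have h2n : 2 / (n : ℝ) ≤ η / 2 := by
    rw [div_le_iff₀ hn0]
    linarith
  have h2n0 : 0 < 2 / (n : ℝ) := by positivity
  have hw0 : 0 < w := by rw [hw]; linarith
  have hwb : w ≤ b0 - 9 * η := by rw [hw]; linarith
  have hwn : w * n = v * n + 2 := by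
    rw [hw]
    field_simp
  obtain ⟨m, hm⟩ : ∃ m : ℝ, m = L ^ n * Real.exp (-(w * n)) := ⟨_, rfl⟩
  have hm0m : m₀ < m := by
    refine lt_of_le_of_lt hm2 ?_
    rw [hm]
    gcongr
    linarith
  obtain ⟨q, hq⟩ : ∃ q : ℕ, q = ⌈(w * n + 1) / b⌉₊ := ⟨_, rfl⟩
  have hqb : w * n + 1 ≤ b * q := by
    have := Nat.le_ceil ((w * n + 1) / b)
    rw [← hq, div_le_iff₀ hbpos] at this
    linarith
  have hlow : L ^ n * (1 - b) ^ q < m := by
    rw [hm]
    have e1 : (1 - b) ^ q ≤ Real.exp (-(b * q)) := by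
      calc (1 - b) ^ q ≤ Real.exp (-b) ^ q := by
            refine pow_le_pow_left₀ (by linarith) ?_ q
            have := Real.add_one_le_exp (-b)
            linarith
        _ = Real.exp (-(b * q)) := by rw [← Real.exp_nat_mul]; congr 1; ring
    have e2 : Real.exp (-(b * q)) < Real.exp (-(w * n)) := by
      rw [Real.exp_lt_exp]
      linarith
    have e3 := lt_of_le_of_lt e1 e2
    gcongr
  have hmain := conf_main3 hn one_pos (by positivity) (sup_single hn hr) hr hr2 hL0 hη0 hm₀ hb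
    hbpos.le hb1 hm0m hlow (k := k)
  rw [div_le_iff₀ (by positivity)]
  refine hmain.trans ?_
  have hterm : ∀ j ∈ Finset.range (q + 1), (k.choose j : ℝ) *
      ((L ^ n) ^ j * (1 - b) ^ (j * (j - 1) / 2) * m ^ (k - j)) ≤
      k.choose j * (Real.exp (-(w * n * k) + w ^ 2 * n ^ 2 / (2 * b) + k / 2) * (L ^ n) ^ k) := by
    intro j _
    rcases Nat.lt_or_ge k j with hjk | hjk
    · rw [Nat.choose_eq_zero_of_lt hjk]
      simp
    · refine mul_le_mul_of_nonneg_left ?_ (by positivity)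
      have e1 : (L ^ n) ^ k = (L ^ n) ^ j * (L ^ n) ^ (k - j) := by
        rw [← pow_add]
        congr 1
        omega
      have hjk' : (j : ℝ) ≤ k := by exact_mod_cast hjk
      have e2 : m ^ (k - j) = (L ^ n) ^ (k - j) * Real.exp (-(w * n * (k - j))) := by
        rw [hm, mul_pow, ← Real.exp_nat_mul, Nat.cast_sub hjk]
        congr 2
        ring
      have e3 : (1 - b) ^ (j * (j - 1) / 2) ≤ Real.exp (-(b * (j * (j - 1) / 2))) := by
        have e4 : ((j * (j - 1) / 2 : ℕ) : ℝ) = j * (j - 1) / 2 := by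
          rw [← Nat.choose_two_right, Nat.cast_choose_two]
        calc (1 - b) ^ (j * (j - 1) / 2) ≤ Real.exp (-b) ^ (j * (j - 1) / 2) := by
              refine pow_le_pow_left₀ (by linarith) ?_ _
              have := Real.add_one_le_exp (-b)
              linarith
          _ = Real.exp (-(b * (j * (j - 1) / 2))) := by
              rw [← Real.exp_nat_mul, e4]
              congr 1
              ring
      calc (L ^ n) ^ j * (1 - b) ^ (j * (j - 1) / 2) * m ^ (k - j) ≤
          (L ^ n) ^ j * Real.exp (-(b * (j * (j - 1) / 2))) *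
            ((L ^ n) ^ (k - j) * Real.exp (-(w * n * (k - j)))) := by
            rw [e2]
            gcongr
        _ = Real.exp (-(b * (j * (j - 1) / 2)) + -(w * n * (k - j))) * (L ^ n) ^ k := by
            rw [e1, Real.exp_add]
            ring
        _ ≤ _ := by
            refine mul_le_mul_of_nonneg_right ?_ (by positivity)
            rw [Real.exp_le_exp]
            have f1 : w * n * j ≤ w ^ 2 * n ^ 2 / (2 * b) + b * j ^ 2 / 2 := by
              rw [div_add_div _ _ (by positivity) (by norm_num), le_div_iff₀ (by positivity)]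
              nlinarith [sq_nonneg (w * n - b * j)]
            have f2 : b * j ≤ k := by
              have : b * j ≤ 1 * j := by gcongr
              linarith
            nlinarith
  refine (Finset.sum_le_sum hterm).trans ?_
  rw [← Finset.sum_mul, ← mul_assoc]
  refine mul_le_mul_of_nonneg_right ?_ (by positivity)
  have e7 : (2 : ℝ) ^ k = Real.exp (Real.log 2 * k) := by
    rw [mul_comm, Real.exp_nat_mul, Real.exp_log (by norm_num)]
  calc (∑ j ∈ Finset.range (q + 1), (k.choose j : ℝ)) *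
        Real.exp (-(w * n * k) + w ^ 2 * n ^ 2 / (2 * b) + k / 2) ≤
      2 ^ k * Real.exp (-(w * n * k) + w ^ 2 * n ^ 2 / (2 * b) + k / 2) := by
        gcongr
        exact sum_choose_le q k
    _ = Real.exp (Real.log 2 * k + (-(w * n * k) + w ^ 2 * n ^ 2 / (2 * b) + k / 2)) := by
        rw [e7, ← Real.exp_add]
    _ ≤ _ := by
        rw [Real.exp_le_exp, hwn]
        have hk0 : (0 : ℝ) ≤ k := Nat.cast_nonneg k
        have f1 : Real.log 2 * k ≤ k := by
          have := Real.log_two_lt_d9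
          nlinarith
        have f2 : w ^ 2 * n ^ 2 / (2 * b) ≤ 1 / 2 * (v ^ 2 + ε) * n ^ 2 * T := by
          rw [div_le_iff₀ (by positivity)]
          have f3 : w ^ 2 ≤ (v ^ 2 + ε) * (1 - 3 * η) := by
            have g1 : w ≤ v + η / 2 := by rw [hw]; linarith
            have g2 : w ^ 2 ≤ (v + η / 2) ^ 2 := by gcongr
            have g3 : v ≤ 1 / 2 := by linarith
            rw [hεη]
            have g4 : η * v ≤ η * (1 / 2) := by gcongr
            have g5 : η * η ≤ η * (1 / 16) := by gcongr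
            have g6 : v ^ 2 ≤ (1 / 2) ^ 2 := by gcongr
            have g7 : η * v ^ 2 ≤ η * (1 / 2) ^ 2 := by gcongr
            have g8 : (v + η / 2) ^ 2 = v ^ 2 + η * v + η * η / 4 := by ring
            have g9 : (v ^ 2 + 10 * η) * (1 - 3 * η) =
              v ^ 2 + 10 * η - 3 * (η * v ^ 2) - 30 * (η * η) := by ring
            rw [g8] at g2
            rw [g9]
            linarith
          have f4 : 0 ≤ (v ^ 2 + ε) := by positivity
          have f5 : w ^ 2 ≤ (v ^ 2 + ε) * (b * T) := f3.trans (mul_le_mul_of_nonneg_left hbT f4)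
          have f6 := mul_le_mul_of_nonneg_right f5 (by positivity : (0 : ℝ) ≤ n ^ 2)
          nlinarith
        nlinarith

end Pool.Agent.N628.EP
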