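import Pool.Agent.N628.EP.F1
import Pool.Agent.Y509.LS.K12
import Pool.Agent.Y509.LS.B2

/-!
N628/EP: the Fourier transform of the indicator function of a ball.
-/

set_option autoImplicit false

open MeasureTheory Set Real FourierTransform Metric

open scoped RealInnerProductSpace

namespace Pool.Agent.N628.EP

open Pool.Agent.Y509.LS

/-- splitting off the first coordinate -/
noncomputable def spl (n : ℕ) (p : ℝ × E n) : E (n + 1) :=
  WithLp.toLp 2 (Fin.cons p.1 (WithLp.ofLp p.2) : Fin (n + 1) → ℝ)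

lemma spl_mp (n : ℕ) : MeasurePreserving (spl n) volume volume := by
  have h0 : MeasurePreserving
      (fun p : ℝ × (Fin n → ℝ) => (Fin.cons p.1 p.2 : Fin (n + 1) → ℝ)) volume volume := by
    have h := (volume_preserving_piFinSuccAbove (fun _ : Fin (n + 1) => ℝ) 0).symm
    have e : (fun p : ℝ × (Fin n → ℝ) => (Fin.cons p.1 p.2 : Fin (n + 1) → ℝ)) =
        (MeasurableEquiv.piFinSuccAbove (fun _ : Fin (n + 1) => ℝ) 0).symm := by
      funext p
      rw [MeasurableEquiv.piFinSuccAbove_symm_apply, Fin.insertNthEquiv_zero]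
      rfl
    rw [e]
    exact h
  have h1 : MeasurePreserving (Prod.map (id : ℝ → ℝ) (WithLp.ofLp : E n → (Fin n → ℝ)))
      volume volume := (MeasurePreserving.id _).prod (PiLp.volume_preserving_ofLp _)
  exact (PiLp.volume_preserving_toLp (Fin (n + 1))).comp (h0.comp h1)

lemma spl_norm (n : ℕ) (p : ℝ × E n) : ‖spl n p‖ ^ 2 = p.1 ^ 2 + ‖p.2‖ ^ 2 := by
  rw [EuclideanSpace.norm_sq_eq, EuclideanSpace.norm_sq_eq, Fin.sum_univ_succ]
  simp [spl]

lemma spl_zero (n : ℕ) (p : ℝ × E n) : (spl n p) 0 = p.1 := rfl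

/-- the slices of the ball -/
lemma slice_int (n : ℕ) (a : ℝ) :
    ∫ x in closedBall (0 : E (n + 1)) 1, cos (a * x 0) = V1 n * FF (n + 1) a := by
  have hb : MeasurableSet (closedBall (0 : E (n + 1)) 1) := isClosed_closedBall.measurableSet
  have hemb : MeasurableEmbedding (spl n) := by
    have h0 : MeasurableEmbedding
        (fun p : ℝ × (Fin n → ℝ) => (Fin.cons p.1 p.2 : Fin (n + 1) → ℝ)) := by
      have e : (fun p : ℝ × (Fin n → ℝ) => (Fin.cons p.1 p.2 : Fin (n + 1) → ℝ)) =
          (MeasurableEquiv.piFinSuccAbove (fun _ : Fin (n + 1) => ℝ) 0).symm := by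
        funext p
        rw [MeasurableEquiv.piFinSuccAbove_symm_apply, Fin.insertNthEquiv_zero]
        rfl
      rw [e]
      exact MeasurableEquiv.measurableEmbedding _
    have h1 : MeasurableEmbedding (Prod.map (id : ℝ → ℝ) (WithLp.ofLp : E n → (Fin n → ℝ))) :=
      MeasurableEmbedding.id.prodMap (MeasurableEquiv.toLp 2 (Fin n → ℝ)).symm.measurableEmbedding
    exact (MeasurableEquiv.toLp 2 (Fin (n + 1) → ℝ)).measurableEmbedding.comp (h0.comp h1)
  rw [← (spl_mp n).setIntegral_preimage_emb hemb]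
  have hpre : (spl n) ⁻¹' closedBall (0 : E (n + 1)) 1 =
      {p : ℝ × E n | p.1 ^ 2 + ‖p.2‖ ^ 2 ≤ 1} := by
    ext p
    rw [mem_preimage, mem_closedBall_zero_iff, mem_ofPred_eq, ← spl_norm]
    constructor
    · intro h
      exact pow_le_one₀ (norm_nonneg _) h
    · intro h
      exact (sq_le_one_iff₀ (norm_nonneg _)).1 h
  have hm : MeasurableSet {p : ℝ × E n | p.1 ^ 2 + ‖p.2‖ ^ 2 ≤ 1} := by
    rw [← hpre]
    exact hb.preimage (spl_mp n).measurable
  rw [hpre, ← integral_indicator hm]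
  have hvol : volume {p : ℝ × E n | p.1 ^ 2 + ‖p.2‖ ^ 2 ≤ 1} ≠ ⊤ := by
    rw [← hpre, (spl_mp n).measure_preimage hb.nullMeasurableSet]
    exact (isCompact_closedBall (0 : E (n + 1)) 1).measure_lt_top.ne
  have hint : Integrable ({p : ℝ × E n | p.1 ^ 2 + ‖p.2‖ ^ 2 ≤ 1}.indicator
      fun p => cos (a * spl n p 0)) (volume.prod volume) := by
    rw [integrable_indicator_iff hm]
    refine Measure.integrableOn_of_bounded (M := 1) hvol ?_ (Filter.Eventually.of_forall fun p => ?_)
    · simp only [spl_zero]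
      exact (by fun_prop : Continuous fun p : ℝ × E n => cos (a * p.1)).aestronglyMeasurable
    · rw [Real.norm_eq_abs]
      exact abs_cos_le_one _
  have hfub := integral_prod _ hint
  rw [show (volume : Measure (ℝ × E n)) = volume.prod volume from rfl, hfub]
  have hin : ∀ t : ℝ, ∫ y : E n, {p : ℝ × E n | p.1 ^ 2 + ‖p.2‖ ^ 2 ≤ 1}.indicator
      (fun p => cos (a * spl n p 0)) (t, y) =
      (Icc (-1 : ℝ) 1).indicator (fun t => V1 n * (√(1 - t ^ 2) ^ n * cos (a * t))) t := by
    intro t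
    by_cases ht : t ∈ Icc (-1 : ℝ) 1
    · rw [indicator_of_mem ht]
      have ht2 : 0 ≤ 1 - t ^ 2 := by nlinarith [ht.1, ht.2]
      have h1 : ∀ y : E n, {p : ℝ × E n | p.1 ^ 2 + ‖p.2‖ ^ 2 ≤ 1}.indicator
          (fun p => cos (a * spl n p 0)) (t, y) =
          (closedBall (0 : E n) √(1 - t ^ 2)).indicator (fun _ => cos (a * t)) y := by
        intro y
        by_cases hy : y ∈ closedBall (0 : E n) √(1 - t ^ 2)
        · rw [indicator_of_mem hy, indicator_of_mem]
          · rw [spl_zero]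
          · rw [mem_closedBall_zero_iff] at hy
            have := pow_le_pow_left₀ (norm_nonneg _) hy 2
            rw [Real.sq_sqrt ht2] at this
            simp only [mem_ofPred_eq]
            linarith
        · rw [indicator_of_notMem hy, indicator_of_notMem]
          intro h
          apply hy
          rw [mem_closedBall_zero_iff]
          apply Real.le_sqrt_of_sq_le
          simp only [mem_ofPred_eq] at h
          linarith
      simp only [h1]
      rw [integral_indicator_const _ isClosed_closedBall.measurableSet, smul_eq_mul,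
        vol_cb (Real.sqrt_nonneg _)]
      ring
    · rw [indicator_of_notMem ht]
      have h1 : ∀ y : E n, {p : ℝ × E n | p.1 ^ 2 + ‖p.2‖ ^ 2 ≤ 1}.indicator
          (fun p => cos (a * spl n p 0)) (t, y) = 0 := by
        intro y
        rw [indicator_of_notMem]
        intro h
        apply ht
        simp only [mem_ofPred_eq] at h
        have h2 : t ^ 2 ≤ 1 := by nlinarith [sq_nonneg ‖y‖]
        exact abs_le.1 ((sq_le_one_iff_abs_le_one t).1 h2)
      simp only [h1]
      simp
  simp only [hin]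
  rw [integral_indicator measurableSet_Icc, integral_Icc_eq_integral_Ioc,
    ← intervalIntegral.integral_of_le (by norm_num), intervalIntegral.integral_const_mul]
  congr 1
  unfold FF
  have hsub := intervalIntegral.integral_comp_mul_deriv (a := 0) (b := π) (f := cos)
    (f' := fun θ => -sin θ) (g := fun t => √(1 - t ^ 2) ^ n * cos (a * t))
    (fun x _ => hasDerivAt_cos x) (by fun_prop) (by fun_prop)
  simp only [Function.comp, cos_zero, cos_pi] at hsub
  rw [intervalIntegral.integral_symm 1 (-1), ← hsub, ← intervalIntegral.integral_neg]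
  refine intervalIntegral.integral_congr fun θ hθ => ?_
  rw [uIcc_of_le pi_pos.le] at hθ
  have h1 : √(1 - cos θ ^ 2) = sin θ := by
    rw [← Real.sin_sq, Real.sqrt_sq (sin_nonneg_of_nonneg_of_le_pi hθ.1 hθ.2)]
  simp only [h1]
  ring

/-- the Fourier transform of the indicator function of the unit ball -/
lemma ind_fourier (n : ℕ) (ξ : E (n + 1)) :
    (𝓕 (ind (n + 1) 1) ξ).re = V1 n * FF (n + 1) (2 * π * ‖ξ‖) := by
  have h0 : Rad (𝓕 (ind (n + 1) 1)) := rad_fourier (ind_adm le_rfl).rad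
  have h1 : 𝓕 (ind (n + 1) 1) ξ =
      𝓕 (ind (n + 1) 1) (EuclideanSpace.single (0 : Fin (n + 1)) ‖ξ‖) := by
    apply h0
    simp
  rw [h1, Real.fourier_eq']
  have h2 : (fun v : E (n + 1) => Complex.exp ((↑(-2 * π * ⟪v, EuclideanSpace.single
      (0 : Fin (n + 1)) ‖ξ‖⟫) * Complex.I)) • ind (n + 1) 1 v) =
      (closedBall (0 : E (n + 1)) 1).indicator (fun v =>
        Complex.exp ((↑(-2 * π * (v 0 * ‖ξ‖)) * Complex.I))) := by
    funext v
    by_cases hv : v ∈ closedBall (0 : E (n + 1)) 1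
    · rw [indicator_of_mem hv, ind_mem (by simpa using hv), smul_eq_mul, mul_one]
      congr 3
      rw [EuclideanSpace.inner_single_right]
      simp [mul_comm]
    · rw [indicator_of_notMem hv, ind_notMem (by simpa using hv), smul_zero]
  rw [h2, integral_indicator isClosed_closedBall.measurableSet]
  have h3 : IntegrableOn (fun v : E (n + 1) =>
      Complex.exp ((↑(-2 * π * (v 0 * ‖ξ‖)) * Complex.I))) (closedBall 0 1) volume := by
    refine Measure.integrableOn_of_bounded (M := 1)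
      (isCompact_closedBall (0 : E (n + 1)) 1).measure_lt_top.ne ?_
      (Filter.Eventually.of_forall fun v => ?_)
    · exact (by fun_prop : Continuous _).aestronglyMeasurable
    · rw [Complex.norm_exp_ofReal_mul_I]
  have h4 := integral_re h3
  rw [← RCLike.re_eq_complex_re, ← h4, ← slice_int]
  refine integral_congr_ae (Filter.Eventually.of_forall fun v => ?_)
  simp only [RCLike.re_eq_complex_re, Complex.exp_ofReal_mul_I_re]
  rw [← cos_neg]
  congr 1
  ring

lemma F_half_le (n : ℕ) : V1 n * FF (n + 1) (((n + 1 : ℕ) : ℝ) / 2) ≤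
    √(4 * π / ((n + 1 : ℕ) : ℝ)) ^ (n + 1) := by
  obtain ⟨m, hm⟩ : ∃ m : ℕ, m = n + 1 := ⟨_, rfl⟩
  have hm0 : 0 < m := by omega
  have hm0' : (0 : ℝ) < m := by exact_mod_cast hm0
  obtain ⟨c, hc⟩ : ∃ c : ℝ, c = V1 n * FF (n + 1) (((n + 1 : ℕ) : ℝ) / 2) := ⟨_, rfl⟩
  have hc0 : 0 < c := by
    rw [hc]
    exact mul_pos (V1_pos n) (FF_pos (by omega) (by positivity) le_rfl)
  rw [← hc]
  obtain ⟨r, hr⟩ : ∃ r : ℝ, r = m / (4 * π) := ⟨_, rfl⟩
  have hr0 : 0 < r := by rw [hr]; positivity
  have hadm : Adm 1 (ind (n + 1) 1) := ind_adm le_rfl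
  have h1 := N2_fourier hadm.integrable hadm.memLp
  rw [N2_ind, vol_cb zero_le_one, one_pow, one_mul] at h1
  have h2 : ∫ ξ in closedBall (0 : E (n + 1)) r, ‖𝓕 (ind (n + 1) 1) ξ‖ ^ 2 ≤
      N2 (𝓕 (ind (n + 1) 1)) := by
    refine setIntegral_le_integral ?_ (Filter.Eventually.of_forall fun _ => by positivity)
    exact (memLp_two_iff_integrable_sq_norm
      (fourier_cont hadm.integrable).aestronglyMeasurable).1 (memLp_fourier hadm.integrable hadm.memLp)
  have h3 : ∫ ξ in closedBall (0 : E (n + 1)) r, c ^ 2 ≤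
      ∫ ξ in closedBall (0 : E (n + 1)) r, ‖𝓕 (ind (n + 1) 1) ξ‖ ^ 2 := by
    refine setIntegral_mono_on ?_ ?_ isClosed_closedBall.measurableSet fun ξ hξ => ?_
    · exact integrableOn_const (isCompact_closedBall (0 : E (n + 1)) r).measure_lt_top.ne
    · exact ((memLp_two_iff_integrable_sq_norm
        (fourier_cont hadm.integrable).aestronglyMeasurable).1
        (memLp_fourier hadm.integrable hadm.memLp)).integrableOn
    · rw [mem_closedBall_zero_iff] at hξ
      refine pow_le_pow_left₀ hc0.le ?_ 2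
      calc c ≤ (𝓕 (ind (n + 1) 1) ξ).re := by
            rw [ind_fourier, hc]
            refine mul_le_mul_of_nonneg_left ?_ (V1_pos n).le
            refine FF_anti (by positivity) ?_ le_rfl
            rw [hr] at hξ
            calc 2 * π * ‖ξ‖ ≤ 2 * π * (m / (4 * π)) := by gcongr
              _ = m / 2 := by field_simp; ring
              _ = ((n + 1 : ℕ) : ℝ) / 2 := by rw [hm]
        _ ≤ ‖𝓕 (ind (n + 1) 1) ξ‖ := Complex.re_le_norm _
  rw [setIntegral_const, smul_eq_mul, vol_cb hr0.le] at h3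
  have h4 : r ^ (n + 1) * V1 (n + 1) * c ^ 2 ≤ V1 (n + 1) := by linarith
  have h5 : r ^ (n + 1) * c ^ 2 ≤ 1 := by
    have := V1_pos (n + 1)
    nlinarith
  have h6 : (√r ^ (n + 1) * c) ^ 2 ≤ 1 := by
    rw [mul_pow, ← pow_mul, mul_comm (n + 1) 2, pow_mul, Real.sq_sqrt hr0.le]
    exact h5
  have h7 : √r ^ (n + 1) * c ≤ 1 := by
    have := (sq_le_one_iff_abs_le_one _).1 h6
    exact (abs_le.1 this).2
  have h8 : √(4 * π / ((n + 1 : ℕ) : ℝ)) = (√r)⁻¹ := by
    rw [← Real.sqrt_inv, hr, ← hm]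
    congr 1
    field_simp
  rw [h8, inv_pow, ← one_div, le_div_iff₀ (by positivity)]
  linarith

lemma ind_scale (d : ℕ) {R : ℝ} (hR : 0 < R) : ind d R = fun x => ind d 1 (R⁻¹ • x) := by
  funext x
  by_cases h : ‖x‖ ≤ R
  · rw [ind_mem h, ind_mem]
    rw [norm_smul, norm_inv, Real.norm_of_nonneg hR.le, inv_mul_le_iff₀ hR]
    linarith
  · rw [ind_notMem (not_le.1 h), ind_notMem]
    rw [norm_smul, norm_inv, Real.norm_of_nonneg hR.le, lt_inv_mul_iff₀ hR]
    linarith [not_le.1 h]

/-- **the minimum of the Fourier transform of the indicator function of a ball** -/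
theorem ind_lower {d : ℕ} (hd : 0 < d) {R : ℝ} (hR : 0 < R) (ξ : E d) :
    -(2 * (R * √(4 * π / d)) ^ d) ≤ (𝓕 (ind d R) ξ).re := by
  obtain ⟨n, rfl⟩ : ∃ n, d = n + 1 := ⟨d - 1, by omega⟩
  rw [ind_scale _ hR, fourier_scale _ (inv_pos.2 hR), Complex.re_ofReal_mul, ind_fourier]
  have h1 := FF_lower (m := n + 1) (by omega) (x := 2 * π * ‖(R⁻¹)⁻¹ • ξ‖) (by positivity)
  have h2 := F_half_le n
  have h3 := V1_pos n
  rw [inv_pow, inv_inv, mul_pow]
  have h4 : -(2 * √(4 * π / ((n + 1 : ℕ) : ℝ)) ^ (n + 1)) ≤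
      V1 n * FF (n + 1) (2 * π * ‖(R⁻¹)⁻¹ • ξ‖) := by
    have := mul_le_mul_of_nonneg_left h1 h3.le
    linarith
  have h5 := mul_le_mul_of_nonneg_left h4 (pow_pos hR (n + 1)).le
  linarith

end Pool.Agent.N628.EP
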