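import Pool.Agent.N628.EP.F1

/-!
N628/EP: decay and growth of `∫ cos (x cos θ) sin^m θ dθ` around `m / 2`.
-/

set_option autoImplicit false

open MeasureTheory Set Real

namespace Pool.Agent.N628.EP

/-- the energy bound, with the derivative -/
theorem FF_energy {m : ℕ} (hm : 0 < m) {x : ℝ} (hx : (m : ℝ) / 2 ≤ x) :
    FF m x ^ 2 + (x / (m + 1) * FF (m + 2) x) ^ 2 ≤ 2 * FF m (m / 2) ^ 2 := by
  have hmp : (0 : ℝ) < m := by exact_mod_cast hm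
  have h0 := FF_pos hm (x := m / 2) (by positivity) le_rfl
  have hm1 : (m : ℝ) + 1 ≠ 0 := by positivity
  have hE : AntitoneOn (fun y => FF m y ^ 2 + (y / (m + 1) * FF (m + 2) y) ^ 2)
      (Ici ((m : ℝ) / 2)) := by
    have hd : ∀ y : ℝ, y ≠ 0 → HasDerivAt
        (fun y => FF m y ^ 2 + (y / (m + 1) * FF (m + 2) y) ^ 2)
        (-(2 * y / (m + 1) * FF (m + 2) y ^ 2)) y := by
      intro y hy
      have h1 := (FF1_hasDeriv m y).fun_pow 2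
      have h2 := (((hasDerivAt_id' y).div_const ((m : ℝ) + 1)).fun_mul (FF2_hasDeriv m hy)).fun_pow 2
      refine (h1.fun_add h2).congr_deriv ?_
      push_cast
      field_simp
      ring
    refine antitoneOn_of_deriv_nonpos (convex_Ici _) ?_ ?_ ?_
    · exact (((FF_cont m).pow 2).add (((continuous_id.div_const _).mul
        (FF_cont (m + 2))).pow 2)).continuousOn
    · intro y hy
      rw [interior_Ici] at hy
      have : 0 < y := lt_trans (by positivity) (mem_Ioi.1 hy)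
      exact (hd y this.ne').differentiableAt.differentiableWithinAt
    · intro y hy
      rw [interior_Ici] at hy
      have hy0 : 0 < y := lt_trans (by positivity) (mem_Ioi.1 hy)
      rw [(hd y hy0.ne').deriv]
      have : 0 ≤ 2 * y / (m + 1) * FF (m + 2) y ^ 2 := by positivity
      linarith
  have h1 := hE (self_mem_Ici (a := (m : ℝ) / 2)) (mem_Ici.2 hx) hx
  simp only at h1
  have h2 := GG_nonneg hm
  have h3 := FF_pos (m := m + 2) (by omega) (x := m / 2) (by positivity) (by push_cast; linarith)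
  have h4 : 0 ≤ (m / 2 : ℝ) / (m + 1) * FF (m + 2) (m / 2) := by positivity
  have h5 : ((m / 2 : ℝ) / (m + 1) * FF (m + 2) (m / 2)) ^ 2 ≤ FF m (m / 2) ^ 2 :=
    pow_le_pow_left₀ h4 h2 2
  linarith

/-- **decay** -/
theorem FF_decay {m : ℕ} (hm : 0 < m) {x : ℝ} (hx : (m : ℝ) / 2 ≤ x) :
    FF m x ^ 2 ≤ 120 * m * ((m / 2) / x) ^ m * FF m (m / 2) ^ 2 := by
  obtain ⟨ν, hν⟩ : ∃ ν : ℝ, ν = m / 2 := ⟨_, rfl⟩
  have hm' : (m : ℝ) = 2 * ν := by rw [hν]; ring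
  have hmp : (0 : ℝ) < m := by exact_mod_cast hm
  have hm1r : (1 : ℝ) ≤ m := by exact_mod_cast hm
  have hν0 : 0 < ν := by linarith
  rw [← hν] at hx ⊢
  have hx0 : 0 < x := lt_of_lt_of_le hν0 hx
  have h0 := FF_pos hm hν0.le (by rw [hν])
  obtain ⟨x₁, hx₁⟩ : ∃ x₁ : ℝ, x₁ = ν * (1 + 1 / m) := ⟨_, rfl⟩
  have hx₁ν : ν < x₁ := by
    rw [hx₁]
    have : 0 < 1 / (m : ℝ) := by positivity
    nlinarith
  have hx₁2 : x₁ ≤ 2 * ν := by
    rw [hx₁]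
    have : 1 / (m : ℝ) ≤ 1 := by rw [div_le_one hmp]; exact hm1r
    nlinarith
  have hpe : (1 + 1 / (m : ℝ)) ^ m ≤ 3 := by
    have h1 : (1 + 1 / (m : ℝ)) ^ m ≤ Real.exp (1 / m) ^ m := by
      refine pow_le_pow_left₀ (by positivity) ?_ m
      have := Real.add_one_le_exp (1 / (m : ℝ))
      linarith
    rw [← Real.exp_nat_mul] at h1
    have h2 : (m : ℝ) * (1 / m) = 1 := by field_simp
    rw [h2] at h1
    linarith [Real.exp_one_lt_d9]
  have hE0 : ∀ z, ν ≤ z → FF m z ^ 2 + (z / (m + 1) * FF (m + 2) z) ^ 2 ≤ 2 * FF m ν ^ 2 := by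
    intro z hz
    have := FF_energy hm (x := z) (by rw [← hν]; exact hz)
    rwa [← hν] at this
  obtain ⟨f0, hf0⟩ : ∃ f0 : ℝ, f0 = FF m ν := ⟨_, rfl⟩
  rw [← hf0] at h0 hE0 ⊢
  rcases le_total x x₁ with hxx | hxx
  · have h1 := hE0 x hx
    have h2 : FF m x ^ 2 ≤ 2 * f0 ^ 2 := by nlinarith [sq_nonneg (x / (m + 1) * FF (m + 2) x)]
    have h3 : 1 / 3 ≤ (ν / x) ^ m := by
      have h4 : (1 + 1 / (m : ℝ))⁻¹ ≤ ν / x := by
        rw [← one_div, div_le_div_iff₀ (by positivity) hx0, one_mul, ← hx₁]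
        exact hxx
      calc (1 : ℝ) / 3 ≤ 1 / (1 + 1 / (m : ℝ)) ^ m := by
            gcongr
        _ = ((1 + 1 / (m : ℝ))⁻¹) ^ m := by rw [inv_pow, one_div]
        _ ≤ (ν / x) ^ m := pow_le_pow_left₀ (by positivity) h4 m
    have h5 : 0 < f0 ^ 2 := by positivity
    calc FF m x ^ 2 ≤ 2 * f0 ^ 2 := h2
      _ ≤ 120 * 1 * (1 / 3) * f0 ^ 2 := by nlinarith
      _ ≤ 120 * m * (ν / x) ^ m * f0 ^ 2 := by gcongr
  · obtain ⟨G, hG⟩ : ∃ G : ℝ → ℝ, G = fun y => ν * FF m y - y ^ 2 / (m + 1) * FF (m + 2) y :=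
      ⟨_, rfl⟩
    have hm1 : (m : ℝ) + 1 ≠ 0 := by positivity
    have hGd : ∀ y, y ≠ 0 → HasDerivAt G (-(y * FF m y) + ν * (y / (m + 1) * FF (m + 2) y)) y := by
      intro y hy
      have h1 := (FF1_hasDeriv m y).const_mul ν
      have h2 := ((hasDerivAt_pow 2 y).div_const ((m : ℝ) + 1)).fun_mul (FF2_hasDeriv m hy)
      rw [hG]
      refine (h1.fun_sub h2).congr_deriv ?_
      rw [hm'] at hm1 ⊢
      push_cast
      field_simp
      ring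
    obtain ⟨Q, hQ⟩ : ∃ Q : ℝ → ℝ, Q = fun y => y ^ m * (FF m y ^ 2 + G y ^ 2 / (y ^ 2 - ν ^ 2)) :=
      ⟨_, rfl⟩
    obtain ⟨p, rfl⟩ : ∃ p, m = p + 1 := ⟨m - 1, by omega⟩
    have hQd : ∀ y, ν < y → HasDerivAt Q (-(y ^ (p + 1) * (2 * y * G y ^ 2 / (y ^ 2 - ν ^ 2) ^ 2))) y := by
      intro y hy
      have hy0 : 0 < y := lt_trans hν0 hy
      have hne : y ^ 2 - ν ^ 2 ≠ 0 := by
        have : 0 < y ^ 2 - ν ^ 2 := by nlinarith
        exact this.ne'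
      have h1 := (FF1_hasDeriv (p + 1) y).fun_pow 2
      have h2 := (hGd y hy0.ne').fun_pow 2
      have h3 : HasDerivAt (fun y : ℝ => y ^ 2 - ν ^ 2) (2 * y) y := by
        have := (hasDerivAt_pow 2 y).sub_const (ν ^ 2)
        refine this.congr_deriv ?_
        push_cast
        ring
      have h4 := (hasDerivAt_pow (p + 1) y).fun_mul (h1.fun_add (h2.fun_div h3 hne))
      rw [hQ]
      refine h4.congr_deriv ?_
      have hBG : y ^ 2 / (((p + 1 : ℕ) : ℝ) + 1) * FF (p + 1 + 2) y = ν * FF (p + 1) y - G y := by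
        rw [hG]
        ring
      have hB : y / (((p + 1 : ℕ) : ℝ) + 1) * FF (p + 1 + 2) y = (ν * FF (p + 1) y - G y) / y := by
        rw [← hBG]
        field_simp
      rw [hB]
      have hp1 : p + 1 - 1 = p := rfl
      rw [hp1]
      have hpν : ((p + 1 : ℕ) : ℝ) = 2 * ν := hm'
      rw [hpν]
      push_cast
      field_simp
      ring
    have hanti : AntitoneOn Q (Ici x₁) := by
      have hsub : ∀ y ∈ Ici x₁, ν < y := fun y hy => lt_of_lt_of_le hx₁ν (mem_Ici.1 hy)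
      refine antitoneOn_of_deriv_nonpos (convex_Ici _) ?_ ?_ ?_
      · intro y hy
        exact (hQd y (hsub y hy)).continuousAt.continuousWithinAt
      · intro y hy
        exact (hQd y (hsub y (interior_subset hy))).differentiableAt.differentiableWithinAt
      · intro y hy
        have hy' := hsub y (interior_subset hy)
        have hy0 : 0 < y := lt_trans hν0 hy'
        rw [(hQd y hy').deriv]
        have : 0 ≤ y ^ (p + 1) * (2 * y * G y ^ 2 / (y ^ 2 - ν ^ 2) ^ 2) := by positivity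
        linarith
    have h1 := hanti (self_mem_Ici (a := x₁)) (mem_Ici.2 hxx) hxx
    have hx₁0 : 0 < x₁ := lt_trans hν0 hx₁ν
    have hd1 : 0 < x ^ 2 - ν ^ 2 := by nlinarith
    have hd2 : 2 * ν ^ 2 / ((p + 1 : ℕ) : ℝ) ≤ x₁ ^ 2 - ν ^ 2 := by
      rw [hx₁]
      have : ν ^ 2 * (1 + 1 / ((p + 1 : ℕ) : ℝ)) ^ 2 - ν ^ 2 - 2 * ν ^ 2 / ((p + 1 : ℕ) : ℝ) =
          (ν / ((p + 1 : ℕ) : ℝ)) ^ 2 := by
        field_simp
        ring
      nlinarith [sq_nonneg (ν / ((p + 1 : ℕ) : ℝ))]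
    have h2 : x ^ (p + 1) * FF (p + 1) x ^ 2 ≤ Q x₁ := by
      refine le_trans ?_ h1
      rw [hQ]
      simp only
      have : 0 ≤ G x ^ 2 / (x ^ 2 - ν ^ 2) := by positivity
      gcongr
      linarith
    -- the value at `x₁`
    have h3 := hE0 x₁ hx₁ν.le
    have hF1 : FF (p + 1) x₁ ^ 2 ≤ 2 * f0 ^ 2 := by
      nlinarith [sq_nonneg (x₁ / (((p + 1 : ℕ) : ℝ) + 1) * FF (p + 1 + 2) x₁)]
    have hG1 : G x₁ ^ 2 ≤ 16 * x₁ ^ 2 * f0 ^ 2 := by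
      have h4 : G x₁ = ν * FF (p + 1) x₁ - x₁ * (x₁ / (((p + 1 : ℕ) : ℝ) + 1) * FF (p + 1 + 2) x₁) := by
        rw [hG]
        ring
      rw [h4]
      have h5 : (x₁ / (((p + 1 : ℕ) : ℝ) + 1) * FF (p + 1 + 2) x₁) ^ 2 ≤ 2 * f0 ^ 2 := by
        nlinarith [sq_nonneg (FF (p + 1) x₁)]
      obtain ⟨u, hu⟩ : ∃ u : ℝ, u = x₁ / (((p + 1 : ℕ) : ℝ) + 1) * FF (p + 1 + 2) x₁ := ⟨_, rfl⟩
      rw [← hu] at h5 ⊢
      have h6 : (ν * FF (p + 1) x₁ - x₁ * u) ^ 2 ≤ 2 * (ν * FF (p + 1) x₁) ^ 2 + 2 * (x₁ * u) ^ 2 := by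
        nlinarith [sq_nonneg (ν * FF (p + 1) x₁ + x₁ * u)]
      have h7 : (ν * FF (p + 1) x₁) ^ 2 ≤ x₁ ^ 2 * (2 * f0 ^ 2) := by
        rw [mul_pow]
        gcongr
      have h8 : (x₁ * u) ^ 2 ≤ x₁ ^ 2 * (2 * f0 ^ 2) := by
        rw [mul_pow]
        gcongr
      nlinarith
    have h9 : G x₁ ^ 2 / (x₁ ^ 2 - ν ^ 2) ≤ 32 * ((p + 1 : ℕ) : ℝ) * f0 ^ 2 := by
      have h10 : 0 < 2 * ν ^ 2 / ((p + 1 : ℕ) : ℝ) := by positivity
      have h11 : 0 < x₁ ^ 2 - ν ^ 2 := lt_of_lt_of_le h10 hd2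
      rw [div_le_iff₀ h11]
      calc G x₁ ^ 2 ≤ 16 * x₁ ^ 2 * f0 ^ 2 := hG1
        _ ≤ 16 * (2 * ν) ^ 2 * f0 ^ 2 := by gcongr
        _ = 32 * ((p + 1 : ℕ) : ℝ) * f0 ^ 2 * (2 * ν ^ 2 / ((p + 1 : ℕ) : ℝ)) := by
            field_simp
            ring
        _ ≤ 32 * ((p + 1 : ℕ) : ℝ) * f0 ^ 2 * (x₁ ^ 2 - ν ^ 2) := by gcongr
    have h12 : Q x₁ ≤ (3 * ν ^ (p + 1)) * (34 * ((p + 1 : ℕ) : ℝ) * f0 ^ 2) := by
      rw [hQ]
      simp only
      have h13 : x₁ ^ (p + 1) ≤ 3 * ν ^ (p + 1) := by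
        rw [hx₁, mul_pow, mul_comm (3 : ℝ)]
        gcongr
      have h14 : FF (p + 1) x₁ ^ 2 + G x₁ ^ 2 / (x₁ ^ 2 - ν ^ 2) ≤ 34 * ((p + 1 : ℕ) : ℝ) * f0 ^ 2 := by
        have : 2 * f0 ^ 2 ≤ 2 * ((p + 1 : ℕ) : ℝ) * f0 ^ 2 := by
          have : 0 < f0 ^ 2 := by positivity
          nlinarith
        linarith
      have h15 : 0 ≤ FF (p + 1) x₁ ^ 2 + G x₁ ^ 2 / (x₁ ^ 2 - ν ^ 2) := by
        have h10 : 0 < 2 * ν ^ 2 / ((p + 1 : ℕ) : ℝ) := by positivity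
        have h11 : 0 < x₁ ^ 2 - ν ^ 2 := lt_of_lt_of_le h10 hd2
        positivity
      exact mul_le_mul h13 h14 h15 (by positivity)
    have h16 : x ^ (p + 1) * FF (p + 1) x ^ 2 ≤ x ^ (p + 1) *
        (120 * ((p + 1 : ℕ) : ℝ) * (ν / x) ^ (p + 1) * f0 ^ 2) := by
      refine h2.trans (h12.trans ?_)
      have h17 : x ^ (p + 1) * (120 * ((p + 1 : ℕ) : ℝ) * (ν / x) ^ (p + 1) * f0 ^ 2) =
          120 * ((p + 1 : ℕ) : ℝ) * ν ^ (p + 1) * f0 ^ 2 := by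
        rw [div_pow]
        field_simp
      rw [h17]
      have h18 : 0 < ν ^ (p + 1) * ((p + 1 : ℕ) : ℝ) * f0 ^ 2 := by positivity
      nlinarith
    exact le_of_mul_le_mul_left h16 (by positivity)

end Pool.Agent.N628.EP
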