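import Pool.Agent.N628.EP.F3

/-!
N628/EP: growth of `∫ cos (x cos θ) sin^m θ dθ` to the left of `m / 2`.
-/

set_option autoImplicit false

open MeasureTheory Set Real

namespace Pool.Agent.N628.EP

/-- minus the logarithmic derivative -/
noncomputable def gg (m : ℕ) (x : ℝ) : ℝ := x / (m + 1) * FF (m + 2) x / FF m x

lemma gg_hasDeriv {m : ℕ} {x : ℝ} (hx : 0 < x) (hF : 0 < FF m x) :
    HasDerivAt (gg m) (gg m x ^ 2 + 1 - (m + 1) / x * gg m x) x := by
  have h1 := (((hasDerivAt_id' x).div_const ((m : ℝ) + 1)).fun_mul (FF2_hasDeriv m hx.ne')).fun_div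
    (FF1_hasDeriv m x) hF.ne'
  have hm1 : (m : ℝ) + 1 ≠ 0 := by positivity
  refine h1.congr_deriv ?_
  unfold gg
  have := hF.ne'
  field_simp
  ring

theorem gg_lower {m : ℕ} {δ θ : ℝ} (hδ : 0 < δ) (hδ1 : δ ≤ 1 / 20) (hθ : 9 * δ ≤ θ ^ 2)
    (hθ0 : 0 < θ) (hθ1 : θ ≤ 1) (hm : 4 / δ ^ 2 ≤ m) {x : ℝ} (hx1 : (1 - δ) * (m / 2) ≤ x)
    (hx2 : x ≤ m / 2) : 1 - θ ≤ gg m x := by
  obtain ⟨ν, hν⟩ : ∃ ν : ℝ, ν = m / 2 := ⟨_, rfl⟩
  have hm' : (m : ℝ) = 2 * ν := by rw [hν]; ring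
  have hmδ : 4 ≤ m * δ ^ 2 := by rwa [div_le_iff₀ (by positivity)] at hm
  have hmp : (0 : ℝ) < m := by
    by_contra h
    have : (m : ℝ) = 0 := le_antisymm (not_lt.1 h) (Nat.cast_nonneg m)
    rw [this] at hmδ
    linarith
  have hmN : 0 < m := by exact_mod_cast hmp
  have hν0 : 0 < ν := by linarith
  rw [← hν] at hx1 hx2
  obtain ⟨a, ha⟩ : ∃ a : ℝ, a = (1 - 2 * δ) * ν := ⟨_, rfl⟩
  have ha0 : 0 < a := by
    rw [ha]
    have : 0 < 1 - 2 * δ := by linarith
    positivity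
  have hax : a < x := by
    rw [ha]
    nlinarith
  have hFpos : ∀ z, a ≤ z → z ≤ ν → 0 < FF m z := fun z h1 h2 =>
    FF_pos hmN (by linarith) (by rw [← hν]; exact h2)
  have hg0 : ∀ z, a ≤ z → z ≤ ν → 0 ≤ gg m z := by
    intro z h1 h2
    have h3 := hFpos z h1 h2
    have h4 := FF_pos (m := m + 2) (by omega) (x := z) (by linarith) (by push_cast; linarith)
    unfold gg
    have : 0 < z := by linarith
    positivity
  -- the slope
  have hslope : ∀ z, a ≤ z → z ≤ ν → gg m z ≤ 1 - θ →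
      δ ≤ gg m z ^ 2 + 1 - (m + 1) / z * gg m z := by
    intro z h1 h2 h3
    have hz0 : 0 < z := by linarith
    have h4 : ((m : ℝ) + 1) / z ≤ 2 + 7 * δ := by
      rw [div_le_iff₀ hz0]
      have h5 : (2 + 7 * δ) * a ≤ (2 + 7 * δ) * z := by gcongr
      have h6 : 2 * ν + 1 ≤ (2 + 7 * δ) * a := by
        rw [ha]
        have h7 : 1 ≤ δ * ν := by
          have : 4 ≤ 2 * ν * δ ^ 2 := by rw [← hm']; exact hmδ
          nlinarith
        nlinarith
      rw [hm']
      linarith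
    have h5 := hg0 z h1 h2
    have h6 : (m + 1) / z * gg m z ≤ (2 + 7 * δ) * gg m z := by gcongr
    have h7 : θ ^ 2 ≤ (1 - gg m z) ^ 2 := pow_le_pow_left₀ hθ0.le (by linarith) 2
    nlinarith
  by_contra hcon
  rw [not_le] at hcon
  have hgc : ContinuousOn (gg m) (Icc a ν) := by
    intro z hz
    exact (gg_hasDeriv (by linarith [hz.1]) (hFpos z hz.1 hz.2)).continuousAt.continuousWithinAt
  -- the values are below `1 - θ`
  have hbelow : ∀ z, a ≤ z → z ≤ x → gg m z < 1 - θ := by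
    intro z hz1 hz2
    by_contra h1
    rw [not_lt] at h1
    obtain ⟨T, hT⟩ : ∃ T : Set ℝ, T = Icc z x ∩ gg m ⁻¹' Ici (1 - θ) := ⟨_, rfl⟩
    have hTc : IsClosed T := by
      rw [hT]
      exact (hgc.mono (Icc_subset_Icc hz1 hx2)).preimage_isClosed_of_isClosed isClosed_Icc
        isClosed_Ici
    have hTn : T.Nonempty := ⟨z, by rw [hT]; exact ⟨⟨le_rfl, hz2⟩, h1⟩⟩
    have hTb : BddAbove T := ⟨x, fun y hy => by rw [hT] at hy; exact hy.1.2⟩
    have hs := hTc.csSup_mem hTn hTb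
    obtain ⟨s, hsdef⟩ : ∃ s : ℝ, s = sSup T := ⟨_, rfl⟩
    rw [← hsdef] at hs
    rw [hT] at hs
    have hsx : s < x := by
      rcases hs.1.2.lt_or_eq with h | h
      · exact h
      · exfalso
        have h2 := hs.2
        rw [h, mem_preimage, mem_Ici] at h2
        linarith
    have hlt : ∀ y, s < y → y ≤ x → gg m y < 1 - θ := by
      intro y hy1 hy2
      by_contra h2
      rw [not_lt] at h2
      have h3 : y ≤ s := by
        rw [hsdef]
        refine le_csSup hTb ?_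
        rw [hT]
        exact ⟨⟨hs.1.1.trans hy1.le, hy2⟩, h2⟩
      linarith
    have hmono : MonotoneOn (gg m) (Icc s x) := by
      refine monotoneOn_of_deriv_nonneg (convex_Icc _ _) ?_ ?_ ?_
      · exact hgc.mono (Icc_subset_Icc (hz1.trans hs.1.1) hx2)
      · intro y hy
        rw [interior_Icc] at hy
        have h2 : a ≤ y := (hz1.trans hs.1.1).trans hy.1.le
        exact (gg_hasDeriv (by linarith) (hFpos y h2 (hy.2.le.trans hx2))).differentiableAt.differentiableWithinAt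
      · intro y hy
        rw [interior_Icc] at hy
        have h2 : a ≤ y := (hz1.trans hs.1.1).trans hy.1.le
        rw [(gg_hasDeriv (by linarith) (hFpos y h2 (hy.2.le.trans hx2))).deriv]
        have := hslope y h2 (hy.2.le.trans hx2) (hlt y hy.1 hy.2.le).le
        linarith
    have h2 := hmono (left_mem_Icc.2 hsx.le) (right_mem_Icc.2 hsx.le) hsx.le
    have h3 := hs.2
    rw [mem_preimage, mem_Ici] at h3
    linarith
  -- the value at `x`
  have h1 : δ * (x - a) ≤ gg m x - gg m a := by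
    refine Convex.mul_sub_le_image_sub_of_le_deriv (convex_Icc a x) (hgc.mono (Icc_subset_Icc le_rfl hx2))
      ?_ ?_ a (left_mem_Icc.2 hax.le) x (right_mem_Icc.2 hax.le) hax.le
    · intro y hy
      rw [interior_Icc] at hy
      exact (gg_hasDeriv (by linarith [hy.1]) (hFpos y hy.1.le (hy.2.le.trans hx2))).differentiableAt.differentiableWithinAt
    · intro y hy
      rw [interior_Icc] at hy
      rw [(gg_hasDeriv (by linarith [hy.1]) (hFpos y hy.1.le (hy.2.le.trans hx2))).deriv]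
      exact hslope y hy.1.le (hy.2.le.trans hx2) (hbelow y hy.1.le hy.2.le).le
  have h2 := hg0 a le_rfl (by linarith)
  have h3 : δ * ν ≤ x - a := by
    rw [ha]
    linarith
  have h4 : 2 ≤ δ * (δ * ν) := by
    have : 4 ≤ 2 * ν * δ ^ 2 := by rw [← hm']; exact hmδ
    nlinarith
  have h5 : δ * (δ * ν) ≤ δ * (x - a) := by gcongr
  linarith

/-- **growth** -/
theorem FF_gain {m : ℕ} {δ θ : ℝ} (hδ : 0 < δ) (hδ1 : δ ≤ 1 / 20) (hθ : 9 * δ ≤ θ ^ 2)
    (hθ0 : 0 < θ) (hθ1 : θ ≤ 1) (hm : 4 / δ ^ 2 ≤ m) {x : ℝ} (hx1 : (1 - δ) * (m / 2) ≤ x)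
    (hx2 : x ≤ m / 2) :
    FF m (m / 2) * Real.exp ((1 - θ) * (m / 2 - x)) ≤ FF m x := by
  obtain ⟨ν, hν⟩ : ∃ ν : ℝ, ν = m / 2 := ⟨_, rfl⟩
  have hmδ : 4 ≤ m * δ ^ 2 := by rwa [div_le_iff₀ (by positivity)] at hm
  have hmp : (0 : ℝ) < m := by
    by_contra h
    have : (m : ℝ) = 0 := le_antisymm (not_lt.1 h) (Nat.cast_nonneg m)
    rw [this] at hmδ
    linarith
  have hmN : 0 < m := by exact_mod_cast hmp
  have hν0 : 0 < ν := by rw [hν]; positivity
  have hx0 : 0 < x := by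
    refine lt_of_lt_of_le ?_ hx1
    have : 0 < 1 - δ := by linarith
    positivity
  have hanti : AntitoneOn (fun z => FF m z * Real.exp ((1 - θ) * z)) (Icc x ν) := by
    have hd : ∀ z, HasDerivAt (fun z => FF m z * Real.exp ((1 - θ) * z))
        (Real.exp ((1 - θ) * z) * ((1 - θ) * FF m z - z / (m + 1) * FF (m + 2) z)) z := by
      intro z
      have h1 : HasDerivAt (fun z : ℝ => (1 - θ) * z) (1 - θ) z := by
        simpa using (hasDerivAt_id z).const_mul (1 - θ)
      refine ((FF1_hasDeriv m z).fun_mul h1.exp).congr_deriv ?_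
      ring
    refine antitoneOn_of_deriv_nonpos (convex_Icc _ _) ?_ ?_ ?_
    · intro z _
      exact (hd z).continuousAt.continuousWithinAt
    · intro z _
      exact (hd z).differentiableAt.differentiableWithinAt
    · intro z hz
      rw [interior_Icc] at hz
      rw [(hd z).deriv]
      have h1 := gg_lower hδ hδ1 hθ hθ0 hθ1 hm (hx1.trans hz.1.le) (by rw [← hν]; exact hz.2.le)
      have h2 := FF_pos hmN (x := z) (by linarith [hz.1]) (by rw [← hν]; exact hz.2.le)
      unfold gg at h1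
      rw [le_div_iff₀ h2] at h1
      have h3 : (1 - θ) * FF m z - z / (m + 1) * FF (m + 2) z ≤ 0 := by linarith
      exact mul_nonpos_of_nonneg_of_nonpos (Real.exp_pos _).le h3
  rw [← hν] at hx2 ⊢
  have h1 := hanti (left_mem_Icc.2 hx2) (right_mem_Icc.2 hx2) hx2
  simp only at h1
  have h2 : Real.exp ((1 - θ) * (ν - x)) = Real.exp ((1 - θ) * ν) / Real.exp ((1 - θ) * x) := by
    rw [← Real.exp_sub]
    congr 1
    ring
  rw [h2, ← mul_div_assoc, div_le_iff₀ (Real.exp_pos _)]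
  exact h1

end Pool.Agent.N628.EP
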