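import Pool.Agent.N628.EP.F2

/-!
N628/EP: supersaturation: many pairs of points at distance `≤ R` in all sets of not too small
volume.
-/

set_option autoImplicit false

open MeasureTheory Set Real FourierTransform Metric

namespace Pool.Agent.N628.EP

open Pool.Agent.Y509.LS

variable {d : ℕ}

/-- bounded measurable real functions with bounded support -/
structure Br (f : E d → ℝ) : Prop where
  meas : Measurable f
  bdd : ∃ C, ∀ x, |f x| ≤ C
  supp : ∃ B, ∀ x, B < ‖x‖ → f x = 0

/-- the indicator function of the ball -/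
noncomputable def kr (d : ℕ) (R : ℝ) (x : E d) : ℝ := (closedBall (0 : E d) R).indicator (fun _ => 1) x

lemma kr_meas (R : ℝ) : Measurable (kr d R) :=
  measurable_const.indicator isClosed_closedBall.measurableSet

lemma kr_nonneg (R : ℝ) (x : E d) : 0 ≤ kr d R x := indicator_nonneg (fun _ _ => zero_le_one) _

lemma kr_le (R : ℝ) (x : E d) : kr d R x ≤ 1 := by
  unfold kr
  by_cases h : x ∈ closedBall (0 : E d) R
  · rw [indicator_of_mem h]
  · rw [indicator_of_notMem h]
    exact zero_le_one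

lemma kr_symm (R : ℝ) (x : E d) : kr d R (-x) = kr d R x := by
  unfold kr
  by_cases h : x ∈ closedBall (0 : E d) R
  · rw [indicator_of_mem h, indicator_of_mem (by simpa using h)]
  · rw [indicator_of_notMem h, indicator_of_notMem (by simpa using h)]

lemma ind_kr (R : ℝ) (x : E d) : ind d R x = (kr d R x : ℂ) := by
  unfold kr
  by_cases h : ‖x‖ ≤ R
  · rw [ind_mem h, indicator_of_mem (by simpa using h)]
    simp
  · rw [ind_notMem (not_le.1 h), indicator_of_notMem (by simpa using h)]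
    simp

/-- the quadratic form -/
noncomputable def QQ (R : ℝ) (f g : E d → ℝ) : ℝ :=
  ∫ p : E d × E d, f p.1 * (kr d R (p.1 - p.2) * g p.2) ∂(volume.prod volume)

variable {f g f' g' : E d → ℝ} {R : ℝ}

lemma Br.bs (h : Br f) : Bs (fun x => (f x : ℂ)) := by
  obtain ⟨C, hC⟩ := h.bdd
  obtain ⟨B, hB⟩ := h.supp
  refine ⟨Complex.measurable_ofReal.comp h.meas, ⟨C, fun x => ?_⟩, ⟨B, fun x hx => ?_⟩⟩
  · rw [Complex.norm_real]
    exact hC x
  · simp [hB x hx]

lemma Br.integrable (h : Br f) : Integrable f := by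
  have := h.bs.integrable
  exact this.re

lemma qq_int (hf : Br f) (hg : Br g) (R : ℝ) :
    Integrable (fun p : E d × E d => f p.1 * (kr d R (p.1 - p.2) * g p.2))
      (volume.prod volume) := by
  refine ((hf.integrable.norm.mul_prod hg.integrable.norm)).mono' ?_
    (Filter.Eventually.of_forall fun p => ?_)
  · exact ((hf.meas.comp measurable_fst).mul (((kr_meas R).comp
      (measurable_fst.sub measurable_snd)).mul (hg.meas.comp measurable_snd))).aestronglyMeasurable
  · rw [norm_mul, norm_mul, Real.norm_eq_abs (kr d R _), abs_of_nonneg (kr_nonneg R _)]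
    calc ‖f p.1‖ * (kr d R (p.1 - p.2) * ‖g p.2‖) ≤ ‖f p.1‖ * (1 * ‖g p.2‖) := by
          gcongr
          exact kr_le R _
      _ = _ := by ring

lemma qq_iter (hf : Br f) (hg : Br g) (R : ℝ) :
    QQ R f g = ∫ x, f x * ∫ y, g y * kr d R (x - y) := by
  unfold QQ
  rw [integral_prod _ (qq_int hf hg R)]
  congr 1
  funext x
  rw [← integral_const_mul]
  congr 1
  funext y
  ring

lemma qq_symm (f g : E d → ℝ) (R : ℝ) : QQ R f g = QQ R g f := by
  unfold QQ
  rw [← integral_prod_swap]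
  congr 1
  funext p
  simp only [Prod.fst_swap, Prod.snd_swap]
  rw [← kr_symm, neg_sub]
  ring

lemma qq_form (f g : E d → ℝ) (R : ℝ) :
    (Form (fun x => (f x : ℂ)) (fun x => (g x : ℂ)) (ind d R)) = (QQ R f g : ℂ) := by
  unfold Form QQ
  rw [← integral_complex_ofReal]
  congr 1
  funext p
  rw [Complex.conj_ofReal, ind_kr]
  push_cast
  rfl

/-- the quadratic form is bounded from below -/
theorem qq_lower (hd : 0 < d) (hR : 0 < R) (hf : Br f) :
    -(2 * (R * √(4 * π / d)) ^ d) * ∫ x, f x ^ 2 ≤ QQ R f f := by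
  have h1 : (QQ R f f : ℂ) = ∫ ξ, (starRingEnd ℂ) (𝓕 (fun x => (f x : ℂ)) ξ) *
      (𝓕 (ind d R) ξ * 𝓕 (fun x => (f x : ℂ)) ξ) := by
    rw [← qq_form]
    exact form_L1 hf.bs hf.bs (ind_adm le_rfl).bs
  have hN : N2 (𝓕 (fun x => (f x : ℂ))) = ∫ x, f x ^ 2 := by
    rw [N2_fourier hf.bs.integrable hf.bs.memLp]
    unfold N2
    congr 1
    funext x
    rw [Complex.norm_real, Real.norm_eq_abs, sq_abs]
  have hsq : Integrable (fun ξ => ‖𝓕 (fun x => (f x : ℂ)) ξ‖ ^ 2) :=
    (memLp_two_iff_integrable_sq_norm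
      (fourier_cont hf.bs.integrable).aestronglyMeasurable).1
      (memLp_fourier hf.bs.integrable hf.bs.memLp)
  have hkc : Continuous (𝓕 (ind d R)) := fourier_cont (ind_adm (le_refl R)).integrable
  have hI : Integrable (fun ξ => ‖𝓕 (fun x => (f x : ℂ)) ξ‖ ^ 2 * (𝓕 (ind d R) ξ).re) := by
    refine hsq.mul_bdd (c := ∫ x, ‖ind d R x‖) ?_ (Filter.Eventually.of_forall fun ξ => ?_)
    · exact (Complex.continuous_re.comp hkc).aestronglyMeasurable
    · rw [Real.norm_eq_abs]
      exact (Complex.abs_re_le_norm _).trans (fourier_bound _ ξ)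
  have hI2 : Integrable (fun ξ => (starRingEnd ℂ) (𝓕 (fun x => (f x : ℂ)) ξ) *
      (𝓕 (ind d R) ξ * 𝓕 (fun x => (f x : ℂ)) ξ)) := by
    have he : (fun ξ => (starRingEnd ℂ) (𝓕 (fun x => (f x : ℂ)) ξ) *
      (𝓕 (ind d R) ξ * 𝓕 (fun x => (f x : ℂ)) ξ)) =
      fun ξ => ((‖𝓕 (fun x => (f x : ℂ)) ξ‖ ^ 2 : ℝ) : ℂ) * 𝓕 (ind d R) ξ := by
      funext ξ
      rw [← Complex.normSq_eq_norm_sq, Complex.normSq_eq_conj_mul_self]
      ring
    rw [he]
    refine hsq.ofReal.mul_bdd (c := ∫ x, ‖ind d R x‖) hkc.aestronglyMeasurable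
      (Filter.Eventually.of_forall fun ξ => fourier_bound _ ξ)
  have h2 : QQ R f f = ∫ ξ, ‖𝓕 (fun x => (f x : ℂ)) ξ‖ ^ 2 * (𝓕 (ind d R) ξ).re := by
    have h3 := congrArg Complex.re h1
    rw [Complex.ofReal_re] at h3
    rw [h3]
    have h4 := integral_re hI2
    rw [← RCLike.re_eq_complex_re, ← h4]
    congr 1
    funext ξ
    have he : (starRingEnd ℂ) (𝓕 (fun x => (f x : ℂ)) ξ) *
      (𝓕 (ind d R) ξ * 𝓕 (fun x => (f x : ℂ)) ξ) =
      ((‖𝓕 (fun x => (f x : ℂ)) ξ‖ ^ 2 : ℝ) : ℂ) * 𝓕 (ind d R) ξ := by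
      rw [← Complex.normSq_eq_norm_sq, Complex.normSq_eq_conj_mul_self]
      ring
    rw [he, RCLike.re_eq_complex_re, Complex.re_ofReal_mul]
  rw [h2, ← hN]
  unfold N2
  rw [← integral_const_mul]
  refine integral_mono (hsq.const_mul _) hI fun ξ => ?_
  have h5 := ind_lower hd hR ξ
  have h6 : 0 ≤ ‖𝓕 (fun x => (f x : ℂ)) ξ‖ ^ 2 := by positivity
  simp only
  nlinarith

/-- the real indicator function -/
noncomputable def ir (S : Set (E d)) (x : E d) : ℝ := S.indicator (fun _ => 1) x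

lemma ir_br {S : Set (E d)} (hS : MeasurableSet S) (hb : Bornology.IsBounded S) : Br (ir S) := by
  obtain ⟨B, hB⟩ := hb.subset_closedBall 0
  refine ⟨measurable_const.indicator hS, ⟨1, fun x => ?_⟩, ⟨B, fun x hx => ?_⟩⟩
  · unfold ir
    by_cases h : x ∈ S
    · rw [indicator_of_mem h]; simp
    · rw [indicator_of_notMem h]; simp
  · unfold ir
    rw [indicator_of_notMem]
    intro h
    have := hB h
    rw [mem_closedBall_zero_iff] at this
    linarith

lemma inner_eq {S : Set (E d)} (hS : MeasurableSet S) (x : E d) :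
    ∫ y, ir S y * kr d R (x - y) = volume.real (S ∩ closedBall x R) := by
  have h1 : ∀ y, ir S y * kr d R (x - y) = (S ∩ closedBall x R).indicator (fun _ => (1 : ℝ)) y := by
    intro y
    unfold ir kr
    by_cases hy : y ∈ S
    · rw [indicator_of_mem hy, one_mul]
      by_cases h2 : y ∈ closedBall x R
      · rw [indicator_of_mem (show y ∈ S ∩ closedBall x R from ⟨hy, h2⟩), indicator_of_mem]
        rw [mem_closedBall_zero_iff, ← dist_eq_norm, dist_comm]
        exact h2
      · have h3 : y ∉ S ∩ closedBall x R := fun h => h2 h.2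
        rw [indicator_of_notMem h3, indicator_of_notMem]
        rw [mem_closedBall_zero_iff, ← dist_eq_norm, dist_comm]
        exact h2
    · rw [indicator_of_notMem hy, zero_mul, indicator_of_notMem fun h => hy h.1]
  simp only [h1]
  rw [integral_indicator_const _ (hS.inter isClosed_closedBall.measurableSet), smul_eq_mul, mul_one]

lemma outer_eq {S : Set (E d)} (hS : MeasurableSet S) (u : E d → ℝ) :
    ∫ x, ir S x * u x = ∫ x in S, u x := by
  rw [← integral_indicator hS]
  congr 1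
  funext x
  unfold ir
  by_cases h : x ∈ S
  · rw [indicator_of_mem h, indicator_of_mem h, one_mul]
  · rw [indicator_of_notMem h, indicator_of_notMem h, zero_mul]

lemma qq_ir {S T : Set (E d)} (hS : MeasurableSet S) (hSb : Bornology.IsBounded S)
    (hT : MeasurableSet T) (hTb : Bornology.IsBounded T) (R : ℝ) :
    QQ R (ir S) (ir T) = ∫ x in S, volume.real (T ∩ closedBall x R) := by
  rw [qq_iter (ir_br hS hSb) (ir_br hT hTb)]
  simp only [inner_eq hT]
  exact outer_eq hS _

/-- **supersaturation** -/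
theorem supersat (hd : 0 < d) (hR : 0 < R) {S Ω : Set (E d)} (hS : MeasurableSet S)
    (hΩ : MeasurableSet Ω) (hΩb : Bornology.IsBounded Ω) (hSΩ : ∀ x ∈ S, closedBall x R ⊆ Ω)
    (hΩ0 : 0 < volume.real Ω) :
    volume.real S ^ 2 * (R ^ d * V1 d) / volume.real Ω - 2 * (R * √(4 * π / d)) ^ d * volume.real S ≤
      ∫ x in S, volume.real (S ∩ closedBall x R) := by
  have hSsub : S ⊆ Ω := fun x hx => hSΩ x hx (mem_closedBall_self hR.le)
  have hSb : Bornology.IsBounded S := hΩb.subset hSsub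
  have hSt : volume S ≠ ⊤ := hSb.measure_lt_top.ne
  have hΩt : volume Ω ≠ ⊤ := hΩb.measure_lt_top.ne
  obtain ⟨D, hD⟩ : ∃ D : ℝ, D = R ^ d * V1 d := ⟨_, rfl⟩
  obtain ⟨W, hW⟩ : ∃ W : ℝ, W = volume.real Ω := ⟨_, rfl⟩
  obtain ⟨m, hm⟩ : ∃ m : ℝ, m = volume.real S := ⟨_, rfl⟩
  obtain ⟨lam, hlam⟩ : ∃ lam : ℝ, lam = 2 * (R * √(4 * π / d)) ^ d := ⟨_, rfl⟩
  have hlam0 : 0 ≤ lam := by rw [hlam]; positivity
  rw [← hD, ← hW, ← hm, ← hlam]
  rw [← hW] at hΩ0
  obtain ⟨s, hs⟩ : ∃ s : ℝ, s = m / W := ⟨_, rfl⟩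
  have bS := ir_br hS hSb
  have bΩ := ir_br hΩ hΩb
  have hfun : Br (fun x => ir S x - s * ir Ω x) := by
    obtain ⟨C1, hC1⟩ := bS.bdd
    obtain ⟨C2, hC2⟩ := bΩ.bdd
    obtain ⟨B1, hB1⟩ := bS.supp
    obtain ⟨B2, hB2⟩ := bΩ.supp
    refine ⟨bS.meas.sub (bΩ.meas.const_mul s), ⟨C1 + |s| * C2, fun x => ?_⟩,
      ⟨max B1 B2, fun x hx => ?_⟩⟩
    · calc |ir S x - s * ir Ω x| ≤ |ir S x| + |s * ir Ω x| := abs_sub _ _
        _ ≤ C1 + |s| * C2 := by
          rw [abs_mul]
          gcongr
          · exact hC1 x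
          · exact hC2 x
    · rw [hB1 x (lt_of_le_of_lt (le_max_left _ _) hx), hB2 x (lt_of_le_of_lt (le_max_right _ _) hx)]
      ring
  have h1 := qq_lower hd hR hfun
  rw [← hlam] at h1
  -- expansion of the form
  have e1 : QQ R (fun x => ir S x - s * ir Ω x) (fun x => ir S x - s * ir Ω x) =
      QQ R (ir S) (ir S) - 2 * s * QQ R (ir S) (ir Ω) + s ^ 2 * QQ R (ir Ω) (ir Ω) := by
    have i1 := qq_int bS bS R
    have i2 := qq_int bS bΩ R
    have i3 := qq_int bΩ bS R
    have i4 := qq_int bΩ bΩ R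
    have h2 : QQ R (ir Ω) (ir S) = QQ R (ir S) (ir Ω) := qq_symm _ _ R
    have h3 : QQ R (fun x => ir S x - s * ir Ω x) (fun x => ir S x - s * ir Ω x) =
        QQ R (ir S) (ir S) - s * QQ R (ir S) (ir Ω) - s * QQ R (ir Ω) (ir S) +
          s ^ 2 * QQ R (ir Ω) (ir Ω) := by
      unfold QQ
      have j1 : Integrable (fun p : E d × E d => ir S p.1 * (kr d R (p.1 - p.2) * ir S p.2) -
          s * (ir S p.1 * (kr d R (p.1 - p.2) * ir Ω p.2))) (volume.prod volume) :=
        i1.sub (i2.const_mul s)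
      have j2 : Integrable (fun p : E d × E d => ir S p.1 * (kr d R (p.1 - p.2) * ir S p.2) -
          s * (ir S p.1 * (kr d R (p.1 - p.2) * ir Ω p.2)) -
          s * (ir Ω p.1 * (kr d R (p.1 - p.2) * ir S p.2))) (volume.prod volume) :=
        j1.sub (i3.const_mul s)
      rw [← integral_const_mul, ← integral_const_mul, ← integral_const_mul,
        ← integral_sub i1 (i2.const_mul s), ← integral_sub j1 (i3.const_mul s),
        ← integral_add j2 (i4.const_mul _)]
      congr 1
      funext p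
      ring
    rw [h3, h2]
    ring
  have e2 : QQ R (ir S) (ir Ω) = D * m := by
    rw [qq_ir hS hSb hΩ hΩb]
    have : ∀ x ∈ S, volume.real (Ω ∩ closedBall x R) = D := by
      intro x hx
      rw [inter_eq_right.2 (hSΩ x hx), hD, measureReal_def, Measure.addHaar_closedBall_center,
        ← measureReal_def, vol_cb hR.le]
    rw [setIntegral_congr_fun hS this, setIntegral_const, smul_eq_mul, hm]
    ring
  have e3 : QQ R (ir Ω) (ir Ω) ≤ D * W := by
    rw [qq_ir hΩ hΩb hΩ hΩb]
    have h2 : ∀ x, volume.real (Ω ∩ closedBall x R) ≤ D := by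
      intro x
      rw [hD, ← vol_cb hR.le]
      have : volume.real (closedBall x R) = volume.real (closedBall (0 : E d) R) := by
        rw [measureReal_def, Measure.addHaar_closedBall_center, ← measureReal_def]
      rw [← this]
      exact measureReal_mono inter_subset_right (isCompact_closedBall x R).measure_lt_top.ne
    have h3 : ∫ x in Ω, volume.real (Ω ∩ closedBall x R) ≤ ∫ x in Ω, D := by
      refine integral_mono_of_nonneg (Filter.Eventually.of_forall fun _ => measureReal_nonneg)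
        (integrableOn_const hΩt) (Filter.Eventually.of_forall h2)
    refine h3.trans (le_of_eq ?_)
    rw [setIntegral_const, smul_eq_mul, hW]
    ring
  have e4 : ∫ x, (ir S x - s * ir Ω x) ^ 2 = m - 2 * s * m + s ^ 2 * W := by
    have h2 : ∀ x, (ir S x - s * ir Ω x) ^ 2 = (1 - 2 * s) * ir S x + s ^ 2 * ir Ω x := by
      intro x
      unfold ir
      by_cases h : x ∈ S
      · rw [indicator_of_mem h, indicator_of_mem (hSsub h)]
        ring
      · rw [indicator_of_notMem h]
        by_cases h' : x ∈ Ω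
        · rw [indicator_of_mem h']
          ring
        · rw [indicator_of_notMem h']
          ring
    simp only [h2]
    rw [integral_add (bS.integrable.const_mul _) (bΩ.integrable.const_mul _), integral_const_mul,
      integral_const_mul]
    have h3 : ∫ x, ir S x = m := by
      unfold ir
      rw [integral_indicator_const _ hS, smul_eq_mul, mul_one, hm]
    have h4 : ∫ x, ir Ω x = W := by
      unfold ir
      rw [integral_indicator_const _ hΩ, smul_eq_mul, mul_one, hW]
    rw [h3, h4]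
    ring
  rw [e1, e2, e4] at h1
  rw [← qq_ir hS hSb hS hSb]
  have h5 : s ^ 2 * QQ R (ir Ω) (ir Ω) ≤ s ^ 2 * (D * W) := mul_le_mul_of_nonneg_left e3 (sq_nonneg s)
  have hsW : s * W = m := by
    rw [hs]
    field_simp
  have hm0 : 0 ≤ m := by rw [hm]; exact measureReal_nonneg
  have h6 : m ^ 2 * D / W = s * m * D := by
    rw [hs]
    ring
  have h7 : 0 ≤ lam * (s * m) := by
    have : 0 ≤ s := by rw [hs]; positivity
    positivity
  rw [h6]
  have h8 : s ^ 2 * W = s * m := by
    rw [← hsW]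
    ring
  have h9 : s ^ 2 * (D * W) = s * m * D := by
    rw [← hsW]
    ring
  rw [h9] at h5
  rw [h8] at h1
  nlinarith

end Pool.Agent.N628.EP
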