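import Pool.Agent.N628.EP.F4
import Pool.Agent.N628.EP.S1

/-!
N628/EP: kernels with several scales.
-/

set_option autoImplicit false

open MeasureTheory Set Real FourierTransform Metric

namespace Pool.Agent.N628.EP

open Pool.Agent.Y509.LS

/-- the decay, in absolute value -/
lemma FF_decay_abs {m : ℕ} (hm : 0 < m) {x : ℝ} (hx : (m : ℝ) / 2 ≤ x) {u : ℝ} (hu : 0 ≤ u)
    (h : ((m / 2) / x) ^ m ≤ u ^ 2) : |FF m x| ≤ √(120 * m) * u * FF m (m / 2) := by
  have h0 := FF_pos hm (x := m / 2) (by positivity) le_rfl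
  have h1 := FF_decay hm hx
  have h2 : FF m x ^ 2 ≤ (√(120 * m) * u * FF m (m / 2)) ^ 2 := by
    rw [mul_pow, mul_pow, Real.sq_sqrt (by positivity)]
    refine h1.trans ?_
    gcongr
  have h3 := abs_le_of_sq_le_sq h2 (by positivity)
  exact h3

/-- **domination** -/
theorem multi {d : ℕ} (hd : 0 < d) {r a E : ℝ} (hr : 0 < r) (hr1 : r < 1) (ha : 0 < a) (ha1 : a ≤ 1)
    (hra : r ^ d ≤ a ^ 2) {l J : ℕ} (hE : 0 ≤ E)
    (hgain : ∀ x : ℝ, r ^ (l + 1) * (d / 2) ≤ x → x ≤ r ^ l * (d / 2) → FF d (d / 2) * E ≤ FF d x)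
    (hEa : (J + 1) * √(120 * d) ≤ E * a ^ (l + 1)) {X : ℝ} (hX : 0 ≤ X) :
    -((J + 1) * √(120 * d) * FF d (d / 2) * a ^ (J - l)) ≤
      ∑ j ∈ Finset.range (J + 1), a ^ j * FF d (r ^ j * X) := by
  classical
  obtain ⟨ν, hν⟩ : ∃ ν : ℝ, ν = d / 2 := ⟨_, rfl⟩
  have hd' : (0 : ℝ) < d := by exact_mod_cast hd
  have hν0 : 0 < ν := by rw [hν]; positivity
  have hF0 := FF_pos hd (x := d / 2) (by positivity) le_rfl
  rw [← hν] at hF0 hgain ⊢
  obtain ⟨C, hC⟩ : ∃ C : ℝ, C = √(120 * d) := ⟨_, rfl⟩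
  have hC0 : 0 ≤ C := by rw [hC]; positivity
  rw [← hC] at hEa ⊢
  -- the first index with `r ^ i X ≤ ν`
  obtain ⟨i, hi1, hi2, hiJ⟩ : ∃ i : ℕ, (∀ j < i, ν < r ^ j * X) ∧
      ((i ≤ J ∧ r ^ i * X ≤ ν) ∨ i = J + 1) ∧ i ≤ J + 1 := by
    by_cases h : ∃ j, j ≤ J ∧ r ^ j * X ≤ ν
    · refine ⟨Nat.find h, fun j hj => ?_, Or.inl (Nat.find_spec h), ?_⟩
      · have h1 := Nat.find_min h hj
        rw [not_and, not_le] at h1
        refine h1 ?_
        have := (Nat.find_spec h).1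
        omega
      · have := (Nat.find_spec h).1
        omega
    · push Not at h
      exact ⟨J + 1, fun j hj => h j (by omega), Or.inr rfl, le_rfl⟩
  -- the negative part
  have hneg : ∀ j < i, -(C * FF d ν * a ^ (i - 1)) ≤ a ^ j * FF d (r ^ j * X) := by
    intro j hj
    have h1 := hi1 j hj
    have h2 := hi1 (i - 1) (by omega)
    have hrj : 0 < r ^ j := pow_pos hr j
    have h3 : ν / (r ^ j * X) ≤ r ^ (i - 1 - j) := by
      rw [div_le_iff₀ (lt_trans hν0 h1)]
      have h4 : r ^ (i - 1 - j) * (r ^ j * X) = r ^ (i - 1) * X := by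
        rw [← mul_assoc, ← pow_add]
        congr 2
        omega
      rw [h4]
      exact h2.le
    have h4 : (ν / (r ^ j * X)) ^ d ≤ (a ^ (i - 1 - j)) ^ 2 := by
      calc (ν / (r ^ j * X)) ^ d ≤ (r ^ (i - 1 - j)) ^ d :=
            pow_le_pow_left₀ (div_nonneg hν0.le (hν0.le.trans h1.le)) h3 d
        _ = (r ^ d) ^ (i - 1 - j) := by rw [← pow_mul, ← pow_mul, mul_comm]
        _ ≤ (a ^ 2) ^ (i - 1 - j) := pow_le_pow_left₀ (by positivity) hra _
        _ = (a ^ (i - 1 - j)) ^ 2 := by rw [← pow_mul, ← pow_mul, mul_comm]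
    have h5 := FF_decay_abs hd (x := r ^ j * X) (by rw [← hν]; exact h1.le)
      (u := a ^ (i - 1 - j)) (by positivity) (by rw [← hν]; exact h4)
    rw [← hν, ← hC] at h5
    have h6 := (abs_le.1 h5).1
    have h7 := mul_le_mul_of_nonneg_left h6 (show 0 ≤ a ^ j by positivity)
    refine le_trans (le_of_eq ?_) h7
    have h8 : a ^ (i - 1) = a ^ j * a ^ (i - 1 - j) := by
      rw [← pow_add]
      congr 1
      omega
    rw [h8]
    ring
  have hpos : ∀ j, i ≤ j → j ≤ J → 0 ≤ a ^ j * FF d (r ^ j * X) := by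
    intro j hj1 hj2
    rcases hi2 with h | h
    · have h1 : r ^ j * X ≤ ν := by
        refine le_trans ?_ h.2
        refine mul_le_mul_of_nonneg_right ?_ hX
        exact pow_le_pow_of_le_one hr.le hr1.le hj1
      have h2 := FF_pos hd (x := r ^ j * X) (by positivity) (by rw [← hν]; exact h1)
      positivity
    · omega
  have hsplit : Finset.range (J + 1) = Finset.range i ∪ Finset.Ico i (J + 1) := by
    rw [Finset.range_eq_Ico, Finset.range_eq_Ico, Finset.Ico_union_Ico_eq_Ico (Nat.zero_le _) hiJ]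
  have hdis : Disjoint (Finset.range i) (Finset.Ico i (J + 1)) := by
    rw [Finset.range_eq_Ico]
    exact Finset.Ico_disjoint_Ico_consecutive _ _ _
  rw [hsplit, Finset.sum_union hdis]
  have hsneg : -((J + 1) * (C * FF d ν * a ^ (i - 1))) ≤ ∑ j ∈ Finset.range i, a ^ j * FF d (r ^ j * X) := by
    have h1 : ∑ _j ∈ Finset.range i, -(C * FF d ν * a ^ (i - 1)) ≤
        ∑ j ∈ Finset.range i, a ^ j * FF d (r ^ j * X) :=
      Finset.sum_le_sum fun j hj => hneg j (Finset.mem_range.1 hj)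
    rw [Finset.sum_const, Finset.card_range, nsmul_eq_mul] at h1
    refine le_trans ?_ h1
    have h2 : (i : ℝ) ≤ J + 1 := by exact_mod_cast hiJ
    have h3 : 0 ≤ C * FF d ν * a ^ (i - 1) := by positivity
    nlinarith
  rcases Nat.lt_or_ge J (i + l) with hil | hil
  · -- the end of the range
    have h1 : 0 ≤ ∑ j ∈ Finset.Ico i (J + 1), a ^ j * FF d (r ^ j * X) := by
      refine Finset.sum_nonneg fun j hj => ?_
      rw [Finset.mem_Ico] at hj
      exact hpos j hj.1 (by omega)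
    have h2 : a ^ (i - 1) ≤ a ^ (J - l) := pow_le_pow_of_le_one ha.le ha1 (by omega)
    have h3 : (J + 1) * (C * FF d ν * a ^ (i - 1)) ≤ (J + 1) * (C * FF d ν * a ^ (J - l)) := by
      gcongr
    linarith
  · have hij : i ≤ J := by omega
    have hi3 : r ^ i * X ≤ ν := by
      rcases hi2 with h | h
      · exact h.2
      · omega
    have h1 : a ^ (i + l) * FF d (r ^ (i + l) * X) ≤ ∑ j ∈ Finset.Ico i (J + 1), a ^ j * FF d (r ^ j * X) := by
      refine Finset.single_le_sum (f := fun j => a ^ j * FF d (r ^ j * X)) (fun j hj => ?_) ?_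
      · rw [Finset.mem_Ico] at hj
        exact hpos j hj.1 (by omega)
      · rw [Finset.mem_Ico]
        omega
    rcases Nat.eq_zero_or_pos i with hi0 | hi0
    · -- no negative part
      have h2 := hpos (i + l) (by omega) (by omega)
      rw [hi0, Finset.range_zero, Finset.sum_empty, zero_add]
      rw [hi0] at h1 h2
      have h3 : 0 ≤ (J + 1) * C * FF d ν * a ^ (J - l) := by positivity
      linarith
    · have h2 := hi1 (i - 1) (by omega)
      have h3 : r ^ (i + l) * X ≤ r ^ l * ν := by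
        rw [pow_add, mul_comm (r ^ i), mul_assoc]
        gcongr
      have h4 : r ^ (l + 1) * ν ≤ r ^ (i + l) * X := by
        have h5 : r ^ (i + l) * X = r ^ (l + 1) * (r ^ (i - 1) * X) := by
          rw [← mul_assoc, ← pow_add]
          congr 2
          omega
        rw [h5]
        gcongr
      have h5 := hgain _ h4 h3
      have h6 : (J + 1) * (C * FF d ν * a ^ (i - 1)) ≤ a ^ (i + l) * FF d (r ^ (i + l) * X) := by
        calc (J + 1) * (C * FF d ν * a ^ (i - 1)) = ((J + 1) * C) * (FF d ν * a ^ (i - 1)) := by ring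
          _ ≤ (E * a ^ (l + 1)) * (FF d ν * a ^ (i - 1)) := by gcongr
          _ = a ^ (i + l) * (FF d ν * E) := by
              have : a ^ (i + l) = a ^ (l + 1) * a ^ (i - 1) := by
                rw [← pow_add]
                congr 1
                omega
              rw [this]
              ring
          _ ≤ a ^ (i + l) * FF d (r ^ (i + l) * X) := by gcongr
      have h7 : 0 ≤ (J + 1) * C * FF d ν * a ^ (J - l) := by positivity
      linarith

/-- the Fourier transform of the indicator function of a ball -/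
lemma ind_re {n : ℕ} {R : ℝ} (hR : 0 < R) (ξ : E (n + 1)) :
    (𝓕 (ind (n + 1) R) ξ).re = R ^ (n + 1) * (V1 n * FF (n + 1) (R * (2 * π * ‖ξ‖))) := by
  rw [ind_scale _ hR, fourier_scale _ (inv_pos.2 hR), Complex.re_ofReal_mul, ind_fourier, inv_pow,
    inv_inv, inv_inv, norm_smul, Real.norm_of_nonneg hR.le]
  congr 3
  ring

/-- the Fourier transform of the kernel with several scales -/
theorem multi_fourier {d : ℕ} (hd : 0 < d) {R r w a E' : ℝ} (hR : 0 < R) (hr : 0 < r) (hr1 : r < 1)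
    (hw : a = w * r ^ d) (ha : 0 < a) (ha1 : a ≤ 1)
    (hra : r ^ d ≤ a ^ 2) {l J : ℕ} (hE : 0 ≤ E')
    (hgain : ∀ x : ℝ, r ^ (l + 1) * (d / 2) ≤ x → x ≤ r ^ l * (d / 2) → FF d (d / 2) * E' ≤ FF d x)
    (hEa : (J + 1) * √(120 * d) ≤ E' * a ^ (l + 1)) (ξ : E d) :
    -((J + 1) * √(120 * d) * (R * √(4 * π / d)) ^ d * a ^ (J - l)) ≤
      ∑ j ∈ Finset.range (J + 1), w ^ j * (𝓕 (ind d (R * r ^ j)) ξ).re := by
  obtain ⟨n, rfl⟩ : ∃ n, d = n + 1 := ⟨d - 1, by omega⟩
  have h1 := multi hd hr hr1 ha ha1 hra hE hgain hEa (X := R * (2 * π * ‖ξ‖)) (by positivity)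
  have h2 := F_half_le n
  have hV := V1_pos n
  have h3 : ∀ j, w ^ j * (𝓕 (ind (n + 1) (R * r ^ j)) ξ).re =
      (R ^ (n + 1) * V1 n) * (a ^ j * FF (n + 1) (r ^ j * (R * (2 * π * ‖ξ‖)))) := by
    intro j
    rw [ind_re (by positivity), hw, mul_pow R, mul_pow w]
    have e1 : (r ^ j) ^ (n + 1) = (r ^ (n + 1)) ^ j := by rw [← pow_mul, ← pow_mul, mul_comm]
    have e2 : R * r ^ j * (2 * π * ‖ξ‖) = r ^ j * (R * (2 * π * ‖ξ‖)) := by ring
    rw [e1, e2]
    ring
  simp only [h3]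
  rw [← Finset.mul_sum]
  have h4 := mul_le_mul_of_nonneg_left h1 (show 0 ≤ R ^ (n + 1) * V1 n by positivity)
  refine le_trans ?_ h4
  rw [mul_neg, neg_le_neg_iff]
  calc R ^ (n + 1) * V1 n * ((J + 1) * √(120 * ((n + 1 : ℕ) : ℝ)) * FF (n + 1) (((n + 1 : ℕ) : ℝ) / 2) *
      a ^ (J - l)) = (J + 1) * √(120 * ((n + 1 : ℕ) : ℝ)) * (R ^ (n + 1) *
        (V1 n * FF (n + 1) (((n + 1 : ℕ) : ℝ) / 2))) * a ^ (J - l) := by ring
    _ ≤ (J + 1) * √(120 * ((n + 1 : ℕ) : ℝ)) * (R ^ (n + 1) *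
        (√(4 * π / ((n + 1 : ℕ) : ℝ)) ^ (n + 1))) * a ^ (J - l) := by gcongr
    _ = _ := by rw [mul_pow]

end Pool.Agent.N628.EP
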