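import Mathlib

/-!
N628/EP: the Kleitman-Winston bound for the number of independent sets.
-/

set_option autoImplicit false

namespace Pool.Agent.N628.EP

open Classical

variable {ι : Type} (adj : ι → ι → Prop)

/-- independent sets -/
def Inde (I : Finset ι) : Prop := ∀ x ∈ I, ∀ y ∈ I, x ≠ y → ¬ adj x y

/-- the number of independent sets with `k` elements -/
noncomputable def cnt (A : Finset ι) (k : ℕ) : ℕ := ((A.powersetCard k).filter (Inde adj)).card

variable {adj}

lemma Inde.mono {I J : Finset ι} (h : Inde adj J) (hIJ : I ⊆ J) : Inde adj I :=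
  fun x hx y hy hxy => h x (hIJ hx) y (hIJ hy) hxy

lemma cnt_le (A : Finset ι) (k : ℕ) : cnt adj A k ≤ A.card.choose k := by
  unfold cnt
  rw [← Finset.card_powersetCard]
  exact Finset.card_filter_le _ _

lemma cnt_rec (A : Finset ι) (v : ι) (k : ℕ) :
    cnt adj A (k + 1) ≤ cnt adj (A.erase v) (k + 1) +
      cnt adj ((A.erase v).filter fun y => ¬ adj v y) k := by
  unfold cnt
  have h1 : (A.powersetCard (k + 1)).filter (Inde adj) ⊆
      (((A.erase v).powersetCard (k + 1)).filter (Inde adj)) ∪
      ((((((A.erase v).filter fun y => ¬ adj v y)).powersetCard k).filter (Inde adj)).image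
        (insert v)) := by
    intro I hI
    rw [Finset.mem_filter, Finset.mem_powersetCard] at hI
    rw [Finset.mem_union]
    by_cases hvI : v ∈ I
    · right
      rw [Finset.mem_image]
      refine ⟨I.erase v, ?_, Finset.insert_erase hvI⟩
      rw [Finset.mem_filter, Finset.mem_powersetCard]
      refine ⟨⟨?_, ?_⟩, hI.2.mono (Finset.erase_subset _ _)⟩
      · intro y hy
        rw [Finset.mem_erase] at hy
        rw [Finset.mem_filter, Finset.mem_erase]
        exact ⟨⟨hy.1, hI.1.1 hy.2⟩, hI.2 v hvI y hy.2 (Ne.symm hy.1)⟩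
      · rw [Finset.card_erase_of_mem hvI, hI.1.2]
        rfl
    · left
      rw [Finset.mem_filter, Finset.mem_powersetCard]
      refine ⟨⟨?_, hI.1.2⟩, hI.2⟩
      intro y hy
      rw [Finset.mem_erase]
      exact ⟨fun h => hvI (h ▸ hy), hI.1.1 hy⟩
  refine (Finset.card_le_card h1).trans ((Finset.card_union_le _ _).trans ?_)
  exact Nat.add_le_add_left Finset.card_image_le _

/-- **Kleitman-Winston** -/
theorem kw {b : ℝ} (hb1 : b ≤ 1) {R : ℕ}
    {A₀ : Finset ι}
    (hdeg : ∀ B ⊆ A₀, R < B.card → ∃ v ∈ B,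
      b * B.card ≤ (((B.erase v).filter fun y => adj v y).card : ℝ)) :
    ∀ (a : ℕ) (A : Finset ι), A.card = a → A ⊆ A₀ → ∀ q k : ℕ, q ≤ k →
      (A.card : ℝ) * (1 - b) ^ q ≤ R → cnt adj A k ≤ A.card.choose q * R.choose (k - q) := by
  intro a
  induction a using Nat.strong_induction_on with
  | _ a ih =>
    intro A hA hAA q k hqk hR
    rcases Nat.lt_or_ge R A.card with hlt | hge
    swap
    · refine (cnt_le A k).trans ?_
      rcases Nat.lt_or_ge A.card k with h | h
      · rw [Nat.choose_eq_zero_of_lt h]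
        exact Nat.zero_le _
      · have h1 := Nat.choose_mul (n := A.card) (k := k) (s := q) hqk
        have h2 : 1 ≤ k.choose q := Nat.choose_pos hqk
        calc A.card.choose k = A.card.choose k * 1 := (mul_one _).symm
          _ ≤ A.card.choose k * k.choose q := Nat.mul_le_mul_left _ h2
          _ = A.card.choose q * (A.card - q).choose (k - q) := h1
          _ ≤ A.card.choose q * R.choose (k - q) :=
            Nat.mul_le_mul_left _ (Nat.choose_le_choose _ (by omega))
    · rcases Nat.eq_zero_or_pos q with hq | hq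
      · exfalso
        rw [hq, pow_zero, mul_one] at hR
        have : A.card ≤ R := by exact_mod_cast hR
        omega
      · obtain ⟨q', rfl⟩ : ∃ q', q = q' + 1 := ⟨q - 1, by omega⟩
        obtain ⟨k', rfl⟩ : ∃ k', k = k' + 1 := ⟨k - 1, by omega⟩
        obtain ⟨v, hv, hvd⟩ := hdeg A hAA hlt
        have h1 := cnt_rec (adj := adj) A v k'
        obtain ⟨A1, hA1⟩ : ∃ A1, A1 = A.erase v := ⟨_, rfl⟩
        obtain ⟨A2, hA2⟩ : ∃ A2, A2 = (A.erase v).filter fun y => ¬ adj v y := ⟨_, rfl⟩
        rw [← hA2, ← hA1] at h1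
        have c1 : A1.card = A.card - 1 := by rw [hA1, Finset.card_erase_of_mem hv]
        have hApos : 0 < A.card := Finset.card_pos.2 ⟨v, hv⟩
        have c2 : A2.card + ((A.erase v).filter fun y => adj v y).card = A.card - 1 := by
          rw [hA2, add_comm, Finset.card_filter_add_card_filter_not,
            Finset.card_erase_of_mem hv]
        have s1 : A1 ⊆ A := by rw [hA1]; exact Finset.erase_subset _ _
        have s2 : A2 ⊆ A := by
          rw [hA2]
          exact (Finset.filter_subset _ _).trans (Finset.erase_subset _ _)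
        have hb2 : 0 ≤ 1 - b := by linarith
        have i1 := ih A1.card (by omega) A1 rfl (s1.trans hAA) (q' + 1) (k' + 1) hqk (by
          refine le_trans ?_ hR
          have : (A1.card : ℝ) ≤ A.card := by exact_mod_cast Finset.card_le_card s1
          gcongr)
        have i2 := ih A2.card (by omega) A2 rfl (s2.trans hAA) q' k' (by omega) (by
          refine le_trans ?_ hR
          have h2 : (A2.card : ℝ) ≤ A.card * (1 - b) := by
            have h3 : ((A2.card + ((A.erase v).filter fun y => adj v y).card : ℕ) : ℝ) ≤ A.card := by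
              exact_mod_cast (by omega : A2.card + ((A.erase v).filter fun y => adj v y).card ≤ A.card)
            push_cast at h3
            linarith
          calc (A2.card : ℝ) * (1 - b) ^ q' ≤ (A.card * (1 - b)) * (1 - b) ^ q' := by gcongr
            _ = A.card * (1 - b) ^ (q' + 1) := by ring)
        have e1 : k' + 1 - (q' + 1) = k' - q' := by omega
        rw [e1] at i1 ⊢
        have h2 : A2.card.choose q' ≤ (A.card - 1).choose q' :=
          Nat.choose_le_choose _ (by omega)
        have h3 : A.card.choose (q' + 1) = (A.card - 1).choose q' + (A.card - 1).choose (q' + 1) := by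
          obtain ⟨c, hc⟩ : ∃ c, A.card = c + 1 := ⟨A.card - 1, by omega⟩
          rw [hc, Nat.choose_succ_succ]
          rfl
        rw [c1] at i1
        calc cnt adj A (k' + 1) ≤ cnt adj A1 (k' + 1) + cnt adj A2 k' := h1
          _ ≤ (A.card - 1).choose (q' + 1) * R.choose (k' - q') +
              (A.card - 1).choose q' * R.choose (k' - q') :=
            Nat.add_le_add i1 (i2.trans (Nat.mul_le_mul_right _ h2))
          _ = A.card.choose (q' + 1) * R.choose (k' - q') := by rw [h3]; ring

/-- the ordered independent tuples -/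
noncomputable def tup (adj : ι → ι → Prop) (A : Finset ι) (k : ℕ) : Finset (Fin k → ι) :=
  (Fintype.piFinset fun _ : Fin k => A).filter
    fun f => ∀ i j, i ≠ j → f i ≠ f j ∧ ¬ adj (f i) (f j)

lemma mem_tup {A : Finset ι} {k : ℕ} {f : Fin k → ι} : f ∈ tup adj A k ↔
    (∀ i, f i ∈ A) ∧ ∀ i j, i ≠ j → f i ≠ f j ∧ ¬ adj (f i) (f j) := by
  rw [tup, Finset.mem_filter, Fintype.mem_piFinset]

lemma tup_card (A : Finset ι) (k : ℕ) : (tup adj A k).card ≤ k.factorial * cnt adj A k := by
  have h1 : (tup adj A k).card ≤ k.factorial *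
      ((tup adj A k).image fun f => Finset.univ.image f).card := by
    refine Finset.card_le_mul_card_image _ _ fun I hI => ?_
    rw [Finset.mem_image] at hI
    obtain ⟨f₀, hf₀, hfI⟩ := hI
    have hinj : ∀ f ∈ tup adj A k, Function.Injective f := by
      intro f hf i j hij
      rw [tup, Finset.mem_filter] at hf
      by_contra hne
      exact (hf.2 i j hne).1 hij
    have hIc : I.card = k := by
      rw [← hfI, Finset.card_image_of_injective _ (hinj f₀ hf₀), Finset.card_univ, Fintype.card_fin]
    have h2 : Fintype.card (Fin k ↪ I) = k.factorial := by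
      rw [Fintype.card_embedding_eq, Fintype.card_coe, hIc, Fintype.card_fin, Nat.descFactorial_self]
    rw [← h2, ← Fintype.card_coe]
    have hm : ∀ f : {f // f ∈ (tup adj A k).filter fun f => Finset.univ.image f = I},
        ∀ i, f.1 i ∈ I := by
      intro f i
      have h3 := (Finset.mem_filter.1 f.2).2
      exact (Finset.ext_iff.1 h3 (f.1 i)).1 (Finset.mem_image_of_mem f.1 (Finset.mem_univ i))
    refine Fintype.card_le_of_injective
      (fun f : {f // f ∈ (tup adj A k).filter fun f => Finset.univ.image f = I} =>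
        (⟨fun i => ⟨f.1 i, hm f i⟩, fun i j hij =>
          hinj f.1 (Finset.mem_filter.1 f.2).1 (Subtype.ext_iff.1 hij)⟩ : Fin k ↪ I)) ?_
    intro f g hfg
    apply Subtype.ext
    funext i
    have h3 := congrArg (fun e : Fin k ↪ I => ((e i : I) : ι)) hfg
    exact h3
  refine h1.trans (Nat.mul_le_mul_left _ ?_)
  unfold cnt
  refine Finset.card_le_card fun I hI => ?_
  rw [Finset.mem_image] at hI
  obtain ⟨f, hf, rfl⟩ := hI
  rw [tup, Finset.mem_filter, Fintype.mem_piFinset] at hf
  have hinj : Function.Injective f := by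
    intro i j hij
    by_contra hne
    exact (hf.2 i j hne).1 hij
  rw [Finset.mem_filter, Finset.mem_powersetCard]
  refine ⟨⟨?_, ?_⟩, ?_⟩
  · intro y hy
    rw [Finset.mem_image] at hy
    obtain ⟨i, _, rfl⟩ := hy
    exact hf.1 i
  · rw [Finset.card_image_of_injective _ hinj, Finset.card_univ, Fintype.card_fin]
  · intro x hx y hy hxy
    rw [Finset.mem_image] at hx hy
    obtain ⟨i, _, rfl⟩ := hx
    obtain ⟨j, _, rfl⟩ := hy
    exact (hf.2 i j fun h => hxy (by rw [h])).2

lemma tup_bound {b : ℝ} (hb1 : b ≤ 1) {R : ℕ}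
    {A : Finset ι}
    (hdeg : ∀ B ⊆ A, R < B.card → ∃ v ∈ B,
      b * B.card ≤ (((B.erase v).filter fun y => adj v y).card : ℝ)) {q k : ℕ} (hqk : q ≤ k)
    (hR : (A.card : ℝ) * (1 - b) ^ q ≤ R) :
    ((tup adj A k).card : ℝ) ≤ 2 ^ k * ((A.card : ℝ) ^ q * (R : ℝ) ^ (k - q)) := by
  have h1 := kw hb1 hdeg A.card A rfl (Finset.Subset.refl _) q k hqk hR
  have h2 : ((tup adj A k).card : ℝ) ≤ k.factorial * (A.card.choose q * R.choose (k - q)) := by
    exact_mod_cast (tup_card A k).trans (Nat.mul_le_mul_left _ h1)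
  refine h2.trans ?_
  have h3 : (A.card.choose q : ℝ) ≤ (A.card : ℝ) ^ q / q.factorial := Nat.choose_le_pow_div _ _
  have h4 : (R.choose (k - q) : ℝ) ≤ (R : ℝ) ^ (k - q) / (k - q).factorial :=
    Nat.choose_le_pow_div _ _
  have h5 : (k.choose q : ℝ) ≤ 2 ^ k := by exact_mod_cast Nat.choose_le_two_pow k q
  have h6 : (k.choose q : ℝ) * q.factorial * (k - q).factorial = k.factorial := by
    exact_mod_cast Nat.choose_mul_factorial_mul_factorial hqk
  calc (k.factorial : ℝ) * (A.card.choose q * R.choose (k - q)) ≤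
      k.factorial * ((A.card : ℝ) ^ q / q.factorial * ((R : ℝ) ^ (k - q) / (k - q).factorial)) := by
        gcongr
    _ = (k.choose q : ℝ) * ((A.card : ℝ) ^ q * (R : ℝ) ^ (k - q)) := by
        rw [← h6]
        have h7 : (q.factorial : ℝ) ≠ 0 := by exact_mod_cast Nat.factorial_ne_zero q
        have h8 : ((k - q).factorial : ℝ) ≠ 0 := by exact_mod_cast Nat.factorial_ne_zero (k - q)
        field_simp
    _ ≤ 2 ^ k * ((A.card : ℝ) ^ q * (R : ℝ) ^ (k - q)) := by gcongr

end Pool.Agent.N628.EP
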