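import Pool.Agent.N628.EP.S1
import Pool.Agent.N628.EP.W1
import Pool.Agent.N628.EP.Defs

/-!
N628/EP: the grid.
-/

set_option autoImplicit false

open MeasureTheory Set Real Metric

namespace Pool.Agent.N628.EP

open Pool.Agent.Y509.LS

variable {n : ℕ}

/-- boxes -/
lemma box_vol (n : ℕ) {a b : ℝ} (hab : a ≤ b) :
    volume {x : E n | ∀ i, x i ∈ Icc a b} = ENNReal.ofReal ((b - a) ^ n) := by
  have h1 : {x : E n | ∀ i, x i ∈ Icc a b} =
      (WithLp.ofLp : E n → (Fin n → ℝ)) ⁻¹' (Set.pi univ fun _ => Icc a b) := by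
    ext x
    simp only [mem_ofPred_eq, mem_preimage, Set.mem_pi, mem_univ, true_implies]
  rw [h1, (PiLp.volume_preserving_ofLp (Fin n)).measure_preimage
    (MeasurableSet.univ_pi fun _ => measurableSet_Icc).nullMeasurableSet, volume_pi_pi]
  simp only [Real.volume_Icc, Finset.prod_const, Finset.card_univ, Fintype.card_fin]
  rw [ENNReal.ofReal_pow (by linarith)]

lemma box_meas (n : ℕ) (a b : ℝ) : MeasurableSet {x : E n | ∀ i, x i ∈ Icc a b} := by
  have h1 : {x : E n | ∀ i, x i ∈ Icc a b} =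
      (WithLp.ofLp : E n → (Fin n → ℝ)) ⁻¹' (Set.pi univ fun _ => Icc a b) := by
    ext x
    simp only [mem_ofPred_eq, mem_preimage, Set.mem_pi, mem_univ, true_implies]
  rw [h1]
  exact (MeasurableSet.univ_pi fun _ => measurableSet_Icc).preimage
    (PiLp.volume_preserving_ofLp (Fin n)).measurable

/-- the index of the cell of a point -/
noncomputable def cl (s : ℝ) (x : E n) : Fin n → ℤ := fun j => ⌊x j / s⌋

/-- the cells -/
def cell (s : ℝ) (c : Fin n → ℤ) : Set (E n) := {x | cl s x = c}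

lemma cell_eq {s : ℝ} (hs : 0 < s) (c : Fin n → ℤ) :
    cell s c = (WithLp.ofLp : E n → (Fin n → ℝ)) ⁻¹'
      (Set.pi univ fun j => Ico (s * c j) (s * (c j + 1))) := by
  ext x
  simp only [cell, mem_ofPred_eq, mem_preimage, Set.mem_pi, mem_univ, true_implies, cl, funext_iff,
    Int.floor_eq_iff, mem_Ico]
  refine forall_congr' fun j => ?_
  rw [le_div_iff₀ hs, div_lt_iff₀ hs, mul_comm s, mul_comm s]

lemma cell_meas {s : ℝ} (hs : 0 < s) (c : Fin n → ℤ) : MeasurableSet (cell s c) := by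
  rw [cell_eq hs]
  exact (MeasurableSet.univ_pi fun _ => measurableSet_Ico).preimage
    (PiLp.volume_preserving_ofLp (Fin n)).measurable

lemma cell_vol {s : ℝ} (hs : 0 < s) (c : Fin n → ℤ) : volume (cell s c) = ENNReal.ofReal (s ^ n) := by
  rw [cell_eq hs, (PiLp.volume_preserving_ofLp (Fin n)).measure_preimage
    (MeasurableSet.univ_pi fun _ => measurableSet_Ico).nullMeasurableSet, volume_pi_pi]
  simp only [Real.volume_Ico]
  have : ∀ j, s * ((c j : ℝ) + 1) - s * c j = s := fun j => by ring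
  simp only [this, Finset.prod_const, Finset.card_univ, Fintype.card_fin]
  rw [ENNReal.ofReal_pow hs.le]

lemma cell_dist {s : ℝ} (hs : 0 < s) {x y : E n} (h : cl s x = cl s y) : dist x y ≤ s * √n := by
  rw [EuclideanSpace.dist_eq]
  apply Real.sqrt_le_iff.2
  refine ⟨by positivity, ?_⟩
  rw [mul_pow, Real.sq_sqrt (Nat.cast_nonneg n)]
  have h1 : ∀ j, dist (x j) (y j) ^ 2 ≤ s ^ 2 := by
    intro j
    rw [Real.dist_eq, sq_abs]
    have h2 : ⌊x j / s⌋ = ⌊y j / s⌋ := congrFun h j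
    have h3 := Int.abs_sub_lt_one_of_floor_eq_floor h2
    rw [← sub_div, abs_div, abs_of_pos hs, div_lt_one hs] at h3
    rw [← sq_abs (x j - y j)]
    exact pow_le_pow_left₀ (abs_nonneg _) h3.le 2
  calc ∑ j, dist (x j) (y j) ^ 2 ≤ ∑ _j : Fin n, s ^ 2 := Finset.sum_le_sum fun j _ => h1 j
    _ = s ^ 2 * n := by rw [Finset.sum_const, Finset.card_univ, Fintype.card_fin, nsmul_eq_mul]; ring

/-- unions of cells -/
def uc (s : ℝ) (B : Finset (Fin n → ℤ)) : Set (E n) := {x | cl s x ∈ B}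

lemma uc_eq (s : ℝ) (B : Finset (Fin n → ℤ)) : uc s B = ⋃ c ∈ B, cell s c := by
  ext x
  simp [uc, cell]

lemma uc_meas {s : ℝ} (hs : 0 < s) (B : Finset (Fin n → ℤ)) : MeasurableSet (uc s B) := by
  rw [uc_eq]
  exact Finset.measurableSet_biUnion _ fun c _ => cell_meas hs c

lemma uc_vol {s : ℝ} (hs : 0 < s) (B : Finset (Fin n → ℤ)) :
    volume.real (uc s B) = B.card * s ^ n := by
  have hfin : ∀ c ∈ B, volume (cell s c) ≠ ⊤ := by
    intro c _
    rw [cell_vol hs]
    exact ENNReal.ofReal_ne_top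
  rw [uc_eq, measureReal_biUnion_finset _ _ hfin]
  · have : ∀ c ∈ B, volume.real (cell s c) = s ^ n := by
      intro c _
      rw [measureReal_def, cell_vol hs, ENNReal.toReal_ofReal (by positivity)]
    rw [Finset.sum_congr rfl this, Finset.sum_const, nsmul_eq_mul]
  · intro c _ c' _ hcc
    rw [Function.onFun, Set.disjoint_left]
    intro x hx hx'
    exact hcc (hx.symm.trans hx')
  · exact fun c _ => cell_meas hs c

/-- adjacent cells -/
def adj (n : ℕ) (s r : ℝ) (c c' : Fin n → ℤ) : Prop :=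
  ∃ x y : E n, cl s x = c ∧ cl s y = c' ∧ dist x y ≤ r

/-- the cells of the cube -/
noncomputable def AA (n : ℕ) (s L : ℝ) : Finset (Fin n → ℤ) :=
  Fintype.piFinset fun _ => Finset.Icc 0 ⌊L / s⌋

lemma mem_AA {s L : ℝ} (hs : 0 < s) {x : E n} (hx : x ∈ cube n L) : cl s x ∈ AA n s L := by
  rw [AA, Fintype.mem_piFinset]
  intro j
  rw [Finset.mem_Icc]
  refine ⟨Int.floor_nonneg.2 (div_nonneg (hx j).1 hs.le), ?_⟩
  exact Int.floor_le_floor (div_le_div_of_nonneg_right (hx j).2 hs.le)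

lemma of_mem_AA {s L : ℝ} (hs : 0 < s) {x : E n} (hx : cl s x ∈ AA n s L) (j : Fin n) :
    0 ≤ x j ∧ x j ≤ L + s := by
  rw [AA, Fintype.mem_piFinset] at hx
  have h1 := Finset.mem_Icc.1 (hx j)
  constructor
  · have h2 := Int.floor_nonneg.1 h1.1
    have h3 := mul_nonneg h2 hs.le
    rwa [div_mul_cancel₀ _ hs.ne'] at h3
  · have h2 : x j / s < ⌊x j / s⌋ + 1 := Int.lt_floor_add_one _
    have h3 : ((⌊x j / s⌋ : ℤ) : ℝ) ≤ ⌊L / s⌋ := by exact_mod_cast h1.2
    have h4 : ((⌊L / s⌋ : ℤ) : ℝ) ≤ L / s := Int.floor_le _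
    have h5 : x j / s ≤ L / s + 1 := by linarith
    rw [div_le_iff₀ hs, add_mul, div_mul_cancel₀ _ hs.ne', one_mul] at h5
    exact h5

lemma AA_card {s L : ℝ} (hs : 0 < s) (hL : 0 < L) : ((AA n s L).card : ℝ) * s ^ n ≤ (L + s) ^ n := by
  rw [← uc_vol hs]
  have h1 : uc s (AA n s L) ⊆ {x : E n | ∀ i, x i ∈ Icc 0 (L + s)} := fun x hx j => of_mem_AA hs hx j
  have h2 : volume.real {x : E n | ∀ i, x i ∈ Icc 0 (L + s)} = (L + s) ^ n := by
    rw [measureReal_def, box_vol n (by linarith), ENNReal.toReal_ofReal (by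
      rw [sub_zero]
      positivity), sub_zero]
  rw [← h2]
  refine measureReal_mono h1 ?_
  rw [box_vol n (by linarith)]
  exact ENNReal.ofReal_ne_top

open Classical in
/-- a cell with many adjacent cells -/
lemma deg_lower (hn : 0 < n) {s r L θ : ℝ} (hs : 0 < s) (hr : 0 < r) (hL : 0 < L) (hθ : 0 < θ)
    (hθ1 : θ ≤ 1) (hsr : s + 2 * r ≤ 4) {B : Finset (Fin n → ℤ)} (hB : B ⊆ AA n s L)
    (hBc : (2 * (r * √(4 * π / n)) ^ n + s ^ n) * (L + 4) ^ n / (θ * (r ^ n * V1 n)) <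
      B.card * s ^ n) :
    ∃ v ∈ B, (1 - θ) * (r ^ n * V1 n) / (L + 4) ^ n * B.card ≤
      (((B.erase v).filter fun y => adj n s r v y).card : ℝ) := by
  by_contra hcon
  push Not at hcon
  obtain ⟨S, hS⟩ : ∃ S : Set (E n), S = uc s B := ⟨_, rfl⟩
  obtain ⟨Ω, hΩ⟩ : ∃ Ω : Set (E n), Ω = {x : E n | ∀ i, x i ∈ Icc (-r) (L + s + r)} := ⟨_, rfl⟩
  have hSm : MeasurableSet S := by rw [hS]; exact uc_meas hs B
  have hΩm : MeasurableSet Ω := by rw [hΩ]; exact box_meas n _ _
  have hΩv : volume.real Ω = (L + s + 2 * r) ^ n := by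
    rw [hΩ, measureReal_def, box_vol n (by linarith), ENNReal.toReal_ofReal (by
      have : 0 ≤ L + s + r - -r := by linarith
      positivity)]
    congr 1
    ring
  have hΩ0 : 0 < volume.real Ω := by rw [hΩv]; positivity
  have hΩb : Bornology.IsBounded Ω := by
    rw [isBounded_iff_forall_norm_le]
    refine ⟨(L + s + r) * √n, fun x hx => ?_⟩
    rw [EuclideanSpace.norm_eq]
    apply Real.sqrt_le_iff.2
    refine ⟨by positivity, ?_⟩
    rw [mul_pow, Real.sq_sqrt (Nat.cast_nonneg n)]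
    calc ∑ j, ‖x j‖ ^ 2 ≤ ∑ _j : Fin n, (L + s + r) ^ 2 := by
          refine Finset.sum_le_sum fun j _ => ?_
          rw [hΩ] at hx
          have h1 := hx j
          refine pow_le_pow_left₀ (norm_nonneg _) ?_ 2
          rw [Real.norm_eq_abs, abs_le]
          exact ⟨by linarith [h1.1], h1.2⟩
      _ = (L + s + r) ^ 2 * n := by
          rw [Finset.sum_const, Finset.card_univ, Fintype.card_fin, nsmul_eq_mul]; ring
  have hSΩ : ∀ x ∈ S, closedBall x r ⊆ Ω := by
    intro x hx y hy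
    rw [hS] at hx
    rw [hΩ]
    intro j
    have h1 := of_mem_AA hs (hB hx) j
    rw [mem_closedBall, dist_eq_norm] at hy
    have h2 := (PiLp.norm_apply_le (y - x) j).trans hy
    rw [PiLp.sub_apply, Real.norm_eq_abs, abs_le] at h2
    exact ⟨by linarith [h2.1], by linarith [h2.2]⟩
  have h1 := supersat hn hr hSm hΩm hΩb hSΩ hΩ0
  obtain ⟨b, hb⟩ : ∃ b : ℝ, b = (1 - θ) * (r ^ n * V1 n) / (L + 4) ^ n := ⟨_, rfl⟩
  rw [← hb] at hcon
  have hSt : volume S ≠ ⊤ := (hΩb.subset fun x hx => hSΩ x hx (mem_closedBall_self hr.le)).measure_lt_top.ne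
  have h2 : ∀ x ∈ S, volume.real (S ∩ closedBall x r) ≤ s ^ n * (b * B.card + 1) := by
    intro x hx
    rw [hS] at hx
    have hxB : cl s x ∈ B := hx
    have h3 : S ∩ closedBall x r ⊆
        uc s (insert (cl s x) ((B.erase (cl s x)).filter fun y => adj n s r (cl s x) y)) := by
      rintro y ⟨hy1, hy2⟩
      rw [hS] at hy1
      have hyB : cl s y ∈ B := hy1
      change cl s y ∈ insert (cl s x) ((B.erase (cl s x)).filter fun y => adj n s r (cl s x) y)
      rw [Finset.mem_insert, Finset.mem_filter, Finset.mem_erase]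
      by_cases hxy : cl s y = cl s x
      · exact Or.inl hxy
      · right
        refine ⟨⟨hxy, hyB⟩, x, y, rfl, rfl, ?_⟩
        rw [mem_closedBall, dist_comm] at hy2
        exact hy2
    have h4 := measureReal_mono h3 (μ := volume) (by
      rw [uc_eq]
      refine ((measure_biUnion_finset_le _ _).trans_lt ?_).ne
      refine ENNReal.sum_lt_top.2 fun c _ => ?_
      rw [cell_vol hs]
      exact ENNReal.ofReal_lt_top)
    rw [uc_vol hs] at h4
    refine h4.trans ?_
    rw [mul_comm]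
    refine mul_le_mul_of_nonneg_left ?_ (by positivity)
    have h5 := hcon (cl s x) hxB
    have h6 : ((insert (cl s x) ((B.erase (cl s x)).filter fun y => adj n s r (cl s x) y)).card : ℝ) ≤
        ((B.erase (cl s x)).filter fun y => adj n s r (cl s x) y).card + 1 := by
      exact_mod_cast Finset.card_insert_le _ _
    linarith
  have h3 : ∫ x in S, volume.real (S ∩ closedBall x r) ≤ volume.real S * (s ^ n * (b * B.card + 1)) := by
    have h4 : ∫ x in S, volume.real (S ∩ closedBall x r) ≤ ∫ x in S, s ^ n * (b * B.card + 1) := by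
      refine integral_mono_of_nonneg (Filter.Eventually.of_forall fun _ => measureReal_nonneg)
        (integrableOn_const hSt) ?_
      exact (ae_restrict_iff' hSm).2 (Filter.Eventually.of_forall h2)
    rwa [setIntegral_const, smul_eq_mul] at h4
  have hSv : volume.real S = B.card * s ^ n := by rw [hS, uc_vol hs]
  obtain ⟨m, hm⟩ : ∃ m : ℝ, m = B.card * s ^ n := ⟨_, rfl⟩
  obtain ⟨D, hD⟩ : ∃ D : ℝ, D = r ^ n * V1 n := ⟨_, rfl⟩
  obtain ⟨lam, hlam⟩ : ∃ lam : ℝ, lam = 2 * (r * √(4 * π / n)) ^ n := ⟨_, rfl⟩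
  obtain ⟨W, hW⟩ : ∃ W : ℝ, W = (L + 4) ^ n := ⟨_, rfl⟩
  have hD0 : 0 < D := by rw [hD]; exact mul_pos (pow_pos hr _) (V1_pos n)
  have hW0 : 0 < W := by rw [hW]; positivity
  have hlam0 : 0 ≤ lam := by rw [hlam]; positivity
  rw [hSv, ← hm, hΩv, ← hD, ← hlam] at h1
  rw [hSv, ← hm] at h3
  rw [← hm, ← hD, ← hlam, ← hW] at hBc
  rw [← hD, ← hW] at hb
  have hsn : 0 < s ^ n := pow_pos hs n
  have hm0 : 0 < m := by
    refine lt_of_le_of_lt ?_ hBc
    positivity
  have hWle : (L + s + 2 * r) ^ n ≤ W := by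
    rw [hW]
    exact pow_le_pow_left₀ (by positivity) (by linarith) n
  have hW1 : 0 < (L + s + 2 * r) ^ n := by positivity
  have h4 : m ^ 2 * D / W ≤ m ^ 2 * D / (L + s + 2 * r) ^ n := by gcongr
  have h5 : m ^ 2 * D / W - lam * m ≤ m * (b * m + s ^ n) := by
    have h6 : s ^ n * (b * B.card + 1) = b * m + s ^ n := by rw [hm]; ring
    rw [h6] at h3
    linarith
  have h6 : m * (D / W) - lam ≤ b * m + s ^ n := by
    have h7 : m ^ 2 * D / W - lam * m = m * (m * (D / W) - lam) := by ring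
    rw [h7] at h5
    exact le_of_mul_le_mul_left h5 hm0
  have h7 : b = (D / W) * (1 - θ) := by rw [hb]; ring
  have h8 : θ * (m * (D / W)) ≤ lam + s ^ n := by
    rw [h7] at h6
    linarith
  rw [div_lt_iff₀ (by positivity)] at hBc
  have h9 : θ * (m * (D / W)) = m * (θ * D) / W := by ring
  rw [h9, div_le_iff₀ hW0] at h8
  linarith

/-- **the volume of the space of packings, on a grid** -/
theorem conf_grid (hn : 0 < n) {s r L θ : ℝ} (hs : 0 < s) (hr : 0 < r) (hL : 0 < L) (hθ : 0 < θ)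
    (hθ1 : θ ≤ 1) (hsr : s + 2 * r ≤ 4) (hsr2 : r + 2 * (s * √n) < 2) {q k : ℕ} (hqk : q ≤ k)
    {m₁ : ℝ} (hm₁ : m₁ = (2 * (r * √(4 * π / n)) ^ n + s ^ n) * (L + 4) ^ n / (θ * (r ^ n * V1 n)))
    (hb1 : (1 - θ) * (r ^ n * V1 n) / (L + 4) ^ n ≤ 1)
    (hq : (L + s) ^ n * (1 - (1 - θ) * (r ^ n * V1 n) / (L + 4) ^ n) ^ q ≤ m₁) :
    volume.real (conf n k L) ≤ 2 ^ k * (((L + s) ^ n) ^ q * (m₁ + s ^ n) ^ (k - q)) := by
  classical
  have hsn : 0 < s ^ n := pow_pos hs n
  have hm0 : 0 ≤ m₁ := by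
    rw [hm₁]
    have := V1_pos n
    positivity
  obtain ⟨R, hR⟩ : ∃ R : ℕ, R = ⌈m₁ / s ^ n⌉₊ := ⟨_, rfl⟩
  have hR1 : m₁ ≤ R * s ^ n := by
    rw [hR, ← div_le_iff₀ hsn]
    exact Nat.le_ceil _
  have hR2 : R * s ^ n ≤ m₁ + s ^ n := by
    have h1 : (R : ℝ) ≤ m₁ / s ^ n + 1 := by
      rw [hR]
      exact (Nat.ceil_lt_add_one (by positivity)).le
    calc R * s ^ n ≤ (m₁ / s ^ n + 1) * s ^ n := by gcongr
      _ = m₁ + s ^ n := by field_simp
  have hb0 : 0 ≤ 1 - (1 - θ) * (r ^ n * V1 n) / (L + 4) ^ n := by linarith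
  have hAc := AA_card (n := n) hs hL
  have h1 := tup_bound (adj := adj n s r) hb1 (A := AA n s L) (R := R) (fun B hB hBR => by
    have h2 : (R : ℝ) < B.card := by exact_mod_cast hBR
    have h3 := deg_lower hn hs hr hL hθ hθ1 hsr hB (by
      rw [← hm₁]
      calc m₁ ≤ R * s ^ n := hR1
        _ < B.card * s ^ n := mul_lt_mul_of_pos_right h2 hsn)
    obtain ⟨v, hv, h4⟩ := h3
    refine ⟨v, hv, h4.trans (le_of_eq ?_)⟩
    congr 2
    ext y
    rw [Finset.mem_filter, Finset.mem_filter]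
    refine and_congr ?_ Iff.rfl
    exact Iff.trans (@Finset.mem_erase _ _ y v B) (Iff.symm
      (@Finset.mem_erase _ (fun a b => Classical.propDecidable (a = b)) y v B))) hqk (by
    have h2 : (AA n s L).card * (1 - (1 - θ) * (r ^ n * V1 n) / (L + 4) ^ n) ^ q * s ^ n ≤
        R * s ^ n := by
      calc (AA n s L).card * (1 - (1 - θ) * (r ^ n * V1 n) / (L + 4) ^ n) ^ q * s ^ n =
          ((AA n s L).card * s ^ n) * (1 - (1 - θ) * (r ^ n * V1 n) / (L + 4) ^ n) ^ q := by ring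
        _ ≤ (L + s) ^ n * (1 - (1 - θ) * (r ^ n * V1 n) / (L + 4) ^ n) ^ q := by gcongr
        _ ≤ R * s ^ n := hq.trans hR1
    exact le_of_mul_le_mul_right h2 hsn)
  have hsub : conf n k L ⊆ ⋃ f ∈ tup (adj n s r) (AA n s L) k, Set.pi univ fun i => cell s (f i) := by
    intro x hx
    rw [mem_iUnion₂]
    refine ⟨fun i => cl s (x i), ?_, fun i _ => rfl⟩
    rw [mem_tup]
    refine ⟨fun i => mem_AA hs (hx.1 i), fun i j hij => ?_⟩
    have h2 := hx.2 i j hij
    have hsq : 0 ≤ s * √n := by positivity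
    constructor
    · intro h3
      have := cell_dist hs h3
      linarith
    · rintro ⟨u, v, hu, hv, huv⟩
      have h3 := cell_dist hs hu
      have h4 := cell_dist hs hv
      have h5 : dist (x i) (x j) ≤ dist (x i) u + dist u v + dist v (x j) := dist_triangle4 _ _ _ _
      rw [dist_comm (x i) u] at h5
      linarith
  have h2 : volume (conf n k L) ≤ (tup (adj n s r) (AA n s L) k).card * ENNReal.ofReal ((s ^ n) ^ k) := by
    refine (measure_mono hsub).trans ((measure_biUnion_finset_le _ _).trans (le_of_eq ?_))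
    have h3 : ∀ f ∈ tup (adj n s r) (AA n s L) k, volume (Set.pi univ fun i => cell s (f i)) =
        ENNReal.ofReal ((s ^ n) ^ k) := by
      intro f _
      rw [volume_pi_pi]
      simp only [cell_vol hs, Finset.prod_const, Finset.card_univ, Fintype.card_fin]
      rw [ENNReal.ofReal_pow hsn.le]
    rw [Finset.sum_congr rfl h3, Finset.sum_const, nsmul_eq_mul]
  have h3 : volume.real (conf n k L) ≤ (tup (adj n s r) (AA n s L) k).card * (s ^ n) ^ k := by
    have h4 := ENNReal.toReal_mono (by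
      exact ENNReal.mul_ne_top (ENNReal.natCast_ne_top _) ENNReal.ofReal_ne_top) h2
    rwa [ENNReal.toReal_mul, ENNReal.toReal_natCast, ENNReal.toReal_ofReal (by positivity)] at h4
  refine h3.trans ?_
  calc ((tup (adj n s r) (AA n s L) k).card : ℝ) * (s ^ n) ^ k ≤
      2 ^ k * (((AA n s L).card : ℝ) ^ q * (R : ℝ) ^ (k - q)) * (s ^ n) ^ k := by gcongr
    _ = 2 ^ k * (((AA n s L).card * s ^ n) ^ q * (R * s ^ n) ^ (k - q)) := by
        rw [mul_pow ((AA n s L).card : ℝ), mul_pow (R : ℝ)]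
        have : (s ^ n) ^ k = (s ^ n) ^ q * (s ^ n) ^ (k - q) := by
          rw [← pow_add]
          congr 1
          omega
        rw [this]
        ring
    _ ≤ 2 ^ k * (((L + s) ^ n) ^ q * (m₁ + s ^ n) ^ (k - q)) := by gcongr

end Pool.Agent.N628.EP
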