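import Pool.Agent.N628.EP.F5

/-!
N628/EP: supersaturation with several scales.
-/

set_option autoImplicit false

open MeasureTheory Set Real FourierTransform Metric

namespace Pool.Agent.N628.EP

open Pool.Agent.Y509.LS

variable {d : ℕ} {R : ℝ} {f : E d → ℝ}

/-- the quadratic form as an integral over the frequencies -/
lemma qq_freq (hf : Br f) (R : ℝ) :
    Integrable (fun ξ => ‖𝓕 (fun x => (f x : ℂ)) ξ‖ ^ 2 * (𝓕 (ind d R) ξ).re) ∧
    QQ R f f = ∫ ξ, ‖𝓕 (fun x => (f x : ℂ)) ξ‖ ^ 2 * (𝓕 (ind d R) ξ).re := by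
  have h1 : (QQ R f f : ℂ) = ∫ ξ, (starRingEnd ℂ) (𝓕 (fun x => (f x : ℂ)) ξ) *
      (𝓕 (ind d R) ξ * 𝓕 (fun x => (f x : ℂ)) ξ) := by
    rw [← qq_form]
    exact form_L1 hf.bs hf.bs (ind_adm le_rfl).bs
  have hsq : Integrable (fun ξ => ‖𝓕 (fun x => (f x : ℂ)) ξ‖ ^ 2) :=
    (memLp_two_iff_integrable_sq_norm
      (fourier_cont hf.bs.integrable).aestronglyMeasurable).1
      (memLp_fourier hf.bs.integrable hf.bs.memLp)
  have hkc : Continuous (𝓕 (ind d R)) := fourier_cont (ind_adm (le_refl R)).integrable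
  have hI : Integrable (fun ξ => ‖𝓕 (fun x => (f x : ℂ)) ξ‖ ^ 2 * (𝓕 (ind d R) ξ).re) := by
    refine hsq.mul_bdd (c := ∫ x, ‖ind d R x‖) ?_ (Filter.Eventually.of_forall fun ξ => ?_)
    · exact (Complex.continuous_re.comp hkc).aestronglyMeasurable
    · rw [Real.norm_eq_abs]
      exact (Complex.abs_re_le_norm _).trans (fourier_bound _ ξ)
  refine ⟨hI, ?_⟩
  have he : ∀ ξ, (starRingEnd ℂ) (𝓕 (fun x => (f x : ℂ)) ξ) *
      (𝓕 (ind d R) ξ * 𝓕 (fun x => (f x : ℂ)) ξ) =
      ((‖𝓕 (fun x => (f x : ℂ)) ξ‖ ^ 2 : ℝ) : ℂ) * 𝓕 (ind d R) ξ := by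
    intro ξ
    rw [← Complex.normSq_eq_norm_sq, Complex.normSq_eq_conj_mul_self]
    ring
  simp only [he] at h1
  have hI2 : Integrable (fun ξ => ((‖𝓕 (fun x => (f x : ℂ)) ξ‖ ^ 2 : ℝ) : ℂ) * 𝓕 (ind d R) ξ) :=
    hsq.ofReal.mul_bdd (c := ∫ x, ‖ind d R x‖) hkc.aestronglyMeasurable
      (Filter.Eventually.of_forall fun ξ => fourier_bound _ ξ)
  have h3 := congrArg Complex.re h1
  rw [Complex.ofReal_re] at h3
  rw [h3]
  have h4 := integral_re hI2
  rw [← RCLike.re_eq_complex_re, ← h4]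
  congr 1
  funext ξ
  rw [RCLike.re_eq_complex_re, Complex.re_ofReal_mul]

lemma N2_real (hf : Br f) : N2 (𝓕 (fun x => (f x : ℂ))) = ∫ x, f x ^ 2 := by
  rw [N2_fourier hf.bs.integrable hf.bs.memLp]
  unfold N2
  congr 1
  funext x
  rw [Complex.norm_real, Real.norm_eq_abs, sq_abs]

/-- sums of quadratic forms -/
theorem qq_sum_lower {J : ℕ} {w t : ℕ → ℝ} {lam : ℝ} (hf : Br f)
    (h : ∀ ξ : E d, -lam ≤ ∑ j ∈ Finset.range J, w j * (𝓕 (ind d (t j)) ξ).re) :
    -lam * ∫ x, f x ^ 2 ≤ ∑ j ∈ Finset.range J, w j * QQ (t j) f f := by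
  have hsq : Integrable (fun ξ => ‖𝓕 (fun x => (f x : ℂ)) ξ‖ ^ 2) :=
    (memLp_two_iff_integrable_sq_norm
      (fourier_cont hf.bs.integrable).aestronglyMeasurable).1
      (memLp_fourier hf.bs.integrable hf.bs.memLp)
  have h1 : ∑ j ∈ Finset.range J, w j * QQ (t j) f f =
      ∫ ξ, ∑ j ∈ Finset.range J, w j * (‖𝓕 (fun x => (f x : ℂ)) ξ‖ ^ 2 * (𝓕 (ind d (t j)) ξ).re) := by
    rw [integral_finsetSum _ fun j _ => (qq_freq hf (t j)).1.const_mul _]
    refine Finset.sum_congr rfl fun j _ => ?_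
    rw [integral_const_mul, (qq_freq hf (t j)).2]
  rw [h1, ← N2_real hf]
  unfold N2
  rw [← integral_const_mul]
  refine integral_mono (hsq.const_mul _) (integrable_finsetSum _ fun j _ =>
    (qq_freq hf (t j)).1.const_mul _) fun ξ => ?_
  have h5 := h ξ
  have h6 : 0 ≤ ‖𝓕 (fun x => (f x : ℂ)) ξ‖ ^ 2 := by positivity
  have h7 : ∑ j ∈ Finset.range J, w j * (‖𝓕 (fun x => (f x : ℂ)) ξ‖ ^ 2 * (𝓕 (ind d (t j)) ξ).re) =
      ‖𝓕 (fun x => (f x : ℂ)) ξ‖ ^ 2 * ∑ j ∈ Finset.range J, w j * (𝓕 (ind d (t j)) ξ).re := by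
    rw [Finset.mul_sum]
    refine Finset.sum_congr rfl fun j _ => by ring
  simp only
  rw [h7]
  nlinarith

/-- the form of the centred indicator function -/
lemma qq_centred (hR : 0 ≤ R) {S Ω : Set (E d)} (hS : MeasurableSet S)
    (hΩ : MeasurableSet Ω) (hΩb : Bornology.IsBounded Ω) (hSub : S ⊆ Ω)
    (hSΩ : ∀ x ∈ S, closedBall x R ⊆ Ω) (hΩ0 : 0 < volume.real Ω) :
    QQ R (fun x => ir S x - volume.real S / volume.real Ω * ir Ω x)
      (fun x => ir S x - volume.real S / volume.real Ω * ir Ω x) ≤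
      (∫ x in S, volume.real (S ∩ closedBall x R)) -
        R ^ d * V1 d * (volume.real S ^ 2 / volume.real Ω) := by
  have hSb : Bornology.IsBounded S := hΩb.subset hSub
  have hΩt : volume Ω ≠ ⊤ := hΩb.measure_lt_top.ne
  obtain ⟨D, hD⟩ : ∃ D : ℝ, D = R ^ d * V1 d := ⟨_, rfl⟩
  obtain ⟨W, hW⟩ : ∃ W : ℝ, W = volume.real Ω := ⟨_, rfl⟩
  obtain ⟨m, hm⟩ : ∃ m : ℝ, m = volume.real S := ⟨_, rfl⟩
  rw [← hD, ← hW, ← hm]
  rw [← hW] at hΩ0
  obtain ⟨s, hs⟩ : ∃ s : ℝ, s = m / W := ⟨_, rfl⟩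
  rw [← hs]
  have bS := ir_br hS hSb
  have bΩ := ir_br hΩ hΩb
  have e1 : QQ R (fun x => ir S x - s * ir Ω x) (fun x => ir S x - s * ir Ω x) =
      QQ R (ir S) (ir S) - 2 * s * QQ R (ir S) (ir Ω) + s ^ 2 * QQ R (ir Ω) (ir Ω) := by
    have i1 := qq_int bS bS R
    have i2 := qq_int bS bΩ R
    have i3 := qq_int bΩ bS R
    have i4 := qq_int bΩ bΩ R
    have h2 : QQ R (ir Ω) (ir S) = QQ R (ir S) (ir Ω) := qq_symm _ _ R
    have h3 : QQ R (fun x => ir S x - s * ir Ω x) (fun x => ir S x - s * ir Ω x) =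
        QQ R (ir S) (ir S) - s * QQ R (ir S) (ir Ω) - s * QQ R (ir Ω) (ir S) +
          s ^ 2 * QQ R (ir Ω) (ir Ω) := by
      unfold QQ
      have j1 : Integrable (fun p : E d × E d => ir S p.1 * (kr d R (p.1 - p.2) * ir S p.2) -
          s * (ir S p.1 * (kr d R (p.1 - p.2) * ir Ω p.2))) (volume.prod volume) :=
        i1.sub (i2.const_mul s)
      have j2 : Integrable (fun p : E d × E d => ir S p.1 * (kr d R (p.1 - p.2) * ir S p.2) -
          s * (ir S p.1 * (kr d R (p.1 - p.2) * ir Ω p.2)) -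
          s * (ir Ω p.1 * (kr d R (p.1 - p.2) * ir S p.2))) (volume.prod volume) :=
        j1.sub (i3.const_mul s)
      rw [← integral_const_mul, ← integral_const_mul, ← integral_const_mul,
        ← integral_sub i1 (i2.const_mul s), ← integral_sub j1 (i3.const_mul s),
        ← integral_add j2 (i4.const_mul _)]
      congr 1
      funext p
      ring
    rw [h3, h2]
    ring
  have e2 : QQ R (ir S) (ir Ω) = D * m := by
    rw [qq_ir hS hSb hΩ hΩb]
    have : ∀ x ∈ S, volume.real (Ω ∩ closedBall x R) = D := by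
      intro x hx
      rw [inter_eq_right.2 (hSΩ x hx), hD, measureReal_def, Measure.addHaar_closedBall_center,
        ← measureReal_def, vol_cb hR]
    rw [setIntegral_congr_fun hS this, setIntegral_const, smul_eq_mul, hm]
    ring
  have e3 : QQ R (ir Ω) (ir Ω) ≤ D * W := by
    rw [qq_ir hΩ hΩb hΩ hΩb]
    have h2 : ∀ x, volume.real (Ω ∩ closedBall x R) ≤ D := by
      intro x
      rw [hD, ← vol_cb hR]
      have : volume.real (closedBall x R) = volume.real (closedBall (0 : E d) R) := by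
        rw [measureReal_def, Measure.addHaar_closedBall_center, ← measureReal_def]
      rw [← this]
      exact measureReal_mono inter_subset_right (isCompact_closedBall x R).measure_lt_top.ne
    have h3 : ∫ x in Ω, volume.real (Ω ∩ closedBall x R) ≤ ∫ x in Ω, D := by
      refine integral_mono_of_nonneg (Filter.Eventually.of_forall fun _ => measureReal_nonneg)
        (integrableOn_const hΩt) (Filter.Eventually.of_forall h2)
    refine h3.trans (le_of_eq ?_)
    rw [setIntegral_const, smul_eq_mul, hW]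
    ring
  rw [e1, e2, ← qq_ir hS hSb hS hSb]
  have h5 : s ^ 2 * QQ R (ir Ω) (ir Ω) ≤ s ^ 2 * (D * W) := mul_le_mul_of_nonneg_left e3 (sq_nonneg s)
  have hsW : s * W = m := by
    rw [hs]
    field_simp
  have h9 : s ^ 2 * (D * W) = s * m * D := by
    rw [← hsW]
    ring
  have h10 : m ^ 2 / W = s * m := by
    rw [hs]
    ring
  rw [h9] at h5
  rw [h10]
  linarith

lemma centred_br {S Ω : Set (E d)} (hS : MeasurableSet S) (hSb : Bornology.IsBounded S)
    (hΩ : MeasurableSet Ω) (hΩb : Bornology.IsBounded Ω) (s : ℝ) :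
    Br (fun x => ir S x - s * ir Ω x) := by
  have bS := ir_br hS hSb
  have bΩ := ir_br hΩ hΩb
  obtain ⟨C1, hC1⟩ := bS.bdd
  obtain ⟨C2, hC2⟩ := bΩ.bdd
  obtain ⟨B1, hB1⟩ := bS.supp
  obtain ⟨B2, hB2⟩ := bΩ.supp
  refine ⟨bS.meas.sub (bΩ.meas.const_mul s), ⟨C1 + |s| * C2, fun x => ?_⟩,
    ⟨max B1 B2, fun x hx => ?_⟩⟩
  · calc |ir S x - s * ir Ω x| ≤ |ir S x| + |s * ir Ω x| := abs_sub _ _
      _ ≤ C1 + |s| * C2 := by
        rw [abs_mul]
        gcongr
        · exact hC1 x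
        · exact hC2 x
  · rw [hB1 x (lt_of_le_of_lt (le_max_left _ _) hx), hB2 x (lt_of_le_of_lt (le_max_right _ _) hx)]
    ring

lemma centred_sq {S Ω : Set (E d)} (hS : MeasurableSet S) (hΩ : MeasurableSet Ω)
    (hΩb : Bornology.IsBounded Ω) (hSub : S ⊆ Ω) (hΩ0 : 0 < volume.real Ω) :
    ∫ x, (ir S x - volume.real S / volume.real Ω * ir Ω x) ^ 2 ≤ volume.real S := by
  have hSb : Bornology.IsBounded S := hΩb.subset hSub
  have bS := ir_br hS hSb
  have bΩ := ir_br hΩ hΩb
  obtain ⟨W, hW⟩ : ∃ W : ℝ, W = volume.real Ω := ⟨_, rfl⟩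
  obtain ⟨m, hm⟩ : ∃ m : ℝ, m = volume.real S := ⟨_, rfl⟩
  rw [← hW, ← hm]
  rw [← hW] at hΩ0
  obtain ⟨s, hs⟩ : ∃ s : ℝ, s = m / W := ⟨_, rfl⟩
  rw [← hs]
  have h2 : ∀ x, (ir S x - s * ir Ω x) ^ 2 = (1 - 2 * s) * ir S x + s ^ 2 * ir Ω x := by
    intro x
    unfold ir
    by_cases h : x ∈ S
    · rw [indicator_of_mem h, indicator_of_mem (hSub h)]
      ring
    · rw [indicator_of_notMem h]
      by_cases h' : x ∈ Ω
      · rw [indicator_of_mem h']
        ring
      · rw [indicator_of_notMem h']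
        ring
  simp only [h2]
  rw [integral_add (bS.integrable.const_mul _) (bΩ.integrable.const_mul _), integral_const_mul,
    integral_const_mul]
  have h3 : ∫ x, ir S x = m := by
    unfold ir
    rw [integral_indicator_const _ hS, smul_eq_mul, mul_one, hm]
  have h4 : ∫ x, ir Ω x = W := by
    unfold ir
    rw [integral_indicator_const _ hΩ, smul_eq_mul, mul_one, hW]
  rw [h3, h4]
  have hsW : s * W = m := by
    rw [hs]
    field_simp
  have hm0 : 0 ≤ m := by rw [hm]; exact measureReal_nonneg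
  have hs0 : 0 ≤ s := by rw [hs]; positivity
  have h5 : s ^ 2 * W = s * m := by
    rw [← hsW]
    ring
  have h6 : 0 ≤ s * m := by positivity
  nlinarith

/-- **supersaturation with several scales** -/
theorem supersat2 {J : ℕ} {w t : ℕ → ℝ} {lam M : ℝ} (hR : 0 < R) (hw : ∀ j, 0 ≤ w j) (hJ : 0 < J)
    (hw0 : w 0 = 1) (ht0 : t 0 = R) (ht : ∀ j, 0 ≤ t j) (htR : ∀ j, t j ≤ R) (hlam : 0 ≤ lam)
    (hM : ∑ j ∈ Finset.range J, w j ≤ M)
    (h : ∀ ξ : E d, -lam ≤ ∑ j ∈ Finset.range J, w j * (𝓕 (ind d (t j)) ξ).re)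
    {S Ω : Set (E d)} (hS : MeasurableSet S)
    (hΩ : MeasurableSet Ω) (hΩb : Bornology.IsBounded Ω) (hSΩ : ∀ x ∈ S, closedBall x R ⊆ Ω)
    (hΩ0 : 0 < volume.real Ω) :
    volume.real S ^ 2 * (R ^ d * V1 d) / volume.real Ω - lam * volume.real S ≤
      M * ∫ x in S, volume.real (S ∩ closedBall x R) := by
  have hSub : S ⊆ Ω := fun x hx => hSΩ x hx (mem_closedBall_self hR.le)
  have hSb : Bornology.IsBounded S := hΩb.subset hSub
  have hSt : volume S ≠ ⊤ := hSb.measure_lt_top.ne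
  obtain ⟨s, hs⟩ : ∃ s : ℝ, s = volume.real S / volume.real Ω := ⟨_, rfl⟩
  have h1 := qq_sum_lower (f := fun x => ir S x - s * ir Ω x) (centred_br hS hSb hΩ hΩb s) h
  have h2 := centred_sq hS hΩ hΩb hSub hΩ0
  rw [← hs] at h2
  have h3 : ∑ j ∈ Finset.range J, w j * QQ (t j) (fun x => ir S x - s * ir Ω x)
      (fun x => ir S x - s * ir Ω x) ≤
      ∑ j ∈ Finset.range J, w j * ((∫ x in S, volume.real (S ∩ closedBall x (t j))) -
        (t j) ^ d * V1 d * (volume.real S ^ 2 / volume.real Ω)) := by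
    refine Finset.sum_le_sum fun j _ => mul_le_mul_of_nonneg_left ?_ (hw j)
    rw [hs]
    exact qq_centred (ht j) hS hΩ hΩb hSub (fun x hx => (closedBall_subset_closedBall (htR j)).trans
      (hSΩ x hx)) hΩ0
  have hV := V1_pos d
  have hc0 : 0 ≤ volume.real S ^ 2 / volume.real Ω := by positivity
  have h4 : ∑ j ∈ Finset.range J, w j * ((t j) ^ d * V1 d * (volume.real S ^ 2 / volume.real Ω)) ≥
      R ^ d * V1 d * (volume.real S ^ 2 / volume.real Ω) := by
    have h5 : w 0 * ((t 0) ^ d * V1 d * (volume.real S ^ 2 / volume.real Ω)) ≤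
        ∑ j ∈ Finset.range J, w j * ((t j) ^ d * V1 d * (volume.real S ^ 2 / volume.real Ω)) := by
      refine Finset.single_le_sum (f := fun j => w j * ((t j) ^ d * V1 d *
        (volume.real S ^ 2 / volume.real Ω))) (fun j _ => ?_) (Finset.mem_range.2 hJ)
      have := hw j
      have := ht j
      positivity
    rw [hw0, ht0, one_mul] at h5
    exact h5
  have h5 : ∑ j ∈ Finset.range J, w j * (∫ x in S, volume.real (S ∩ closedBall x (t j))) ≤
      M * ∫ x in S, volume.real (S ∩ closedBall x R) := by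
    have h6 : ∀ j, (∫ x in S, volume.real (S ∩ closedBall x (t j))) ≤
        ∫ x in S, volume.real (S ∩ closedBall x R) := by
      intro j
      refine integral_mono_of_nonneg (Filter.Eventually.of_forall fun _ => measureReal_nonneg) ?_
        (Filter.Eventually.of_forall fun x => ?_)
      · have hm : Measurable fun x => volume.real (S ∩ closedBall x R) := by
          have h7 : ∀ x, volume.real (S ∩ closedBall x R) = ∫ y, ir S y * kr d R (x - y) :=
            fun x => (inner_eq hS x).symm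
          simp only [h7]
          have h8 : StronglyMeasurable (fun p : E d × E d => ir S p.2 * kr d R (p.1 - p.2)) :=
            (((measurable_const.indicator hS).comp measurable_snd).mul
              ((kr_meas R).comp (measurable_fst.sub measurable_snd))).stronglyMeasurable
          exact h8.integral_prod_right.measurable
        refine Measure.integrableOn_of_bounded (M := volume.real S) hSt hm.aestronglyMeasurable
          (Filter.Eventually.of_forall fun x => ?_)
        rw [Real.norm_eq_abs, abs_of_nonneg measureReal_nonneg]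
        exact measureReal_mono inter_subset_left hSt
      · exact measureReal_mono (inter_subset_inter_right _ (closedBall_subset_closedBall (htR j)))
          ((measure_mono inter_subset_left).trans_lt hSt.lt_top).ne
    calc ∑ j ∈ Finset.range J, w j * (∫ x in S, volume.real (S ∩ closedBall x (t j))) ≤
        ∑ j ∈ Finset.range J, w j * (∫ x in S, volume.real (S ∩ closedBall x R)) :=
          Finset.sum_le_sum fun j _ => mul_le_mul_of_nonneg_left (h6 j) (hw j)
      _ = (∑ j ∈ Finset.range J, w j) * ∫ x in S, volume.real (S ∩ closedBall x R) := by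
          rw [Finset.sum_mul]
      _ ≤ M * ∫ x in S, volume.real (S ∩ closedBall x R) :=
          mul_le_mul_of_nonneg_right hM (integral_nonneg fun _ => measureReal_nonneg)
  have h6 : ∑ j ∈ Finset.range J, w j * ((∫ x in S, volume.real (S ∩ closedBall x (t j))) -
        (t j) ^ d * V1 d * (volume.real S ^ 2 / volume.real Ω)) =
      ∑ j ∈ Finset.range J, w j * (∫ x in S, volume.real (S ∩ closedBall x (t j))) -
      ∑ j ∈ Finset.range J, w j * ((t j) ^ d * V1 d * (volume.real S ^ 2 / volume.real Ω)) := by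
    rw [← Finset.sum_sub_distrib]
    refine Finset.sum_congr rfl fun j _ => by ring
  rw [h6] at h3
  have h7 : volume.real S ^ 2 * (R ^ d * V1 d) / volume.real Ω =
      R ^ d * V1 d * (volume.real S ^ 2 / volume.real Ω) := by ring
  rw [h7]
  have h8 : lam * ∫ x, (ir S x - s * ir Ω x) ^ 2 ≤ lam * volume.real S :=
    mul_le_mul_of_nonneg_left h2 hlam
  linarith

end Pool.Agent.N628.EP
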