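import Pool.Agent.N628.EP.W1

/-!
N628/EP: the algorithm of Kleitman and Winston.
-/

set_option autoImplicit false

namespace Pool.Agent.N628.EP

open Classical

variable {ι : Type}

/-- the number of neighbours in a set -/
noncomputable def dg (adj : ι → ι → Prop) (A : Finset ι) (v : ι) : ℕ :=
  ((A.erase v).filter fun y => adj v y).card

/-- the container of a fingerprint -/
noncomputable def cont (adj : ι → ι → Prop) (b : ℝ) (R : ℕ) : ℕ → Finset ι → Finset ι → Finset ι
  | 0, A, _ => A
  | m + 1, A, F =>
    if h : R < A.card ∧ ∃ v ∈ A, b * A.card ≤ (dg adj A v : ℝ) then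
      if h.2.choose ∈ F then cont adj b R m ((A.erase h.2.choose).filter fun y => ¬ adj h.2.choose y) F
      else cont adj b R m (A.erase h.2.choose) F
    else A

variable {adj : ι → ι → Prop}

lemma cont_sub {b : ℝ} {R : ℕ} : ∀ (m : ℕ) (A F : Finset ι), cont adj b R m A F ⊆ A := by
  intro m
  induction m with
  | zero => intro A F; exact Finset.Subset.refl _
  | succ m ih =>
    intro A F
    rw [cont]
    split_ifs with h1 h2
    · exact (ih _ _).trans ((Finset.filter_subset _ _).trans (Finset.erase_subset _ _))
    · exact (ih _ _).trans (Finset.erase_subset _ _)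
    · exact Finset.Subset.refl _

lemma cont_card {b : ℝ} {R : ℕ} {A₀ : Finset ι}
    (hdeg : ∀ B ⊆ A₀, R < B.card → ∃ v ∈ B, b * B.card ≤ (dg adj B v : ℝ)) :
    ∀ (m : ℕ) (A F : Finset ι), A ⊆ A₀ → A.card ≤ m + R → (cont adj b R m A F).card ≤ R := by
  intro m
  induction m with
  | zero =>
    intro A F _ hA
    rw [cont]
    omega
  | succ m ih =>
    intro A F hAA hA
    rw [cont]
    split_ifs with h1 h2
    · have hv := h1.2.choose_spec.1
      refine ih _ _ (((Finset.filter_subset _ _).trans (Finset.erase_subset _ _)).trans hAA) ?_
      have := Finset.card_filter_le (A.erase h1.2.choose) fun y => ¬ adj h1.2.choose y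
      rw [Finset.card_erase_of_mem hv] at this
      omega
    · have hv := h1.2.choose_spec.1
      refine ih _ _ ((Finset.erase_subset _ _).trans hAA) ?_
      rw [Finset.card_erase_of_mem hv]
      omega
    · by_contra h2
      rw [not_le] at h2
      exact h1 ⟨h2, hdeg A hAA h2⟩

/-- **fingerprints and containers** -/
theorem cont_spec {b : ℝ} (hb1 : b ≤ 1) {R : ℕ} {A₀ : Finset ι}
    (hdeg : ∀ B ⊆ A₀, R < B.card → ∃ v ∈ B, b * B.card ≤ (dg adj B v : ℝ)) :
    ∀ (m : ℕ) (A : Finset ι), A ⊆ A₀ → A.card ≤ m + R → ∀ q : ℕ,
      (A.card : ℝ) * (1 - b) ^ q ≤ R → ∀ I ⊆ A, Inde adj I →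
      ∃ F ⊆ I, F.card ≤ q ∧ ∀ F' : Finset ι, F' ∩ A = F → I \ F ⊆ cont adj b R m A F' := by
  intro m
  induction m with
  | zero =>
    intro A _ _ q _ I hI _
    refine ⟨∅, Finset.empty_subset _, by simp, fun F' _ => ?_⟩
    rw [cont]
    exact Finset.sdiff_subset.trans hI
  | succ m ih =>
    intro A hAA hA q hq I hI hInd
    by_cases h : R < A.card ∧ ∃ v ∈ A, b * A.card ≤ (dg adj A v : ℝ)
    swap
    · refine ⟨∅, Finset.empty_subset _, by simp, fun F' _ => ?_⟩
      rw [cont, dif_neg h]
      exact Finset.sdiff_subset.trans hI
    · obtain ⟨v, hv⟩ : ∃ v, v = h.2.choose := ⟨_, rfl⟩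
      have hvA : v ∈ A := by rw [hv]; exact h.2.choose_spec.1
      have hvd : b * A.card ≤ (dg adj A v : ℝ) := by rw [hv]; exact h.2.choose_spec.2
      have hcont : ∀ F', cont adj b R (m + 1) A F' =
          if v ∈ F' then cont adj b R m ((A.erase v).filter fun y => ¬ adj v y) F'
          else cont adj b R m (A.erase v) F' := by
        intro F'
        rw [cont, dif_pos h, hv]
      by_cases hvI : v ∈ I
      · rcases Nat.eq_zero_or_pos q with hq0 | hq0
        · exfalso
          rw [hq0, pow_zero, mul_one] at hq
          have : A.card ≤ R := by exact_mod_cast hq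
          omega
        · obtain ⟨q', rfl⟩ : ∃ q', q = q' + 1 := ⟨q - 1, by omega⟩
          obtain ⟨A2, hA2⟩ : ∃ A2, A2 = (A.erase v).filter fun y => ¬ adj v y := ⟨_, rfl⟩
          have c2 : A2.card + dg adj A v = A.card - 1 := by
            rw [hA2, dg, add_comm, Finset.card_filter_add_card_filter_not,
              Finset.card_erase_of_mem hvA]
          have hApos : 0 < A.card := Finset.card_pos.2 ⟨v, hvA⟩
          have s2 : A2 ⊆ A := by
            rw [hA2]
            exact (Finset.filter_subset _ _).trans (Finset.erase_subset _ _)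
          have hvA2 : v ∉ A2 := by
            rw [hA2]
            simp
          have hb2 : 0 ≤ 1 - b := by linarith
          obtain ⟨F, hFI, hFc, hF⟩ := ih A2 (s2.trans hAA) (by omega) q' (by
            refine le_trans ?_ hq
            have h2 : (A2.card : ℝ) ≤ A.card * (1 - b) := by
              have h3 : ((A2.card + dg adj A v : ℕ) : ℝ) ≤ A.card := by
                exact_mod_cast (by omega : A2.card + dg adj A v ≤ A.card)
              push_cast at h3
              linarith
            calc (A2.card : ℝ) * (1 - b) ^ q' ≤ (A.card * (1 - b)) * (1 - b) ^ q' := by gcongr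
              _ = A.card * (1 - b) ^ (q' + 1) := by ring) (I.erase v) (by
            intro y hy
            rw [Finset.mem_erase] at hy
            rw [hA2, Finset.mem_filter, Finset.mem_erase]
            exact ⟨⟨hy.1, hI hy.2⟩, hInd v hvI y hy.2 (Ne.symm hy.1)⟩)
            (hInd.mono (Finset.erase_subset _ _))
          refine ⟨insert v F, ?_, ?_, ?_⟩
          · intro y hy
            rw [Finset.mem_insert] at hy
            rcases hy with rfl | hy
            · exact hvI
            · exact Finset.erase_subset _ _ (hFI hy)
          · exact (Finset.card_insert_le _ _).trans (by omega)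
          · intro F' hF'
            have hvF' : v ∈ F' := by
              have : v ∈ F' ∩ A := by rw [hF']; exact Finset.mem_insert_self _ _
              exact (Finset.mem_inter.1 this).1
            rw [hcont, if_pos hvF', ← hA2]
            have hFA2 : F' ∩ A2 = F := by
              ext y
              rw [Finset.mem_inter]
              constructor
              · rintro ⟨hy1, hy2⟩
                have : y ∈ F' ∩ A := Finset.mem_inter.2 ⟨hy1, s2 hy2⟩
                rw [hF', Finset.mem_insert] at this
                rcases this with rfl | h3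
                · exact absurd hy2 hvA2
                · exact h3
              · intro hy
                have h3 : y ∈ F' ∩ A := by rw [hF']; exact Finset.mem_insert_of_mem hy
                refine ⟨(Finset.mem_inter.1 h3).1, ?_⟩
                have h4 := hFI hy
                rw [Finset.mem_erase] at h4
                rw [hA2, Finset.mem_filter, Finset.mem_erase]
                exact ⟨⟨h4.1, hI h4.2⟩, hInd v hvI y h4.2 (Ne.symm h4.1)⟩
            refine Finset.Subset.trans ?_ (hF F' hFA2)
            intro y hy
            rw [Finset.mem_sdiff, Finset.mem_insert, not_or] at hy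
            rw [Finset.mem_sdiff, Finset.mem_erase]
            exact ⟨⟨hy.2.1, hy.1⟩, hy.2.2⟩
      · obtain ⟨F, hFI, hFc, hF⟩ := ih (A.erase v) ((Finset.erase_subset _ _).trans hAA) (by
          rw [Finset.card_erase_of_mem hvA]
          omega) q (by
          refine le_trans ?_ hq
          have hb2 : 0 ≤ 1 - b := by linarith
          have : ((A.erase v).card : ℝ) ≤ A.card := by
            exact_mod_cast Finset.card_le_card (Finset.erase_subset _ _)
          gcongr) I (by
          intro y hy
          rw [Finset.mem_erase]
          exact ⟨fun h3 => hvI (h3 ▸ hy), hI hy⟩) hInd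
        refine ⟨F, hFI, hFc, fun F' hF' => ?_⟩
        have hvF : v ∉ F := fun h3 => hvI (hFI h3)
        have hvF' : v ∉ F' := by
          intro h3
          apply hvF
          rw [← hF']
          exact Finset.mem_inter.2 ⟨h3, hvA⟩
        rw [hcont, if_neg hvF']
        refine hF F' ?_
        ext y
        rw [Finset.mem_inter]
        constructor
        · rintro ⟨hy1, hy2⟩
          rw [← hF']
          exact Finset.mem_inter.2 ⟨hy1, (Finset.erase_subset _ _) hy2⟩
        · intro hy
          have h3 : y ∈ F' ∩ A := by rw [hF']; exact hy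
          rw [Finset.mem_inter] at h3
          refine ⟨h3.1, Finset.mem_erase.2 ⟨fun h4 => hvF (h4 ▸ hy), h3.2⟩⟩

end Pool.Agent.N628.EP
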