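import Pool.Agent.N628.EP.G1
import Pool.Agent.N628.EP.S2
import Pool.Agent.N628.EP.W2
import Pool.Agent.N628.EP.A1

/-!
N628/EP: the grid, for a general supersaturation inequality.
-/

set_option autoImplicit false

open MeasureTheory Set Real Metric Filter Topology

namespace Pool.Agent.N628.EP

open Pool.Agent.Y509.LS

variable {n : ℕ}

section
open Classical

lemma dg_cover {ι : Type} (adj : ι → ι → Prop) (A : Finset ι) (v : ι) :
    ∃ T : Finset ι, T.card ≤ dg adj A v + 1 ∧ ∀ y ∈ A, (y = v ∨ adj v y) → y ∈ T := by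
  refine ⟨insert v ((A.erase v).filter fun y => adj v y), Finset.card_insert_le _ _, ?_⟩
  intro y hy h
  rw [Finset.mem_insert, Finset.mem_filter, Finset.mem_erase]
  by_cases hyv : y = v
  · exact Or.inl hyv
  · exact Or.inr ⟨⟨hyv, hy⟩, h.resolve_left hyv⟩

lemma cont_spec' {ι : Type} {adj : ι → ι → Prop} {b : ℝ} (hb1 : b ≤ 1) {R : ℕ} {A : Finset ι}
    (hdeg : ∀ B ⊆ A, R < B.card → ∃ v ∈ B, b * B.card ≤ (dg adj B v : ℝ))
    {m : ℕ} (hm : A.card ≤ m + R) {q : ℕ} (hq : (A.card : ℝ) * (1 - b) ^ q ≤ R) {I : Finset ι}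
    (hI : I ⊆ A) (hInd : Inde adj I) :
    ∃ F ⊆ I, F.card ≤ q ∧ ∀ F' : Finset ι, (∀ c ∈ A, (c ∈ F' ↔ c ∈ F)) →
      ∀ c ∈ I, c ∉ F → c ∈ cont adj b R m A F' := by
  obtain ⟨F, hFI, hFc, hF⟩ := cont_spec hb1 hdeg m A (Finset.Subset.refl _) hm q hq I hI hInd
  refine ⟨F, hFI, hFc, fun F' hF' c hc hcF => ?_⟩
  have h1 := hF F' (by
    ext y
    rw [Finset.mem_inter]
    exact ⟨fun h => (hF' y h.2).1 h.1, fun h => ⟨(hF' y (hI (hFI h))).2 h, hI (hFI h)⟩⟩)
  apply h1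
  rw [Finset.mem_sdiff]
  exact ⟨hc, hcF⟩

end

/-- supersaturation at the scale `r` -/
def Sup (n : ℕ) (r lam M : ℝ) : Prop :=
  ∀ S Ω : Set (E n), MeasurableSet S → MeasurableSet Ω → Bornology.IsBounded Ω →
    (∀ x ∈ S, closedBall x r ⊆ Ω) → 0 < volume.real Ω →
    volume.real S ^ 2 * (r ^ n * V1 n) / volume.real Ω - lam * volume.real S ≤
      M * ∫ x in S, volume.real (S ∩ closedBall x r)

/-- a cell with many adjacent cells -/
lemma deg_lower2 {s r L θ lam M : ℝ} (hM : 0 < M) (hlam0 : 0 ≤ lam) (hSup : Sup n r lam M)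
    (hs : 0 < s) (hr : 0 < r) (hL : 0 < L) (hθ : 0 < θ)
    (hsr : s + 2 * r ≤ 4) {B : Finset (Fin n → ℤ)} (hB : B ⊆ AA n s L)
    (hBc : (lam + M * s ^ n) * (L + 4) ^ n / (θ * (r ^ n * V1 n)) < B.card * s ^ n) :
    ∃ v ∈ B, (1 - θ) * (r ^ n * V1 n) / (M * (L + 4) ^ n) * B.card ≤ (dg (adj n s r) B v : ℝ) := by
  by_contra hcon
  push Not at hcon
  obtain ⟨S, hS⟩ : ∃ S : Set (E n), S = uc s B := ⟨_, rfl⟩
  obtain ⟨Ω, hΩ⟩ : ∃ Ω : Set (E n), Ω = {x : E n | ∀ i, x i ∈ Icc (-r) (L + s + r)} := ⟨_, rfl⟩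
  have hSm : MeasurableSet S := by rw [hS]; exact uc_meas hs B
  have hΩm : MeasurableSet Ω := by rw [hΩ]; exact box_meas n _ _
  have hΩv : volume.real Ω = (L + s + 2 * r) ^ n := by
    rw [hΩ, measureReal_def, box_vol n (by linarith), ENNReal.toReal_ofReal (by
      have : 0 ≤ L + s + r - -r := by linarith
      positivity)]
    congr 1
    ring
  have hΩ0 : 0 < volume.real Ω := by rw [hΩv]; positivity
  have hΩb : Bornology.IsBounded Ω := by
    rw [isBounded_iff_forall_norm_le]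
    refine ⟨(L + s + r) * √n, fun x hx => ?_⟩
    rw [EuclideanSpace.norm_eq]
    apply Real.sqrt_le_iff.2
    refine ⟨by positivity, ?_⟩
    rw [mul_pow, Real.sq_sqrt (Nat.cast_nonneg n)]
    calc ∑ j, ‖x j‖ ^ 2 ≤ ∑ _j : Fin n, (L + s + r) ^ 2 := by
          refine Finset.sum_le_sum fun j _ => ?_
          rw [hΩ] at hx
          have h1 := hx j
          refine pow_le_pow_left₀ (norm_nonneg _) ?_ 2
          rw [Real.norm_eq_abs, abs_le]
          exact ⟨by linarith [h1.1], h1.2⟩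
      _ = (L + s + r) ^ 2 * n := by
          rw [Finset.sum_const, Finset.card_univ, Fintype.card_fin, nsmul_eq_mul]; ring
  have hSΩ : ∀ x ∈ S, closedBall x r ⊆ Ω := by
    intro x hx y hy
    rw [hS] at hx
    rw [hΩ]
    intro j
    have h1 := of_mem_AA hs (hB hx) j
    rw [mem_closedBall, dist_eq_norm] at hy
    have h2 := (PiLp.norm_apply_le (y - x) j).trans hy
    rw [PiLp.sub_apply, Real.norm_eq_abs, abs_le] at h2
    exact ⟨by linarith [h2.1], by linarith [h2.2]⟩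
  have h1 := hSup S Ω hSm hΩm hΩb hSΩ hΩ0
  obtain ⟨b, hb⟩ : ∃ b : ℝ, b = (1 - θ) * (r ^ n * V1 n) / (M * (L + 4) ^ n) := ⟨_, rfl⟩
  rw [← hb] at hcon
  have hSt : volume S ≠ ⊤ := (hΩb.subset fun x hx => hSΩ x hx (mem_closedBall_self hr.le)).measure_lt_top.ne
  have h2 : ∀ x ∈ S, volume.real (S ∩ closedBall x r) ≤ s ^ n * (b * B.card + 1) := by
    intro x hx
    rw [hS] at hx
    have hxB : cl s x ∈ B := hx
    obtain ⟨T, hTc, hT⟩ := dg_cover (adj n s r) B (cl s x)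
    have h3 : S ∩ closedBall x r ⊆ uc s T := by
      rintro y ⟨hy1, hy2⟩
      rw [hS] at hy1
      have hyB : cl s y ∈ B := hy1
      refine hT _ hyB (Or.inr ⟨x, y, rfl, rfl, ?_⟩)
      rw [mem_closedBall, dist_comm] at hy2
      exact hy2
    have h4 := measureReal_mono h3 (μ := volume) (by
      rw [uc_eq]
      refine ((measure_biUnion_finset_le _ _).trans_lt ?_).ne
      refine ENNReal.sum_lt_top.2 fun c _ => ?_
      rw [cell_vol hs]
      exact ENNReal.ofReal_lt_top)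
    rw [uc_vol hs] at h4
    refine h4.trans ?_
    rw [mul_comm]
    refine mul_le_mul_of_nonneg_left ?_ (by positivity)
    have h5 := hcon (cl s x) hxB
    have h6 : (T.card : ℝ) ≤ dg (adj n s r) B (cl s x) + 1 := by exact_mod_cast hTc
    linarith
  have h3 : ∫ x in S, volume.real (S ∩ closedBall x r) ≤ volume.real S * (s ^ n * (b * B.card + 1)) := by
    have h4 : ∫ x in S, volume.real (S ∩ closedBall x r) ≤ ∫ x in S, s ^ n * (b * B.card + 1) := by
      refine integral_mono_of_nonneg (Filter.Eventually.of_forall fun _ => measureReal_nonneg)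
        (integrableOn_const hSt) ?_
      exact (ae_restrict_iff' hSm).2 (Filter.Eventually.of_forall h2)
    rwa [setIntegral_const, smul_eq_mul] at h4
  have hSv : volume.real S = B.card * s ^ n := by rw [hS, uc_vol hs]
  obtain ⟨m, hm⟩ : ∃ m : ℝ, m = B.card * s ^ n := ⟨_, rfl⟩
  obtain ⟨D, hD⟩ : ∃ D : ℝ, D = r ^ n * V1 n := ⟨_, rfl⟩
  obtain ⟨W, hW⟩ : ∃ W : ℝ, W = (L + 4) ^ n := ⟨_, rfl⟩
  have hD0 : 0 < D := by rw [hD]; exact mul_pos (pow_pos hr _) (V1_pos n)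
  have hW0 : 0 < W := by rw [hW]; positivity
  rw [hSv, ← hm, hΩv, ← hD] at h1
  rw [hSv, ← hm] at h3
  rw [← hm, ← hD, ← hW] at hBc
  rw [← hD, ← hW] at hb
  have hsn : 0 < s ^ n := pow_pos hs n
  have hm0 : 0 < m := by
    refine lt_of_le_of_lt ?_ hBc
    positivity
  have hWle : (L + s + 2 * r) ^ n ≤ W := by
    rw [hW]
    exact pow_le_pow_left₀ (by positivity) (by linarith) n
  have hW1 : 0 < (L + s + 2 * r) ^ n := by positivity
  have h4 : m ^ 2 * D / W ≤ m ^ 2 * D / (L + s + 2 * r) ^ n := by gcongr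
  have h5 : m ^ 2 * D / W - lam * m ≤ M * (m * (b * m + s ^ n)) := by
    have h6 : s ^ n * (b * B.card + 1) = b * m + s ^ n := by rw [hm]; ring
    rw [h6] at h3
    have h7 := mul_le_mul_of_nonneg_left h3 hM.le
    linarith
  have h6 : m * (D / W) - lam ≤ M * (b * m + s ^ n) := by
    have h7 : m ^ 2 * D / W - lam * m = m * (m * (D / W) - lam) := by ring
    have h8 : M * (m * (b * m + s ^ n)) = m * (M * (b * m + s ^ n)) := by ring
    rw [h7, h8] at h5
    exact le_of_mul_le_mul_left h5 hm0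
  have h7 : M * b = (D / W) * (1 - θ) := by rw [hb]; field_simp
  have h8 : θ * (m * (D / W)) ≤ lam + M * s ^ n := by
    have h9 : M * (b * m + s ^ n) = (M * b) * m + M * s ^ n := by ring
    rw [h9, h7] at h6
    linarith
  rw [div_lt_iff₀ (by positivity)] at hBc
  have h9 : θ * (m * (D / W)) = m * (θ * D) / W := by ring
  rw [h9, div_le_iff₀ hW0] at h8
  linarith

lemma conf_sub {s r L : ℝ} (hs : 0 < s) (hr : 0 < r) {k : ℕ} (hsr2 : r + 2 * (s * √n) < 2) :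
    conf n k L ⊆ ⋃ f ∈ tup (adj n s r) (AA n s L) k, Set.pi univ fun i => cell s (f i) := by
  intro x hx
  rw [mem_iUnion₂]
  refine ⟨fun i => cl s (x i), ?_, fun i _ => rfl⟩
  rw [mem_tup]
  refine ⟨fun i => mem_AA hs (hx.1 i), fun i j hij => ?_⟩
  have h2 := hx.2 i j hij
  have hsq : 0 ≤ s * √n := by positivity
  constructor
  · intro h3
    have := cell_dist hs h3
    linarith
  · rintro ⟨u, v, hu, hv, huv⟩
    have h3 := cell_dist hs hu
    have h4 := cell_dist hs hv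
    have h5 : dist (x i) (x j) ≤ dist (x i) u + dist u v + dist v (x j) := dist_triangle4 _ _ _ _
    rw [dist_comm (x i) u] at h5
    linarith

/-- **the volume of the space of packings, on a grid** -/
theorem conf_grid2 {s r L θ lam M : ℝ} (hM : 0 < M) (hlam0 : 0 ≤ lam) (hSup : Sup n r lam M)
    (hs : 0 < s) (hr : 0 < r) (hL : 0 < L) (hθ : 0 < θ)
    (hsr : s + 2 * r ≤ 4) (hsr2 : r + 2 * (s * √n) < 2) {q k : ℕ} (hqk : q ≤ k)
    {m₁ b : ℝ} (hm₁ : m₁ = (lam + M * s ^ n) * (L + 4) ^ n / (θ * (r ^ n * V1 n)))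
    (hb : b = (1 - θ) * (r ^ n * V1 n) / (M * (L + 4) ^ n)) (hb1 : b ≤ 1)
    (hq : (L + s) ^ n * (1 - b) ^ q ≤ m₁) :
    volume.real (conf n k L) ≤ 2 ^ k * (((L + s) ^ n) ^ q * (m₁ + s ^ n) ^ (k - q)) := by
  classical
  have hsn : 0 < s ^ n := pow_pos hs n
  have hm0 : 0 ≤ m₁ := by
    rw [hm₁]
    have := V1_pos n
    positivity
  obtain ⟨R, hR⟩ : ∃ R : ℕ, R = ⌈m₁ / s ^ n⌉₊ := ⟨_, rfl⟩
  have hR1 : m₁ ≤ R * s ^ n := by
    rw [hR, ← div_le_iff₀ hsn]
    exact Nat.le_ceil _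
  have hR2 : R * s ^ n ≤ m₁ + s ^ n := by
    have h1 : (R : ℝ) ≤ m₁ / s ^ n + 1 := by
      rw [hR]
      exact (Nat.ceil_lt_add_one (by positivity)).le
    calc R * s ^ n ≤ (m₁ / s ^ n + 1) * s ^ n := by gcongr
      _ = m₁ + s ^ n := by field_simp
  have hb0 : 0 ≤ 1 - b := by linarith
  have hAc := AA_card (n := n) hs hL
  have h1 := tup_bound (adj := adj n s r) hb1 (A := AA n s L) (R := R) (fun B hB hBR => by
    have h2 : (R : ℝ) < B.card := by exact_mod_cast hBR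
    have h3 := deg_lower2 hM hlam0 hSup hs hr hL hθ hsr hB (by
      rw [← hm₁]
      calc m₁ ≤ R * s ^ n := hR1
        _ < B.card * s ^ n := mul_lt_mul_of_pos_right h2 hsn)
    rw [hb]
    exact h3) hqk (by
    have h2 : (AA n s L).card * (1 - b) ^ q * s ^ n ≤ R * s ^ n := by
      calc (AA n s L).card * (1 - b) ^ q * s ^ n = ((AA n s L).card * s ^ n) * (1 - b) ^ q := by ring
        _ ≤ (L + s) ^ n * (1 - b) ^ q := by gcongr
        _ ≤ R * s ^ n := hq.trans hR1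
    exact le_of_mul_le_mul_right h2 hsn)
  have hsub := conf_sub (n := n) (L := L) hs hr (k := k) hsr2
  have h2 : volume (conf n k L) ≤ (tup (adj n s r) (AA n s L) k).card * ENNReal.ofReal ((s ^ n) ^ k) := by
    refine (measure_mono hsub).trans ((measure_biUnion_finset_le _ _).trans (le_of_eq ?_))
    have h3 : ∀ f ∈ tup (adj n s r) (AA n s L) k, volume (Set.pi univ fun i => cell s (f i)) =
        ENNReal.ofReal ((s ^ n) ^ k) := by
      intro f _
      rw [volume_pi_pi]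
      simp only [cell_vol hs, Finset.prod_const, Finset.card_univ, Fintype.card_fin]
      rw [ENNReal.ofReal_pow hsn.le]
    rw [Finset.sum_congr rfl h3, Finset.sum_const, nsmul_eq_mul]
  have h3 : volume.real (conf n k L) ≤ (tup (adj n s r) (AA n s L) k).card * (s ^ n) ^ k := by
    have h4 := ENNReal.toReal_mono (by
      exact ENNReal.mul_ne_top (ENNReal.natCast_ne_top _) ENNReal.ofReal_ne_top) h2
    rwa [ENNReal.toReal_mul, ENNReal.toReal_natCast, ENNReal.toReal_ofReal (by positivity)] at h4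
  refine h3.trans ?_
  calc ((tup (adj n s r) (AA n s L) k).card : ℝ) * (s ^ n) ^ k ≤
      2 ^ k * (((AA n s L).card : ℝ) ^ q * (R : ℝ) ^ (k - q)) * (s ^ n) ^ k := by gcongr
    _ = 2 ^ k * (((AA n s L).card * s ^ n) ^ q * (R * s ^ n) ^ (k - q)) := by
        rw [mul_pow ((AA n s L).card : ℝ), mul_pow (R : ℝ)]
        have : (s ^ n) ^ k = (s ^ n) ^ q * (s ^ n) ^ (k - q) := by
          rw [← pow_add]
          congr 1
          omega
        rw [this]
        ring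
    _ ≤ 2 ^ k * (((L + s) ^ n) ^ q * (m₁ + s ^ n) ^ (k - q)) := by gcongr

/-- the choice of the mesh -/
lemma mesh (hn : 0 < n) {r L θ lam M : ℝ} (hr2 : r < 2) {m₀ β : ℝ}
    (hm₀ : m₀ = lam * (L + 4) ^ n / (θ * (r ^ n * V1 n))) {q : ℕ}
    (hq : L ^ n * β ^ q < m₀) :
    ∀ᶠ s : ℝ in 𝓝[>] 0, 0 < s ∧ s + 2 * r ≤ 4 ∧ r + 2 * (s * √n) < 2 ∧
      (L + s) ^ n * β ^ q ≤ (lam + M * s ^ n) * (L + 4) ^ n / (θ * (r ^ n * V1 n)) := by
  obtain ⟨Mf, hMf⟩ : ∃ Mf : ℝ → ℝ, Mf = fun s => (lam + M * s ^ n) * (L + 4) ^ n /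
    (θ * (r ^ n * V1 n)) := ⟨_, rfl⟩
  have hM0 : Mf 0 = m₀ := by
    rw [hMf, hm₀]
    simp only
    rw [zero_pow hn.ne', mul_zero, add_zero]
  have hMc : Continuous Mf := by
    rw [hMf]
    fun_prop
  have e1 : ∀ᶠ s : ℝ in 𝓝[>] 0, s + 2 * r < 4 := by
    have : Tendsto (fun s : ℝ => s + 2 * r) (𝓝[>] 0) (𝓝 (0 + 2 * r)) :=
      (Continuous.tendsto (by fun_prop) 0).mono_left nhdsWithin_le_nhds
    exact this.eventually (gt_mem_nhds (by linarith))
  have e2 : ∀ᶠ s : ℝ in 𝓝[>] 0, r + 2 * (s * √n) < 2 := by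
    have : Tendsto (fun s : ℝ => r + 2 * (s * √n)) (𝓝[>] 0) (𝓝 (r + 2 * (0 * √n))) :=
      (Continuous.tendsto (by fun_prop) 0).mono_left nhdsWithin_le_nhds
    exact this.eventually (gt_mem_nhds (by linarith))
  have e3 : ∀ᶠ s : ℝ in 𝓝[>] 0, 0 < Mf s - (L + s) ^ n * β ^ q := by
    have : Tendsto (fun s : ℝ => Mf s - (L + s) ^ n * β ^ q) (𝓝[>] 0)
        (𝓝 (Mf 0 - (L + 0) ^ n * β ^ q)) :=
      (Continuous.tendsto (by fun_prop) 0).mono_left nhdsWithin_le_nhds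
    refine this.eventually (lt_mem_nhds ?_)
    rw [hM0, add_zero]
    linarith
  filter_upwards [e1, e2, e3, self_mem_nhdsWithin] with s h1 h2 h3 h4
  have hs : 0 < s := h4
  refine ⟨hs, h1.le, h2, ?_⟩
  have h5 : Mf s = (lam + M * s ^ n) * (L + 4) ^ n / (θ * (r ^ n * V1 n)) := by rw [hMf]
  rw [← h5]
  linarith

/-- the volume of the space of packings -/
theorem conf_main2 (hn : 0 < n) {r L θ lam M : ℝ} (hM : 0 < M) (hlam0 : 0 ≤ lam)
    (hSup : Sup n r lam M) (hr : 0 < r) (hr2 : r < 2) (hL : 0 < L) (hθ : 0 < θ)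
    {q k : ℕ} (hqk : q ≤ k) {m₀ b : ℝ}
    (hm₀ : m₀ = lam * (L + 4) ^ n / (θ * (r ^ n * V1 n)))
    (hb : b = (1 - θ) * (r ^ n * V1 n) / (M * (L + 4) ^ n)) (hb1 : b ≤ 1)
    (hq : L ^ n * (1 - b) ^ q < m₀) :
    volume.real (conf n k L) ≤ 2 ^ k * ((L ^ n) ^ q * m₀ ^ (k - q)) := by
  obtain ⟨Mf, hMf⟩ : ∃ Mf : ℝ → ℝ, Mf = fun s => (lam + M * s ^ n) * (L + 4) ^ n /
    (θ * (r ^ n * V1 n)) := ⟨_, rfl⟩
  have hM0 : Mf 0 = m₀ := by
    rw [hMf, hm₀]
    simp only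
    rw [zero_pow hn.ne', mul_zero, add_zero]
  have hMc : Continuous Mf := by
    rw [hMf]
    fun_prop
  have hlim : Tendsto (fun s : ℝ => 2 ^ k * (((L + s) ^ n) ^ q * (Mf s + s ^ n) ^ (k - q)))
      (𝓝[>] 0) (𝓝 (2 ^ k * (((L + 0) ^ n) ^ q * (Mf 0 + 0 ^ n) ^ (k - q)))) := by
    refine (Continuous.tendsto ?_ 0).mono_left nhdsWithin_le_nhds
    fun_prop
  rw [hM0, zero_pow hn.ne', add_zero, add_zero] at hlim
  refine ge_of_tendsto hlim ?_
  filter_upwards [mesh (M := M) hn hr2 hm₀ hq] with s hs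
  refine conf_grid2 hM hlam0 hSup hs.1 hr hL hθ hs.2.1 hs.2.2.1 hqk (by rw [hMf]) hb hb1 ?_
  rw [hMf]
  exact hs.2.2.2

/-- **fingerprints and containers** -/
theorem cont_main (hn : 0 < n) {r L θ lam M : ℝ} (hM : 0 < M) (hlam0 : 0 ≤ lam)
    (hSup : Sup n r lam M) (hr : 0 < r) (hr2 : r < 2) (hL : 0 < L) (hθ : 0 < θ)
    {q : ℕ} {m₀ m₂ b : ℝ}
    (hm₀ : m₀ = lam * (L + 4) ^ n / (θ * (r ^ n * V1 n)))
    (hb : b = (1 - θ) * (r ^ n * V1 n) / (M * (L + 4) ^ n)) (hb1 : b ≤ 1)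
    (hq : L ^ n * (1 - b) ^ q < m₀) (hm₂ : m₀ < m₂) :
    ∃ C : Finset (E n) → Set (E n), (∀ F, MeasurableSet (C F)) ∧
      (∀ F, volume (C F) ≤ ENNReal.ofReal m₂) ∧
      ∀ X : Finset (E n), (∀ x ∈ X, x ∈ cube n L) → (∀ x ∈ X, ∀ y ∈ X, x ≠ y → 2 ≤ dist x y) →
        ∃ F ⊆ X, F.card ≤ q ∧ ∀ x ∈ X, x ∉ F → x ∈ C F := by
  classical
  obtain ⟨Mf, hMf⟩ : ∃ Mf : ℝ → ℝ, Mf = fun s => (lam + M * s ^ n) * (L + 4) ^ n /
    (θ * (r ^ n * V1 n)) := ⟨_, rfl⟩
  have hM0 : Mf 0 = m₀ := by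
    rw [hMf, hm₀]
    simp only
    rw [zero_pow hn.ne', mul_zero, add_zero]
  have hMc : Continuous Mf := by
    rw [hMf]
    fun_prop
  have e4 : ∀ᶠ s : ℝ in 𝓝[>] 0, Mf s + s ^ n < m₂ := by
    have : Tendsto (fun s : ℝ => Mf s + s ^ n) (𝓝[>] 0) (𝓝 (Mf 0 + 0 ^ n)) :=
      (Continuous.tendsto (by fun_prop) 0).mono_left nhdsWithin_le_nhds
    refine this.eventually (gt_mem_nhds ?_)
    rw [hM0, zero_pow hn.ne', add_zero]
    exact hm₂
  obtain ⟨s, ⟨hs, hsr, hsr2, hq2⟩, hs2⟩ := ((mesh (M := M) hn hr2 hm₀ hq).and e4).exists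
  have hsn : 0 < s ^ n := pow_pos hs n
  obtain ⟨m₁, hm₁⟩ : ∃ m₁ : ℝ, m₁ = (lam + M * s ^ n) * (L + 4) ^ n / (θ * (r ^ n * V1 n)) := ⟨_, rfl⟩
  have hm1s : Mf s = m₁ := by rw [hMf, hm₁]
  rw [hm1s] at hs2
  rw [← hm₁] at hq2
  have hm0 : 0 ≤ m₁ := by
    rw [hm₁]
    have := V1_pos n
    positivity
  obtain ⟨R, hR⟩ : ∃ R : ℕ, R = ⌈m₁ / s ^ n⌉₊ := ⟨_, rfl⟩
  have hR1 : m₁ ≤ R * s ^ n := by
    rw [hR, ← div_le_iff₀ hsn]
    exact Nat.le_ceil _
  have hR2 : R * s ^ n ≤ m₁ + s ^ n := by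
    have h1 : (R : ℝ) ≤ m₁ / s ^ n + 1 := by
      rw [hR]
      exact (Nat.ceil_lt_add_one (by positivity)).le
    calc R * s ^ n ≤ (m₁ / s ^ n + 1) * s ^ n := by gcongr
      _ = m₁ + s ^ n := by field_simp
  have hb0 : 0 ≤ 1 - b := by linarith
  have hAc := AA_card (n := n) hs hL
  have hdeg : ∀ B ⊆ AA n s L, R < B.card → ∃ v ∈ B, b * B.card ≤ (dg (adj n s r) B v : ℝ) := by
    intro B hB hBR
    have h2 : (R : ℝ) < B.card := by exact_mod_cast hBR
    have h3 := deg_lower2 hM hlam0 hSup hs hr hL hθ hsr hB (by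
      rw [← hm₁]
      calc m₁ ≤ R * s ^ n := hR1
        _ < B.card * s ^ n := mul_lt_mul_of_pos_right h2 hsn)
    rw [hb]
    exact h3
  have hqR : ((AA n s L).card : ℝ) * (1 - b) ^ q ≤ R := by
    have h2 : (AA n s L).card * (1 - b) ^ q * s ^ n ≤ R * s ^ n := by
      calc (AA n s L).card * (1 - b) ^ q * s ^ n = ((AA n s L).card * s ^ n) * (1 - b) ^ q := by ring
        _ ≤ (L + s) ^ n * (1 - b) ^ q := by gcongr
        _ ≤ R * s ^ n := hq2.trans hR1
    exact le_of_mul_le_mul_right h2 hsn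
  obtain ⟨m, hm⟩ : ∃ m : ℕ, m = (AA n s L).card := ⟨_, rfl⟩
  refine ⟨fun F => uc s (cont (adj n s r) b R m (AA n s L) (F.image (cl s))), fun F => uc_meas hs _,
    fun F => ?_, fun X hX hXs => ?_⟩
  · have h1 := cont_card hdeg m (AA n s L) (F.image (cl s)) (Finset.Subset.refl _) (by omega)
    have h2 : volume.real (uc s (cont (adj n s r) b R m (AA n s L) (F.image (cl s)))) ≤ m₂ := by
      rw [uc_vol hs]
      have h3 : ((cont (adj n s r) b R m (AA n s L) (F.image (cl s))).card : ℝ) ≤ R := by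
        exact_mod_cast h1
      calc ((cont (adj n s r) b R m (AA n s L) (F.image (cl s))).card : ℝ) * s ^ n ≤ R * s ^ n := by
            gcongr
        _ ≤ m₂ := hR2.trans hs2.le
    have h3 : volume (uc s (cont (adj n s r) b R m (AA n s L) (F.image (cl s)))) ≠ ⊤ := by
      rw [uc_eq]
      refine ((measure_biUnion_finset_le _ _).trans_lt ?_).ne
      refine ENNReal.sum_lt_top.2 fun c _ => ?_
      rw [cell_vol hs]
      exact ENNReal.ofReal_lt_top
    rw [← ENNReal.ofReal_toReal h3]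
    exact ENNReal.ofReal_le_ofReal h2
  · have hinj : ∀ x ∈ X, ∀ y ∈ X, cl s x = cl s y → x = y := by
      intro x hx y hy hxy
      by_contra hne
      have h1 := hXs x hx y hy hne
      have h2 := cell_dist hs hxy
      linarith
    have hIA : X.image (cl s) ⊆ AA n s L := by
      intro c hc
      rw [Finset.mem_image] at hc
      obtain ⟨x, hx, rfl⟩ := hc
      exact mem_AA hs (hX x hx)
    have hInd : Inde (adj n s r) (X.image (cl s)) := by
      intro c hc c' hc' hne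
      rw [Finset.mem_image] at hc hc'
      obtain ⟨x, hx, rfl⟩ := hc
      obtain ⟨y, hy, rfl⟩ := hc'
      rintro ⟨u, v, hu, hv, huv⟩
      have h2 := hXs x hx y hy fun h => hne (by rw [h])
      have h3 := cell_dist hs hu
      have h4 := cell_dist hs hv
      have h5 : dist x y ≤ dist x u + dist u v + dist v y := dist_triangle4 _ _ _ _
      rw [dist_comm x u] at h5
      linarith
    obtain ⟨F₀, hF₀I, hF₀c, hF₀⟩ := cont_spec' hb1 hdeg (m := m) (by omega) hqR hIA hInd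
    obtain ⟨F, hF⟩ : ∃ F : Finset (E n), F = X.filter fun x => cl s x ∈ F₀ := ⟨_, rfl⟩
    have hFX : F ⊆ X := by rw [hF]; exact Finset.filter_subset _ _
    have hFF : F.image (cl s) = F₀ := by
      ext c
      rw [Finset.mem_image]
      constructor
      · rintro ⟨x, hx, rfl⟩
        rw [hF, Finset.mem_filter] at hx
        exact hx.2
      · intro hc
        obtain ⟨x, hx, hxc⟩ := Finset.mem_image.1 (hF₀I hc)
        refine ⟨x, ?_, hxc⟩
        rw [hF, Finset.mem_filter]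
        exact ⟨hx, by rw [hxc]; exact hc⟩
    refine ⟨F, hFX, ?_, ?_⟩
    · rw [← hFF, Finset.card_image_of_injOn (fun x hx y hy hxy => hinj x (hFX hx) y (hFX hy) hxy)]
        at hF₀c
      exact hF₀c
    · intro x hx hxF
      change cl s x ∈ cont (adj n s r) b R m (AA n s L) (F.image (cl s))
      refine hF₀ (F.image (cl s)) (fun c _ => by rw [hFF]) _ (Finset.mem_image_of_mem _ hx)
        fun h2 => hxF ?_
      rw [hF, Finset.mem_filter]
      exact ⟨hx, h2⟩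

end Pool.Agent.N628.EP
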