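import Pool.Agent.N628.EP.W1

/-!
N628/EP: a refined form of the Kleitman-Winston bound.
-/

set_option autoImplicit false

namespace Pool.Agent.N628.EP

open Classical

variable {ι : Type} {adj : ι → ι → Prop}

/-- `R^(k-j) / (k-j)!` -/
noncomputable def rr (R : ℕ) (k j : ℕ) : ℝ := if j ≤ k then (R : ℝ) ^ (k - j) / (k - j).factorial else 0

lemma rr_nonneg (R k j : ℕ) : 0 ≤ rr R k j := by
  unfold rr
  split_ifs
  · positivity
  · exact le_rfl

lemma rr_succ (R k j : ℕ) : rr R (k + 1) (j + 1) = rr R k j := by
  unfold rr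
  by_cases h : j ≤ k
  · rw [if_pos h, if_pos (by omega), Nat.add_sub_add_right]
  · rw [if_neg h, if_neg (by omega)]

/-- the bound -/
noncomputable def kb (b : ℝ) (R : ℕ) (Q : ℕ) (a : ℝ) (k : ℕ) : ℝ :=
  ∑ j ∈ Finset.range (Q + 1), (a + 1) ^ j * (1 - b) ^ (j * (j - 1) / 2) / j.factorial * rr R k j

lemma tri_succ (j : ℕ) : (j + 1) * (j + 1 - 1) / 2 = j * (j - 1) / 2 + j := by
  have h1 : (j + 1) * (j + 1 - 1) = j * (j - 1) + 2 * j := by
    rcases j with _ | j
    · rfl
    · simp only [Nat.add_sub_cancel]
      ring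
  rw [h1]
  omega

lemma pow_succ_ge {a : ℝ} (ha : 0 ≤ a) (i : ℕ) : a ^ (i + 1) + (i + 1) * a ^ i ≤ (a + 1) ^ (i + 1) := by
  induction i with
  | zero => simp
  | succ i ih =>
    have h1 : (a + 1) ^ (i + 1 + 1) = (a + 1) ^ (i + 1) * (a + 1) := pow_succ _ _
    rw [h1]
    have h2 := mul_le_mul_of_nonneg_right ih (by linarith : 0 ≤ a + 1)
    refine le_trans ?_ h2
    have h3 : 0 ≤ a ^ i := by positivity
    have h4 : 0 ≤ (i : ℝ) * a ^ i := by positivity
    push_cast
    have h5 : (a ^ (i + 1) + (i + 1) * a ^ i) * (a + 1) =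
      a ^ (i + 1 + 1) + (i + 1 + 1) * a ^ (i + 1) + (a ^ i + i * a ^ i) := by ring
    rw [h5]
    linarith

/-- **Kleitman-Winston**, refined -/
theorem kw2 {b : ℝ} (hb0 : 0 ≤ b) (hb1 : b ≤ 1) {R : ℕ}
    {A₀ : Finset ι}
    (hdeg : ∀ B ⊆ A₀, R < B.card → ∃ v ∈ B,
      b * B.card ≤ (((B.erase v).filter fun y => adj v y).card : ℝ)) :
    ∀ (a : ℕ) (A : Finset ι), A.card = a → A ⊆ A₀ → ∀ q k : ℕ,
      (A.card : ℝ) * (1 - b) ^ q ≤ R → (cnt adj A k : ℝ) ≤ kb b R q A.card k := by
  intro a
  induction a using Nat.strong_induction_on with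
  | _ a ih =>
    intro A hA hAA q k hR
    have hb2 : 0 ≤ 1 - b := by linarith
    have hnn : ∀ j, 0 ≤ ((A.card : ℝ) + 1) ^ j * (1 - b) ^ (j * (j - 1) / 2) / j.factorial * rr R k j :=
      fun j => mul_nonneg (by positivity) (rr_nonneg _ _ _)
    have h0 : rr R k 0 ≤ kb b R q A.card k := by
      have h1 := Finset.single_le_sum (f := fun j => ((A.card : ℝ) + 1) ^ j *
        (1 - b) ^ (j * (j - 1) / 2) / j.factorial * rr R k j) (fun j _ => hnn j)
        (Finset.mem_range.2 (Nat.succ_pos q))
      refine le_trans (le_of_eq ?_) h1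
      simp
    have hrr0 : rr R k 0 = (R : ℝ) ^ k / k.factorial := by
      unfold rr
      rw [if_pos (Nat.zero_le k), Nat.sub_zero]
    rcases Nat.lt_or_ge R A.card with hlt | hge
    swap
    · refine le_trans ?_ h0
      rw [hrr0]
      have h1 : (cnt adj A k : ℝ) ≤ A.card.choose k := by exact_mod_cast cnt_le A k
      refine h1.trans ((Nat.choose_le_pow_div _ _).trans ?_)
      gcongr
    · rcases Nat.eq_zero_or_pos q with hq | hq
      · exfalso
        rw [hq, pow_zero, mul_one] at hR
        have : A.card ≤ R := by exact_mod_cast hR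
        omega
      · obtain ⟨q', rfl⟩ : ∃ q', q = q' + 1 := ⟨q - 1, by omega⟩
        rcases Nat.eq_zero_or_pos k with hk | hk
        · refine le_trans ?_ h0
          rw [hrr0, hk]
          have h1 : (cnt adj A 0 : ℝ) ≤ A.card.choose 0 := by exact_mod_cast cnt_le A 0
          simpa using h1
        obtain ⟨k', rfl⟩ : ∃ k', k = k' + 1 := ⟨k - 1, by omega⟩
        obtain ⟨v, hv, hvd⟩ := hdeg A hAA hlt
        have h1 := cnt_rec (adj := adj) A v k'
        obtain ⟨A1, hA1⟩ : ∃ A1, A1 = A.erase v := ⟨_, rfl⟩
        obtain ⟨A2, hA2⟩ : ∃ A2, A2 = (A.erase v).filter fun y => ¬ adj v y := ⟨_, rfl⟩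
        rw [← hA2, ← hA1] at h1
        have c1 : A1.card = A.card - 1 := by rw [hA1, Finset.card_erase_of_mem hv]
        have hApos : 0 < A.card := Finset.card_pos.2 ⟨v, hv⟩
        have c2 : A2.card + ((A.erase v).filter fun y => adj v y).card = A.card - 1 := by
          rw [hA2, add_comm, Finset.card_filter_add_card_filter_not,
            Finset.card_erase_of_mem hv]
        have s1 : A1 ⊆ A := by rw [hA1]; exact Finset.erase_subset _ _
        have s2 : A2 ⊆ A := by
          rw [hA2]
          exact (Finset.filter_subset _ _).trans (Finset.erase_subset _ _)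
        have hA2c : (A2.card : ℝ) + 1 ≤ (1 - b) * A.card := by
          have h3 : ((A2.card + ((A.erase v).filter fun y => adj v y).card + 1 : ℕ) : ℝ) ≤ A.card := by
            exact_mod_cast (by omega :
              A2.card + ((A.erase v).filter fun y => adj v y).card + 1 ≤ A.card)
          push_cast at h3
          linarith
        have i1 := ih A1.card (by omega) A1 rfl (s1.trans hAA) (q' + 1) (k' + 1) (by
          refine le_trans ?_ hR
          have : (A1.card : ℝ) ≤ A.card := by exact_mod_cast Finset.card_le_card s1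
          gcongr)
        have i2 := ih A2.card (by omega) A2 rfl (s2.trans hAA) q' k' (by
          refine le_trans ?_ hR
          calc (A2.card : ℝ) * (1 - b) ^ q' ≤ ((1 - b) * A.card) * (1 - b) ^ q' := by
                gcongr
                linarith
            _ = A.card * (1 - b) ^ (q' + 1) := by ring)
        have h2 : (cnt adj A (k' + 1) : ℝ) ≤ cnt adj A1 (k' + 1) + cnt adj A2 k' := by
          exact_mod_cast h1
        refine h2.trans ((add_le_add i1 i2).trans ?_)
        have ha1 : (A1.card : ℝ) + 1 = A.card := by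
          rw [c1, Nat.cast_sub (by omega)]
          simp
        obtain ⟨x, hx⟩ : ∃ x : ℝ, x = A.card := ⟨_, rfl⟩
        have hx0 : 0 ≤ x := by rw [hx]; positivity
        have e1 : kb b R (q' + 1) A1.card (k' + 1) =
            ∑ j ∈ Finset.range (q' + 1), x ^ (j + 1) * (1 - b) ^ (j * (j - 1) / 2 + j) /
              (j + 1).factorial * rr R k' j + rr R (k' + 1) 0 := by
          unfold kb
          rw [ha1, ← hx, Finset.sum_range_succ']
          congr 1
          · refine Finset.sum_congr rfl fun j _ => ?_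
            rw [rr_succ, tri_succ]
          · simp
        have e2 : kb b R q' A2.card k' ≤
            ∑ j ∈ Finset.range (q' + 1), ((1 - b) * x) ^ j * (1 - b) ^ (j * (j - 1) / 2) /
              j.factorial * rr R k' j := by
          unfold kb
          refine Finset.sum_le_sum fun j _ => ?_
          have := rr_nonneg R k' j
          rw [hx]
          gcongr
        have e3 : kb b R (q' + 1) A.card (k' + 1) =
            ∑ j ∈ Finset.range (q' + 1), (x + 1) ^ (j + 1) * (1 - b) ^ (j * (j - 1) / 2 + j) /
              (j + 1).factorial * rr R k' j + rr R (k' + 1) 0 := by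
          unfold kb
          rw [← hx, Finset.sum_range_succ']
          congr 1
          · refine Finset.sum_congr rfl fun j _ => ?_
            rw [rr_succ, tri_succ]
          · simp
        rw [e1, e3]
        have e4 : ∀ j ∈ Finset.range (q' + 1),
            x ^ (j + 1) * (1 - b) ^ (j * (j - 1) / 2 + j) / (j + 1).factorial * rr R k' j +
              ((1 - b) * x) ^ j * (1 - b) ^ (j * (j - 1) / 2) / j.factorial * rr R k' j ≤
            (x + 1) ^ (j + 1) * (1 - b) ^ (j * (j - 1) / 2 + j) / (j + 1).factorial * rr R k' j := by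
          intro j _
          have f1 := pow_succ_ge hx0 j
          have f2 : (0 : ℝ) < (j + 1).factorial := by exact_mod_cast Nat.factorial_pos _
          have f3 : ((j + 1).factorial : ℝ) = (j + 1) * j.factorial := by
            rw [Nat.factorial_succ]
            push_cast
            ring
          have f4 : (0 : ℝ) < j.factorial := by exact_mod_cast Nat.factorial_pos _
          have f5 : x ^ (j + 1) * (1 - b) ^ (j * (j - 1) / 2 + j) / (j + 1).factorial * rr R k' j +
              ((1 - b) * x) ^ j * (1 - b) ^ (j * (j - 1) / 2) / j.factorial * rr R k' j =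
              (x ^ (j + 1) + (j + 1) * x ^ j) * (1 - b) ^ (j * (j - 1) / 2 + j) /
                (j + 1).factorial * rr R k' j := by
            rw [f3, mul_pow, pow_add (1 - b)]
            field_simp
          rw [f5]
          have := rr_nonneg R k' j
          gcongr
        have e5 := Finset.sum_le_sum e4
        rw [Finset.sum_add_distrib] at e5
        linarith

/-- the number of tuples -/
lemma tup_bound2 {b : ℝ} (hb0 : 0 ≤ b) (hb1 : b ≤ 1) {R : ℕ} {A : Finset ι}
    (hdeg : ∀ B ⊆ A, R < B.card → ∃ v ∈ B,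
      b * B.card ≤ (((B.erase v).filter fun y => adj v y).card : ℝ)) {q k : ℕ}
    (hR : (A.card : ℝ) * (1 - b) ^ q ≤ R) :
    ((tup adj A k).card : ℝ) ≤ ∑ j ∈ Finset.range (q + 1), (k.choose j : ℝ) *
      (((A.card : ℝ) + 1) ^ j * (1 - b) ^ (j * (j - 1) / 2) * (R : ℝ) ^ (k - j)) := by
  have h1 := kw2 hb0 hb1 hdeg A.card A rfl (Finset.Subset.refl _) q k hR
  have h2 : ((tup adj A k).card : ℝ) ≤ k.factorial * cnt adj A k := by
    exact_mod_cast tup_card A k
  refine h2.trans ((mul_le_mul_of_nonneg_left h1 (Nat.cast_nonneg _)).trans (le_of_eq ?_))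
  unfold kb
  rw [Finset.mul_sum]
  refine Finset.sum_congr rfl fun j _ => ?_
  unfold rr
  by_cases h : j ≤ k
  · rw [if_pos h]
    have h6 : (k.choose j : ℝ) * j.factorial * (k - j).factorial = k.factorial := by
      exact_mod_cast Nat.choose_mul_factorial_mul_factorial h
    rw [← h6]
    have h7 : (j.factorial : ℝ) ≠ 0 := by exact_mod_cast Nat.factorial_ne_zero j
    have h8 : ((k - j).factorial : ℝ) ≠ 0 := by exact_mod_cast Nat.factorial_ne_zero (k - j)
    field_simp
  · rw [if_neg h, Nat.choose_eq_zero_of_lt (by omega)]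
    simp

end Pool.Agent.N628.EP
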