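import Pool.Agent.N628.EP.G2
import Pool.Agent.N628.EP.W3

/-!
N628/EP: the refined bound for the volume of the space of packings.
-/

set_option autoImplicit false

open MeasureTheory Set Real Metric Filter Topology

namespace Pool.Agent.N628.EP

open Pool.Agent.Y509.LS

variable {n : ℕ}

theorem conf_grid3 {s r L θ lam M : ℝ} (hM : 0 < M) (hlam0 : 0 ≤ lam) (hSup : Sup n r lam M)
    (hs : 0 < s) (hr : 0 < r) (hL : 0 < L) (hθ : 0 < θ)
    (hsr : s + 2 * r ≤ 4) (hsr2 : r + 2 * (s * √n) < 2) {q k : ℕ} {m b : ℝ} (hm0 : 0 ≤ m)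
    (hm₁ : (lam + M * s ^ n) * (L + 4) ^ n / (θ * (r ^ n * V1 n)) ≤ m)
    (hb : b = (1 - θ) * (r ^ n * V1 n) / (M * (L + 4) ^ n)) (hb0 : 0 ≤ b) (hb1 : b ≤ 1)
    (hq : (L + s) ^ n * (1 - b) ^ q ≤ m) :
    volume.real (conf n k L) ≤ ∑ j ∈ Finset.range (q + 1), (k.choose j : ℝ) *
      (((L + s) ^ n + s ^ n) ^ j * (1 - b) ^ (j * (j - 1) / 2) * (m + s ^ n) ^ (k - j)) := by
  classical
  have hsn : 0 < s ^ n := pow_pos hs n
  obtain ⟨R, hR⟩ : ∃ R : ℕ, R = ⌈m / s ^ n⌉₊ := ⟨_, rfl⟩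
  have hR1 : m ≤ R * s ^ n := by
    rw [hR, ← div_le_iff₀ hsn]
    exact Nat.le_ceil _
  have hR2 : R * s ^ n ≤ m + s ^ n := by
    have h1 : (R : ℝ) ≤ m / s ^ n + 1 := by
      rw [hR]
      exact (Nat.ceil_lt_add_one (by positivity)).le
    calc R * s ^ n ≤ (m / s ^ n + 1) * s ^ n := by gcongr
      _ = m + s ^ n := by field_simp
  have hb2 : 0 ≤ 1 - b := by linarith
  have hAc := AA_card (n := n) hs hL
  have h1 := tup_bound2 (adj := adj n s r) hb0 hb1 (A := AA n s L) (R := R) (fun B hB hBR => by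
    have h2 : (R : ℝ) < B.card := by exact_mod_cast hBR
    have h3 := deg_lower2 hM hlam0 hSup hs hr hL hθ hsr hB (by
      calc _ ≤ m := hm₁
        _ ≤ R * s ^ n := hR1
        _ < B.card * s ^ n := mul_lt_mul_of_pos_right h2 hsn)
    rw [hb]
    exact h3) (q := q) (k := k) (by
    have h2 : (AA n s L).card * (1 - b) ^ q * s ^ n ≤ R * s ^ n := by
      calc (AA n s L).card * (1 - b) ^ q * s ^ n = ((AA n s L).card * s ^ n) * (1 - b) ^ q := by ring
        _ ≤ (L + s) ^ n * (1 - b) ^ q := by gcongr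
        _ ≤ R * s ^ n := hq.trans hR1
    exact le_of_mul_le_mul_right h2 hsn)
  have hsub := conf_sub (n := n) (L := L) hs hr (k := k) hsr2
  have h2 : volume (conf n k L) ≤ (tup (adj n s r) (AA n s L) k).card * ENNReal.ofReal ((s ^ n) ^ k) := by
    refine (measure_mono hsub).trans ((measure_biUnion_finset_le _ _).trans (le_of_eq ?_))
    have h3 : ∀ f ∈ tup (adj n s r) (AA n s L) k, volume (Set.pi univ fun i => cell s (f i)) =
        ENNReal.ofReal ((s ^ n) ^ k) := by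
      intro f _
      rw [volume_pi_pi]
      simp only [cell_vol hs, Finset.prod_const, Finset.card_univ, Fintype.card_fin]
      rw [ENNReal.ofReal_pow hsn.le]
    rw [Finset.sum_congr rfl h3, Finset.sum_const, nsmul_eq_mul]
  have h3 : volume.real (conf n k L) ≤ (tup (adj n s r) (AA n s L) k).card * (s ^ n) ^ k := by
    have h4 := ENNReal.toReal_mono (by
      exact ENNReal.mul_ne_top (ENNReal.natCast_ne_top _) ENNReal.ofReal_ne_top) h2
    rwa [ENNReal.toReal_mul, ENNReal.toReal_natCast, ENNReal.toReal_ofReal (by positivity)] at h4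
  refine h3.trans ((mul_le_mul_of_nonneg_right h1 (by positivity)).trans ?_)
  rw [Finset.sum_mul]
  refine Finset.sum_le_sum fun j _ => ?_
  rcases Nat.lt_or_ge k j with hjk | hjk
  · rw [Nat.choose_eq_zero_of_lt hjk]
    simp
  · have e1 : (s ^ n) ^ k = (s ^ n) ^ j * (s ^ n) ^ (k - j) := by
      rw [← pow_add]
      congr 1
      omega
    calc (k.choose j : ℝ) * ((((AA n s L).card : ℝ) + 1) ^ j * (1 - b) ^ (j * (j - 1) / 2) *
          (R : ℝ) ^ (k - j)) * (s ^ n) ^ k =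
        (k.choose j : ℝ) * (((AA n s L).card * s ^ n + s ^ n) ^ j * (1 - b) ^ (j * (j - 1) / 2) *
          (R * s ^ n) ^ (k - j)) := by
          have e2 : (AA n s L).card * s ^ n + s ^ n = (((AA n s L).card : ℝ) + 1) * s ^ n := by ring
          rw [e1, e2, mul_pow, mul_pow (R : ℝ)]
          ring
      _ ≤ _ := by gcongr

/-- **the volume of the space of packings**, refined -/
theorem conf_main3 (hn : 0 < n) {r L θ lam M : ℝ} (hM : 0 < M) (hlam0 : 0 ≤ lam)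
    (hSup : Sup n r lam M) (hr : 0 < r) (hr2 : r < 2) (hL : 0 < L) (hθ : 0 < θ)
    {q k : ℕ} {m₀ m b : ℝ}
    (hm₀ : m₀ = lam * (L + 4) ^ n / (θ * (r ^ n * V1 n)))
    (hb : b = (1 - θ) * (r ^ n * V1 n) / (M * (L + 4) ^ n)) (hb0 : 0 ≤ b) (hb1 : b ≤ 1)
    (hm : m₀ < m) (hq : L ^ n * (1 - b) ^ q < m) :
    volume.real (conf n k L) ≤ ∑ j ∈ Finset.range (q + 1), (k.choose j : ℝ) *
      ((L ^ n) ^ j * (1 - b) ^ (j * (j - 1) / 2) * m ^ (k - j)) := by
  have hm0 : 0 ≤ m₀ := by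
    rw [hm₀]
    have := V1_pos n
    positivity
  obtain ⟨Mf, hMf⟩ : ∃ Mf : ℝ → ℝ, Mf = fun s => (lam + M * s ^ n) * (L + 4) ^ n /
    (θ * (r ^ n * V1 n)) := ⟨_, rfl⟩
  have hM0 : Mf 0 = m₀ := by
    rw [hMf, hm₀]
    simp only
    rw [zero_pow hn.ne', mul_zero, add_zero]
  have hMc : Continuous Mf := by
    rw [hMf]
    fun_prop
  have hlim : Tendsto (fun s : ℝ => ∑ j ∈ Finset.range (q + 1), (k.choose j : ℝ) *
      (((L + s) ^ n + s ^ n) ^ j * (1 - b) ^ (j * (j - 1) / 2) * (m + s ^ n) ^ (k - j)))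
      (𝓝[>] 0) (𝓝 (∑ j ∈ Finset.range (q + 1), (k.choose j : ℝ) *
      (((L + 0) ^ n + 0 ^ n) ^ j * (1 - b) ^ (j * (j - 1) / 2) * (m + 0 ^ n) ^ (k - j)))) := by
    refine (Continuous.tendsto ?_ 0).mono_left nhdsWithin_le_nhds
    fun_prop
  simp only [zero_pow hn.ne', add_zero] at hlim
  refine ge_of_tendsto hlim ?_
  have e1 : ∀ᶠ s : ℝ in 𝓝[>] 0, s + 2 * r < 4 := by
    have : Tendsto (fun s : ℝ => s + 2 * r) (𝓝[>] 0) (𝓝 (0 + 2 * r)) :=
      (Continuous.tendsto (by fun_prop) 0).mono_left nhdsWithin_le_nhds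
    exact this.eventually (gt_mem_nhds (by linarith))
  have e2 : ∀ᶠ s : ℝ in 𝓝[>] 0, r + 2 * (s * √n) < 2 := by
    have : Tendsto (fun s : ℝ => r + 2 * (s * √n)) (𝓝[>] 0) (𝓝 (r + 2 * (0 * √n))) :=
      (Continuous.tendsto (by fun_prop) 0).mono_left nhdsWithin_le_nhds
    exact this.eventually (gt_mem_nhds (by linarith))
  have e3 : ∀ᶠ s : ℝ in 𝓝[>] 0, (L + s) ^ n * (1 - b) ^ q < m := by
    have : Tendsto (fun s : ℝ => (L + s) ^ n * (1 - b) ^ q) (𝓝[>] 0) (𝓝 ((L + 0) ^ n * (1 - b) ^ q)) :=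
      (Continuous.tendsto (by fun_prop) 0).mono_left nhdsWithin_le_nhds
    refine this.eventually (gt_mem_nhds ?_)
    rwa [add_zero]
  have e4 : ∀ᶠ s : ℝ in 𝓝[>] 0, Mf s < m := by
    have : Tendsto Mf (𝓝[>] 0) (𝓝 (Mf 0)) := (hMc.tendsto 0).mono_left nhdsWithin_le_nhds
    refine this.eventually (gt_mem_nhds ?_)
    rwa [hM0]
  filter_upwards [e1, e2, e3, e4, self_mem_nhdsWithin] with s h1 h2 h3 h4 h5
  have hs : 0 < s := h5
  refine conf_grid3 hM hlam0 hSup hs hr hL hθ h1.le h2 (hm0.trans hm.le) ?_ hb hb0 hb1 h3.le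
  have h6 : Mf s = (lam + M * s ^ n) * (L + 4) ^ n / (θ * (r ^ n * V1 n)) := by rw [hMf]
  rw [← h6]
  exact h4.le

end Pool.Agent.N628.EP
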