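import Pool.Agent.N628.EP.L2

/-!
N628/EP: the hard sphere model.
-/

set_option autoImplicit false

open MeasureTheory Set Real Metric Filter Topology

namespace Pool.Agent.N628.EP

open Pool.Agent.Y509.LS
open Pool.Agent.H818R2 (rho Sep)

variable {n : ℕ} {L lam : ℝ}

/-- the terms of the partition function -/
noncomputable def ut (n : ℕ) (L lam : ℝ) (k : ℕ) : ℝ :=
  lam ^ k / k.factorial * volume.real (conf n k L)

lemma ut_nonneg (h : 0 ≤ lam) (k : ℕ) : 0 ≤ ut n L lam k := by
  unfold ut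
  have : 0 ≤ volume.real (conf n k L) := measureReal_nonneg
  positivity

lemma ut_le (hL : 0 < L) (h : 0 ≤ lam) (k : ℕ) : ut n L lam k ≤ (lam * L ^ n) ^ k / k.factorial := by
  unfold ut
  rw [mul_pow, div_mul_eq_mul_div]
  have := conf_le_one (n := n) hL k
  gcongr

lemma ut_summable (hL : 0 < L) (h : 0 ≤ lam) : Summable (ut n L lam) :=
  Summable.of_nonneg_of_le (ut_nonneg h) (ut_le hL h) (Real.summable_pow_div_factorial _)

lemma kut_summable (hL : 0 < L) (h : 0 ≤ lam) : Summable (fun k : ℕ => (k : ℝ) * ut n L lam k) := by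
  refine Summable.of_nonneg_of_le (fun k => mul_nonneg (Nat.cast_nonneg k) (ut_nonneg h k)) (fun k => ?_)
    (Real.summable_pow_div_factorial (2 * (lam * L ^ n)))
  have h1 : (k : ℝ) ≤ 2 ^ k := by exact_mod_cast Nat.lt_two_pow_self.le
  calc (k : ℝ) * ut n L lam k ≤ 2 ^ k * ((lam * L ^ n) ^ k / k.factorial) := by
        have := ut_le (n := n) hL h k
        have := ut_nonneg (n := n) (L := L) h k
        gcongr
    _ = (2 * (lam * L ^ n)) ^ k / k.factorial := by rw [mul_pow 2]; ring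

lemma hsZ_eq : hsZ n L lam = ∑' k, ut n L lam k := rfl

lemma hsM_eq : hsM n L lam = (∑' k : ℕ, (k : ℝ) * ut n L lam k) / hsZ n L lam := rfl

lemma ut_zero : ut n L lam 0 = 1 := by
  unfold ut
  rw [conf_zero]
  simp

lemma one_le_hsZ (hL : 0 < L) (h : 0 ≤ lam) : 1 ≤ hsZ n L lam := by
  rw [hsZ_eq, ← ut_zero (n := n) (L := L) (lam := lam)]
  exact (ut_summable hL h).le_tsum 0 fun k _ => ut_nonneg h k

lemma ut_le_hsZ (hL : 0 < L) (h : 0 ≤ lam) (k : ℕ) : ut n L lam k ≤ hsZ n L lam := by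
  rw [hsZ_eq]
  exact (ut_summable hL h).le_tsum k fun k _ => ut_nonneg h k

lemma hsZ_le (hL : 0 < L) (h : 0 ≤ lam) : hsZ n L lam ≤ Real.exp (lam * L ^ n) := by
  rw [hsZ_eq, Real.exp_eq_exp_ℝ, NormedSpace.exp_eq_tsum_div]
  exact (ut_summable hL h).tsum_le_tsum (ut_le hL h) (Real.summable_pow_div_factorial _)

lemma hsM_nonneg (hL : 0 < L) (h : 0 ≤ lam) : 0 ≤ hsM n L lam := by
  rw [hsM_eq]
  exact div_nonneg (tsum_nonneg fun k => mul_nonneg (Nat.cast_nonneg k) (ut_nonneg h k))
    (le_trans zero_le_one (one_le_hsZ hL h))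

/-- the upper bound for the expectation -/
lemma hsM_upper (hL : 0 < L) (h : 0 ≤ lam) {K : ℝ} (hK : 0 ≤ K)
    (hu : ∀ k : ℕ, K < k → (k : ℝ) * ut n L lam k ≤ (1 / 2) ^ k) : hsM n L lam ≤ K + 2 := by
  rw [hsM_eq, div_le_iff₀ (lt_of_lt_of_le one_pos (one_le_hsZ hL h))]
  have h1 : ∀ k : ℕ, (k : ℝ) * ut n L lam k ≤ K * ut n L lam k + (1 / 2) ^ k := by
    intro k
    rcases le_or_gt (k : ℝ) K with hk | hk
    · have := mul_le_mul_of_nonneg_right hk (ut_nonneg (n := n) (L := L) h k)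
      have h2 : (0 : ℝ) ≤ (1 / 2) ^ k := by positivity
      linarith
    · have := hu k hk
      have h2 : 0 ≤ K * ut n L lam k := mul_nonneg hK (ut_nonneg h k)
      linarith
  have hs := ut_summable (n := n) hL h
  have hg : Summable (fun k : ℕ => ((1 : ℝ) / 2) ^ k) := summable_geometric_two
  calc ∑' k : ℕ, (k : ℝ) * ut n L lam k ≤ ∑' k : ℕ, (K * ut n L lam k + (1 / 2) ^ k) :=
        (kut_summable hL h).tsum_le_tsum h1 ((hs.mul_left K).add hg)
    _ = K * hsZ n L lam + 2 := by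
        rw [(hs.mul_left K).tsum_add hg, tsum_mul_left, tsum_geometric_two, hsZ_eq]
    _ ≤ (K + 2) * hsZ n L lam := by
        have := one_le_hsZ (n := n) hL h
        nlinarith

/-- convexity of the pressure -/
lemma hsM_lower (hL : 0 < L) {lam₀ : ℝ} (h0 : 0 < lam₀) (h : lam₀ ≤ lam) :
    Real.log (hsZ n L lam) - Real.log (hsZ n L lam₀) ≤ hsM n L lam * Real.log (lam / lam₀) := by
  have hlam : 0 < lam := lt_of_lt_of_le h0 h
  obtain ⟨M, hM⟩ : ∃ M : ℝ, M = hsM n L lam := ⟨_, rfl⟩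
  obtain ⟨s, hs⟩ : ∃ s : ℝ, s = Real.log (lam / lam₀) := ⟨_, rfl⟩
  have hZ := one_le_hsZ (n := n) hL hlam.le
  have hZ0 := one_le_hsZ (n := n) hL h0.le
  have hes : Real.exp (-s) = lam₀ / lam := by
    rw [hs, Real.exp_neg, Real.exp_log (by positivity), inv_div]
  have h1 : ∀ k : ℕ, Real.exp (-(M * s)) * (1 + M * s) * ut n L lam k -
      Real.exp (-(M * s)) * s * (k * ut n L lam k) ≤ ut n L lam₀ k := by
    intro k
    have h2 : ut n L lam₀ k = Real.exp (-(k * s)) * ut n L lam k := by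
      unfold ut
      have h3 : Real.exp (-(k * s)) = (lam₀ / lam) ^ k := by
        rw [← hes, ← Real.exp_nat_mul]
        congr 1
        ring
      rw [h3, div_pow]
      field_simp
    have h3 : Real.exp (-(M * s)) * (1 - s * (k - M)) ≤ Real.exp (-(k * s)) := by
      have h4 : Real.exp (-(k * s)) = Real.exp (-(M * s)) * Real.exp (-(s * (k - M))) := by
        rw [← Real.exp_add]
        congr 1
        ring
      rw [h4]
      refine mul_le_mul_of_nonneg_left ?_ (Real.exp_pos _).le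
      have := Real.add_one_le_exp (-(s * (k - M)))
      linarith
    rw [h2]
    have h4 := mul_le_mul_of_nonneg_right h3 (ut_nonneg (n := n) (L := L) hlam.le k)
    refine le_trans (le_of_eq ?_) h4
    ring
  have hsum := ut_summable (n := n) hL hlam.le
  have hsum0 := ut_summable (n := n) hL h0.le
  have hks := kut_summable (n := n) hL hlam.le
  have h2 := ((hsum.mul_left (Real.exp (-(M * s)) * (1 + M * s))).sub
    (hks.mul_left (Real.exp (-(M * s)) * s))).tsum_le_tsum h1 hsum0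
  rw [(hsum.mul_left _).tsum_sub (hks.mul_left _), tsum_mul_left, tsum_mul_left, ← hsZ_eq,
    ← hsZ_eq] at h2
  have h3 : ∑' k : ℕ, (k : ℝ) * ut n L lam k = M * hsZ n L lam := by
    rw [hM, hsM_eq]
    field_simp
  rw [h3] at h2
  have h4 : Real.exp (-(M * s)) * hsZ n L lam ≤ hsZ n L lam₀ := by
    refine le_trans (le_of_eq ?_) h2
    ring
  have h5 := Real.log_le_log (by positivity) h4
  rw [Real.log_mul (Real.exp_pos _).ne' (by linarith), Real.log_exp] at h5
  rw [← hM, ← hs]
  linarith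

/-- the lower bound for the expectation from the volume of the space of packings -/
lemma hsM_ge (hL : 0 < L) (h : 0 < lam) {k : ℕ} (hk : 0 < k) {c : ℝ} (hc : 0 ≤ c) (hc1 : c ≤ L ^ n)
    (hF : c ^ k ≤ volume.real (conf n k L)) (hlc : Real.exp 1 * k ≤ lam * c) :
    (k : ℝ) / 2 ≤ hsM n L lam * Real.log (2 * lam * L ^ n / k) := by
  have hk' : (0 : ℝ) < k := by exact_mod_cast hk
  have hLn : 0 < L ^ n := by positivity
  have he : 2 ≤ Real.exp 1 := by
    have := Real.add_one_le_exp (1 : ℝ)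
    linarith
  obtain ⟨l0, hl0⟩ : ∃ l0 : ℝ, l0 = k / (2 * L ^ n) := ⟨_, rfl⟩
  have hl00 : 0 < l0 := by rw [hl0]; positivity
  have hle : l0 ≤ lam := by
    rw [hl0, div_le_iff₀ (by positivity)]
    nlinarith [mul_le_mul_of_nonneg_left hc1 h.le]
  have h1 := hsM_lower (n := n) hL hl00 hle
  have h2 : Real.log (hsZ n L l0) ≤ k / 2 := by
    have h3 := hsZ_le (n := n) hL hl00.le
    have h4 := Real.log_le_log (by linarith [one_le_hsZ (n := n) hL hl00.le]) h3
    rw [Real.log_exp] at h4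
    refine h4.trans (le_of_eq ?_)
    rw [hl0]
    field_simp
  have h3 : (k : ℝ) ≤ Real.log (hsZ n L lam) := by
    have h4 : Real.exp k ≤ hsZ n L lam := by
      refine le_trans ?_ (ut_le_hsZ hL h.le k)
      unfold ut
      have h5 : (k.factorial : ℝ) ≤ (k : ℝ) ^ k := by exact_mod_cast Nat.factorial_le_pow k
      have h6 : (0 : ℝ) < k.factorial := by exact_mod_cast Nat.factorial_pos k
      calc Real.exp k = (Real.exp 1) ^ k := by rw [← Real.exp_nat_mul, mul_one]
        _ ≤ (lam * c / k) ^ k := by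
            refine pow_le_pow_left₀ (Real.exp_pos _).le ?_ k
            rw [le_div_iff₀ hk']
            exact hlc
        _ = lam ^ k / (k : ℝ) ^ k * c ^ k := by rw [div_pow, mul_pow]; ring
        _ ≤ lam ^ k / k.factorial * c ^ k := by gcongr
        _ ≤ lam ^ k / k.factorial * volume.real (conf n k L) := by gcongr
    calc (k : ℝ) = Real.log (Real.exp k) := (Real.log_exp _).symm
      _ ≤ _ := Real.log_le_log (Real.exp_pos _) h4
  have h4 : lam / l0 = 2 * lam * L ^ n / k := by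
    rw [hl0]
    field_simp
  rw [h4] at h1
  linarith

end Pool.Agent.N628.EP
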