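import Pool.Agent.N628.EP.W1

/-!
N628/EP: the hard-core model on a finite graph whose neighbourhoods are sparse.
-/

set_option autoImplicit false

namespace Pool.Agent.N628.EP

open Classical

variable {ι : Type} {adj : ι → ι → Prop} {A : Finset ι} {lam : ℝ}

/-- the partition function -/
noncomputable def ZZ (adj : ι → ι → Prop) (A : Finset ι) (lam : ℝ) : ℝ :=
  ∑ I ∈ A.powerset.filter (Inde adj), lam ^ I.card

/-- the weighted number of vertices -/
noncomputable def MM (adj : ι → ι → Prop) (A : Finset ι) (lam : ℝ) : ℝ :=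
  ∑ I ∈ A.powerset.filter (Inde adj), (I.card : ℝ) * lam ^ I.card

/-- the vertices which are not adjacent to `v` -/
noncomputable def out (adj : ι → ι → Prop) (A : Finset ι) (v : ι) : Finset ι :=
  A.filter fun y => ¬ adj v y

lemma mem_ind {I : Finset ι} : I ∈ A.powerset.filter (Inde adj) ↔ I ⊆ A ∧ Inde adj I := by
  rw [Finset.mem_filter, Finset.mem_powerset]

lemma one_le_ZZ (h : 0 ≤ lam) : 1 ≤ ZZ adj A lam := by
  have h1 : (∅ : Finset ι) ∈ A.powerset.filter (Inde adj) := by
    rw [mem_ind]
    exact ⟨Finset.empty_subset _, fun x hx => absurd hx (Finset.notMem_empty x)⟩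
  have h2 := Finset.single_le_sum (f := fun I : Finset ι => lam ^ I.card)
    (fun I _ => by positivity) h1
  simpa [ZZ] using h2

lemma ZZ_mono (h : 0 ≤ lam) {B : Finset ι} (hBA : B ⊆ A) : ZZ adj B lam ≤ ZZ adj A lam := by
  unfold ZZ
  refine Finset.sum_le_sum_of_subset_of_nonneg ?_ fun I _ _ => by positivity
  intro I hI
  rw [mem_ind] at hI ⊢
  exact ⟨hI.1.trans hBA, hI.2⟩

/-- the sets which contain `v` -/
lemma occ_eq (hrefl : ∀ x, adj x x) (hsymm : ∀ x y, adj x y → adj y x) {v : ι} (hv : v ∈ A) :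
    ∑ I ∈ A.powerset.filter (Inde adj), (if v ∈ I then lam ^ I.card else 0) =
      lam * ZZ adj (out adj A v) lam := by
  rw [← Finset.sum_filter]
  unfold ZZ
  rw [Finset.mul_sum]
  refine Finset.sum_bij' (fun I _ => I.erase v) (fun J _ => insert v J) ?_ ?_ ?_ ?_ ?_
  · intro I hI
    rw [Finset.mem_filter, mem_ind] at hI
    rw [mem_ind]
    refine ⟨fun y hy => ?_, hI.1.2.mono (Finset.erase_subset _ _)⟩
    rw [Finset.mem_erase] at hy
    rw [out, Finset.mem_filter]
    exact ⟨hI.1.1 hy.2, hI.1.2 v hI.2 y hy.2 (Ne.symm hy.1)⟩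
  · intro J hJ
    rw [mem_ind] at hJ
    rw [Finset.mem_filter, mem_ind]
    refine ⟨⟨?_, ?_⟩, Finset.mem_insert_self _ _⟩
    · intro y hy
      rw [Finset.mem_insert] at hy
      rcases hy with rfl | hy
      · exact hv
      · exact (Finset.mem_filter.1 (hJ.1 hy)).1
    · intro x hx y hy hxy
      rw [Finset.mem_insert] at hx hy
      rcases hx with rfl | hx
      · rcases hy with rfl | hy
        · exact absurd rfl hxy
        · exact (Finset.mem_filter.1 (hJ.1 hy)).2
      · rcases hy with rfl | hy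
        · exact fun h => (Finset.mem_filter.1 (hJ.1 hx)).2 (hsymm _ _ h)
        · exact hJ.2 x hx y hy hxy
  · intro I hI
    rw [Finset.mem_filter] at hI
    exact Finset.insert_erase hI.2
  · intro J hJ
    rw [mem_ind] at hJ
    refine Finset.erase_insert fun hvJ => ?_
    exact (Finset.mem_filter.1 (hJ.1 hvJ)).2 (hrefl v)
  · intro I hI
    rw [Finset.mem_filter] at hI
    rw [Finset.card_erase_of_mem hI.2]
    have h1 : 0 < I.card := Finset.card_pos.2 ⟨v, hI.2⟩
    obtain ⟨c, hc⟩ : ∃ c, I.card = c + 1 := ⟨I.card - 1, by omega⟩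
    rw [hc, Nat.add_sub_cancel, pow_succ]
    ring

/-- the weighted number of vertices with a property -/
lemma card_eq (hrefl : ∀ x, adj x x) (hsymm : ∀ x y, adj x y → adj y x) (p : ι → Prop) :
    ∑ I ∈ A.powerset.filter (Inde adj), ((I.filter p).card : ℝ) * lam ^ I.card =
      lam * ∑ x ∈ A.filter p, ZZ adj (out adj A x) lam := by
  have h1 : ∀ I ∈ A.powerset.filter (Inde adj), ((I.filter p).card : ℝ) * lam ^ I.card =
      ∑ x ∈ A.filter p, if x ∈ I then lam ^ I.card else 0 := by
    intro I hI
    rw [mem_ind] at hI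
    rw [← Finset.sum_filter, Finset.sum_const, nsmul_eq_mul]
    congr 3
    ext x
    rw [Finset.mem_filter, Finset.mem_filter, Finset.mem_filter]
    exact ⟨fun h => ⟨⟨hI.1 h.1, h.2⟩, h.1⟩, fun h => ⟨h.2, h.1.2⟩⟩
  rw [Finset.sum_congr rfl h1, Finset.sum_comm, Finset.mul_sum]
  refine Finset.sum_congr rfl fun x hx => ?_
  exact occ_eq hrefl hsymm (Finset.mem_filter.1 hx).1

lemma MM_eq (hrefl : ∀ x, adj x x) (hsymm : ∀ x y, adj x y → adj y x) :
    MM adj A lam = lam * ∑ x ∈ A, ZZ adj (out adj A x) lam := by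
  have h1 := card_eq (A := A) (lam := lam) hrefl hsymm fun _ => True
  simp only [Finset.filter_true] at h1
  exact h1

/-- deleting vertices -/
lemma ZZ_del (hrefl : ∀ x, adj x x) (hsymm : ∀ x y, adj x y → adj y x) (h : 0 ≤ lam) :
    ∀ B : Finset ι, B ⊆ A → ZZ adj A lam ≤ Real.exp (lam * B.card) * ZZ adj (A \ B) lam := by
  intro B
  induction B using Finset.induction_on with
  | empty => intro _; simp
  | @insert v B hvB ih =>
    intro hBA
    have hB : B ⊆ A := (Finset.subset_insert _ _).trans hBA
    have hvA : v ∈ A \ B := by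
      rw [Finset.mem_sdiff]
      exact ⟨hBA (Finset.mem_insert_self _ _), hvB⟩
    refine (ih hB).trans ?_
    have h1 : ZZ adj (A \ B) lam ≤ Real.exp lam * ZZ adj (A \ insert v B) lam := by
      have h2 : ZZ adj (A \ B) lam = ZZ adj (A \ insert v B) lam +
          ∑ I ∈ (A \ B).powerset.filter (Inde adj), (if v ∈ I then lam ^ I.card else 0) := by
        have h3 : ∀ I ∈ (A \ B).powerset.filter (Inde adj), lam ^ I.card =
            (if v ∉ I then lam ^ I.card else 0) + (if v ∈ I then lam ^ I.card else 0) := by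
          intro I _
          by_cases hv : v ∈ I
          · simp [hv]
          · simp [hv]
        conv_lhs => rw [ZZ, Finset.sum_congr rfl h3, Finset.sum_add_distrib]
        congr 1
        rw [← Finset.sum_filter]
        unfold ZZ
        refine Finset.sum_congr ?_ fun _ _ => rfl
        ext I
        rw [Finset.mem_filter, mem_ind, mem_ind]
        constructor
        · rintro ⟨⟨h4, h5⟩, h6⟩
          refine ⟨fun y hy => ?_, h5⟩
          have h7 := h4 hy
          rw [Finset.mem_sdiff] at h7 ⊢
          refine ⟨h7.1, fun h8 => ?_⟩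
          rw [Finset.mem_insert] at h8
          rcases h8 with rfl | h8
          · exact h6 hy
          · exact h7.2 h8
        · rintro ⟨h4, h5⟩
          refine ⟨⟨fun y hy => ?_, h5⟩, fun h6 => ?_⟩
          · have h7 := h4 hy
            rw [Finset.mem_sdiff] at h7 ⊢
            exact ⟨h7.1, fun h8 => h7.2 (Finset.mem_insert_of_mem h8)⟩
          · have h7 := h4 h6
            rw [Finset.mem_sdiff] at h7
            exact h7.2 (Finset.mem_insert_self _ _)
      rw [h2, occ_eq hrefl hsymm hvA]
      have h3 : ZZ adj (out adj (A \ B) v) lam ≤ ZZ adj (A \ insert v B) lam := by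
        refine ZZ_mono h fun y hy => ?_
        rw [out, Finset.mem_filter, Finset.mem_sdiff] at hy
        rw [Finset.mem_sdiff, Finset.mem_insert, not_or]
        refine ⟨hy.1.1, fun h4 => hy.2 (by rw [h4]; exact hrefl v), hy.1.2⟩
      have h4 := Real.add_one_le_exp lam
      have h5 := mul_le_mul_of_nonneg_left h3 h
      have h6 : 0 ≤ ZZ adj (A \ insert v B) lam := le_trans zero_le_one (one_le_ZZ h)
      nlinarith
    rw [Finset.card_insert_of_notMem hvB]
    push_cast
    rw [mul_add, mul_one, Real.exp_add, mul_assoc]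
    gcongr

/-- the free vertices -/
noncomputable def free (adj : ι → ι → Prop) (A : Finset ι) (v : ι) (Y : Finset ι) : Finset ι :=
  (A.filter fun x => adj v x).filter fun x => ∀ y ∈ Y, ¬ adj y x

/-- the decomposition of the independent sets at a neighbourhood -/
lemma decomp (hsymm : ∀ x y, adj x y → adj y x) (v : ι) (F : Finset ι → ℝ) :
    ∑ I ∈ A.powerset.filter (Inde adj), F (I.filter fun x => adj v x) * lam ^ I.card =
      ∑ Y ∈ (out adj A v).powerset.filter (Inde adj), lam ^ Y.card *
        ∑ W ∈ (free adj A v Y).powerset.filter (Inde adj), F W * lam ^ W.card := by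
  simp only [Finset.mul_sum]
  rw [Finset.sum_sigma']
  refine Finset.sum_bij' (fun I _ => (⟨I.filter fun x => ¬ adj v x, I.filter fun x => adj v x⟩ :
    (_ : Finset ι) × Finset ι)) (fun p _ => p.1 ∪ p.2) ?_ ?_ ?_ ?_ ?_
  · intro I hI
    rw [mem_ind] at hI
    rw [Finset.mem_sigma, mem_ind, mem_ind]
    refine ⟨⟨?_, hI.2.mono (Finset.filter_subset _ _)⟩, ⟨?_, hI.2.mono (Finset.filter_subset _ _)⟩⟩
    · intro y hy
      rw [Finset.mem_filter] at hy
      rw [out, Finset.mem_filter]
      exact ⟨hI.1 hy.1, hy.2⟩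
    · intro x hx
      rw [Finset.mem_filter] at hx
      rw [free, Finset.mem_filter, Finset.mem_filter]
      refine ⟨⟨hI.1 hx.1, hx.2⟩, fun y hy => ?_⟩
      rw [Finset.mem_filter] at hy
      exact hI.2 y hy.1 x hx.1 fun h => hy.2 (by rw [h]; exact hx.2)
  · rintro ⟨Y, W⟩ hp
    rw [Finset.mem_sigma, mem_ind, mem_ind] at hp
    obtain ⟨⟨hY1, hY2⟩, hW1, hW2⟩ := hp
    rw [mem_ind]
    refine ⟨?_, ?_⟩
    · intro x hx
      rw [Finset.mem_union] at hx
      rcases hx with hx | hx
      · exact (Finset.mem_filter.1 (hY1 hx)).1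
      · exact (Finset.mem_filter.1 (Finset.mem_filter.1 (hW1 hx)).1).1
    · intro x hx y hy hxy
      rw [Finset.mem_union] at hx hy
      rcases hx with hx | hx
      · rcases hy with hy | hy
        · exact hY2 x hx y hy hxy
        · exact (Finset.mem_filter.1 (hW1 hy)).2 x hx
      · rcases hy with hy | hy
        · exact fun h => (Finset.mem_filter.1 (hW1 hx)).2 y hy (hsymm _ _ h)
        · exact hW2 x hx y hy hxy
  · intro I _
    simp only
    ext x
    rw [Finset.mem_union, Finset.mem_filter, Finset.mem_filter]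
    tauto
  · rintro ⟨Y, W⟩ hp
    rw [Finset.mem_sigma, mem_ind, mem_ind] at hp
    obtain ⟨⟨hY1, hY2⟩, hW1, hW2⟩ := hp
    have h1 : ∀ x ∈ Y, ¬ adj v x := fun x hx => (Finset.mem_filter.1 (hY1 hx)).2
    have h2 : ∀ x ∈ W, adj v x := fun x hx =>
      (Finset.mem_filter.1 (Finset.mem_filter.1 (hW1 hx)).1).2
    simp only [Sigma.mk.injEq, heq_eq_eq]
    constructor
    · ext x
      rw [Finset.mem_filter, Finset.mem_union]
      constructor
      · rintro ⟨hx | hx, h3⟩
        · exact hx
        · exact absurd (h2 x hx) h3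
      · exact fun hx => ⟨Or.inl hx, h1 x hx⟩
    · ext x
      rw [Finset.mem_filter, Finset.mem_union]
      constructor
      · rintro ⟨hx | hx, h3⟩
        · exact absurd h3 (h1 x hx)
        · exact hx
      · exact fun hx => ⟨Or.inr hx, h2 x hx⟩
  · intro I _
    simp only
    have h1 : I.card = (I.filter fun x => ¬ adj v x).card + (I.filter fun x => adj v x).card := by
      rw [add_comm, Finset.card_filter_add_card_filter_not]
    rw [h1, pow_add]
    ring

end Pool.Agent.N628.EP
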