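import Pool.Agent.N628.EP.J1

/-!
N628/EP: the lower bound for the partition function of the hard-core model (after Jenssen, Joos,
Perkins).
-/

set_option autoImplicit false

namespace Pool.Agent.N628.EP

open Classical

variable {ι : Type} {adj : ι → ι → Prop} {A : Finset ι} {lam : ℝ}

/-- the local inequality: a sparse set -/
lemma local_sparse (hrefl : ∀ x, adj x x) (hsymm : ∀ x y, adj x y → adj y x) (h : 0 ≤ lam) {c : ℝ}
    {T : Finset ι} (hT : ∑ x ∈ T, ((T.filter fun y => adj x y).card : ℝ) ≤ c * T.card) :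
    Real.exp (-(lam * c)) * (ZZ adj T lam * Real.log (ZZ adj T lam)) ≤
      lam * ∑ x ∈ T, ZZ adj (out adj T x) lam := by
  have hZ1 := one_le_ZZ (adj := adj) (A := T) h
  have hZ0 : 0 < ZZ adj T lam := by linarith
  have h1 : ∀ x ∈ T, ZZ adj T lam * (Real.exp (-(lam * c)) *
      (1 - lam * (((T.filter fun y => adj x y).card : ℝ) - c))) ≤ ZZ adj (out adj T x) lam := by
    intro x _
    have h2 := ZZ_del (A := T) hrefl hsymm h (T.filter fun y => adj x y) (Finset.filter_subset _ _)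
    have h3 : T \ (T.filter fun y => adj x y) = out adj T x := by
      ext y
      rw [out, Finset.mem_sdiff, Finset.mem_filter, Finset.mem_filter]
      tauto
    rw [h3] at h2
    obtain ⟨d, hd⟩ : ∃ d : ℝ, d = ((T.filter fun y => adj x y).card : ℝ) := ⟨_, rfl⟩
    rw [← hd] at h2 ⊢
    have h4 : Real.exp (-(lam * c)) * (1 - lam * (d - c)) ≤ Real.exp (-(lam * d)) := by
      have h5 := Real.add_one_le_exp (-(lam * (d - c)))
      have h6 : Real.exp (-(lam * d)) = Real.exp (-(lam * c)) * Real.exp (-(lam * (d - c))) := by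
        rw [← Real.exp_add]
        congr 1
        ring
      rw [h6]
      refine mul_le_mul_of_nonneg_left ?_ (Real.exp_pos _).le
      linarith
    calc ZZ adj T lam * (Real.exp (-(lam * c)) * (1 - lam * (d - c))) ≤
        ZZ adj T lam * Real.exp (-(lam * d)) := by gcongr
      _ ≤ (Real.exp (lam * d) * ZZ adj (out adj T x) lam) * Real.exp (-(lam * d)) := by gcongr
      _ = ZZ adj (out adj T x) lam * (Real.exp (lam * d) * Real.exp (-(lam * d))) := by ring
      _ = ZZ adj (out adj T x) lam := by rw [← Real.exp_add, add_neg_cancel, Real.exp_zero, mul_one]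
  have h2 : ZZ adj T lam * (Real.exp (-(lam * c)) * T.card) ≤ ∑ x ∈ T, ZZ adj (out adj T x) lam := by
    refine le_trans ?_ (Finset.sum_le_sum h1)
    rw [← Finset.mul_sum, ← Finset.mul_sum, Finset.sum_sub_distrib, ← Finset.mul_sum,
      Finset.sum_sub_distrib, Finset.sum_const, Finset.sum_const, nsmul_eq_mul, nsmul_eq_mul, mul_one]
    have h3 : 0 ≤ Real.exp (-(lam * c)) := (Real.exp_pos _).le
    gcongr
    nlinarith
  have h3 : Real.log (ZZ adj T lam) ≤ lam * T.card := by
    rw [Real.log_le_iff_le_exp hZ0]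
    have h4 := ZZ_del (A := T) hrefl hsymm h T (Finset.Subset.refl _)
    have h5 : ZZ adj (T \ T) lam = 1 := by
      rw [Finset.sdiff_self]
      unfold ZZ
      rw [Finset.powerset_empty]
      have h6 : ({∅} : Finset (Finset ι)).filter (Inde adj) = {∅} := by
        rw [Finset.filter_singleton, if_pos]
        exact fun x hx => absurd hx (Finset.notMem_empty x)
      rw [h6]
      simp
    rwa [h5, mul_one] at h4
  have h4 := mul_le_mul_of_nonneg_left h2 h
  have h5 : Real.exp (-(lam * c)) * (ZZ adj T lam * Real.log (ZZ adj T lam)) ≤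
      Real.exp (-(lam * c)) * (ZZ adj T lam * (lam * T.card)) := by
    gcongr
  linarith

/-- **the probability that a vertex is free** -/
theorem free_lower (hrefl : ∀ x, adj x x) (hsymm : ∀ x y, adj x y → adj y x) (h : 0 ≤ lam) {c : ℝ}
    {v : ι} (hloc : ∀ T ⊆ A.filter fun x => adj v x,
      ∑ x ∈ T, ((T.filter fun y => adj x y).card : ℝ) ≤ c * T.card) :
    Real.exp (-(Real.exp (lam * c) * (lam * ∑ x ∈ A.filter fun x => adj v x,
      ZZ adj (out adj A x) lam / ZZ adj A lam))) ≤ ZZ adj (out adj A v) lam / ZZ adj A lam := by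
  have hZ1 := one_le_ZZ (adj := adj) (A := A) h
  have hZ0 : 0 < ZZ adj A lam := by linarith
  obtain ⟨P, hP⟩ : ∃ P, P = (out adj A v).powerset.filter (Inde adj) := ⟨_, rfl⟩
  have e1 : ZZ adj A lam = ∑ Y ∈ P, lam ^ Y.card * ZZ adj (free adj A v Y) lam := by
    have h1 := decomp (A := A) (lam := lam) hsymm v fun _ => 1
    simp only [one_mul] at h1
    rw [hP]
    exact h1
  have e2 : lam * ∑ x ∈ A.filter fun x => adj v x, ZZ adj (out adj A x) lam =
      ∑ Y ∈ P, lam ^ Y.card * MM adj (free adj A v Y) lam := by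
    have h1 := decomp (A := A) (lam := lam) hsymm v fun W => (W.card : ℝ)
    rw [card_eq hrefl hsymm] at h1
    rw [hP]
    exact h1
  obtain ⟨μ, hμ⟩ : ∃ μ : ℝ, μ = (∑ Y ∈ P, lam ^ Y.card * (ZZ adj (free adj A v Y) lam *
    Real.log (ZZ adj (free adj A v Y) lam))) / ZZ adj A lam := ⟨_, rfl⟩
  -- the first inequality
  have i1 : Real.exp (-(lam * c)) * μ ≤ lam * ∑ x ∈ A.filter fun x => adj v x,
      ZZ adj (out adj A x) lam / ZZ adj A lam := by
    rw [← Finset.sum_div, ← mul_div_assoc, e2, hμ, ← mul_div_assoc]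
    gcongr
    rw [Finset.mul_sum]
    refine Finset.sum_le_sum fun Y _ => ?_
    have h1 := local_sparse hrefl hsymm h (hloc (free adj A v Y) (Finset.filter_subset _ _))
    rw [← MM_eq hrefl hsymm] at h1
    have h2 := mul_le_mul_of_nonneg_left h1 (by positivity : 0 ≤ lam ^ Y.card)
    linarith
  have i2 : μ ≤ Real.exp (lam * c) * (lam * ∑ x ∈ A.filter fun x => adj v x,
      ZZ adj (out adj A x) lam / ZZ adj A lam) := by
    have h1 := mul_le_mul_of_nonneg_left i1 (Real.exp_pos (lam * c)).le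
    rwa [← mul_assoc, ← Real.exp_add, add_neg_cancel, Real.exp_zero, one_mul] at h1
  refine le_trans (Real.exp_le_exp.2 (neg_le_neg i2)) ?_
  -- the second inequality
  rw [le_div_iff₀ hZ0]
  have i3 : ∀ Y ∈ P, Real.exp (-μ) * (lam ^ Y.card * (ZZ adj (free adj A v Y) lam *
      (1 - (Real.log (ZZ adj (free adj A v Y) lam) - μ)))) ≤ lam ^ Y.card := by
    intro Y _
    have hz1 := one_le_ZZ (adj := adj) (A := free adj A v Y) h
    obtain ⟨z, hz⟩ : ∃ z, z = ZZ adj (free adj A v Y) lam := ⟨_, rfl⟩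
    rw [← hz] at hz1 ⊢
    have hz0 : 0 < z := by linarith
    have h1 : Real.exp (-μ) * (1 - (Real.log z - μ)) ≤ z⁻¹ := by
      have h2 := Real.add_one_le_exp (-(Real.log z - μ))
      have h3 : z⁻¹ = Real.exp (-μ) * Real.exp (-(Real.log z - μ)) := by
        rw [← Real.exp_add]
        have : -μ + -(Real.log z - μ) = -Real.log z := by ring
        rw [this, Real.exp_neg, Real.exp_log hz0]
      rw [h3]
      refine mul_le_mul_of_nonneg_left ?_ (Real.exp_pos _).le
      linarith
    have hl : 0 ≤ lam ^ Y.card := by positivity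
    calc Real.exp (-μ) * (lam ^ Y.card * (z * (1 - (Real.log z - μ)))) =
        lam ^ Y.card * (z * (Real.exp (-μ) * (1 - (Real.log z - μ)))) := by ring
      _ ≤ lam ^ Y.card * (z * z⁻¹) := by gcongr
      _ = lam ^ Y.card := by rw [mul_inv_cancel₀ hz0.ne', mul_one]
  have i4 := Finset.sum_le_sum i3
  have e3 : ∑ Y ∈ P, lam ^ Y.card = ZZ adj (out adj A v) lam := by rw [hP]; rfl
  rw [e3, ← Finset.mul_sum] at i4
  refine le_trans (le_of_eq ?_) i4
  congr 1
  have e4 : ∀ Y ∈ P, lam ^ Y.card * (ZZ adj (free adj A v Y) lam *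
      (1 - (Real.log (ZZ adj (free adj A v Y) lam) - μ))) =
      (1 + μ) * (lam ^ Y.card * ZZ adj (free adj A v Y) lam) -
        lam ^ Y.card * (ZZ adj (free adj A v Y) lam * Real.log (ZZ adj (free adj A v Y) lam)) := by
    intro Y _
    ring
  rw [Finset.sum_congr rfl e4, Finset.sum_sub_distrib, ← Finset.mul_sum, ← e1]
  have e5 : ∑ Y ∈ P, lam ^ Y.card * (ZZ adj (free adj A v Y) lam *
      Real.log (ZZ adj (free adj A v Y) lam)) = μ * ZZ adj A lam := by
    rw [hμ, div_mul_cancel₀ _ hZ0.ne']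
  rw [e5]
  ring

/-- the expected number of vertices -/
theorem mean_lower (hrefl : ∀ x, adj x x) (hsymm : ∀ x y, adj x y → adj y x) (h : 0 < lam) {c Δ : ℝ}
    (hA : 0 < A.card)
    (hloc : ∀ v ∈ A, ∀ T ⊆ A.filter fun x => adj v x,
      ∑ x ∈ T, ((T.filter fun y => adj x y).card : ℝ) ≤ c * T.card)
    (hdeg : ∀ x ∈ A, ((A.filter fun y => adj x y).card : ℝ) ≤ Δ) :
    lam * A.card * Real.exp (-(Real.exp (lam * c) * Δ * (MM adj A lam / ZZ adj A lam) / A.card)) ≤
      MM adj A lam / ZZ adj A lam := by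
  have hZ1 := one_le_ZZ (adj := adj) (A := A) h.le
  have hZ0 : 0 < ZZ adj A lam := by linarith
  have hA' : (0 : ℝ) < A.card := by exact_mod_cast hA
  obtain ⟨D, hD⟩ : ∃ D : ι → ℝ, D = fun x => ZZ adj (out adj A x) lam / ZZ adj A lam := ⟨_, rfl⟩
  have hD0 : ∀ x, 0 ≤ D x := by
    intro x
    rw [hD]
    exact div_nonneg (le_trans zero_le_one (one_le_ZZ h.le)) hZ0.le
  have e1 : MM adj A lam / ZZ adj A lam = lam * ∑ x ∈ A, D x := by
    rw [MM_eq hrefl hsymm, mul_div_assoc, Finset.sum_div, hD]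
  obtain ⟨S, hS⟩ : ∃ S : ℝ, S = ∑ x ∈ A, D x := ⟨_, rfl⟩
  rw [e1, ← hS]
  obtain ⟨C, hC⟩ : ∃ C : ℝ, C = Real.exp (lam * c) := ⟨_, rfl⟩
  rw [← hC]
  have hC0 : 0 < C := by rw [hC]; positivity
  have h1 : ∀ v ∈ A, Real.exp (-(C * (lam * ∑ x ∈ A.filter fun x => adj v x, D x))) ≤ D v := by
    intro v hv
    rw [hC, hD]
    exact free_lower hrefl hsymm h.le (hloc v hv)
  obtain ⟨a, ha⟩ : ∃ a : ℝ, a = C * Δ * (lam * S) / A.card := ⟨_, rfl⟩
  rw [← ha]
  have h2 : ∀ v ∈ A, Real.exp (-a) * (1 - (C * (lam * ∑ x ∈ A.filter fun x => adj v x, D x) - a)) ≤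
      D v := by
    intro v hv
    refine le_trans ?_ (h1 v hv)
    have h5 := Real.add_one_le_exp (-(C * (lam * ∑ x ∈ A.filter fun x => adj v x, D x) - a))
    have h6 : Real.exp (-(C * (lam * ∑ x ∈ A.filter fun x => adj v x, D x))) =
        Real.exp (-a) * Real.exp (-(C * (lam * ∑ x ∈ A.filter fun x => adj v x, D x) - a)) := by
      rw [← Real.exp_add]
      congr 1
      ring
    rw [h6]
    refine mul_le_mul_of_nonneg_left ?_ (Real.exp_pos _).le
    linarith
  have h3 : Real.exp (-a) * A.card ≤ S := by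
    rw [hS]
    refine le_trans ?_ (Finset.sum_le_sum h2)
    rw [← Finset.mul_sum, Finset.sum_sub_distrib, Finset.sum_sub_distrib, Finset.sum_const,
      Finset.sum_const, nsmul_eq_mul, nsmul_eq_mul, mul_one, ← Finset.mul_sum, ← Finset.mul_sum]
    refine mul_le_mul_of_nonneg_left ?_ (Real.exp_pos _).le
    have h4 : ∑ v ∈ A, ∑ x ∈ A.filter fun x => adj v x, D x ≤ Δ * S := by
      have h5 : ∀ v ∈ A, ∑ x ∈ A.filter (fun x => adj v x), D x =
          ∑ x ∈ A, if adj v x then D x else 0 := fun v _ => Finset.sum_filter _ _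
      rw [Finset.sum_congr rfl h5, Finset.sum_comm, hS, Finset.mul_sum]
      refine Finset.sum_le_sum fun x hx => ?_
      rw [← Finset.sum_filter, Finset.sum_const, nsmul_eq_mul]
      refine mul_le_mul_of_nonneg_right ?_ (hD0 x)
      refine le_trans (le_of_eq ?_) (hdeg x hx)
      congr 2
      ext y
      rw [Finset.mem_filter, Finset.mem_filter]
      exact ⟨fun h => ⟨h.1, hsymm _ _ h.2⟩, fun h => ⟨h.1, hsymm _ _ h.2⟩⟩
    have h5 : a * A.card = C * Δ * (lam * S) := by
      rw [ha, div_mul_cancel₀ _ hA'.ne']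
    have h6 : C * (lam * ∑ v ∈ A, ∑ x ∈ A.filter fun x => adj v x, D x) ≤ C * (lam * (Δ * S)) := by
      gcongr
    have h7 : C * (lam * (Δ * S)) = C * Δ * (lam * S) := by ring
    nlinarith
  have h4 := mul_le_mul_of_nonneg_left h3 h.le
  linarith

end Pool.Agent.N628.EP
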