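import Pool.Agent.N628.EP.J2

/-!
N628/EP: the lower bound for the logarithm of the partition function of the hard-core model.
-/

set_option autoImplicit false

namespace Pool.Agent.N628.EP

open Classical Set

variable {ι : Type} {adj : ι → ι → Prop} {A : Finset ι} {lam : ℝ}

lemma ZZ_deriv (t : ℝ) : HasDerivAt (fun t => ZZ adj A (Real.exp t)) (MM adj A (Real.exp t)) t := by
  unfold ZZ MM
  refine HasDerivAt.fun_sum fun I _ => ?_
  have h1 : HasDerivAt (fun t : ℝ => Real.exp t ^ I.card)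
      ((I.card : ℝ) * Real.exp t ^ (I.card - 1) * Real.exp t) t :=
    (Real.hasDerivAt_exp t).pow I.card
  refine h1.congr_deriv ?_
  rcases Nat.eq_zero_or_pos I.card with h | h
  · rw [h]
    simp
  · obtain ⟨c, hc⟩ : ∃ c, I.card = c + 1 := ⟨I.card - 1, by omega⟩
    rw [hc, Nat.add_sub_cancel, pow_succ]
    ring

lemma MM_nonneg (h : 0 ≤ lam) : 0 ≤ MM adj A lam :=
  Finset.sum_nonneg fun I _ => by positivity

lemma alg1 {N C Δ m E h n₀ : ℝ} (hN : 0 < N) (hC1 : 1 ≤ C) (hΔ : 0 < Δ) (hE0 : 0 < E) (hm0 : 0 ≤ m)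
    (hn₀ : 0 < n₀) (h2 : E * N * Real.exp (-(C * Δ * m / N)) ≤ m) (hh : h ≤ n₀)
    (hE : Real.exp h = E * (Δ / n₀)) : N / (C * Δ) * h ≤ m := by
  have hC0 : 0 < C := by linarith
  obtain ⟨a, ha⟩ : ∃ a : ℝ, a = C * Δ * m / N := ⟨_, rfl⟩
  have ha0 : 0 ≤ a := by rw [ha]; positivity
  have hma : m = a * (N / (C * Δ)) := by
    rw [ha]
    field_simp
  rw [← ha] at h2
  have h3 : Δ * E ≤ a * Real.exp a := by
    have h4 : E * N * Real.exp (-a) ≤ a * (N / Δ) := by
      refine h2.trans ?_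
      rw [hma]
      gcongr
      nlinarith
    have h5 := mul_le_mul_of_nonneg_right h4 (by positivity : 0 ≤ Real.exp a * Δ / N)
    have h6 : E * N * Real.exp (-a) * (Real.exp a * Δ / N) =
        Δ * E * (Real.exp (-a) * Real.exp a) := by field_simp
    have h7 : a * (N / Δ) * (Real.exp a * Δ / N) = a * Real.exp a := by field_simp
    rw [h6, h7, ← Real.exp_add, neg_add_cancel, Real.exp_zero, mul_one] at h5
    exact h5
  have h4 : h ≤ a := by
    by_contra h5
    rw [not_le] at h5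
    have h6 : a * Real.exp a < h * Real.exp h := by
      have h7 : Real.exp a ≤ Real.exp h := Real.exp_le_exp.2 h5.le
      calc a * Real.exp a ≤ a * Real.exp h := by gcongr
        _ < h * Real.exp h := mul_lt_mul_of_pos_right h5 (Real.exp_pos _)
    have h7 : h * Real.exp h ≤ Δ * E := by
      rw [hE]
      calc h * (E * (Δ / n₀)) ≤ n₀ * (E * (Δ / n₀)) := by gcongr
        _ = Δ * E := by field_simp
    linarith
  rw [hma, mul_comm]
  gcongr

/-- **the lower bound for the pressure** -/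
theorem log_lower (hrefl : ∀ x, adj x x) (hsymm : ∀ x y, adj x y → adj y x) {c Δ : ℝ}
    (hc : 0 ≤ c) (hΔ : 0 < Δ) (hA : 0 < A.card)
    (hloc : ∀ v ∈ A, ∀ T ⊆ A.filter fun x => adj v x,
      ∑ x ∈ T, ((T.filter fun y => adj x y).card : ℝ) ≤ c * T.card)
    (hdeg : ∀ x ∈ A, ((A.filter fun y => adj x y).card : ℝ) ≤ Δ) {n₀ t₀ t₁ : ℝ} (hn₀ : 0 < n₀)
    (ht₀ : t₀ = Real.log (n₀ / Δ)) (h01 : t₀ ≤ t₁) (h10 : t₁ - t₀ ≤ n₀) :
    A.card / (2 * Real.exp (Real.exp t₁ * c) * Δ) * (t₁ - t₀) ^ 2 ≤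
      Real.log (ZZ adj A (Real.exp t₁)) := by
  have hA' : (0 : ℝ) < A.card := by exact_mod_cast hA
  obtain ⟨C, hC⟩ : ∃ C : ℝ, C = Real.exp (Real.exp t₁ * c) := ⟨_, rfl⟩
  rw [← hC]
  have hC1 : 1 ≤ C := by
    rw [hC]
    exact Real.one_le_exp (by positivity)
  have hC0 : 0 < C := by linarith
  have hZ1 : ∀ t, 1 ≤ ZZ adj A (Real.exp t) := fun t => one_le_ZZ (Real.exp_pos t).le
  have hZ0 : ∀ t, 0 < ZZ adj A (Real.exp t) := fun t => lt_of_lt_of_le one_pos (hZ1 t)
  -- the derivative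
  have hmean : ∀ t, t₀ ≤ t → t ≤ t₁ →
      A.card / (C * Δ) * (t - t₀) ≤ MM adj A (Real.exp t) / ZZ adj A (Real.exp t) := by
    intro t ht ht'
    have h1 := mean_lower (lam := Real.exp t) hrefl hsymm (Real.exp_pos t) (Δ := Δ) hA hloc hdeg
    obtain ⟨m, hm⟩ : ∃ m, m = MM adj A (Real.exp t) / ZZ adj A (Real.exp t) := ⟨_, rfl⟩
    rw [← hm] at h1 ⊢
    have hm0 : 0 ≤ m := by
      rw [hm]
      exact div_nonneg (MM_nonneg (Real.exp_pos t).le) (hZ0 t).le
    refine alg1 (E := Real.exp t) (n₀ := n₀) hA' hC1 hΔ (Real.exp_pos t) hm0 hn₀ ?_ (by linarith) ?_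
    · refine le_trans ?_ h1
      refine mul_le_mul_of_nonneg_left (Real.exp_le_exp.2 (neg_le_neg ?_)) (by positivity)
      refine div_le_div_of_nonneg_right ?_ hA'.le
      refine mul_le_mul_of_nonneg_right (mul_le_mul_of_nonneg_right ?_ hΔ.le) hm0
      rw [hC]
      exact Real.exp_le_exp.2 (mul_le_mul_of_nonneg_right (Real.exp_le_exp.2 ht') hc)
    · rw [Real.exp_sub, ht₀, Real.exp_log (by positivity), div_div_eq_mul_div, mul_div_assoc]
  -- monotonicity
  obtain ⟨g, hg⟩ : ∃ g : ℝ → ℝ, g = fun t => Real.log (ZZ adj A (Real.exp t)) -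
    A.card / (2 * C * Δ) * (t - t₀) ^ 2 := ⟨_, rfl⟩
  have hder : ∀ t, HasDerivAt g (MM adj A (Real.exp t) / ZZ adj A (Real.exp t) -
      A.card / (C * Δ) * (t - t₀)) t := by
    intro t
    rw [hg]
    have h1 := (ZZ_deriv (adj := adj) (A := A) t).log (hZ0 t).ne'
    have h2 : HasDerivAt (fun t : ℝ => A.card / (2 * C * Δ) * (t - t₀) ^ 2)
        (A.card / (C * Δ) * (t - t₀)) t := by
      have h3 := (((hasDerivAt_id t).sub_const t₀).pow 2).const_mul ((A.card : ℝ) / (2 * C * Δ))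
      refine h3.congr_deriv ?_
      simp only [id, Nat.cast_ofNat, Nat.add_one_sub_one, pow_one, mul_one]
      generalize (A.card : ℝ) = N at *
      field_simp
    exact h1.sub h2
  have hmono : MonotoneOn g (Icc t₀ t₁) := by
    refine monotoneOn_of_deriv_nonneg (convex_Icc _ _)
      (fun t _ => (hder t).continuousAt.continuousWithinAt)
      (fun t _ => (hder t).differentiableAt.differentiableWithinAt) fun t ht => ?_
    rw [interior_Icc] at ht
    rw [(hder t).deriv]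
    have := hmean t ht.1.le ht.2.le
    linarith
  have h1 := hmono (left_mem_Icc.2 h01) (right_mem_Icc.2 h01) h01
  have h2 : g t₀ = Real.log (ZZ adj A (Real.exp t₀)) := by
    rw [hg]
    simp
  have h3 : g t₁ = Real.log (ZZ adj A (Real.exp t₁)) - A.card / (2 * C * Δ) * (t₁ - t₀) ^ 2 := by
    rw [hg]
  rw [h2, h3] at h1
  have h4 : 0 ≤ Real.log (ZZ adj A (Real.exp t₀)) := Real.log_nonneg (hZ1 t₀)
  linarith

end Pool.Agent.N628.EP
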