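import Pool.Agent.N628.EP.J3
import Pool.Agent.N628.EP.H1

/-!
N628/EP: the grid, from inside.
-/

set_option autoImplicit false

open MeasureTheory Set Real Metric Filter Topology

namespace Pool.Agent.N628.EP

open Pool.Agent.Y509.LS

section
open Classical

variable {ι : Type} {adj : ι → ι → Prop}

/-- the number of ordered tuples, from below -/
lemma cnt_le_tup (A : Finset ι) (k : ℕ) : k.factorial * cnt adj A k ≤ (tup adj A k).card := by
  have hinj : ∀ f ∈ tup adj A k, Function.Injective f := by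
    intro f hf i j hij
    rw [mem_tup] at hf
    by_contra hne
    exact (hf.2 i j hne).1 hij
  have h1 : cnt adj A k ≤ ((tup adj A k).image fun f => Finset.univ.image f).card := by
    unfold cnt
    refine Finset.card_le_card fun I hI => ?_
    rw [Finset.mem_filter, Finset.mem_powersetCard] at hI
    rw [Finset.mem_image]
    have hc : Fintype.card (Fin k) = Fintype.card I := by
      rw [Fintype.card_fin, Fintype.card_coe, hI.1.2]
    obtain ⟨e⟩ := Fintype.card_eq.1 hc
    refine ⟨fun i => (e i : ι), ?_, ?_⟩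
    · rw [mem_tup]
      refine ⟨fun i => hI.1.1 (e i).2, fun i j hij => ?_⟩
      have h2 : (e i : ι) ≠ e j := fun h => hij (e.injective (Subtype.ext h))
      exact ⟨h2, hI.2 _ (e i).2 _ (e j).2 h2⟩
    · ext x
      rw [Finset.mem_image]
      constructor
      · rintro ⟨i, _, rfl⟩
        exact (e i).2
      · intro hx
        exact ⟨e.symm ⟨x, hx⟩, Finset.mem_univ _, by simp⟩
  refine (Nat.mul_le_mul_left _ h1).trans ?_
  refine Finset.mul_card_image_le_card _ k.factorial fun I hI => ?_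
  rw [Finset.mem_image] at hI
  obtain ⟨f₀, hf₀, hfI⟩ := hI
  have h2 : Fintype.card (Equiv.Perm (Fin k)) = k.factorial := by
    rw [Fintype.card_perm, Fintype.card_fin]
  rw [← h2, ← Finset.card_univ]
  refine Finset.card_le_card_of_injOn (fun σ : Equiv.Perm (Fin k) => f₀ ∘ σ) ?_ ?_
  · intro σ _
    rw [Finset.mem_coe, Finset.mem_filter]
    rw [mem_tup] at hf₀
    refine ⟨?_, ?_⟩
    · rw [mem_tup]
      exact ⟨fun i => hf₀.1 _, fun i j hij => hf₀.2 _ _ fun h => hij (σ.injective h)⟩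
    · rw [← hfI]
      ext x
      simp only [Finset.mem_image, Finset.mem_univ, true_and, Function.comp]
      constructor
      · rintro ⟨i, rfl⟩
        exact ⟨σ i, rfl⟩
      · rintro ⟨i, rfl⟩
        exact ⟨σ.symm i, by simp⟩
  · intro σ _ τ _ h
    ext i
    have h3 := congrFun h i
    have h4 := hinj f₀ hf₀ h3
    rw [h4]

lemma ZZ_eq_sum (A : Finset ι) (lam : ℝ) :
    ZZ adj A lam = ∑ k ∈ Finset.range (A.card + 1), lam ^ k * cnt adj A k := by
  unfold ZZ
  have h1 : ∀ I ∈ A.powerset.filter (Inde adj), I.card ∈ Finset.range (A.card + 1) := by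
    intro I hI
    rw [mem_ind] at hI
    rw [Finset.mem_range]
    have := Finset.card_le_card hI.1
    omega
  rw [← Finset.sum_fiberwise_of_maps_to h1]
  refine Finset.sum_congr rfl fun k _ => ?_
  have h2 : ∀ I ∈ (A.powerset.filter (Inde adj)).filter (fun I => I.card = k),
      lam ^ I.card = lam ^ k := by
    intro I hI
    rw [(Finset.mem_filter.1 hI).2]
  rw [Finset.sum_congr rfl h2, Finset.sum_const, nsmul_eq_mul, mul_comm]
  congr 2
  unfold cnt
  congr 1
  ext I
  rw [Finset.mem_filter, mem_ind, Finset.mem_filter, Finset.mem_powersetCard]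
  tauto

/-- the sum over the ordered pairs -/
lemma pair_sum (hsymm : ∀ x y, adj x y → adj y x) (T : Finset ι) (g : ι → ℝ) {c : ℝ}
    (h : ∀ x ∈ T, ((T.filter fun y => adj x y ∧ g y ≤ g x).card : ℝ) ≤ c) :
    ∑ x ∈ T, ((T.filter fun y => adj x y).card : ℝ) ≤ 2 * c * T.card := by
  have h1 : ∀ x ∈ T, ((T.filter fun y => adj x y).card : ℝ) ≤
      ((T.filter fun y => adj x y ∧ g y ≤ g x).card : ℝ) +
        ∑ y ∈ T, if adj x y ∧ g x ≤ g y then (1 : ℝ) else 0 := by
    intro x _
    rw [← Finset.sum_filter, Finset.sum_const, nsmul_eq_mul, mul_one]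
    have h2 : T.filter (fun y => adj x y) ⊆ (T.filter fun y => adj x y ∧ g y ≤ g x) ∪
        (T.filter fun y => adj x y ∧ g x ≤ g y) := by
      intro y hy
      rw [Finset.mem_filter] at hy
      rw [Finset.mem_union, Finset.mem_filter, Finset.mem_filter]
      rcases le_total (g y) (g x) with h3 | h3
      · exact Or.inl ⟨hy.1, hy.2, h3⟩
      · exact Or.inr ⟨hy.1, hy.2, h3⟩
    have h3 := (Finset.card_le_card h2).trans (Finset.card_union_le _ _)
    exact_mod_cast h3
  refine (Finset.sum_le_sum h1).trans ?_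
  rw [Finset.sum_add_distrib, Finset.sum_comm]
  have h2 : ∑ x ∈ T, ((T.filter fun y => adj x y ∧ g y ≤ g x).card : ℝ) ≤ c * T.card := by
    refine (Finset.sum_le_sum h).trans (le_of_eq ?_)
    rw [Finset.sum_const, nsmul_eq_mul, mul_comm]
  have h3 : ∑ y ∈ T, ∑ x ∈ T, (if adj x y ∧ g x ≤ g y then (1 : ℝ) else 0) ≤ c * T.card := by
    refine le_trans (Finset.sum_le_sum fun y hy => ?_) h2
    rw [← Finset.sum_filter, Finset.sum_const, nsmul_eq_mul, mul_one]
    have h4 : T.filter (fun x => adj x y ∧ g x ≤ g y) ⊆ T.filter fun x => adj y x ∧ g x ≤ g y := by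
      intro x hx
      rw [Finset.mem_filter] at hx ⊢
      exact ⟨hx.1, hsymm _ _ hx.2.1, hx.2.2⟩
    exact_mod_cast Finset.card_le_card h4
  linarith

end

variable {n : ℕ}

/-- adjacent cells -/
def adj2 (n : ℕ) (s : ℝ) (c c' : Fin n → ℤ) : Prop :=
  ∃ x y : E n, cl s x = c ∧ cl s y = c' ∧ dist x y < 2

/-- the corner of a cell -/
noncomputable def pt (s : ℝ) (c : Fin n → ℤ) : E n := WithLp.toLp 2 fun j => s * c j

lemma cl_pt {s : ℝ} (hs : 0 < s) (c : Fin n → ℤ) : cl s (pt s c) = c := by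
  funext j
  unfold cl pt
  simp only
  rw [mul_div_cancel_left₀ _ hs.ne', Int.floor_intCast]

lemma adj2_refl {s : ℝ} (hs : 0 < s) (c : Fin n → ℤ) : adj2 n s c c :=
  ⟨pt s c, pt s c, cl_pt hs c, cl_pt hs c, by rw [dist_self]; norm_num⟩

lemma adj2_symm {s : ℝ} {c c' : Fin n → ℤ} (h : adj2 n s c c') : adj2 n s c' c := by
  obtain ⟨x, y, hx, hy, hxy⟩ := h
  exact ⟨y, x, hy, hx, by rw [dist_comm]; exact hxy⟩

lemma adj2_dist {s : ℝ} (hs : 0 < s) {c c' : Fin n → ℤ} (h : adj2 n s c c') {x y : E n}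
    (hx : cl s x = c) (hy : cl s y = c') : dist x y ≤ 2 + 2 * (s * √n) := by
  obtain ⟨u, v, hu, hv, huv⟩ := h
  have h1 := cell_dist hs (hx.trans hu.symm)
  have h2 := cell_dist hs (hv.trans hy.symm)
  have h3 : dist x y ≤ dist x u + dist u v + dist v y := dist_triangle4 _ _ _ _
  linarith

/-- the cells inside the cube -/
noncomputable def BB (n N : ℕ) : Finset (Fin n → ℤ) :=
  Fintype.piFinset fun _ => Finset.Ico 0 (N : ℤ)

lemma BB_card (n N : ℕ) : (BB n N).card = N ^ n := by
  unfold BB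
  rw [Fintype.card_piFinset]
  simp

lemma BB_cube {s L : ℝ} (hs : 0 < s) {N : ℕ} (hN : s * N = L) {x : E n} (hx : cl s x ∈ BB n N) :
    x ∈ cube n L := by
  intro j
  unfold BB at hx
  rw [Fintype.mem_piFinset] at hx
  have h1 := Finset.mem_Ico.1 (hx j)
  constructor
  · have h2 := Int.floor_nonneg.1 h1.1
    have h3 := mul_nonneg h2 hs.le
    rwa [div_mul_cancel₀ _ hs.ne'] at h3
  · have h2 : x j / s < ⌊x j / s⌋ + 1 := Int.lt_floor_add_one _
    have h3 : ((⌊x j / s⌋ + 1 : ℤ) : ℝ) ≤ ((N : ℤ) : ℝ) := by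
      have : ⌊x j / s⌋ + 1 ≤ (N : ℤ) := h1.2
      exact_mod_cast this
    push_cast at h3
    have h4 : x j / s < N := by linarith
    rw [div_lt_iff₀ hs] at h4
    rw [← hN]
    linarith

/-- counting cells by volume -/
lemma cells_ball {s : ℝ} (hs : 0 < s) (B : Finset (Fin n → ℤ)) (w : E n) {ρ : ℝ} (hρ : 0 ≤ ρ)
    (h : ∀ c ∈ B, dist (pt s c) w ≤ ρ) : (B.card : ℝ) * s ^ n ≤ (ρ + s * √n) ^ n * V1 n := by
  rw [← uc_vol hs]
  have h1 : uc s B ⊆ closedBall w (ρ + s * √n) := by
    intro x hx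
    have h2 := h _ hx
    have h3 := cell_dist hs (cl_pt hs (cl s x))
    rw [mem_closedBall]
    have h4 := dist_triangle x (pt s (cl s x)) w
    rw [dist_comm] at h3
    linarith
  have h2 := measureReal_mono h1 (μ := volume) (isCompact_closedBall _ _).measure_lt_top.ne
  have hsn : 0 ≤ s * √n := by positivity
  refine h2.trans (le_of_eq ?_)
  have h3 : volume.real (closedBall w (ρ + s * √n)) =
      volume.real (closedBall (0 : E n) (ρ + s * √n)) := by
    rw [measureReal_def, measureReal_def, Measure.addHaar_closedBall_center]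
  rw [h3, vol_cb (by positivity)]

/-- the lens -/
lemma lens {x v y : E n} {ρ : ℝ} (h1 : dist y x ≤ ρ) (h2 : dist y v ≤ dist x v)
    (h3 : dist x v ≤ ρ) : dist y ((1 / 2 : ℝ) • (x + v)) ≤ √3 / 2 * ρ := by
  have hρ : 0 ≤ ρ := dist_nonneg.trans h1
  refine le_of_pow_le_pow_left₀ two_ne_zero (by positivity) ?_
  have h4 : dist y ((1 / 2 : ℝ) • (x + v)) = 1 / 2 * ‖(y - x) + (y - v)‖ := by
    rw [dist_eq_norm]
    have h5 : y - (1 / 2 : ℝ) • (x + v) = (1 / 2 : ℝ) • ((y - x) + (y - v)) := by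
      module
    rw [h5, norm_smul, Real.norm_of_nonneg (by norm_num)]
  have h5 := parallelogram_law_with_norm ℝ (y - x) (y - v)
  have h6 : y - x - (y - v) = v - x := by abel
  rw [h6, ← dist_eq_norm, ← dist_eq_norm, ← dist_eq_norm, dist_comm v x] at h5
  rw [h4, mul_pow, mul_pow, div_pow √3, Real.sq_sqrt (by norm_num)]
  have d1 : 0 ≤ dist y x := dist_nonneg
  have d2 : 0 ≤ dist y v := dist_nonneg
  have d3 : 0 ≤ dist x v := dist_nonneg
  have e1 : dist y x ^ 2 ≤ ρ ^ 2 := pow_le_pow_left₀ d1 h1 2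
  have e2 : dist y v ^ 2 ≤ dist x v ^ 2 := pow_le_pow_left₀ d2 h2 2
  have e3 : dist x v ^ 2 ≤ ρ ^ 2 := pow_le_pow_left₀ d3 h3 2
  linarith

open Classical in
/-- the degrees -/
lemma deg_le {s : ℝ} (hs : 0 < s) (N : ℕ) (x : Fin n → ℤ) :
    (((BB n N).filter fun y => adj2 n s x y).card : ℝ) * s ^ n ≤ (2 + 3 * (s * √n)) ^ n * V1 n := by
  have h1 := cells_ball hs ((BB n N).filter fun y => adj2 n s x y) (pt s x)
    (ρ := 2 + 2 * (s * √n)) (by positivity) (by
      intro c hc
      rw [dist_comm]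
      exact adj2_dist hs (Finset.mem_filter.1 hc).2 (cl_pt hs x) (cl_pt hs c))
  refine h1.trans (le_of_eq ?_)
  congr 2
  ring

open Classical in
/-- the neighbourhoods are sparse -/
lemma sparse_le {s : ℝ} (hs : 0 < s) {N : ℕ} {v : Fin n → ℤ} {T : Finset (Fin n → ℤ)}
    (hT : T ⊆ (BB n N).filter fun x => adj2 n s v x) :
    ∑ x ∈ T, ((T.filter fun y => adj2 n s x y).card : ℝ) ≤
      2 * ((√3 / 2 * (2 + 2 * (s * √n)) + s * √n) ^ n * V1 n / s ^ n) * T.card := by
  have hsn : 0 < s ^ n := pow_pos hs n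
  refine pair_sum (fun x y h => adj2_symm h) T (fun y => dist (pt s y) (pt s v)) fun x hx => ?_
  rw [le_div_iff₀ hsn]
  have hxv : adj2 n s v x := (Finset.mem_filter.1 (hT hx)).2
  have h1 : dist (pt s x) (pt s v) ≤ 2 + 2 * (s * √n) := by
    rw [dist_comm]
    exact adj2_dist hs hxv (cl_pt hs v) (cl_pt hs x)
  refine cells_ball hs _ ((1 / 2 : ℝ) • (pt s x + pt s v)) (by positivity) fun c hc => ?_
  obtain ⟨_, h2, h3⟩ := Finset.mem_filter.1 hc
  refine lens ?_ h3 h1
  rw [dist_comm]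
  exact adj2_dist hs h2 (cl_pt hs x) (cl_pt hs c)

/-- packings from the grid -/
lemma conf_sup {s L : ℝ} (hs : 0 < s) {N : ℕ} (hN : s * N = L) (hL : 0 < L) (k : ℕ) :
    (k.factorial : ℝ) * cnt (adj2 n s) (BB n N) k * (s ^ n) ^ k ≤ volume.real (conf n k L) := by
  classical
  have hsn : 0 < s ^ n := pow_pos hs n
  have h1 : (k.factorial : ℝ) * cnt (adj2 n s) (BB n N) k ≤ (tup (adj2 n s) (BB n N) k).card := by
    exact_mod_cast cnt_le_tup (adj := adj2 n s) (BB n N) k
  have hsub : (⋃ f ∈ tup (adj2 n s) (BB n N) k, Set.pi univ fun i => cell s (f i)) ⊆ conf n k L := by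
    intro x hx
    rw [mem_iUnion₂] at hx
    obtain ⟨f, hf, hx⟩ := hx
    rw [mem_tup] at hf
    have hx' : ∀ i, cl s (x i) = f i := fun i => hx i (mem_univ i)
    refine ⟨fun i => BB_cube hs hN (by rw [hx']; exact hf.1 i), fun i j hij => ?_⟩
    by_contra h
    rw [not_le] at h
    exact (hf.2 i j hij).2 ⟨x i, x j, hx' i, hx' j, h⟩
  have hfin : volume (conf n k L) ≠ ⊤ := by
    have h2 : conf n k L ⊆ Set.pi univ fun _ => {x : E n | ∀ i, x i ∈ Icc 0 L} := by
      intro x hx i _ j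
      exact hx.1 i j
    refine ((measure_mono h2).trans_lt ?_).ne
    rw [volume_pi_pi]
    simp only [box_vol n hL.le]
    exact ENNReal.prod_lt_top fun _ _ => ENNReal.ofReal_lt_top
  have h2 : volume.real (⋃ f ∈ tup (adj2 n s) (BB n N) k, Set.pi univ fun i => cell s (f i)) =
      (tup (adj2 n s) (BB n N) k).card * (s ^ n) ^ k := by
    have hv : ∀ f : Fin k → Fin n → ℤ, volume (Set.pi univ fun i => cell s (f i)) =
        ENNReal.ofReal ((s ^ n) ^ k) := by
      intro f
      rw [volume_pi_pi]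
      simp only [cell_vol hs, Finset.prod_const, Finset.card_univ, Fintype.card_fin]
      rw [ENNReal.ofReal_pow hsn.le]
    have hfin' : ∀ f ∈ tup (adj2 n s) (BB n N) k,
        volume (Set.pi univ fun i => cell s (f i)) ≠ ⊤ := by
      intro f _
      rw [hv]
      exact ENNReal.ofReal_ne_top
    rw [measureReal_biUnion_finset _ _ hfin']
    · have : ∀ f ∈ tup (adj2 n s) (BB n N) k,
          volume.real (Set.pi univ fun i => cell s (f i)) = (s ^ n) ^ k := by
        intro f _
        rw [measureReal_def, hv, ENNReal.toReal_ofReal (by positivity)]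
      rw [Finset.sum_congr rfl this, Finset.sum_const, nsmul_eq_mul]
    · intro f _ g _ hfg
      rw [Function.onFun, Set.disjoint_left]
      intro x hx hx'
      apply hfg
      funext i
      exact (hx i (mem_univ i)).symm.trans (hx' i (mem_univ i))
    · intro f _
      exact MeasurableSet.univ_pi fun i => cell_meas hs (f i)
  calc (k.factorial : ℝ) * cnt (adj2 n s) (BB n N) k * (s ^ n) ^ k ≤
      (tup (adj2 n s) (BB n N) k).card * (s ^ n) ^ k := by gcongr
    _ ≤ volume.real (conf n k L) := by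
        rw [← h2]
        exact measureReal_mono hsub hfin

/-- the partition functions -/
lemma ZZ_le_hsZ {s L lam : ℝ} (hs : 0 < s) {N : ℕ} (hN : s * N = L) (hL : 0 < L) (hlam : 0 ≤ lam) :
    ZZ (adj2 n s) (BB n N) (lam * s ^ n) ≤ hsZ n L lam := by
  rw [ZZ_eq_sum, hsZ_eq]
  refine le_trans (Finset.sum_le_sum fun k _ => ?_) ((ut_summable hL hlam).sum_le_tsum
    (Finset.range ((BB n N).card + 1)) fun k _ => ut_nonneg hlam k)
  unfold ut
  have h1 := conf_sup (n := n) hs hN hL k
  have h2 : (0 : ℝ) < k.factorial := by exact_mod_cast Nat.factorial_pos k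
  calc (lam * s ^ n) ^ k * cnt (adj2 n s) (BB n N) k =
      lam ^ k / k.factorial * ((k.factorial : ℝ) * cnt (adj2 n s) (BB n N) k * (s ^ n) ^ k) := by
        rw [mul_pow]
        field_simp
    _ ≤ _ := by gcongr

end Pool.Agent.N628.EP
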