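import Pool.Agent.N628.EP.J4
import Pool.Agent.N628.EP.M1

/-!
N628/EP: the lower bound for the pressure of the hard sphere model.
-/

set_option autoImplicit false

open MeasureTheory Set Real Metric Filter Topology

namespace Pool.Agent.N628.EP

open Pool.Agent.Y509.LS

/-- the constant `log (2 / √3)` -/
noncomputable def u1 : ℝ := Real.log (2 / √3)

lemma exp_u1 : Real.exp u1 = 2 / √3 := Real.exp_log (by positivity)

lemma u1_lt : u1 < 1 / 4 := by
  unfold u1
  rw [Real.log_lt_iff_lt_exp (by positivity)]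
  have h1 : (5 / 4 : ℝ) ≤ Real.exp (1 / 4) := by
    have := Real.add_one_le_exp (1 / 4 : ℝ)
    linarith
  refine lt_of_lt_of_le ?_ h1
  rw [div_lt_iff₀ (by positivity)]
  have h2 : (17 / 10 : ℝ) < √3 := by
    rw [Real.lt_sqrt (by norm_num)]
    norm_num
  linarith

/-- the fugacity `e^(u n) / (2^n v_n)` -/
noncomputable def lm (n : ℕ) (u : ℝ) : ℝ := Real.exp (u * n) / (2 ^ n * V1 n)

lemma lm_pos (n : ℕ) (u : ℝ) : 0 < lm n u := by
  have := V1_pos n
  unfold lm
  positivity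

/-- **lower bound for the pressure** -/
theorem press_lower {ε : ℝ} (hε : 0 < ε) : ∀ᶠ n : ℕ in atTop, ∀ L : ℝ, (n : ℝ) ^ 2 ≤ L →
    ∀ u : ℝ, 0 ≤ u → u ≤ u1 - ε →
      1 / 2 * (u ^ 2 - ε) * n ^ 2 * TT n L ≤ Real.log (hsZ n L (lm n u)) := by
  classical
  have hu1 := u1_lt
  obtain ⟨η, hη⟩ : ∃ η : ℝ, η = ε / 10 := ⟨_, rfl⟩
  have hεη : ε = 10 * η := by rw [hη]; ring
  have hη0 : 0 < η := by rw [hη]; positivity
  filter_upwards [eventually_gt_atTop 36, poly_ev 1 1 hη0, poly_ev (4 / η) 0 hε]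
    with n hn36 hn1 hn2 L hL u hu0 hu
  have hn : 0 < n := by omega
  have hn' : (36 : ℝ) < n := by exact_mod_cast hn36
  have hn0 : (0 : ℝ) < n := by linarith
  have hL0 : 0 < L := lt_of_lt_of_le (by positivity) hL
  have hLn : 0 < L ^ n := by positivity
  have hV := V1_pos n
  have hε1 : ε < 1 / 4 := by linarith
  have hη1 : η < 1 / 40 := by linarith
  obtain ⟨T, hT⟩ : ∃ T : ℝ, T = TT n L := ⟨_, rfl⟩
  have hTn : (n : ℝ) ≤ T := by rw [hT]; exact TT_large hn36 hL
  have hT0 : 0 < T := by linarith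
  have hTL : T * (2 ^ n * V1 n) = L ^ n := by
    rw [hT]
    unfold TT
    field_simp
  rw [← hT]
  have hlm := lm_pos n u
  have hZ1 := one_le_hsZ (n := n) hL0 hlm.le
  have hlogZ : 0 ≤ Real.log (hsZ n L (lm n u)) := Real.log_nonneg hZ1
  rcases le_or_gt (u ^ 2) ε with hu2 | hu2
  · refine le_trans ?_ hlogZ
    have h1 : 0 ≤ (ε - u ^ 2) * n ^ 2 * T := by
      have : 0 ≤ ε - u ^ 2 := by linarith
      positivity
    linarith
  have hu3 : ε < u := by
    by_contra h
    rw [not_lt] at h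
    nlinarith
  -- the mesh
  obtain ⟨N, hN⟩ : ∃ N : ℕ, N = ⌈L * (n * √n) / η⌉₊ := ⟨_, rfl⟩
  have hsq : 0 < √(n : ℝ) := Real.sqrt_pos.2 hn0
  have hN1 : L * (n * √n) / η ≤ N := by rw [hN]; exact Nat.le_ceil _
  have hN0 : (0 : ℝ) < N := lt_of_lt_of_le (by positivity) hN1
  obtain ⟨s, hs⟩ : ∃ s : ℝ, s = L / N := ⟨_, rfl⟩
  have hs0 : 0 < s := by rw [hs]; positivity
  have hsN : s * N = L := by rw [hs]; field_simp
  obtain ⟨x, hx⟩ : ∃ x : ℝ, x = s * √n := ⟨_, rfl⟩
  have hx0 : 0 < x := by rw [hx]; positivity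
  have hnx : n * x ≤ η := by
    rw [hx, hs]
    rw [div_le_iff₀ hη0] at hN1
    rw [div_mul_eq_mul_div, ← mul_div_assoc, div_le_iff₀ hN0]
    calc (n : ℝ) * (L * √n) = L * (n * √n) := by ring
      _ ≤ N * η := hN1
      _ = η * N := by ring
  have hsn : 0 < s ^ n := pow_pos hs0 n
  -- the graph
  obtain ⟨Δ, hΔ⟩ : ∃ Δ : ℝ, Δ = (2 + 3 * x) ^ n * V1 n / s ^ n := ⟨_, rfl⟩
  have hΔ0 : 0 < Δ := by rw [hΔ]; positivity
  obtain ⟨c, hc⟩ : ∃ c : ℝ, c = 2 * ((√3 / 2 * (2 + 2 * x) + x) ^ n * V1 n / s ^ n) := ⟨_, rfl⟩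
  have hc0 : 0 ≤ c := by rw [hc]; positivity
  have hBc : (BB n N).card = N ^ n := BB_card n N
  have hBpos : 0 < (BB n N).card := by
    rw [hBc]
    have : 0 < N := by exact_mod_cast hN0
    positivity
  obtain ⟨t₁, ht₁⟩ : ∃ t₁ : ℝ, t₁ = Real.log (lm n u * s ^ n) := ⟨_, rfl⟩
  have hexp1 : Real.exp t₁ = lm n u * s ^ n := by rw [ht₁, Real.exp_log (by positivity)]
  obtain ⟨t₀, ht₀⟩ : ∃ t₀ : ℝ, t₀ = Real.log (n / Δ) := ⟨_, rfl⟩
  have h32 : (1 + 3 / 2 * x) ^ n ≤ Real.exp (3 / 2 * η) := by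
    calc (1 + 3 / 2 * x) ^ n ≤ Real.exp (3 / 2 * x) ^ n := by
          refine pow_le_pow_left₀ (by positivity) ?_ n
          have := Real.add_one_le_exp (3 / 2 * x)
          linarith
      _ = Real.exp (n * (3 / 2 * x)) := by rw [← Real.exp_nat_mul]
      _ ≤ Real.exp (3 / 2 * η) := by
          rw [Real.exp_le_exp]
          linarith
  have h32' : (1 : ℝ) ≤ (1 + 3 / 2 * x) ^ n := one_le_pow₀ (by linarith)
  have hdiff : t₁ - t₀ = u * n + Real.log ((1 + 3 / 2 * x) ^ n) - Real.log n := by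
    have e1 : lm n u * s ^ n / (n / Δ) = Real.exp (u * n) * (1 + 3 / 2 * x) ^ n / n := by
      have e2 : (2 + 3 * x) ^ n = 2 ^ n * (1 + 3 / 2 * x) ^ n := by
        rw [← mul_pow]
        congr 1
        ring
      rw [hΔ, e2]
      unfold lm
      field_simp
    rw [ht₁, ht₀, ← Real.log_div (by positivity) (by positivity), e1,
      Real.log_div (by positivity) (by positivity), Real.log_mul (by positivity) (by positivity),
      Real.log_exp]
  have hlogx0 : 0 ≤ Real.log ((1 + 3 / 2 * x) ^ n) := Real.log_nonneg h32'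
  have hlogx1 : Real.log ((1 + 3 / 2 * x) ^ n) ≤ 3 / 2 * η := by
    rw [Real.log_le_iff_le_exp (by positivity)]
    exact h32
  have hlogn : Real.log n ≤ η * n := by
    rw [Real.log_le_iff_le_exp hn0]
    rw [one_mul, pow_one] at hn1
    exact hn1
  have hlogn0 : 0 ≤ Real.log n := Real.log_nonneg (by linarith)
  have hd1 : (u - η) * n ≤ t₁ - t₀ := by rw [hdiff]; linarith
  have huη : 0 < u - η := by linarith
  have hd0 : 0 < (u - η) * n := by positivity
  have hd2 : t₁ - t₀ ≤ n := by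
    rw [hdiff]
    have : u * n ≤ 1 / 4 * n := by
      gcongr
      linarith
    linarith
  have hloc : ∀ v ∈ BB n N, ∀ T' ⊆ (BB n N).filter fun x => adj2 n s v x,
      ∑ x ∈ T', ((T'.filter fun y => adj2 n s x y).card : ℝ) ≤ c * T'.card := by
    intro v _ T' hT'
    have h1 := sparse_le hs0 hT'
    rw [hc, hx]
    exact h1
  have hdeg : ∀ x ∈ BB n N, (((BB n N).filter fun y => adj2 n s x y).card : ℝ) ≤ Δ := by
    intro y _
    have h1 := deg_le hs0 N y
    rw [hΔ, le_div_iff₀ hsn, hx]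
    exact h1
  have hmain := log_lower (adj := adj2 n s) (A := BB n N) (fun x => adj2_refl hs0 x)
    (fun x y h => adj2_symm h) hc0 hΔ0 hBpos hloc hdeg hn0 ht₀ (by linarith) hd2
  rw [hexp1] at hmain
  have hZle := ZZ_le_hsZ (n := n) hs0 hsN hL0 hlm.le
  have hZpos : 0 < ZZ (adj2 n s) (BB n N) (lm n u * s ^ n) :=
    lt_of_lt_of_le one_pos (one_le_ZZ (by positivity))
  refine le_trans ?_ (hmain.trans (Real.log_le_log hZpos hZle))
  -- the constant
  have hC : Real.exp (lm n u * s ^ n * c) ≤ Real.exp η := by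
    rw [Real.exp_le_exp]
    have e1 : lm n u * s ^ n * c = 2 * (Real.exp (u * n) * ((√3 / 2 * (2 + 2 * x) + x) / 2) ^ n) := by
      rw [hc, div_pow]
      unfold lm
      field_simp
    rw [e1]
    have e2 : (√3 / 2 * (2 + 2 * x) + x) / 2 ≤ (2 / √3)⁻¹ * Real.exp (2 * x) := by
      have h3 : 1 ≤ √3 := by
        rw [Real.one_le_sqrt]
        norm_num
      have e3 : (√3 / 2 * (2 + 2 * x) + x) / 2 ≤ √3 / 2 * (1 + 2 * x) := by nlinarith
      rw [inv_div]
      refine e3.trans ?_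
      gcongr
      have := Real.add_one_le_exp (2 * x)
      linarith
    have e3 : ((√3 / 2 * (2 + 2 * x) + x) / 2) ^ n ≤ Real.exp (-(u1 * n) + 2 * η) := by
      calc ((√3 / 2 * (2 + 2 * x) + x) / 2) ^ n ≤ ((2 / √3)⁻¹ * Real.exp (2 * x)) ^ n :=
            pow_le_pow_left₀ (by positivity) e2 n
        _ = Real.exp (-(u1 * n) + 2 * (n * x)) := by
            rw [← exp_u1, ← Real.exp_neg, ← Real.exp_add, ← Real.exp_nat_mul]
            congr 1
            ring
        _ ≤ Real.exp (-(u1 * n) + 2 * η) := by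
            rw [Real.exp_le_exp]
            linarith
    calc 2 * (Real.exp (u * n) * ((√3 / 2 * (2 + 2 * x) + x) / 2) ^ n) ≤
        2 * (Real.exp (u * n) * Real.exp (-(u1 * n) + 2 * η)) := by gcongr
      _ = 2 * (Real.exp ((u - u1) * n) * Real.exp (2 * η)) := by
          rw [← Real.exp_add, ← Real.exp_add]
          congr 2
          ring
      _ ≤ 2 * (Real.exp (-(ε * n)) * 2) := by
          have f1 : Real.exp ((u - u1) * n) ≤ Real.exp (-(ε * n)) := by
            rw [Real.exp_le_exp]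
            nlinarith
          have f2 : Real.exp (2 * η) ≤ 2 := by
            have g1 : Real.exp (2 * η) ≤ Real.exp (1 / 2) := by
              rw [Real.exp_le_exp]
              linarith
            refine g1.trans ?_
            have g2 : Real.exp (1 / 2) ^ 2 ≤ 2 ^ 2 := by
              rw [← Real.exp_nat_mul]
              have : ((2 : ℕ) : ℝ) * (1 / 2) = 1 := by norm_num
              rw [this]
              linarith [Real.exp_one_lt_d9]
            exact le_of_pow_le_pow_left₀ two_ne_zero (by norm_num) g2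
          gcongr
      _ ≤ η := by
          rw [pow_zero, mul_one, div_le_iff₀ hη0] at hn2
          have f1 : Real.exp (-(ε * n)) = (Real.exp (ε * n))⁻¹ := Real.exp_neg _
          rw [f1]
          have f2 : 2 * ((Real.exp (ε * n))⁻¹ * 2) = 4 / Real.exp (ε * n) := by
            rw [div_eq_mul_inv]
            ring
          rw [f2, div_le_iff₀ (Real.exp_pos _)]
          linarith
  have hAΔ : T * Real.exp (-(3 / 2 * η)) ≤ (BB n N).card / Δ := by
    have e1 : ((BB n N).card : ℝ) / Δ = T / (1 + 3 / 2 * x) ^ n := by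
      have e2 : (2 + 3 * x) ^ n = 2 ^ n * (1 + 3 / 2 * x) ^ n := by
        rw [← mul_pow]
        congr 1
        ring
      have e3 : ((BB n N).card : ℝ) * s ^ n = L ^ n := by
        rw [hBc]
        push_cast
        rw [← mul_pow, mul_comm, hsN]
      rw [hΔ, e2, div_div_eq_mul_div, e3, ← hTL]
      field_simp
    rw [e1, Real.exp_neg, ← div_eq_mul_inv]
    exact div_le_div_of_nonneg_left hT0.le (by positivity) h32
  have hfin : 1 / 2 * (T * Real.exp (-(3 / 2 * η))) * Real.exp (-η) * ((u - η) * n) ^ 2 ≤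
      (BB n N).card / (2 * Real.exp (lm n u * s ^ n * c) * Δ) * (t₁ - t₀) ^ 2 := by
    have e1 : ((BB n N).card : ℝ) / (2 * Real.exp (lm n u * s ^ n * c) * Δ) =
        1 / 2 * ((BB n N).card / Δ) * Real.exp (-(lm n u * s ^ n * c)) := by
      rw [Real.exp_neg]
      ring
    rw [e1]
    have e2 : Real.exp (-η) ≤ Real.exp (-(lm n u * s ^ n * c)) := by
      rw [Real.exp_le_exp] at hC ⊢
      linarith
    obtain ⟨B, hB⟩ : ∃ B : ℝ, B = ((BB n N).card : ℝ) / Δ := ⟨_, rfl⟩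
    rw [← hB] at hAΔ ⊢
    have f1 : 0 ≤ T * Real.exp (-(3 / 2 * η)) := by positivity
    have f2 : 0 ≤ B := f1.trans hAΔ
    refine mul_le_mul (mul_le_mul (mul_le_mul_of_nonneg_left hAΔ (by norm_num)) e2
      (Real.exp_pos _).le (by positivity)) (pow_le_pow_left₀ hd0.le hd1 2) (by positivity)
      (mul_nonneg (by positivity) (Real.exp_pos _).le)
  refine le_trans ?_ hfin
  have e1 : 1 - 5 / 2 * η ≤ Real.exp (-(3 / 2 * η)) * Real.exp (-η) := by
    rw [← Real.exp_add]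
    have := Real.add_one_le_exp (-(3 / 2 * η) + -η)
    linarith
  have e2 : u ^ 2 - ε ≤ (1 - 5 / 2 * η) * (u - η) ^ 2 := by
    have g1 : u ≤ 1 / 4 := by linarith
    have g2 : u * η ≤ 1 / 4 * η := by gcongr
    have g3 : u ^ 2 ≤ (1 / 4) ^ 2 := by gcongr
    have g4 : η * u ^ 2 ≤ η * (1 / 4) ^ 2 := by gcongr
    have g5 : (1 - 5 / 2 * η) * (u - η) ^ 2 = u ^ 2 - 2 * (u * η) + η ^ 2 - 5 / 2 * (η * u ^ 2) +
      5 * η * (u * η) - 5 / 2 * (η * η ^ 2) := by ring
    have g6 : η * η ^ 2 ≤ 1 / 40 * η ^ 2 := by gcongr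
    have g7 : 0 ≤ 5 * η * (u * η) := by positivity
    rw [g5, hεη]
    nlinarith [sq_nonneg η]
  have e3 : (1 - 5 / 2 * η) * (u - η) ^ 2 ≤ Real.exp (-(3 / 2 * η)) * Real.exp (-η) * (u - η) ^ 2 := by
    gcongr
  have e4 : 1 / 2 * (T * Real.exp (-(3 / 2 * η))) * Real.exp (-η) * ((u - η) * n) ^ 2 =
      1 / 2 * (Real.exp (-(3 / 2 * η)) * Real.exp (-η) * (u - η) ^ 2) * n ^ 2 * T := by ring
  rw [e4]
  gcongr
  exact e2.trans e3

end Pool.Agent.N628.EP
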