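import Pool.Agent.N628.EP.J3

/-!
N628/EP: the lower bound for the partition function when every subset of a neighbourhood is sparse or
contains many independent vertices.
-/

set_option autoImplicit false

namespace Pool.Agent.N628.EP

open Classical Set

variable {ι : Type} {adj : ι → ι → Prop} {A : Finset ι} {lam : ℝ}

/-- the number of vertices in a sparse set -/
lemma local_count (hrefl : ∀ x, adj x x) (hsymm : ∀ x y, adj x y → adj y x) (h : 0 ≤ lam) {c : ℝ}
    {T : Finset ι} (hT : ∑ x ∈ T, ((T.filter fun y => adj x y).card : ℝ) ≤ c * T.card) :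
    lam * (ZZ adj T lam * (Real.exp (-(lam * c)) * T.card)) ≤ MM adj T lam := by
  have hZ1 := one_le_ZZ (adj := adj) (A := T) h
  have hZ0 : 0 < ZZ adj T lam := by linarith
  have h1 : ∀ x ∈ T, ZZ adj T lam * (Real.exp (-(lam * c)) *
      (1 - lam * (((T.filter fun y => adj x y).card : ℝ) - c))) ≤ ZZ adj (out adj T x) lam := by
    intro x _
    have h2 := ZZ_del (A := T) hrefl hsymm h (T.filter fun y => adj x y) (Finset.filter_subset _ _)
    have h3 : T \ (T.filter fun y => adj x y) = out adj T x := by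
      ext y
      rw [out, Finset.mem_sdiff, Finset.mem_filter, Finset.mem_filter]
      tauto
    rw [h3] at h2
    obtain ⟨d, hd⟩ : ∃ d : ℝ, d = ((T.filter fun y => adj x y).card : ℝ) := ⟨_, rfl⟩
    rw [← hd] at h2 ⊢
    have h4 : Real.exp (-(lam * c)) * (1 - lam * (d - c)) ≤ Real.exp (-(lam * d)) := by
      have h5 := Real.add_one_le_exp (-(lam * (d - c)))
      have h6 : Real.exp (-(lam * d)) = Real.exp (-(lam * c)) * Real.exp (-(lam * (d - c))) := by
        rw [← Real.exp_add]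
        congr 1
        ring
      rw [h6]
      refine mul_le_mul_of_nonneg_left ?_ (Real.exp_pos _).le
      linarith
    calc ZZ adj T lam * (Real.exp (-(lam * c)) * (1 - lam * (d - c))) ≤
        ZZ adj T lam * Real.exp (-(lam * d)) := by gcongr
      _ ≤ (Real.exp (lam * d) * ZZ adj (out adj T x) lam) * Real.exp (-(lam * d)) := by gcongr
      _ = ZZ adj (out adj T x) lam * (Real.exp (lam * d) * Real.exp (-(lam * d))) := by ring
      _ = ZZ adj (out adj T x) lam := by rw [← Real.exp_add, add_neg_cancel, Real.exp_zero, mul_one]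
  rw [MM_eq hrefl hsymm]
  refine mul_le_mul_of_nonneg_left ?_ h
  refine le_trans ?_ (Finset.sum_le_sum h1)
  rw [← Finset.mul_sum, ← Finset.mul_sum, Finset.sum_sub_distrib, ← Finset.mul_sum,
    Finset.sum_sub_distrib, Finset.sum_const, Finset.sum_const, nsmul_eq_mul, nsmul_eq_mul, mul_one]
  have h3 : 0 ≤ Real.exp (-(lam * c)) := (Real.exp_pos _).le
  gcongr
  nlinarith

/-- convexity -/
lemma ZZ_conv {lam₀ : ℝ} (h0 : 0 < lam₀) (hlam : 0 < lam) :
    Real.log (ZZ adj A lam) - Real.log (ZZ adj A lam₀) ≤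
      MM adj A lam / ZZ adj A lam * Real.log (lam / lam₀) := by
  have hZ := one_le_ZZ (adj := adj) (A := A) hlam.le
  have hZ0 := one_le_ZZ (adj := adj) (A := A) h0.le
  have hZp : 0 < ZZ adj A lam := by linarith
  obtain ⟨M, hM⟩ : ∃ M : ℝ, M = MM adj A lam / ZZ adj A lam := ⟨_, rfl⟩
  obtain ⟨s, hs⟩ : ∃ s : ℝ, s = Real.log (lam / lam₀) := ⟨_, rfl⟩
  have hes : Real.exp (-s) = lam₀ / lam := by
    rw [hs, Real.exp_neg, Real.exp_log (by positivity), inv_div]
  have h1 : ∀ I ∈ A.powerset.filter (Inde adj), Real.exp (-(M * s)) * (1 + M * s) * lam ^ I.card -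
      Real.exp (-(M * s)) * s * (I.card * lam ^ I.card) ≤ lam₀ ^ I.card := by
    intro I _
    obtain ⟨k, hk⟩ : ∃ k : ℕ, k = I.card := ⟨_, rfl⟩
    rw [← hk]
    have h2 : lam₀ ^ k = Real.exp (-(k * s)) * lam ^ k := by
      have h3 : Real.exp (-(k * s)) = (lam₀ / lam) ^ k := by
        rw [← hes, ← Real.exp_nat_mul]
        congr 1
        ring
      rw [h3, div_pow, div_mul_cancel₀ _ (pow_pos hlam k).ne']
    have h3 : Real.exp (-(M * s)) * (1 - s * (k - M)) ≤ Real.exp (-(k * s)) := by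
      have h4 : Real.exp (-(k * s)) = Real.exp (-(M * s)) * Real.exp (-(s * (k - M))) := by
        rw [← Real.exp_add]
        congr 1
        ring
      rw [h4]
      refine mul_le_mul_of_nonneg_left ?_ (Real.exp_pos _).le
      have := Real.add_one_le_exp (-(s * (k - M)))
      linarith
    rw [h2]
    have h4 := mul_le_mul_of_nonneg_right h3 (pow_pos hlam k).le
    refine le_trans (le_of_eq ?_) h4
    ring
  have h2 := Finset.sum_le_sum h1
  rw [Finset.sum_sub_distrib, ← Finset.mul_sum, ← Finset.mul_sum] at h2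
  have h3 : ∑ I ∈ A.powerset.filter (Inde adj), ((I.card : ℝ) * lam ^ I.card) = M * ZZ adj A lam := by
    rw [hM, div_mul_cancel₀ _ hZp.ne']
    rfl
  have h3' : ∑ I ∈ A.powerset.filter (Inde adj), lam ^ I.card = ZZ adj A lam := rfl
  have h3'' : ∑ I ∈ A.powerset.filter (Inde adj), lam₀ ^ I.card = ZZ adj A lam₀ := rfl
  rw [h3, h3', h3''] at h2
  have h4 : Real.exp (-(M * s)) * ZZ adj A lam ≤ ZZ adj A lam₀ := by
    refine le_trans (le_of_eq ?_) h2
    ring
  have h5 := Real.log_le_log (by positivity) h4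
  rw [Real.log_mul (Real.exp_pos _).ne' (by linarith), Real.log_exp] at h5
  rw [← hM, ← hs]
  linarith

/-- the expectation is increasing -/
lemma mean_mono {lam₀ : ℝ} (h0 : 0 < lam₀) (h : lam₀ ≤ lam) :
    MM adj A lam₀ / ZZ adj A lam₀ ≤ MM adj A lam / ZZ adj A lam := by
  rcases h.eq_or_lt with rfl | h
  · exact le_rfl
  have hlam : 0 < lam := h0.trans h
  have h1 := ZZ_conv (adj := adj) (A := A) h0 hlam
  have h2 := ZZ_conv (adj := adj) (A := A) hlam h0
  have h3 : 0 < Real.log (lam / lam₀) := Real.log_pos (by rw [one_lt_div h0]; exact h)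
  have h4 : Real.log (lam₀ / lam) = -Real.log (lam / lam₀) := by
    rw [← Real.log_inv, inv_div]
  rw [h4] at h2
  have h5 : MM adj A lam₀ / ZZ adj A lam₀ * Real.log (lam / lam₀) ≤
      MM adj A lam / ZZ adj A lam * Real.log (lam / lam₀) := by linarith
  exact le_of_mul_le_mul_right h5 h3

/-- **the probability that a vertex is free** -/
theorem free_lower2 (hrefl : ∀ x, adj x x) (hsymm : ∀ x y, adj x y → adj y x) (h : 0 ≤ lam)
    {ε K N q : ℝ} (hK : 0 < K) {v : ι}
    (hloc : ∀ T ⊆ A.filter fun x => adj v x,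
      Real.exp (-ε) * (ZZ adj T lam * Real.log (ZZ adj T lam)) ≤ MM adj T lam ∨
        K * ZZ adj T lam ≤ MM adj T lam)
    (hN : N = lam * ∑ x ∈ A.filter fun x => adj v x, ZZ adj (out adj A x) lam / ZZ adj A lam)
    (hq : 0 < q) (hqN : q ≤ 1 - N / K) :
    q * Real.exp (-(Real.exp ε * N / q)) ≤ ZZ adj (out adj A v) lam / ZZ adj A lam := by
  have hZ1 := one_le_ZZ (adj := adj) (A := A) h
  have hZ0 : 0 < ZZ adj A lam := by linarith
  obtain ⟨P, hP⟩ : ∃ P, P = (out adj A v).powerset.filter (Inde adj) := ⟨_, rfl⟩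
  obtain ⟨w, hw⟩ : ∃ w : Finset ι → ℝ, w = fun Y => lam ^ Y.card := ⟨_, rfl⟩
  obtain ⟨z, hz⟩ : ∃ z : Finset ι → ℝ, z = fun Y => ZZ adj (free adj A v Y) lam := ⟨_, rfl⟩
  obtain ⟨m, hm⟩ : ∃ m : Finset ι → ℝ, m = fun Y => MM adj (free adj A v Y) lam := ⟨_, rfl⟩
  have hw0 : ∀ Y, 0 ≤ w Y := by
    intro Y
    rw [hw]
    positivity
  have hz1 : ∀ Y, 1 ≤ z Y := by
    intro Y
    rw [hz]
    exact one_le_ZZ h
  have hm0 : ∀ Y, 0 ≤ m Y := by
    intro Y
    rw [hm]
    exact MM_nonneg h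
  have e1 : ZZ adj A lam = ∑ Y ∈ P, w Y * z Y := by
    have h1 := decomp (A := A) (lam := lam) hsymm v fun _ => 1
    simp only [one_mul] at h1
    rw [hP, hw, hz]
    exact h1
  have e2 : N * ZZ adj A lam = ∑ Y ∈ P, w Y * m Y := by
    have h1 := decomp (A := A) (lam := lam) hsymm v fun W => (W.card : ℝ)
    rw [card_eq hrefl hsymm] at h1
    rw [hP, hw, hm, hN, ← Finset.sum_div, ← mul_div_assoc, div_mul_cancel₀ _ hZ0.ne']
    exact h1
  have e3 : ∑ Y ∈ P, w Y = ZZ adj (out adj A v) lam := by rw [hP, hw]; rfl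
  -- the good sets
  obtain ⟨G, hG⟩ : ∃ G, G = P.filter fun Y => Real.exp (-ε) * (z Y * Real.log (z Y)) ≤ m Y := ⟨_, rfl⟩
  have hGP : G ⊆ P := by rw [hG]; exact Finset.filter_subset _ _
  have hbad : ∀ Y ∈ P \ G, K * z Y ≤ m Y := by
    intro Y hY
    rw [Finset.mem_sdiff] at hY
    rcases hloc (free adj A v Y) (Finset.filter_subset _ _) with h1 | h1
    · exfalso
      apply hY.2
      rw [hG, Finset.mem_filter, hz, hm]
      exact ⟨hY.1, h1⟩
    · rw [hz, hm]
      exact h1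
  have hN0 : 0 ≤ N := by
    have : 0 ≤ N * ZZ adj A lam := by
      rw [e2]
      exact Finset.sum_nonneg fun Y _ => mul_nonneg (hw0 Y) (hm0 Y)
    by_contra h1
    rw [not_le] at h1
    have := mul_neg_of_neg_of_pos h1 hZ0
    linarith
  have hB : K * ∑ Y ∈ P \ G, w Y * z Y ≤ N * ZZ adj A lam := by
    rw [e2, Finset.mul_sum]
    calc ∑ Y ∈ P \ G, K * (w Y * z Y) ≤ ∑ Y ∈ P \ G, w Y * m Y := by
          refine Finset.sum_le_sum fun Y hY => ?_
          have := mul_le_mul_of_nonneg_left (hbad Y hY) (hw0 Y)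
          linarith
      _ ≤ ∑ Y ∈ P, w Y * m Y := Finset.sum_le_sum_of_subset_of_nonneg Finset.sdiff_subset
          fun Y _ _ => mul_nonneg (hw0 Y) (hm0 Y)
  have hQ : q * ZZ adj A lam ≤ ∑ Y ∈ G, w Y * z Y := by
    have h1 : ∑ Y ∈ P \ G, w Y * z Y + ∑ Y ∈ G, w Y * z Y = ZZ adj A lam := by
      rw [e1]
      exact Finset.sum_sdiff hGP
    have h2 : ∑ Y ∈ P \ G, w Y * z Y ≤ N / K * ZZ adj A lam := by
      rw [div_mul_eq_mul_div, le_div_iff₀ hK]
      linarith
    have h3 := mul_le_mul_of_nonneg_right hqN hZ0.le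
    linarith
  have hS : ∑ Y ∈ G, w Y * (z Y * Real.log (z Y)) ≤ Real.exp ε * N * ZZ adj A lam := by
    have h1 : ∑ Y ∈ G, w Y * (z Y * Real.log (z Y)) ≤ ∑ Y ∈ G, Real.exp ε * (w Y * m Y) := by
      refine Finset.sum_le_sum fun Y hY => ?_
      rw [hG, Finset.mem_filter] at hY
      have h2 : z Y * Real.log (z Y) ≤ Real.exp ε * m Y := by
        have h3 := mul_le_mul_of_nonneg_left hY.2 (Real.exp_pos ε).le
        rwa [← mul_assoc, ← Real.exp_add, add_neg_cancel, Real.exp_zero, one_mul] at h3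
      have := mul_le_mul_of_nonneg_left h2 (hw0 Y)
      linarith
    refine h1.trans ?_
    rw [← Finset.mul_sum, mul_assoc]
    refine mul_le_mul_of_nonneg_left ?_ (Real.exp_pos _).le
    rw [e2]
    exact Finset.sum_le_sum_of_subset_of_nonneg hGP fun Y _ _ => mul_nonneg (hw0 Y) (hm0 Y)
  obtain ⟨μ, hμ⟩ : ∃ μ : ℝ, μ = Real.exp ε * N / q := ⟨_, rfl⟩
  have hμ0 : 0 ≤ μ := by
    rw [hμ]
    exact div_nonneg (mul_nonneg (Real.exp_pos _).le hN0) hq.le
  have hμq : μ * q = Real.exp ε * N := by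
    rw [hμ, div_mul_cancel₀ _ hq.ne']
  rw [← hμ, le_div_iff₀ hZ0, ← e3]
  have i3 : ∀ Y ∈ G, Real.exp (-μ) * ((1 + μ) * (w Y * z Y) - w Y * (z Y * Real.log (z Y))) ≤ w Y := by
    intro Y _
    have hz0 : 0 < z Y := by linarith [hz1 Y]
    have h1 : Real.exp (-μ) * (1 - (Real.log (z Y) - μ)) ≤ (z Y)⁻¹ := by
      have h2 := Real.add_one_le_exp (-(Real.log (z Y) - μ))
      have h3 : (z Y)⁻¹ = Real.exp (-μ) * Real.exp (-(Real.log (z Y) - μ)) := by
        rw [← Real.exp_add]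
        have : -μ + -(Real.log (z Y) - μ) = -Real.log (z Y) := by ring
        rw [this, Real.exp_neg, Real.exp_log hz0]
      rw [h3]
      refine mul_le_mul_of_nonneg_left ?_ (Real.exp_pos _).le
      linarith
    calc Real.exp (-μ) * ((1 + μ) * (w Y * z Y) - w Y * (z Y * Real.log (z Y))) =
        w Y * (z Y * (Real.exp (-μ) * (1 - (Real.log (z Y) - μ)))) := by ring
      _ ≤ w Y * (z Y * (z Y)⁻¹) :=
          mul_le_mul_of_nonneg_left (mul_le_mul_of_nonneg_left h1 hz0.le) (hw0 Y)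
      _ = w Y := by rw [mul_inv_cancel₀ hz0.ne', mul_one]
  have i4 : Real.exp (-μ) * ((1 + μ) * ∑ Y ∈ G, w Y * z Y - ∑ Y ∈ G, w Y * (z Y * Real.log (z Y))) ≤
      ∑ Y ∈ P, w Y := by
    have h1 := Finset.sum_le_sum i3
    rw [← Finset.mul_sum, Finset.sum_sub_distrib, ← Finset.mul_sum] at h1
    exact h1.trans (Finset.sum_le_sum_of_subset_of_nonneg hGP fun Y _ _ => hw0 Y)
  refine le_trans ?_ i4
  have h5 : q * ZZ adj A lam ≤
      (1 + μ) * ∑ Y ∈ G, w Y * z Y - ∑ Y ∈ G, w Y * (z Y * Real.log (z Y)) := by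
    have h6 := mul_le_mul_of_nonneg_left hQ (by linarith : 0 ≤ 1 + μ)
    have h7 : (1 + μ) * (q * ZZ adj A lam) = q * ZZ adj A lam + μ * q * ZZ adj A lam := by ring
    rw [h7, hμq] at h6
    linarith
  have h6 := mul_le_mul_of_nonneg_left h5 (Real.exp_pos (-μ)).le
  linarith

/-- the expected number of vertices -/
theorem mean_lower2 (hrefl : ∀ x, adj x x) (hsymm : ∀ x y, adj x y → adj y x) (h : 0 < lam)
    {ε K q N₀ C Δ a : ℝ} (hK : 0 < K) (hA : 0 < A.card)
    (hloc : ∀ v ∈ A, ∀ T ⊆ A.filter fun x => adj v x,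
      Real.exp (-ε) * (ZZ adj T lam * Real.log (ZZ adj T lam)) ≤ MM adj T lam ∨
        K * ZZ adj T lam ≤ MM adj T lam)
    (hdeg : ∀ x ∈ A, ((A.filter fun y => adj x y).card : ℝ) ≤ Δ)
    (hq : 0 < q) (hqN : q ≤ 1 - N₀ / K) (hC : C = Real.exp ε / q)
    (ha : a = C * Δ * (MM adj A lam / ZZ adj A lam) / A.card) (haN : 1 + a ≤ C * N₀) :
    lam * A.card * (q * Real.exp (-a)) ≤ MM adj A lam / ZZ adj A lam := by
  have hZ1 := one_le_ZZ (adj := adj) (A := A) h.le
  have hZ0 : 0 < ZZ adj A lam := by linarith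
  have hA' : (0 : ℝ) < A.card := by exact_mod_cast hA
  obtain ⟨D, hD⟩ : ∃ D : ι → ℝ, D = fun x => ZZ adj (out adj A x) lam / ZZ adj A lam := ⟨_, rfl⟩
  have hD0 : ∀ x, 0 ≤ D x := by
    intro x
    rw [hD]
    exact div_nonneg (le_trans zero_le_one (one_le_ZZ h.le)) hZ0.le
  have e1 : MM adj A lam / ZZ adj A lam = lam * ∑ x ∈ A, D x := by
    rw [MM_eq hrefl hsymm, mul_div_assoc, Finset.sum_div, hD]
  obtain ⟨S, hS⟩ : ∃ S : ℝ, S = ∑ x ∈ A, D x := ⟨_, rfl⟩
  rw [e1, ← hS] at ha ⊢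
  have hC0 : 0 < C := by rw [hC]; positivity
  obtain ⟨N, hN⟩ : ∃ N : ι → ℝ, N = fun v => lam * ∑ x ∈ A.filter fun x => adj v x, D x := ⟨_, rfl⟩
  have h2 : ∀ v ∈ A, q * Real.exp (-a) * (1 - (C * N v - a)) ≤ D v := by
    intro v hv
    rcases le_or_gt (N v) N₀ with hv1 | hv1
    · have h1 := free_lower2 (q := q) (N := N v) hrefl hsymm h.le hK (hloc v hv)
        (by rw [hN, hD]) hq (by
          refine hqN.trans ?_
          have := div_le_div_of_nonneg_right hv1 hK.le
          linarith)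
      have h3 : Real.exp ε * N v / q = C * N v := by
        rw [hC]
        ring
      rw [h3] at h1
      have h4 : D v = ZZ adj (out adj A v) lam / ZZ adj A lam := by rw [hD]
      rw [h4]
      refine le_trans ?_ h1
      rw [mul_assoc]
      refine mul_le_mul_of_nonneg_left ?_ hq.le
      have h5 := Real.add_one_le_exp (-(C * N v - a))
      have h6 : Real.exp (-(C * N v)) = Real.exp (-a) * Real.exp (-(C * N v - a)) := by
        rw [← Real.exp_add]
        congr 1
        ring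
      rw [h6]
      refine mul_le_mul_of_nonneg_left ?_ (Real.exp_pos _).le
      linarith
    · refine le_trans ?_ (hD0 v)
      have h3 : C * N₀ ≤ C * N v := mul_le_mul_of_nonneg_left hv1.le hC0.le
      have h4 : 0 ≤ q * Real.exp (-a) := mul_nonneg hq.le (Real.exp_pos _).le
      have h5 : 1 - (C * N v - a) ≤ 0 := by linarith
      exact mul_nonpos_of_nonneg_of_nonpos h4 h5
  have h3 : q * Real.exp (-a) * A.card ≤ S := by
    rw [hS]
    refine le_trans ?_ (Finset.sum_le_sum h2)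
    rw [← Finset.mul_sum, Finset.sum_sub_distrib, Finset.sum_sub_distrib, Finset.sum_const,
      Finset.sum_const, nsmul_eq_mul, nsmul_eq_mul, mul_one, ← Finset.mul_sum]
    refine mul_le_mul_of_nonneg_left ?_ (mul_nonneg hq.le (Real.exp_pos _).le)
    have h4 : ∑ v ∈ A, ∑ x ∈ A.filter fun x => adj v x, D x ≤ Δ * S := by
      have h5 : ∀ v ∈ A, ∑ x ∈ A.filter (fun x => adj v x), D x =
          ∑ x ∈ A, if adj v x then D x else 0 := fun v _ => Finset.sum_filter _ _
      rw [Finset.sum_congr rfl h5, Finset.sum_comm, hS, Finset.mul_sum]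
      refine Finset.sum_le_sum fun x hx => ?_
      rw [← Finset.sum_filter, Finset.sum_const, nsmul_eq_mul]
      refine mul_le_mul_of_nonneg_right ?_ (hD0 x)
      refine le_trans (le_of_eq ?_) (hdeg x hx)
      congr 2
      ext y
      rw [Finset.mem_filter, Finset.mem_filter]
      exact ⟨fun h => ⟨h.1, hsymm _ _ h.2⟩, fun h => ⟨h.1, hsymm _ _ h.2⟩⟩
    have h5 : a * A.card = C * Δ * (lam * S) := by
      rw [ha, div_mul_cancel₀ _ hA'.ne']
    have h6 : C * ∑ v ∈ A, N v ≤ C * (lam * (Δ * S)) := by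
      rw [hN]
      simp only
      rw [← Finset.mul_sum]
      exact mul_le_mul_of_nonneg_left (mul_le_mul_of_nonneg_left h4 h.le) hC0.le
    have h7 : C * (lam * (Δ * S)) = C * Δ * (lam * S) := by ring
    nlinarith
  have h4 := mul_le_mul_of_nonneg_left h3 h.le
  linarith

/-- **the lower bound for the pressure** -/
theorem log_lower2 (hrefl : ∀ x, adj x x) (hsymm : ∀ x y, adj x y → adj y x) {ε K q N₀ C Δ : ℝ}
    (hε : 0 ≤ ε) (hK : 0 < K) (hΔ : 0 < Δ) (hA : 0 < A.card) {n₀ t₀ t₁ : ℝ} (hn₀ : 0 < n₀)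
    (hloc : ∀ t ≤ t₁, ∀ v ∈ A, ∀ T ⊆ A.filter fun x => adj v x,
      Real.exp (-ε) * (ZZ adj T (Real.exp t) * Real.log (ZZ adj T (Real.exp t))) ≤
        MM adj T (Real.exp t) ∨ K * ZZ adj T (Real.exp t) ≤ MM adj T (Real.exp t))
    (hdeg : ∀ x ∈ A, ((A.filter fun y => adj x y).card : ℝ) ≤ Δ)
    (hq : 0 < q) (hqN : q ≤ 1 - N₀ / K) (hC : C = Real.exp ε / q) (hnN : 1 + n₀ ≤ C * N₀)
    (ht₀ : t₀ = Real.log (n₀ / Δ)) (h01 : t₀ ≤ t₁) (h10 : t₁ - t₀ ≤ n₀) :
    A.card / (2 * C * Δ) * (t₁ - t₀) ^ 2 ≤ Real.log (ZZ adj A (Real.exp t₁)) := by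
  have hA' : (0 : ℝ) < A.card := by exact_mod_cast hA
  have hC0 : 0 < C := by rw [hC]; positivity
  have hCq : C * q = Real.exp ε := by rw [hC, div_mul_cancel₀ _ hq.ne']
  have he1 : 1 ≤ Real.exp ε := Real.one_le_exp hε
  have hZ1 : ∀ t, 1 ≤ ZZ adj A (Real.exp t) := fun t => one_le_ZZ (Real.exp_pos t).le
  have hZ0 : ∀ t, 0 < ZZ adj A (Real.exp t) := fun t => lt_of_lt_of_le one_pos (hZ1 t)
  -- the derivative
  have hmean : ∀ t, t₀ ≤ t → t ≤ t₁ →
      A.card / (C * Δ) * (t - t₀) ≤ MM adj A (Real.exp t) / ZZ adj A (Real.exp t) := by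
    intro t ht ht'
    obtain ⟨m, hm⟩ : ∃ m, m = MM adj A (Real.exp t) / ZZ adj A (Real.exp t) := ⟨_, rfl⟩
    have hm0 : 0 ≤ m := by
      rw [hm]
      exact div_nonneg (MM_nonneg (Real.exp_pos t).le) (hZ0 t).le
    obtain ⟨a, ha⟩ : ∃ a : ℝ, a = C * Δ * m / A.card := ⟨_, rfl⟩
    have ha0 : 0 ≤ a := by rw [ha]; positivity
    obtain ⟨B, hB⟩ : ∃ B : ℝ, B = A.card := ⟨_, rfl⟩
    rw [← hB] at ha hA' ⊢
    have hma : m = B / (C * Δ) * a := by
      rw [ha]
      field_simp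
    rw [← hm, hma]
    refine mul_le_mul_of_nonneg_left ?_ (by positivity)
    by_contra h5
    rw [not_le] at h5
    have h1 := mean_lower2 (lam := Real.exp t) hrefl hsymm (Real.exp_pos t) hK hA
      (hloc t ht') hdeg hq hqN hC (a := a) (by rw [← hm, ← hB]; exact ha) (by linarith)
    rw [← hm, ← hB] at h1
    have h3 : Δ * Real.exp t ≤ a * Real.exp a := by
      have h4 : Real.exp t * B * (q * Real.exp (-a)) ≤ B / (C * Δ) * a := by rwa [← hma]
      have h6 := mul_le_mul_of_nonneg_right h4 (by positivity : 0 ≤ Real.exp a * (C * Δ) / B)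
      have h7 : Real.exp t * B * (q * Real.exp (-a)) * (Real.exp a * (C * Δ) / B) =
          (C * q) * Δ * Real.exp t * (Real.exp (-a) * Real.exp a) := by field_simp
      have h8 : B / (C * Δ) * a * (Real.exp a * (C * Δ) / B) = a * Real.exp a := by field_simp
      rw [h7, h8, ← Real.exp_add, neg_add_cancel, Real.exp_zero, mul_one, hCq] at h6
      refine le_trans ?_ h6
      rw [mul_assoc]
      have : 0 < Δ * Real.exp t := by positivity
      nlinarith
    have h6 : a * Real.exp a < (t - t₀) * Real.exp (t - t₀) := by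
      have h7 : Real.exp a ≤ Real.exp (t - t₀) := Real.exp_le_exp.2 h5.le
      calc a * Real.exp a ≤ a * Real.exp (t - t₀) := mul_le_mul_of_nonneg_left h7 ha0
        _ < (t - t₀) * Real.exp (t - t₀) := mul_lt_mul_of_pos_right h5 (Real.exp_pos _)
    have h7 : (t - t₀) * Real.exp (t - t₀) ≤ Δ * Real.exp t := by
      have h8 : Real.exp (t - t₀) = Real.exp t * (Δ / n₀) := by
        rw [Real.exp_sub, ht₀, Real.exp_log (by positivity), div_div_eq_mul_div, mul_div_assoc]
      rw [h8]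
      have h9 : t - t₀ ≤ n₀ := by linarith
      calc (t - t₀) * (Real.exp t * (Δ / n₀)) ≤ n₀ * (Real.exp t * (Δ / n₀)) :=
            mul_le_mul_of_nonneg_right h9 (by positivity)
        _ = Δ * Real.exp t := by field_simp
    linarith
  -- monotonicity
  obtain ⟨g, hg⟩ : ∃ g : ℝ → ℝ, g = fun t => Real.log (ZZ adj A (Real.exp t)) -
    A.card / (2 * C * Δ) * (t - t₀) ^ 2 := ⟨_, rfl⟩
  have hder : ∀ t, HasDerivAt g (MM adj A (Real.exp t) / ZZ adj A (Real.exp t) -
      A.card / (C * Δ) * (t - t₀)) t := by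
    intro t
    rw [hg]
    have h1 := (ZZ_deriv (adj := adj) (A := A) t).log (hZ0 t).ne'
    have h2 : HasDerivAt (fun t : ℝ => A.card / (2 * C * Δ) * (t - t₀) ^ 2)
        (A.card / (C * Δ) * (t - t₀)) t := by
      have h3 := (((hasDerivAt_id t).sub_const t₀).pow 2).const_mul ((A.card : ℝ) / (2 * C * Δ))
      refine h3.congr_deriv ?_
      simp only [id, Nat.cast_ofNat, Nat.add_one_sub_one, pow_one, mul_one]
      generalize (A.card : ℝ) = N at *
      field_simp
    exact h1.sub h2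
  have hmono : MonotoneOn g (Icc t₀ t₁) := by
    refine monotoneOn_of_deriv_nonneg (convex_Icc _ _)
      (fun t _ => (hder t).continuousAt.continuousWithinAt)
      (fun t _ => (hder t).differentiableAt.differentiableWithinAt) fun t ht => ?_
    rw [interior_Icc] at ht
    rw [(hder t).deriv]
    have := hmean t ht.1.le ht.2.le
    linarith
  have h1 := hmono (left_mem_Icc.2 h01) (right_mem_Icc.2 h01) h01
  have h2 : g t₀ = Real.log (ZZ adj A (Real.exp t₀)) := by
    rw [hg]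
    simp
  have h3 : g t₁ = Real.log (ZZ adj A (Real.exp t₁)) - A.card / (2 * C * Δ) * (t₁ - t₀) ^ 2 := by
    rw [hg]
  rw [h2, h3] at h1
  have h4 : 0 ≤ Real.log (ZZ adj A (Real.exp t₀)) := Real.log_nonneg (hZ1 t₀)
  linarith

end Pool.Agent.N628.EP
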