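import Pool.Agent.N628.EP.J6
import Pool.Agent.N628.EP.J4
import Pool.Agent.N628.EP.M1

/-!
N628/EP: sets with many close pairs are small.
-/

set_option autoImplicit false

open MeasureTheory Set Real Metric Filter Topology

namespace Pool.Agent.N628.EP

open Pool.Agent.Y509.LS

section
open Classical

variable {ι : Type} {adj : ι → ι → Prop}

/-- every set is sparse or contains many independent vertices -/
lemma sparse_or_big (hrefl : ∀ x, adj x x) (hsymm : ∀ x y, adj x y → adj y x) {lam ε G : ℝ}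
    (hlam : 0 < lam) (hε : 0 < ε) (hε1 : ε ≤ 1) (hG : 0 ≤ G) {T : Finset ι}
    (hgeo : 0 < T.card → ∀ d : ℝ, d * T.card = ∑ x ∈ T, ((T.filter fun y => adj x y).card : ℝ) →
      ε < lam * d → d * G ≤ T.card) :
    Real.exp (-ε) * (ZZ adj T lam * Real.log (ZZ adj T lam)) ≤ MM adj T lam ∨
      (ε * Real.exp (-1) * G) * ZZ adj T lam ≤ MM adj T lam := by
  rcases Nat.eq_zero_or_pos T.card with hT | hT
  · left
    rw [Finset.card_eq_zero] at hT
    have h1 := MM_nonneg (adj := adj) (A := T) hlam.le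
    have h2 : ZZ adj T lam = 1 := by
      rw [hT]
      unfold ZZ
      rw [Finset.powerset_empty]
      have h6 : ({∅} : Finset (Finset ι)).filter (Inde adj) = {∅} := by
        rw [Finset.filter_singleton, if_pos]
        exact fun x hx => absurd hx (Finset.notMem_empty x)
      rw [h6]
      simp
    rw [h2, Real.log_one, mul_zero, mul_zero]
    exact h1
  have hT' : (0 : ℝ) < T.card := by exact_mod_cast hT
  obtain ⟨d, hd⟩ : ∃ d : ℝ, d = (∑ x ∈ T, ((T.filter fun y => adj x y).card : ℝ)) / T.card := ⟨_, rfl⟩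
  have hdT : d * T.card = ∑ x ∈ T, ((T.filter fun y => adj x y).card : ℝ) := by
    rw [hd, div_mul_cancel₀ _ hT'.ne']
  have hd1 : 1 ≤ d := by
    have h1 : (T.card : ℝ) ≤ ∑ x ∈ T, ((T.filter fun y => adj x y).card : ℝ) := by
      have h2 : ∀ x ∈ T, (1 : ℝ) ≤ ((T.filter fun y => adj x y).card : ℝ) := by
        intro x hx
        have : 0 < (T.filter fun y => adj x y).card :=
          Finset.card_pos.2 ⟨x, Finset.mem_filter.2 ⟨hx, hrefl x⟩⟩
        exact_mod_cast this
      have h3 := Finset.sum_le_sum h2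
      rw [Finset.sum_const, nsmul_eq_mul, mul_one] at h3
      exact h3
    rw [hd, le_div_iff₀ hT', one_mul]
    exact h1
  rcases le_or_gt (lam * d) ε with h1 | h1
  · left
    have h2 := local_sparse hrefl hsymm hlam.le (c := d) (T := T) hdT.ge
    rw [← MM_eq hrefl hsymm] at h2
    refine le_trans ?_ h2
    refine mul_le_mul_of_nonneg_right (Real.exp_le_exp.2 (by linarith)) ?_
    have h3 := one_le_ZZ (adj := adj) (A := T) hlam.le
    exact mul_nonneg (by linarith) (Real.log_nonneg h3)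
  · right
    have h2 := hgeo hT d hdT h1
    have hd0 : 0 < d := by linarith
    obtain ⟨t, ht⟩ : ∃ t : ℝ, t = min lam (1 / d) := ⟨_, rfl⟩
    have ht0 : 0 < t := by rw [ht]; exact lt_min hlam (by positivity)
    have htl : t ≤ lam := by rw [ht]; exact min_le_left _ _
    have htd : t * d ≤ 1 := by
      have : t ≤ 1 / d := by rw [ht]; exact min_le_right _ _
      rw [le_div_iff₀ hd0] at this
      exact this
    have htT : ε * G ≤ t * T.card := by
      rw [ht]
      rcases min_cases lam (1 / d) with h3 | h3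
      · rw [h3.1]
        calc ε * G ≤ lam * d * G := mul_le_mul_of_nonneg_right h1.le hG
          _ = lam * (d * G) := by ring
          _ ≤ lam * T.card := mul_le_mul_of_nonneg_left h2 hlam.le
      · rw [h3.1]
        rw [div_mul_eq_mul_div, one_mul, le_div_iff₀ hd0]
        calc ε * G * d ≤ 1 * G * d :=
              mul_le_mul_of_nonneg_right (mul_le_mul_of_nonneg_right hε1 hG) hd0.le
          _ = d * G := by ring
          _ ≤ T.card := h2
    have h3 := local_count (adj := adj) hrefl hsymm ht0.le (c := d) (T := T) hdT.ge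
    have hZt := one_le_ZZ (adj := adj) (A := T) ht0.le
    have hZl := one_le_ZZ (adj := adj) (A := T) hlam.le
    have h4 : ε * Real.exp (-1) * G ≤ MM adj T t / ZZ adj T t := by
      rw [le_div_iff₀ (by linarith)]
      refine le_trans ?_ h3
      have h5 : Real.exp (-1) ≤ Real.exp (-(t * d)) := Real.exp_le_exp.2 (by linarith)
      have h6 : ε * G * Real.exp (-1) ≤ t * T.card * Real.exp (-(t * d)) :=
        mul_le_mul htT h5 (Real.exp_pos _).le (by positivity)
      have h7 := mul_le_mul_of_nonneg_right h6 (by linarith : 0 ≤ ZZ adj T t)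
      linarith
    have h5 := h4.trans (mean_mono (adj := adj) (A := T) ht0 htl)
    rw [le_div_iff₀ (by linarith)] at h5
    exact h5

/-- the greedy choice of points far from each other with many common neighbours -/
lemma greedy {T : Finset ι} {near close : ι → ι → Prop} (hnear : ∀ x y, near x y → near y x)
    (hclose : ∀ x y, close x y → close y x) (hcrefl : ∀ x, close x x) {m : ℕ} (hm : 0 < m) {f : ℝ}
    (hf : 0 < f) (hT : 0 < T.card)
    (h1 : f * (T.card : ℝ) ^ 2 ≤ ∑ x ∈ T, ((T.filter fun y => near x y).card : ℝ))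
    (h2 : ∑ x ∈ T, ((T.filter fun y => close x y).card : ℝ) ≤ f ^ 2 / (32 * m) * (T.card : ℝ) ^ 2) :
    ∃ X : Finset ι, X.card = m ∧ (∀ x ∈ X, ∀ y ∈ X, x ≠ y → ¬ close x y) ∧
      ∃ S ⊆ T, (∀ y ∈ S, ∀ x ∈ X, near x y) ∧ (f / 8) ^ m * (f / 2) * T.card ≤ (S.card : ℝ) := by
  have hT0 : (0 : ℝ) < T.card := by exact_mod_cast hT
  have hm0 : (0 : ℝ) < m := by exact_mod_cast hm
  obtain ⟨t, ht⟩ : ∃ t : ℝ, t = T.card := ⟨_, rfl⟩
  obtain ⟨T', hT'⟩ : ∃ T', T' = T.filter fun y => f / 2 * t ≤ ((T.filter fun x => near y x).card : ℝ) :=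
    ⟨_, rfl⟩
  obtain ⟨T'', hT''⟩ : ∃ T'', T'' = T.filter fun x =>
    ((T.filter fun y => close x y).card : ℝ) ≤ f / (8 * m) * t := ⟨_, rfl⟩
  have hT'T : T' ⊆ T := by rw [hT']; exact Finset.filter_subset _ _
  have hT''T : T'' ⊆ T := by rw [hT'']; exact Finset.filter_subset _ _
  rw [← ht] at h1 h2 hT0
  -- the size of `T'`
  have hc1 : f / 2 * t ≤ T'.card := by
    have h3 : ∑ x ∈ T, ((T.filter fun y => near x y).card : ℝ) ≤ T'.card * t + t * (f / 2 * t) := by
      rw [← Finset.sum_sdiff hT'T, add_comm]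
      refine add_le_add ?_ ?_
      · calc ∑ x ∈ T', ((T.filter fun y => near x y).card : ℝ) ≤ ∑ x ∈ T', t := by
              refine Finset.sum_le_sum fun x _ => ?_
              rw [ht]
              exact_mod_cast Finset.card_filter_le _ _
          _ = T'.card * t := by rw [Finset.sum_const, nsmul_eq_mul]
      · calc ∑ x ∈ T \ T', ((T.filter fun y => near x y).card : ℝ) ≤ ∑ x ∈ T \ T', f / 2 * t := by
              refine Finset.sum_le_sum fun x hx => ?_
              rw [Finset.mem_sdiff, hT', Finset.mem_filter, not_and, not_le] at hx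
              exact (hx.2 hx.1).le
          _ = (T \ T').card * (f / 2 * t) := by rw [Finset.sum_const, nsmul_eq_mul]
          _ ≤ t * (f / 2 * t) := by
              refine mul_le_mul_of_nonneg_right ?_ (by positivity)
              rw [ht]
              exact_mod_cast Finset.card_le_card Finset.sdiff_subset
    have h4 : (f / 2 * t) * t ≤ T'.card * t := by nlinarith
    exact le_of_mul_le_mul_right h4 hT0
  -- the complement of `T''`
  have hc2 : ((T \ T'').card : ℝ) ≤ f / 4 * t := by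
    have h3 : ((T \ T'').card : ℝ) * (f / (8 * m) * t) ≤ f ^ 2 / (32 * m) * t ^ 2 := by
      refine le_trans ?_ h2
      calc ((T \ T'').card : ℝ) * (f / (8 * m) * t) = ∑ x ∈ T \ T'', f / (8 * m) * t := by
            rw [Finset.sum_const, nsmul_eq_mul]
        _ ≤ ∑ x ∈ T \ T'', ((T.filter fun y => close x y).card : ℝ) := by
            refine Finset.sum_le_sum fun x hx => ?_
            rw [Finset.mem_sdiff, hT'', Finset.mem_filter, not_and, not_le] at hx
            exact (hx.2 hx.1).le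
        _ ≤ ∑ x ∈ T, ((T.filter fun y => close x y).card : ℝ) :=
            Finset.sum_le_sum_of_subset_of_nonneg Finset.sdiff_subset fun _ _ _ => Nat.cast_nonneg _
    have h4 : f ^ 2 / (32 * m) * t ^ 2 = f / 4 * t * (f / (8 * m) * t) := by
      field_simp
      ring
    rw [h4] at h3
    exact le_of_mul_le_mul_right h3 (by positivity)
  -- the induction
  have key : ∀ i : ℕ, i ≤ m → ∃ X ⊆ T'', X.card = i ∧ (∀ x ∈ X, ∀ y ∈ X, x ≠ y → ¬ close x y) ∧
      ∃ S ⊆ T', (∀ y ∈ S, ∀ x ∈ X, near x y) ∧ (f / 8) ^ i * (f / 2) * t ≤ (S.card : ℝ) := by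
    intro i
    induction i with
    | zero =>
      intro _
      refine ⟨∅, Finset.empty_subset _, Finset.card_empty, fun x hx => absurd hx
        (Finset.notMem_empty x), T', Finset.Subset.refl _, fun y _ x hx => absurd hx
        (Finset.notMem_empty x), ?_⟩
      rw [pow_zero, one_mul]
      exact hc1
    | succ i ih =>
      intro hi
      obtain ⟨X, hXT, hXc, hXf, S, hST, hSn, hSc⟩ := ih (by omega)
      have hS0 : (0 : ℝ) < S.card := lt_of_lt_of_le (by positivity) hSc
      obtain ⟨W, hW⟩ : ∃ W, W = T''.filter fun x => ∀ x' ∈ X, ¬ close x' x := ⟨_, rfl⟩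
      have hWT : W ⊆ T := by
        rw [hW]
        exact (Finset.filter_subset _ _).trans hT''T
      have hWc : ((T \ W).card : ℝ) ≤ 3 * f / 8 * t := by
        have h3 : T \ W ⊆ (T \ T'') ∪ X.biUnion fun x' => T.filter fun y => close x' y := by
          intro x hx
          rw [Finset.mem_sdiff, hW, Finset.mem_filter, not_and] at hx
          rw [Finset.mem_union, Finset.mem_sdiff, Finset.mem_biUnion]
          by_cases hx2 : x ∈ T''
          · right
            have h4 := hx.2 hx2
            push Not at h4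
            obtain ⟨x', hx', h5⟩ := h4
            exact ⟨x', hx', Finset.mem_filter.2 ⟨hx.1, h5⟩⟩
          · left
            exact ⟨hx.1, hx2⟩
        have h4 : ((T \ W).card : ℝ) ≤ (T \ T'').card +
            ∑ x' ∈ X, ((T.filter fun y => close x' y).card : ℝ) := by
          have h5 := (Finset.card_le_card h3).trans ((Finset.card_union_le _ _).trans
            (Nat.add_le_add_left Finset.card_biUnion_le _))
          exact_mod_cast h5
        have h5 : ∑ x' ∈ X, ((T.filter fun y => close x' y).card : ℝ) ≤ i * (f / (8 * m) * t) := by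
          rw [← hXc, ← nsmul_eq_mul, ← Finset.sum_const]
          refine Finset.sum_le_sum fun x hx => ?_
          have h6 := hXT hx
          rw [hT'', Finset.mem_filter] at h6
          exact h6.2
        have h6 : (i : ℝ) * (f / (8 * m) * t) ≤ f / 8 * t := by
          have h7 : (i : ℝ) ≤ m := by exact_mod_cast (by omega : i ≤ m)
          calc (i : ℝ) * (f / (8 * m) * t) ≤ m * (f / (8 * m) * t) :=
                mul_le_mul_of_nonneg_right h7 (by positivity)
            _ = f / 8 * t := by field_simp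
        linarith
      have hsum : (S.card : ℝ) * (f / 2 * t) ≤ ∑ x ∈ T, ((S.filter fun y => near x y).card : ℝ) := by
        have h3 : ∑ x ∈ T, ((S.filter fun y => near x y).card : ℝ) =
            ∑ y ∈ S, ((T.filter fun x => near x y).card : ℝ) := by
          have h4 : ∀ x ∈ T, ((S.filter fun y => near x y).card : ℝ) =
              ∑ y ∈ S, if near x y then (1 : ℝ) else 0 := by
            intro x _
            rw [← Finset.sum_filter, Finset.sum_const, nsmul_eq_mul, mul_one]
          have h5 : ∀ y ∈ S, ((T.filter fun x => near x y).card : ℝ) =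
              ∑ x ∈ T, if near x y then (1 : ℝ) else 0 := by
            intro y _
            rw [← Finset.sum_filter, Finset.sum_const, nsmul_eq_mul, mul_one]
          rw [Finset.sum_congr rfl h4, Finset.sum_congr rfl h5, Finset.sum_comm]
        rw [h3, ← nsmul_eq_mul, ← Finset.sum_const]
        refine Finset.sum_le_sum fun y hy => ?_
        have h4 := hST hy
        rw [hT', Finset.mem_filter] at h4
        refine h4.2.trans (le_of_eq ?_)
        congr 2
        ext x
        rw [Finset.mem_filter, Finset.mem_filter]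
        exact ⟨fun h => ⟨h.1, hnear _ _ h.2⟩, fun h => ⟨h.1, hnear _ _ h.2⟩⟩
      have hsumW : f / 8 * t * S.card ≤ ∑ x ∈ W, ((S.filter fun y => near x y).card : ℝ) := by
        have h3 : ∑ x ∈ T \ W, ((S.filter fun y => near x y).card : ℝ) ≤ 3 * f / 8 * t * S.card := by
          calc ∑ x ∈ T \ W, ((S.filter fun y => near x y).card : ℝ) ≤ ∑ x ∈ T \ W, (S.card : ℝ) := by
                refine Finset.sum_le_sum fun x _ => ?_
                exact_mod_cast Finset.card_filter_le _ _
            _ = (T \ W).card * S.card := by rw [Finset.sum_const, nsmul_eq_mul]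
            _ ≤ 3 * f / 8 * t * S.card := mul_le_mul_of_nonneg_right hWc hS0.le
        have h4 := Finset.sum_sdiff hWT (f := fun x => ((S.filter fun y => near x y).card : ℝ))
        nlinarith
      obtain ⟨x, hxW, hx⟩ : ∃ x ∈ W, f / 8 * S.card ≤ ((S.filter fun y => near x y).card : ℝ) := by
        by_contra h3
        push Not at h3
        have h4 : 0 < f / 8 * t * S.card := by positivity
        rcases W.eq_empty_or_nonempty with hW0 | hW0
        · rw [hW0, Finset.sum_empty] at hsumW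
          linarith
        · have h5 := Finset.sum_lt_sum_of_nonempty hW0 h3
          rw [Finset.sum_const, nsmul_eq_mul] at h5
          have h6 : (W.card : ℝ) ≤ t := by
            rw [ht]
            exact_mod_cast Finset.card_le_card hWT
          have h7 : (W.card : ℝ) * (f / 8 * S.card) ≤ t * (f / 8 * S.card) :=
            mul_le_mul_of_nonneg_right h6 (by positivity)
          linarith
      rw [hW, Finset.mem_filter] at hxW
      have hxX : x ∉ X := fun h => hxW.2 x h (hcrefl x)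
      refine ⟨insert x X, ?_, ?_, ?_, S.filter fun y => near x y, ?_, ?_, ?_⟩
      · intro y hy
        rw [Finset.mem_insert] at hy
        rcases hy with rfl | hy
        · exact hxW.1
        · exact hXT hy
      · rw [Finset.card_insert_of_notMem hxX, hXc]
      · intro a ha b hb hab
        rw [Finset.mem_insert] at ha hb
        rcases ha with rfl | ha
        · rcases hb with rfl | hb
          · exact absurd rfl hab
          · exact fun h => hxW.2 b hb (hclose _ _ h)
        · rcases hb with rfl | hb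
          · exact hxW.2 a ha
          · exact hXf a ha b hb hab
      · exact (Finset.filter_subset _ _).trans hST
      · intro y hy a ha
        rw [Finset.mem_filter] at hy
        rw [Finset.mem_insert] at ha
        rcases ha with rfl | ha
        · exact hy.2
        · exact hSn y hy.1 a ha
      · refine le_trans ?_ hx
        rw [pow_succ]
        have h3 := mul_le_mul_of_nonneg_left hSc (by positivity : 0 ≤ f / 8)
        linarith
  obtain ⟨X, _, hXc, hXf, S, hST, hSn, hSc⟩ := key m le_rfl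
  rw [ht] at hSc
  exact ⟨X, hXc, hXf, S, hST.trans hT'T, hSn, hSc⟩

/-- a point near to many points far from each other is near to their centroid -/
lemma centroid {n : ℕ} {X : Finset ι} {m : ℕ} (hX : X.card = m) (hm : 0 < m) {p : ι → E n} {y : E n}
    {D D' : ℝ} (hD' : 0 ≤ D') (h1 : ∀ x ∈ X, dist y (p x) ≤ D)
    (h2 : ∀ x ∈ X, ∀ x' ∈ X, x ≠ x' → D' ≤ dist (p x) (p x')) :
    dist y ((1 / m : ℝ) • ∑ x ∈ X, p x) ^ 2 ≤ D ^ 2 - (m - 1) / (2 * m) * D' ^ 2 := by
  have hm0 : (0 : ℝ) < m := by exact_mod_cast hm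
  obtain ⟨a, ha⟩ : ∃ a : ι → E n, a = fun x => y - p x := ⟨_, rfl⟩
  have e1 : y - (1 / m : ℝ) • ∑ x ∈ X, p x = (1 / m : ℝ) • ∑ x ∈ X, a x := by
    rw [ha, Finset.sum_sub_distrib, Finset.sum_const, hX, smul_sub, ← Nat.cast_smul_eq_nsmul ℝ,
      smul_smul]
    have : (1 / (m : ℝ)) * m = 1 := by field_simp
    rw [this, one_smul]
  have e2 : dist y ((1 / m : ℝ) • ∑ x ∈ X, p x) ^ 2 = 1 / m ^ 2 * ‖∑ x ∈ X, a x‖ ^ 2 := by
    rw [dist_eq_norm, e1, norm_smul, Real.norm_of_nonneg (by positivity), mul_pow, div_pow, one_pow]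
  have e3 : ∑ x ∈ X, ∑ x' ∈ X, ‖a x - a x'‖ ^ 2 =
      2 * m * ∑ x ∈ X, ‖a x‖ ^ 2 - 2 * ‖∑ x ∈ X, a x‖ ^ 2 := by
    have f1 : ∀ x ∈ X, ∑ x' ∈ X, ‖a x - a x'‖ ^ 2 =
        m * ‖a x‖ ^ 2 - 2 * inner ℝ (a x) (∑ x' ∈ X, a x') + ∑ x' ∈ X, ‖a x'‖ ^ 2 := by
      intro x _
      rw [inner_sum, Finset.mul_sum]
      have f2 : ∀ x' ∈ X, ‖a x - a x'‖ ^ 2 = ‖a x‖ ^ 2 - 2 * inner ℝ (a x) (a x') + ‖a x'‖ ^ 2 :=
        fun x' _ => norm_sub_sq_real _ _
      rw [Finset.sum_congr rfl f2, Finset.sum_add_distrib, Finset.sum_sub_distrib, Finset.sum_const,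
        hX, nsmul_eq_mul]
    rw [Finset.sum_congr rfl f1, Finset.sum_add_distrib, Finset.sum_sub_distrib, ← Finset.mul_sum,
      ← Finset.mul_sum, ← sum_inner, real_inner_self_eq_norm_sq, Finset.sum_const, hX, nsmul_eq_mul]
    ring
  have e4 : (m : ℝ) * (m - 1) * D' ^ 2 ≤ ∑ x ∈ X, ∑ x' ∈ X, ‖a x - a x'‖ ^ 2 := by
    have f1 : ∀ x ∈ X, ((m : ℝ) - 1) * D' ^ 2 ≤ ∑ x' ∈ X, ‖a x - a x'‖ ^ 2 := by
      intro x hx
      rw [← Finset.sum_erase_add X _ hx, sub_self, norm_zero]
      have f2 : ∀ x' ∈ X.erase x, D' ^ 2 ≤ ‖a x - a x'‖ ^ 2 := by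
        intro x' hx'
        rw [Finset.mem_erase] at hx'
        have f3 := h2 x hx x' hx'.2 (Ne.symm hx'.1)
        have f4 : ‖a x - a x'‖ = dist (p x) (p x') := by
          have f5 : a x - a x' = p x' - p x := by
            rw [ha]
            simp only
            abel
          rw [f5, dist_comm, dist_eq_norm]
        rw [f4]
        exact pow_le_pow_left₀ hD' f3 2
      have f3 := Finset.sum_le_sum f2
      rw [Finset.sum_const, Finset.card_erase_of_mem hx, hX, nsmul_eq_mul, Nat.cast_sub hm,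
        Nat.cast_one] at f3
      linarith
    have f2 := Finset.sum_le_sum f1
    rw [Finset.sum_const, hX, nsmul_eq_mul] at f2
    linarith
  have e5 : ∑ x ∈ X, ‖a x‖ ^ 2 ≤ m * D ^ 2 := by
    have f1 : ∀ x ∈ X, ‖a x‖ ^ 2 ≤ D ^ 2 := by
      intro x hx
      have f2 := h1 x hx
      rw [dist_eq_norm] at f2
      rw [ha]
      exact pow_le_pow_left₀ (norm_nonneg _) f2 2
    have f2 := Finset.sum_le_sum f1
    rwa [Finset.sum_const, hX, nsmul_eq_mul] at f2
  rw [e2]
  have e6 : ‖∑ x ∈ X, a x‖ ^ 2 ≤ m ^ 2 * (D ^ 2 - (m - 1) / (2 * m) * D' ^ 2) := by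
    have f1 : (m : ℝ) ^ 2 * (D ^ 2 - (m - 1) / (2 * m) * D' ^ 2) =
        m * (m * D ^ 2) - 1 / 2 * (m * (m - 1) * D' ^ 2) := by
      field_simp
    have f2 := mul_le_mul_of_nonneg_left e5 hm0.le
    rw [f1]
    linarith
  calc 1 / (m : ℝ) ^ 2 * ‖∑ x ∈ X, a x‖ ^ 2 ≤
      1 / m ^ 2 * (m ^ 2 * (D ^ 2 - (m - 1) / (2 * m) * D' ^ 2)) := by gcongr
    _ = _ := by field_simp

/-- sets with many close pairs are small -/
theorem geo {ζ : ℝ} (hζ : 0 < ζ) (hζ1 : ζ ≤ 1) : ∃ γ : ℝ, 0 < γ ∧ ∀ᶠ n : ℕ in atTop, ∀ s : ℝ, 0 < s →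
    n * (s * √n) ≤ 1 → ∀ T : Finset (Fin n → ℤ), 0 < T.card →
      Real.exp (-(γ * n)) * (T.card : ℝ) ^ 2 ≤
        ∑ x ∈ T, ((T.filter fun y => dist (pt s x) (pt s y) ≤ 2 + 2 * (s * √n)).card : ℝ) →
      T.card * s ^ n ≤ (√2 * Real.exp ζ) ^ n * V1 n := by
  obtain ⟨η, hη⟩ : ∃ η : ℝ, η = ζ / 8 := ⟨_, rfl⟩
  have hη0 : 0 < η := by rw [hη]; positivity
  have hη1 : η ≤ 1 / 8 := by rw [hη]; linarith
  obtain ⟨m, hm⟩ : ∃ m : ℕ, m = ⌈1 / η⌉₊ := ⟨_, rfl⟩
  have hmη : 1 / η ≤ m := by rw [hm]; exact Nat.le_ceil _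
  have hm0 : (0 : ℝ) < m := lt_of_lt_of_le (by positivity) hmη
  have hmpos : 0 < m := by exact_mod_cast hm0
  have h1m : 1 / (m : ℝ) ≤ η := by
    rw [div_le_iff₀ hη0] at hmη
    rw [div_le_iff₀ hm0]
    linarith
  obtain ⟨J, hJ⟩ : ∃ J : ℕ, J = ⌊2 / η⌋₊ := ⟨_, rfl⟩
  have hJ1 : (J : ℝ) * η ≤ 2 := by
    have : (J : ℝ) ≤ 2 / η := by rw [hJ]; exact Nat.floor_le (by positivity)
    rwa [le_div_iff₀ hη0] at this
  have hJ2 : 2 < (J + 1 : ℝ) * η := by
    have : 2 / η < J + 1 := by rw [hJ]; exact Nat.lt_floor_add_one _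
    rwa [div_lt_iff₀ hη0] at this
  obtain ⟨γ, hγ⟩ : ∃ γ : ℝ, γ = η / ((m + 1) * 2 ^ (J + 1)) := ⟨_, rfl⟩
  have hγ0 : 0 < γ := by rw [hγ]; positivity
  have hγJ : ((m : ℝ) + 1) * (2 ^ (J + 1) * γ) = η := by
    rw [hγ]
    field_simp
  refine ⟨γ, hγ0, ?_⟩
  filter_upwards [eventually_gt_atTop 36, poly_ev (32 * m) 0 hγ0, poly_ev (2 * 8 ^ m) 0 hη0,
    ev_lin (1 / η)] with n hn36 hn1 hn2 hn3 s hs hsx T hT hpairs
  have hn : 0 < n := by omega
  have hn' : (36 : ℝ) < n := by exact_mod_cast hn36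
  have hn0 : (0 : ℝ) < n := by linarith
  rw [pow_zero, mul_one] at hn1 hn2
  have hV := V1_pos n
  have hsn : 0 < s ^ n := pow_pos hs n
  obtain ⟨x, hx⟩ : ∃ x : ℝ, x = s * √n := ⟨_, rfl⟩
  have hx0 : 0 < x := by rw [hx]; positivity
  rw [← hx] at hsx hpairs
  have hxη : x ≤ η := by
    rw [div_le_iff₀ hη0] at hn3
    have h1 : n * x ≤ n * η := by linarith
    exact le_of_mul_le_mul_left h1 hn0
  have hT0 : (0 : ℝ) < T.card := by exact_mod_cast hT
  obtain ⟨t, ht⟩ : ∃ t : ℝ, t = T.card := ⟨_, rfl⟩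
  rw [← ht] at hpairs hT0 ⊢
  obtain ⟨F, hF⟩ : ∃ F : ℝ → ℝ, F = fun D =>
    (∑ x ∈ T, ((T.filter fun y => dist (pt s x) (pt s y) ≤ D).card : ℝ)) / t ^ 2 := ⟨_, rfl⟩
  have hF1 : ∀ D, F D * t ^ 2 = ∑ x ∈ T, ((T.filter fun y => dist (pt s x) (pt s y) ≤ D).card : ℝ) := by
    intro D
    rw [hF]
    simp only
    rw [div_mul_cancel₀ _ (by positivity)]
  obtain ⟨D, hD⟩ : ∃ D : ℕ → ℝ, D = fun j : ℕ => 2 + 2 * x - (j : ℝ) * η := ⟨_, rfl⟩
  have hDs : ∀ j, D (j + 1) = D j - η := by
    intro j
    rw [hD]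
    simp only
    push_cast
    ring
  have hD2 : ∀ j, D j ≤ 2 + 2 * x := by
    intro j
    rw [hD]
    simp only
    have : 0 ≤ (j : ℝ) * η := by positivity
    linarith
  have hD0 : ∀ j ≤ J, 0 ≤ D j := by
    intro j hj
    rw [hD]
    simp only
    have : (j : ℝ) * η ≤ J * η := by
      refine mul_le_mul_of_nonneg_right ?_ hη0.le
      exact_mod_cast hj
    linarith
  obtain ⟨e₀, hE⟩ : ∃ e₀ : ℝ, e₀ = Real.exp (-(2 ^ (J + 1) * γ * n)) := ⟨_, rfl⟩
  have hE0 : 0 < e₀ := by rw [hE]; positivity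
  have hEj : ∀ j ≤ J, e₀ ≤ Real.exp (-((2 ^ (j + 1) - 1) * γ * n)) := by
    intro j hj
    rw [hE, Real.exp_le_exp]
    have h1 : (2 : ℝ) ^ (j + 1) ≤ 2 ^ (J + 1) := pow_le_pow_right₀ (by norm_num) (by omega)
    have h2 : ((2 : ℝ) ^ (j + 1) - 1) * γ * n ≤ 2 ^ (J + 1) * γ * n := by
      refine mul_le_mul_of_nonneg_right (mul_le_mul_of_nonneg_right ?_ hγ0.le) hn0.le
      linarith
    linarith
  -- the scales
  have hscale : (∃ j < J, F (D (j + 1)) ≤ F (D j) ^ 2 / (32 * m) ∧ e₀ ≤ F (D j)) ∨ e₀ ≤ F (D J) := by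
    have h1 : ∀ j ≤ J, (∃ i < j, F (D (i + 1)) ≤ F (D i) ^ 2 / (32 * m) ∧ e₀ ≤ F (D i)) ∨
        Real.exp (-((2 ^ (j + 1) - 1) * γ * n)) ≤ F (D j) := by
      intro j
      induction j with
      | zero =>
        intro _
        right
        have h2 : D 0 = 2 + 2 * x := by rw [hD]; simp
        have h3 : Real.exp (-(γ * n)) ≤ F (D 0) := by
          rw [h2]
          have h4 := hF1 (2 + 2 * x)
          rw [← h4] at hpairs
          exact le_of_mul_le_mul_right hpairs (by positivity)
        refine le_trans (le_of_eq ?_) h3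
        congr 1
        norm_num
      | succ j ih =>
        intro hj
        rcases ih (by omega) with ⟨i, hi, h2⟩ | h2
        · left
          exact ⟨i, by omega, h2⟩
        · rcases le_or_gt (F (D (j + 1))) (F (D j) ^ 2 / (32 * m)) with h3 | h3
          · left
            exact ⟨j, by omega, h3, (hEj j (by omega)).trans h2⟩
          · right
            refine le_trans ?_ h3.le
            rw [le_div_iff₀ (by positivity)]
            calc Real.exp (-((2 ^ (j + 1 + 1) - 1) * γ * n)) * (32 * m) ≤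
                Real.exp (-((2 ^ (j + 1 + 1) - 1) * γ * n)) * Real.exp (γ * n) :=
                  mul_le_mul_of_nonneg_left hn1 (Real.exp_pos _).le
              _ = Real.exp (-((2 ^ (j + 1) - 1) * γ * n)) ^ 2 := by
                  rw [← Real.exp_add, ← Real.exp_nat_mul]
                  congr 1
                  push_cast
                  ring
              _ ≤ F (D j) ^ 2 := pow_le_pow_left₀ (Real.exp_pos _).le h2 2
    rcases h1 J le_rfl with h2 | h2
    · exact Or.inl h2
    · exact Or.inr ((hEj J le_rfl).trans h2)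
  have hEexp : e₀ ^ (m + 1) = Real.exp (-(η * n)) := by
    rw [hE, ← Real.exp_nat_mul, ← hγJ]
    congr 1
    push_cast
    ring
  rcases hscale with ⟨j, hj, hgood, hEf⟩ | hlast
  · obtain ⟨f, hf⟩ : ∃ f : ℝ, f = F (D j) := ⟨_, rfl⟩
    rw [← hf] at hgood hEf
    have hf0 : 0 < f := lt_of_lt_of_le hE0 hEf
    have hDj1 : 0 ≤ D (j + 1) := hD0 (j + 1) (by omega)
    obtain ⟨X, hXc, hXf, S, hST, hSn, hSc⟩ := greedy (T := T)
      (near := fun a b => dist (pt s a) (pt s b) ≤ D j)
      (close := fun a b => dist (pt s a) (pt s b) ≤ D (j + 1))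
      (fun a b h => by rw [dist_comm]; exact h) (fun a b h => by rw [dist_comm]; exact h)
      (fun a => by rw [dist_self]; exact hDj1) hmpos hf0 hT
      (by rw [← ht, hf]; exact (hF1 (D j)).le)
      (by
        rw [← ht, ← hF1 (D (j + 1))]
        exact mul_le_mul_of_nonneg_right hgood (by positivity))
    rw [← ht] at hSc
    obtain ⟨w, hw⟩ : ∃ w : E n, w = (1 / m : ℝ) • ∑ a ∈ X, pt s a := ⟨_, rfl⟩
    have hball : ∀ c ∈ S, dist (pt s c) w ≤ √2 * Real.exp (3 * η) := by
      intro c hc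
      have h1 := centroid (n := n) hXc hmpos (p := fun a => pt s a) (y := pt s c) (D := D j)
        (D' := D (j + 1)) hDj1 (fun a ha => by rw [dist_comm]; exact hSn c hc a ha)
        (fun a ha b hb hab => (not_le.1 (hXf a ha b hb hab)).le)
      rw [← hw] at h1
      refine le_of_pow_le_pow_left₀ two_ne_zero (by positivity) (h1.trans ?_)
      rw [mul_pow, Real.sq_sqrt (by norm_num), ← Real.exp_nat_mul]
      have h2 : 1 + 6 * η ≤ Real.exp (((2 : ℕ) : ℝ) * (3 * η)) := by
        have := Real.add_one_le_exp (((2 : ℕ) : ℝ) * (3 * η))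
        push_cast at this ⊢
        linarith
      have h3 : D j ^ 2 - (m - 1) / (2 * m) * D (j + 1) ^ 2 ≤ 2 * (1 + 6 * η) := by
        rw [hDs]
        obtain ⟨d, hd⟩ : ∃ d : ℝ, d = D j := ⟨_, rfl⟩
        have hd1 : d ≤ 2 + 2 * x := by rw [hd]; exact hD2 j
        have hd0 : 0 ≤ d := by rw [hd]; exact hD0 j (by omega)
        rw [← hd]
        have h4 : ((m : ℝ) - 1) / (2 * m) = 1 / 2 - 1 / 2 * (1 / m) := by field_simp
        rw [h4]
        have h5 : d ≤ 2 + 2 * η := by linarith
        have h6 : (d - η) ^ 2 ≤ d ^ 2 + η ^ 2 := by nlinarith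
        have h7 : 1 / (m : ℝ) * (d - η) ^ 2 ≤ η * (d ^ 2 + η ^ 2) :=
          mul_le_mul h1m h6 (sq_nonneg _) hη0.le
        have h8 : d ^ 2 ≤ (2 + 2 * η) ^ 2 := pow_le_pow_left₀ hd0 h5 2
        have h9 : d * η ≤ (2 + 2 * η) * η := mul_le_mul_of_nonneg_right h5 hη0.le
        have h10 : η * d ^ 2 ≤ η * (2 + 2 * η) ^ 2 := mul_le_mul_of_nonneg_left h8 hη0.le
        have h11 : η ^ 2 ≤ 1 / 8 * η := by nlinarith
        have h12 : η * η ^ 2 ≤ 1 / 8 * η := by nlinarith
        nlinarith
      exact h3.trans (mul_le_mul_of_nonneg_left h2 (by norm_num))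
    have hcb := cells_ball hs S w (ρ := √2 * Real.exp (3 * η)) (by positivity) hball
    rw [← hx] at hcb
    have h1 : √2 * Real.exp (3 * η) + x ≤ √2 * Real.exp (4 * η) := by
      have h2 : 1 ≤ √(2 : ℝ) := by
        rw [Real.one_le_sqrt]
        norm_num
      have h3 : Real.exp (3 * η) + η ≤ Real.exp (4 * η) := by
        have h4 : Real.exp (4 * η) = Real.exp (3 * η) * Real.exp η := by
          rw [← Real.exp_add]
          congr 1
          ring
        have h5 := Real.add_one_le_exp η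
        have h6 : 1 ≤ Real.exp (3 * η) := Real.one_le_exp (by positivity)
        rw [h4]
        nlinarith
      have h4 : x ≤ √2 * η := by nlinarith
      have h5 := mul_le_mul_of_nonneg_left h3 (by linarith : 0 ≤ √(2 : ℝ))
      linarith
    have h2 : (S.card : ℝ) * s ^ n ≤ (√2 * Real.exp (4 * η)) ^ n * V1 n := by
      refine hcb.trans (mul_le_mul_of_nonneg_right ?_ hV.le)
      exact pow_le_pow_left₀ (by positivity) h1 n
    have h3 : t ≤ S.card * (2 * 8 ^ m * Real.exp (η * n)) := by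
      have h4 : (f / 8) ^ m * (f / 2) = f ^ (m + 1) / (2 * 8 ^ m) := by
        rw [div_pow, pow_succ]
        field_simp
      rw [h4, div_mul_eq_mul_div, div_le_iff₀ (by positivity)] at hSc
      have h5 : Real.exp (-(η * n)) ≤ f ^ (m + 1) := by
        rw [← hEexp]
        exact pow_le_pow_left₀ hE0.le hEf _
      have h6 : Real.exp (-(η * n)) * t ≤ S.card * (2 * 8 ^ m) :=
        (mul_le_mul_of_nonneg_right h5 hT0.le).trans hSc
      have h7 := mul_le_mul_of_nonneg_left h6 (Real.exp_pos (η * n)).le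
      rw [← mul_assoc, ← Real.exp_add, add_neg_cancel, Real.exp_zero, one_mul] at h7
      linarith
    calc t * s ^ n ≤ S.card * (2 * 8 ^ m * Real.exp (η * n)) * s ^ n :=
          mul_le_mul_of_nonneg_right h3 hsn.le
      _ = (2 * 8 ^ m * Real.exp (η * n)) * (S.card * s ^ n) := by ring
      _ ≤ (Real.exp (η * n) * Real.exp (η * n)) * ((√2 * Real.exp (4 * η)) ^ n * V1 n) := by
          refine mul_le_mul ?_ h2 (by positivity) (by positivity)
          exact mul_le_mul_of_nonneg_right hn2 (Real.exp_pos _).le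
      _ = (√2 * Real.exp (6 * η)) ^ n * V1 n := by
          rw [mul_pow, mul_pow, ← Real.exp_nat_mul, ← Real.exp_nat_mul, ← Real.exp_add]
          have : Real.exp (n * (6 * η)) = Real.exp (η * n + η * n) * Real.exp (n * (4 * η)) := by
            rw [← Real.exp_add]
            congr 1
            ring
          rw [this]
          ring
      _ ≤ (√2 * Real.exp ζ) ^ n * V1 n := by
          refine mul_le_mul_of_nonneg_right (pow_le_pow_left₀ (by positivity) ?_ n) hV.le
          refine mul_le_mul_of_nonneg_left (Real.exp_le_exp.2 ?_) (by positivity)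
          rw [hη]
          linarith
  · have hDJ : D J ≤ 2 * x + η := by
      rw [hD]
      simp only
      linarith
    have h1 : e₀ * t ^ 2 * s ^ n ≤ t * ((D J + x) ^ n * V1 n) := by
      have h2 : e₀ * t ^ 2 ≤ F (D J) * t ^ 2 := mul_le_mul_of_nonneg_right hlast (by positivity)
      rw [hF1] at h2
      refine (mul_le_mul_of_nonneg_right h2 hsn.le).trans ?_
      rw [Finset.sum_mul]
      have h3 : ∀ a ∈ T, ((T.filter fun y => dist (pt s a) (pt s y) ≤ D J).card : ℝ) * s ^ n ≤
          (D J + x) ^ n * V1 n := by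
        intro a _
        rw [hx]
        refine cells_ball hs _ (pt s a) (hD0 J le_rfl) fun c hc => ?_
        rw [dist_comm]
        exact (Finset.mem_filter.1 hc).2
      refine (Finset.sum_le_sum h3).trans (le_of_eq ?_)
      rw [Finset.sum_const, nsmul_eq_mul, ht]
    have h2 : e₀ * (t * s ^ n) ≤ (D J + x) ^ n * V1 n := by
      have h3 : t * (e₀ * (t * s ^ n)) ≤ t * ((D J + x) ^ n * V1 n) := by
        refine le_trans (le_of_eq ?_) h1
        ring
      exact le_of_mul_le_mul_left h3 hT0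
    have h3 : (D J + x) ^ n ≤ 1 := by
      refine pow_le_one₀ (by have := hD0 J le_rfl; linarith) ?_
      linarith
    have h4 : Real.exp (-(η * n)) ≤ e₀ := by
      rw [hE, Real.exp_le_exp]
      have h5 : 2 ^ (J + 1) * γ ≤ η := by
        rw [← hγJ]
        have : 0 ≤ (m : ℝ) * (2 ^ (J + 1) * γ) := by positivity
        linarith
      have h6 := mul_le_mul_of_nonneg_right h5 hn0.le
      linarith
    have h5 : Real.exp (-(η * n)) * (t * s ^ n) ≤ 1 * V1 n :=
      (mul_le_mul_of_nonneg_right h4 (by positivity)).trans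
        (h2.trans (mul_le_mul_of_nonneg_right h3 hV.le))
    have h6 := mul_le_mul_of_nonneg_left h5 (Real.exp_pos (η * n)).le
    rw [← mul_assoc, ← Real.exp_add, add_neg_cancel, Real.exp_zero, one_mul, one_mul] at h6
    refine h6.trans (mul_le_mul_of_nonneg_right ?_ hV.le)
    have h7 : Real.exp (η * n) = Real.exp η ^ n := by
      rw [← Real.exp_nat_mul]
      congr 1
      ring
    rw [h7]
    refine pow_le_pow_left₀ (Real.exp_pos _).le ?_ n
    have h8 : 1 ≤ √(2 : ℝ) := by
      rw [Real.one_le_sqrt]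
      norm_num
    have h9 : Real.exp η ≤ Real.exp ζ := Real.exp_le_exp.2 (by rw [hη]; linarith)
    have h10 : 0 < Real.exp ζ := Real.exp_pos _
    nlinarith

end

end Pool.Agent.N628.EP
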