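import Pool.Agent.N628.EP.J7
import Pool.Agent.N628.EP.J5

/-!
N628/EP: the lower bound for the pressure of the hard sphere model, full range.
-/

set_option autoImplicit false

open MeasureTheory Set Real Metric Filter Topology

namespace Pool.Agent.N628.EP

open Pool.Agent.Y509.LS

/-- **lower bound for the pressure** -/
theorem press_lower2 {ε : ℝ} (hε : 0 < ε) : ∀ᶠ n : ℕ in atTop, ∀ L : ℝ, (n : ℝ) ^ 2 ≤ L →
    ∀ u : ℝ, 0 ≤ u → u ≤ Real.log 2 / 2 - ε →
      1 / 2 * (u ^ 2 - ε) * n ^ 2 * TT n L ≤ Real.log (hsZ n L (lm n u)) := by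
  classical
  have hl2 := Real.log_two_lt_d9
  rcases lt_or_ge (Real.log 2 / 2) ε with hεbig | hεsmall
  · refine Filter.Eventually.of_forall fun n L _ u hu0 hu => ?_
    exact absurd hu (by linarith)
  obtain ⟨η, hη⟩ : ∃ η : ℝ, η = ε / 10 := ⟨_, rfl⟩
  have hεη : ε = 10 * η := by rw [hη]; ring
  have hη0 : 0 < η := by rw [hη]; positivity
  have hη1 : η < 1 / 20 := by linarith
  obtain ⟨ζ, hζ⟩ : ∃ ζ : ℝ, ζ = ε / 2 := ⟨_, rfl⟩
  have hζ0 : 0 < ζ := by rw [hζ]; positivity
  have hζ1 : ζ ≤ 1 := by linarith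
  obtain ⟨γ, hγ0, hgeo⟩ := geo hζ0 hζ1
  obtain ⟨q, hq⟩ : ∃ q : ℝ, q = Real.exp (-η) := ⟨_, rfl⟩
  have hq0 : 0 < q := by rw [hq]; positivity
  have hq1 : q < 1 := by rw [hq, Real.exp_lt_one_iff]; linarith
  have hq1' : 0 < 1 - q := by linarith
  have he1 : 0 < Real.exp (-1) := Real.exp_pos _
  filter_upwards [hgeo, eventually_gt_atTop 36, poly_ev 1 1 hη0, poly_ev (2 / η) 0 hζ0,
    poly_ev (2 / (η * Real.exp (-1) * (1 - q))) 1 hγ0]
    with n hgeo hn36 hn1 hn2 hn4 L hL u hu0 hu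
  have hn : 0 < n := by omega
  have hn' : (36 : ℝ) < n := by exact_mod_cast hn36
  have hn0 : (0 : ℝ) < n := by linarith
  have hL0 : 0 < L := lt_of_lt_of_le (by positivity) hL
  have hLn : 0 < L ^ n := by positivity
  have hV := V1_pos n
  obtain ⟨T, hT⟩ : ∃ T : ℝ, T = TT n L := ⟨_, rfl⟩
  have hTn : (n : ℝ) ≤ T := by rw [hT]; exact TT_large hn36 hL
  have hT0 : 0 < T := by linarith
  have hTL : T * (2 ^ n * V1 n) = L ^ n := by
    rw [hT]
    unfold TT
    field_simp
  rw [← hT]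
  have hlm := lm_pos n u
  have hZ1 := one_le_hsZ (n := n) hL0 hlm.le
  have hlogZ : 0 ≤ Real.log (hsZ n L (lm n u)) := Real.log_nonneg hZ1
  rcases le_or_gt (u ^ 2) ε with hu2 | hu2
  · refine le_trans ?_ hlogZ
    have h1 : 0 ≤ (ε - u ^ 2) * n ^ 2 * T := by
      have : 0 ≤ ε - u ^ 2 := by linarith
      positivity
    linarith
  have hu3 : ε < u := by
    by_contra h
    rw [not_lt] at h
    nlinarith
  -- the mesh
  obtain ⟨N, hN⟩ : ∃ N : ℕ, N = ⌈L * (n * √n) / η⌉₊ := ⟨_, rfl⟩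
  have hsq : 0 < √(n : ℝ) := Real.sqrt_pos.2 hn0
  have hN1 : L * (n * √n) / η ≤ N := by rw [hN]; exact Nat.le_ceil _
  have hN0 : (0 : ℝ) < N := lt_of_lt_of_le (by positivity) hN1
  obtain ⟨s, hs⟩ : ∃ s : ℝ, s = L / N := ⟨_, rfl⟩
  have hs0 : 0 < s := by rw [hs]; positivity
  have hsN : s * N = L := by rw [hs]; field_simp
  obtain ⟨x, hx⟩ : ∃ x : ℝ, x = s * √n := ⟨_, rfl⟩
  have hx0 : 0 < x := by rw [hx]; positivity
  have hnx : n * x ≤ η := by
    rw [hx, hs]
    rw [div_le_iff₀ hη0] at hN1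
    rw [div_mul_eq_mul_div, ← mul_div_assoc, div_le_iff₀ hN0]
    calc (n : ℝ) * (L * √n) = L * (n * √n) := by ring
      _ ≤ N * η := hN1
      _ = η * N := by ring
  have hsn : 0 < s ^ n := pow_pos hs0 n
  -- the graph
  obtain ⟨Δ, hΔ⟩ : ∃ Δ : ℝ, Δ = (2 + 3 * x) ^ n * V1 n / s ^ n := ⟨_, rfl⟩
  have hΔ0 : 0 < Δ := by rw [hΔ]; positivity
  have hBc : (BB n N).card = N ^ n := BB_card n N
  have hBpos : 0 < (BB n N).card := by
    rw [hBc]
    have : 0 < N := by exact_mod_cast hN0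
    positivity
  obtain ⟨t₁, ht₁⟩ : ∃ t₁ : ℝ, t₁ = Real.log (lm n u * s ^ n) := ⟨_, rfl⟩
  have hexp1 : Real.exp t₁ = lm n u * s ^ n := by rw [ht₁, Real.exp_log (by positivity)]
  obtain ⟨t₀, ht₀⟩ : ∃ t₀ : ℝ, t₀ = Real.log (n / Δ) := ⟨_, rfl⟩
  have h32 : (1 + 3 / 2 * x) ^ n ≤ Real.exp (3 / 2 * η) := by
    calc (1 + 3 / 2 * x) ^ n ≤ Real.exp (3 / 2 * x) ^ n := by
          refine pow_le_pow_left₀ (by positivity) ?_ n
          have := Real.add_one_le_exp (3 / 2 * x)
          linarith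
      _ = Real.exp (n * (3 / 2 * x)) := by rw [← Real.exp_nat_mul]
      _ ≤ Real.exp (3 / 2 * η) := by
          rw [Real.exp_le_exp]
          linarith
  have h32' : (1 : ℝ) ≤ (1 + 3 / 2 * x) ^ n := one_le_pow₀ (by linarith)
  have hdiff : t₁ - t₀ = u * n + Real.log ((1 + 3 / 2 * x) ^ n) - Real.log n := by
    have e1 : lm n u * s ^ n / (n / Δ) = Real.exp (u * n) * (1 + 3 / 2 * x) ^ n / n := by
      have e2 : (2 + 3 * x) ^ n = 2 ^ n * (1 + 3 / 2 * x) ^ n := by
        rw [← mul_pow]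
        congr 1
        ring
      rw [hΔ, e2]
      unfold lm
      field_simp
    rw [ht₁, ht₀, ← Real.log_div (by positivity) (by positivity), e1,
      Real.log_div (by positivity) (by positivity), Real.log_mul (by positivity) (by positivity),
      Real.log_exp]
  have hlogx0 : 0 ≤ Real.log ((1 + 3 / 2 * x) ^ n) := Real.log_nonneg h32'
  have hlogx1 : Real.log ((1 + 3 / 2 * x) ^ n) ≤ 3 / 2 * η := by
    rw [Real.log_le_iff_le_exp (by positivity)]
    exact h32
  have hlogn : Real.log n ≤ η * n := by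
    rw [Real.log_le_iff_le_exp hn0]
    rw [one_mul, pow_one] at hn1
    exact hn1
  have hlogn0 : 0 ≤ Real.log n := Real.log_nonneg (by linarith)
  have hd1 : (u - η) * n ≤ t₁ - t₀ := by rw [hdiff]; linarith
  have huη : 0 < u - η := by linarith
  have hd0 : 0 < (u - η) * n := by positivity
  have hd2 : t₁ - t₀ ≤ n := by
    rw [hdiff]
    have : u * n ≤ 1 / 2 * n := by
      gcongr
      linarith
    linarith
  have hdeg : ∀ x ∈ BB n N, (((BB n N).filter fun y => adj2 n s x y).card : ℝ) ≤ Δ := by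
    intro y _
    have h1 := deg_le hs0 N y
    rw [hΔ, le_div_iff₀ hsn, hx]
    exact h1
  -- the local alternative
  have hloc : ∀ t ≤ t₁, ∀ v ∈ BB n N, ∀ T' ⊆ (BB n N).filter fun x => adj2 n s v x,
      Real.exp (-η) * (ZZ (adj2 n s) T' (Real.exp t) * Real.log (ZZ (adj2 n s) T' (Real.exp t))) ≤
        MM (adj2 n s) T' (Real.exp t) ∨ (η * Real.exp (-1) * Real.exp (γ * n)) *
          ZZ (adj2 n s) T' (Real.exp t) ≤ MM (adj2 n s) T' (Real.exp t) := by
    intro t ht v _ T' hT'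
    refine sparse_or_big (fun x => adj2_refl hs0 x) (fun x y h => adj2_symm h) (Real.exp_pos t) hη0
      (by linarith) (Real.exp_pos _).le fun hc d hd hbig => ?_
    by_contra hcon
    rw [not_le] at hcon
    have hc0 : (0 : ℝ) < T'.card := by exact_mod_cast hc
    have h1 : Real.exp (-(γ * n)) * (T'.card : ℝ) ^ 2 ≤
        ∑ x ∈ T', ((T'.filter fun y => dist (pt s x) (pt s y) ≤ 2 + 2 * (s * √n)).card : ℝ) := by
      have h2 : d * T'.card ≤
          ∑ x ∈ T', ((T'.filter fun y => dist (pt s x) (pt s y) ≤ 2 + 2 * (s * √n)).card : ℝ) := by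
        rw [hd]
        refine Finset.sum_le_sum fun y _ => ?_
        have : (T'.filter fun z => adj2 n s y z).card ≤
            (T'.filter fun z => dist (pt s y) (pt s z) ≤ 2 + 2 * (s * √n)).card := by
          refine Finset.card_le_card fun z hz => ?_
          rw [Finset.mem_filter] at hz ⊢
          exact ⟨hz.1, adj2_dist hs0 hz.2 (cl_pt hs0 y) (cl_pt hs0 z)⟩
        exact_mod_cast this
      refine le_trans ?_ h2
      rw [pow_two, ← mul_assoc]
      refine mul_le_mul_of_nonneg_right ?_ hc0.le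
      have h3 := mul_le_mul_of_nonneg_left hcon.le (Real.exp_pos (-(γ * n))).le
      have h4 : Real.exp (-(γ * n)) * (d * Real.exp (γ * n)) = d := by
        calc Real.exp (-(γ * n)) * (d * Real.exp (γ * n)) =
            d * (Real.exp (-(γ * n)) * Real.exp (γ * n)) := by ring
          _ = d := by rw [← Real.exp_add, neg_add_cancel, Real.exp_zero, mul_one]
      rwa [h4] at h3
    have h2 := hgeo s hs0 (by rw [← hx]; linarith) T' hc h1
    have hdT : d ≤ T'.card := by
      have h3 : d * T'.card ≤ T'.card * T'.card := by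
        rw [hd]
        have h4 : ∀ x ∈ T', ((T'.filter fun y => adj2 n s x y).card : ℝ) ≤ T'.card := by
          intro x _
          exact_mod_cast Finset.card_filter_le _ _
        refine (Finset.sum_le_sum h4).trans (le_of_eq ?_)
        rw [Finset.sum_const, nsmul_eq_mul]
      exact le_of_mul_le_mul_right h3 hc0
    have h3 : η < lm n u * s ^ n * T'.card := by
      refine lt_of_lt_of_le hbig ?_
      rw [← hexp1]
      refine mul_le_mul (Real.exp_le_exp.2 ht) hdT ?_ (Real.exp_pos _).le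
      by_contra h4
      rw [not_le] at h4
      have h5 := mul_neg_of_pos_of_neg (Real.exp_pos t) h4
      linarith
    have h4 : lm n u * s ^ n * T'.card ≤ Real.exp (-(ζ * n)) := by
      calc lm n u * s ^ n * T'.card = lm n u * (T'.card * s ^ n) := by ring
        _ ≤ lm n u * ((√2 * Real.exp ζ) ^ n * V1 n) := mul_le_mul_of_nonneg_left h2 hlm.le
        _ = Real.exp (u * n) * (√2 * Real.exp ζ / 2) ^ n := by
            rw [div_pow]
            unfold lm
            field_simp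
        _ = Real.exp ((u + ζ - Real.log 2 / 2) * n) := by
            have e1 : √(2 : ℝ) * Real.exp ζ / 2 = Real.exp (ζ - Real.log 2 / 2) := by
              rw [Real.exp_sub]
              have e2 : Real.exp (Real.log 2 / 2) = √2 := by
                rw [Real.sqrt_eq_rpow, Real.rpow_def_of_pos (by norm_num)]
                congr 1
                ring
              rw [e2]
              have e3 : √(2 : ℝ) * √2 = 2 := Real.mul_self_sqrt (by norm_num)
              have e4 : √(2 : ℝ) ≠ 0 := by positivity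
              field_simp
              rw [pow_two, e3]
            rw [e1, ← Real.exp_nat_mul, ← Real.exp_add]
            congr 1
            ring
        _ ≤ Real.exp (-(ζ * n)) := by
            rw [Real.exp_le_exp]
            have e1 : u + ζ - Real.log 2 / 2 ≤ -ζ := by linarith
            have := mul_le_mul_of_nonneg_right e1 hn0.le
            linarith
    rw [pow_zero, mul_one, div_le_iff₀ hη0] at hn2
    have h5 : Real.exp (-(ζ * n)) * (Real.exp (ζ * n) * η) = η := by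
      rw [← mul_assoc, ← Real.exp_add, neg_add_cancel, Real.exp_zero, one_mul]
    have h6 : Real.exp (-(ζ * n)) * 2 ≤ η := by
      have := mul_le_mul_of_nonneg_left hn2 (Real.exp_pos (-(ζ * n))).le
      linarith
    have h7 := Real.exp_pos (-(ζ * n))
    linarith
  obtain ⟨K, hK⟩ : ∃ K : ℝ, K = η * Real.exp (-1) * Real.exp (γ * n) := ⟨_, rfl⟩
  have hK0 : 0 < K := by rw [hK]; positivity
  rw [← hK] at hloc
  have hqN : q ≤ 1 - (1 + n : ℝ) / K := by
    have h1 : (1 + n : ℝ) / K ≤ 1 - q := by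
      rw [div_le_iff₀ hK0, hK]
      rw [pow_one, div_mul_eq_mul_div, div_le_iff₀ (by positivity)] at hn4
      have h2 : (1 - q) * (η * Real.exp (-1) * Real.exp (γ * n)) =
        Real.exp (γ * n) * (η * Real.exp (-1) * (1 - q)) := by ring
      rw [h2]
      linarith
    linarith
  obtain ⟨C, hC⟩ : ∃ C : ℝ, C = Real.exp η / q := ⟨_, rfl⟩
  have hC2 : C = Real.exp (2 * η) := by
    rw [hC, hq, ← Real.exp_sub]
    congr 1
    ring
  have hC1 : 1 ≤ C := by
    rw [hC2]
    exact Real.one_le_exp (by positivity)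
  have hmain := log_lower2 (adj := adj2 n s) (A := BB n N) (fun x => adj2_refl hs0 x)
    (fun x y h => adj2_symm h) hη0.le hK0 hΔ0 hBpos hn0 hloc hdeg hq0 hqN hC
    (by
      have : 1 * (1 + n : ℝ) ≤ C * (1 + n) := mul_le_mul_of_nonneg_right hC1 (by positivity)
      linarith) ht₀ (by linarith) hd2
  rw [hexp1] at hmain
  have hZle := ZZ_le_hsZ (n := n) hs0 hsN hL0 hlm.le
  have hZpos : 0 < ZZ (adj2 n s) (BB n N) (lm n u * s ^ n) :=
    lt_of_lt_of_le one_pos (one_le_ZZ (by positivity))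
  refine le_trans ?_ (hmain.trans (Real.log_le_log hZpos hZle))
  -- the constant
  have hAΔ : T * Real.exp (-(3 / 2 * η)) ≤ (BB n N).card / Δ := by
    have e1 : ((BB n N).card : ℝ) / Δ = T / (1 + 3 / 2 * x) ^ n := by
      have e2 : (2 + 3 * x) ^ n = 2 ^ n * (1 + 3 / 2 * x) ^ n := by
        rw [← mul_pow]
        congr 1
        ring
      have e3 : ((BB n N).card : ℝ) * s ^ n = L ^ n := by
        rw [hBc]
        push_cast
        rw [← mul_pow, mul_comm, hsN]
      rw [hΔ, e2, div_div_eq_mul_div, e3, ← hTL]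
      field_simp
    rw [e1, Real.exp_neg, ← div_eq_mul_inv]
    exact div_le_div_of_nonneg_left hT0.le (by positivity) h32
  have hfin : 1 / 2 * (T * Real.exp (-(3 / 2 * η))) * Real.exp (-(2 * η)) * ((u - η) * n) ^ 2 ≤
      (BB n N).card / (2 * C * Δ) * (t₁ - t₀) ^ 2 := by
    have e1 : ((BB n N).card : ℝ) / (2 * C * Δ) =
        1 / 2 * ((BB n N).card / Δ) * Real.exp (-(2 * η)) := by
      rw [Real.exp_neg, hC2]
      ring
    rw [e1]
    obtain ⟨B, hB⟩ : ∃ B : ℝ, B = ((BB n N).card : ℝ) / Δ := ⟨_, rfl⟩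
    rw [← hB] at hAΔ ⊢
    have f1 : 0 ≤ T * Real.exp (-(3 / 2 * η)) := by positivity
    have f2 : 0 ≤ B := f1.trans hAΔ
    refine mul_le_mul (mul_le_mul (mul_le_mul_of_nonneg_left hAΔ (by norm_num)) le_rfl
      (Real.exp_pos _).le (by positivity)) (pow_le_pow_left₀ hd0.le hd1 2) (by positivity)
      (mul_nonneg (by positivity) (Real.exp_pos _).le)
  refine le_trans ?_ hfin
  have e1 : 1 - 7 / 2 * η ≤ Real.exp (-(3 / 2 * η)) * Real.exp (-(2 * η)) := by
    rw [← Real.exp_add]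
    have := Real.add_one_le_exp (-(3 / 2 * η) + -(2 * η))
    linarith
  have e2 : u ^ 2 - ε ≤ (1 - 7 / 2 * η) * (u - η) ^ 2 := by
    have g1 : u ≤ 1 / 2 := by linarith
    have g2 : u * η ≤ 1 / 2 * η := by gcongr
    have g3 : u ^ 2 ≤ (1 / 2) ^ 2 := by gcongr
    have g4 : η * u ^ 2 ≤ η * (1 / 2) ^ 2 := by gcongr
    have g5 : (1 - 7 / 2 * η) * (u - η) ^ 2 = u ^ 2 - 2 * (u * η) + η ^ 2 - 7 / 2 * (η * u ^ 2) +
      7 * η * (u * η) - 7 / 2 * (η * η ^ 2) := by ring
    have g6 : η * η ^ 2 ≤ 1 / 20 * η ^ 2 := by gcongr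
    have g7 : 0 ≤ 7 * η * (u * η) := by positivity
    rw [g5, hεη]
    nlinarith [sq_nonneg η]
  have e3 : (1 - 7 / 2 * η) * (u - η) ^ 2 ≤
      Real.exp (-(3 / 2 * η)) * Real.exp (-(2 * η)) * (u - η) ^ 2 := by
    gcongr
  have e4 : 1 / 2 * (T * Real.exp (-(3 / 2 * η))) * Real.exp (-(2 * η)) * ((u - η) * n) ^ 2 =
      1 / 2 * (Real.exp (-(3 / 2 * η)) * Real.exp (-(2 * η)) * (u - η) ^ 2) * n ^ 2 * T := by ring
  rw [e4]
  gcongr
  exact e2.trans e3

end Pool.Agent.N628.EP
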