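import Pool.Agent.N628.EP.G2
import Pool.Agent.N628.EP.F5
import Pool.Agent.N628.EP.M1

/-!
N628/EP: supersaturation with a kernel with several scales.
-/

set_option autoImplicit false

open MeasureTheory Set Real Metric Filter Topology FourierTransform

namespace Pool.Agent.N628.EP

open Pool.Agent.Y509.LS

lemma exp_neg_le {y : ℝ} (hy : 0 ≤ y) : Real.exp (-y) ≤ 1 - y + y ^ 2 := by
  have h1 : Real.exp (-y) ≤ 1 / (1 + y) := by
    rw [Real.exp_neg, one_div]
    apply inv_anti₀ (by positivity)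
    linarith [Real.add_one_le_exp y]
  refine h1.trans ?_
  rw [div_le_iff₀ (by positivity)]
  have : 0 ≤ y ^ 3 := by positivity
  nlinarith

/-- the choice of the parameters -/
lemma params {η δ θ h : ℝ} {l : ℕ} (hη : 0 < η) (hη8 : η ≤ 1 / 8) (hθ : θ = η / 2)
    (hδ : δ = η ^ 2 / 36) (hl : 4 / η ≤ l) (hh : h = δ / (l + 1)) :
    η * δ / 2 ≤ (1 - θ) * (1 - Real.exp (-(l * h))) / 2 - (1 / 2 - η) * δ := by
  have hl0 : (0 : ℝ) ≤ l := Nat.cast_nonneg l
  have hδ0 : 0 < δ := by rw [hδ]; positivity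
  have hδη : δ ≤ η / 36 := by rw [hδ]; nlinarith
  have hh0 : 0 < h := by rw [hh]; positivity
  have h1 : (l : ℝ) * h = δ - h := by
    rw [hh]
    field_simp
    ring
  have h2 : h ≤ δ * (η / 4) := by
    rw [hh, div_le_iff₀ (by positivity)]
    rw [div_le_iff₀ hη] at hl
    nlinarith
  have h3 := exp_neg_le (y := δ - h) (by nlinarith)
  rw [h1]
  have h4 : δ * (1 - η / 4) * (1 - δ) ≤ 1 - Real.exp (-(δ - h)) := by
    have h5 : δ * (1 - η / 4) ≤ δ - h := by linarith
    have h6 : (δ - h) * (1 - δ) ≤ (δ - h) * (1 - (δ - h)) := by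
      apply mul_le_mul_of_nonneg_left _ (by nlinarith)
      linarith
    have h7 : δ * (1 - η / 4) * (1 - δ) ≤ (δ - h) * (1 - δ) :=
      mul_le_mul_of_nonneg_right h5 (by linarith)
    nlinarith
  have h5 : (1 - η / 2) * (δ * (1 - η / 4) * (1 - δ)) ≤ (1 - θ) * (1 - Real.exp (-(δ - h))) := by
    rw [hθ]
    apply mul_le_mul_of_nonneg_left h4
    linarith
  have h6 : 1 - η ≤ (1 - η / 2) * (1 - η / 4) * (1 - δ) := by
    have h7 : 1 - 3 * η / 4 ≤ (1 - η / 2) * (1 - η / 4) := by nlinarith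
    have h8 : (1 - 3 * η / 4) * (1 - δ) ≤ (1 - η / 2) * (1 - η / 4) * (1 - δ) :=
      mul_le_mul_of_nonneg_right h7 (by linarith)
    nlinarith
  have h7 : δ * (1 - η) ≤ (1 - η / 2) * (δ * (1 - η / 4) * (1 - δ)) := by
    have := mul_le_mul_of_nonneg_left h6 hδ0.le
    linarith
  nlinarith

/-- **supersaturation with several scales** -/
theorem sup_multi {η : ℝ} (hη : 0 < η) (hη8 : η ≤ 1 / 8) : ∀ᶠ n : ℕ in atTop, ∀ M : ℝ, 1 ≤ M →
    M ≤ 2 ^ n → ∀ R : ℝ, 0 < R →
    Sup n R (R ^ n * √(4 * π / n) ^ n * M⁻¹ * Real.exp (4 * η * n)) (M * Real.exp (η * n)) := by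
  obtain ⟨θ, hθ⟩ : ∃ θ : ℝ, θ = η / 2 := ⟨_, rfl⟩
  obtain ⟨δ, hδ⟩ : ∃ δ : ℝ, δ = η ^ 2 / 36 := ⟨_, rfl⟩
  obtain ⟨l, hl⟩ : ∃ l : ℕ, l = ⌈4 / η⌉₊ := ⟨_, rfl⟩
  have hl4 : 4 / η ≤ l := by rw [hl]; exact Nat.le_ceil _
  obtain ⟨h, hh⟩ : ∃ h : ℝ, h = δ / (l + 1) := ⟨_, rfl⟩
  have hpar := params hη hη8 hθ hδ hl4 hh
  have hl0 : (0 : ℝ) ≤ l := Nat.cast_nonneg l
  have hδ0 : 0 < δ := by rw [hδ]; positivity
  have hδη : δ ≤ η / 36 := by rw [hδ]; nlinarith
  have hh0 : 0 < h := by rw [hh]; positivity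
  have hlh : ((l : ℝ) + 1) * h = δ := by
    rw [hh]
    field_simp
  obtain ⟨c, hc⟩ : ∃ c : ℝ, c = 2 / h + 1 := ⟨_, rfl⟩
  have hc0 : 0 < c := by rw [hc]; positivity
  filter_upwards [eventually_gt_atTop 0, ev_lin (4 / δ ^ 2),
    poly_ev (c * 120) 1 (b := η * δ / 2) (by positivity), poly_ev c 0 hη,
    poly_ev (c * 120) 1 hη] with n hn0 hn4 hp1 hp2 hp3 M hM1 hM2 R hR
  have hn' : (0 : ℝ) < n := by exact_mod_cast hn0
  have hn1 : (1 : ℝ) ≤ n := by exact_mod_cast hn0
  rw [pow_one] at hp1 hp3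
  rw [pow_zero, mul_one] at hp2
  have hM0 : 0 < M := by linarith
  have hlogM : 0 ≤ Real.log M := Real.log_nonneg hM1
  have hlogM2 : Real.log M ≤ n * Real.log 2 := by
    rw [← Real.log_pow]
    exact Real.log_le_log hM0 hM2
  have hl2 := Real.log_two_lt_d9
  have hl2' := Real.log_two_gt_d9
  obtain ⟨ρ, hρ⟩ : ∃ ρ : ℝ, ρ = Real.exp (-h) := ⟨_, rfl⟩
  obtain ⟨a, ha⟩ : ∃ a : ℝ, a = Real.exp (-((1 / 2 - η) * n * h)) := ⟨_, rfl⟩
  obtain ⟨w, hw⟩ : ∃ w : ℝ, w = Real.exp ((1 / 2 + η) * n * h) := ⟨_, rfl⟩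
  obtain ⟨J, hJ⟩ : ∃ J : ℕ, J = ⌊Real.log M / ((1 / 2 + η) * n * h)⌋₊ := ⟨_, rfl⟩
  obtain ⟨E', hE'⟩ : ∃ E' : ℝ, E' = Real.exp ((1 - θ) * ((1 - ρ ^ l) * n / 2)) := ⟨_, rfl⟩
  have hρ0 : 0 < ρ := by rw [hρ]; positivity
  have hρ1 : ρ < 1 := by
    rw [hρ, Real.exp_lt_one_iff]
    linarith
  have ha0 : 0 < a := by rw [ha]; positivity
  have hη2 : 0 < 1 / 2 - η := by linarith
  have ha1 : a ≤ 1 := by
    rw [ha, Real.exp_le_one_iff]
    have : 0 ≤ (1 / 2 - η) * n * h := by positivity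
    linarith
  have hw1 : 1 ≤ w := by
    rw [hw]
    apply Real.one_le_exp
    positivity
  have hρpow : ∀ j : ℕ, ρ ^ j = Real.exp (-(j * h)) := by
    intro j
    rw [hρ, ← Real.exp_nat_mul]
    congr 1
    ring
  have hwa : a = w * ρ ^ n := by
    rw [ha, hw, hρpow, ← Real.exp_add]
    congr 1
    ring
  have hra : ρ ^ n ≤ a ^ 2 := by
    rw [hρpow, ha, ← Real.exp_nat_mul, Real.exp_le_exp]
    push_cast
    have : 0 ≤ η * n * h := by positivity
    nlinarith
  have hJc : (J : ℝ) + 1 ≤ c := by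
    have h1 : (J : ℝ) ≤ Real.log M / ((1 / 2 + η) * n * h) := by
      rw [hJ]
      exact Nat.floor_le (by positivity)
    have h2 : Real.log M / ((1 / 2 + η) * n * h) ≤ 2 / h := by
      rw [div_le_div_iff₀ (by positivity) hh0]
      have h3 : Real.log M ≤ n := by nlinarith
      have h4 : (n : ℝ) * h ≤ 2 * ((1 / 2 + η) * n * h) := by
        have : 0 ≤ η * n * h := by positivity
        nlinarith
      nlinarith
    rw [hc]
    linarith
  have hgain : ∀ x : ℝ, ρ ^ (l + 1) * (n / 2) ≤ x → x ≤ ρ ^ l * (n / 2) →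
      FF n (n / 2) * E' ≤ FF n x := by
    intro x hx1 hx2
    have h1 : (1 - δ) * ((n : ℝ) / 2) ≤ x := by
      refine le_trans ?_ hx1
      apply mul_le_mul_of_nonneg_right _ (by positivity)
      rw [hρpow]
      push_cast
      rw [hlh]
      linarith [Real.add_one_le_exp (-δ)]
    have h2 : x ≤ (n : ℝ) / 2 := by
      refine hx2.trans ?_
      have : ρ ^ l ≤ 1 := pow_le_one₀ hρ0.le hρ1.le
      have h3 : (0 : ℝ) < n / 2 := by positivity
      nlinarith
    refine le_trans ?_ (FF_gain (δ := δ) (θ := θ) hδ0 (by linarith)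
      (by rw [hθ, hδ]; apply le_of_eq; ring) (by rw [hθ]; positivity) (by rw [hθ]; linarith) hn4 h1 h2)
    apply mul_le_mul_of_nonneg_left _ (FF_pos hn0 (by positivity) le_rfl).le
    rw [hE', Real.exp_le_exp]
    apply mul_le_mul_of_nonneg_left _ (by rw [hθ]; linarith)
    linarith
  have hEa : ((J : ℝ) + 1) * √(120 * n) ≤ E' * a ^ (l + 1) := by
    have h1 : Real.exp (η * δ / 2 * n) ≤ E' * a ^ (l + 1) := by
      rw [hE', ha, ← Real.exp_nat_mul, ← Real.exp_add, Real.exp_le_exp, hρpow]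
      push_cast
      have h2 := mul_le_mul_of_nonneg_right hpar hn'.le
      have h3 : ((l : ℝ) + 1) * -((1 / 2 - η) * n * h) = -((1 / 2 - η) * δ * n) := by
        rw [← hlh]
        ring
      rw [h3]
      linarith
    have h2 : √(120 * n) ≤ 120 * n := by
      apply Real.sqrt_le_iff.2
      constructor
      · positivity
      · nlinarith
    calc ((J : ℝ) + 1) * √(120 * n) ≤ c * (120 * n) := by gcongr
      _ = c * 120 * n := by ring
      _ ≤ _ := hp1.trans h1
  have hsum : ∑ j ∈ Finset.range (J + 1), w ^ j ≤ M * Real.exp (η * n) := by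
    have h1 : w ^ J ≤ M := by
      rw [hw, ← Real.exp_nat_mul, ← Real.exp_log hM0, Real.exp_le_exp]
      have h2 : (J : ℝ) ≤ Real.log M / ((1 / 2 + η) * n * h) := by
        rw [hJ]
        exact Nat.floor_le (by positivity)
      rw [le_div_iff₀ (by positivity)] at h2
      exact h2
    calc ∑ j ∈ Finset.range (J + 1), w ^ j ≤ ∑ j ∈ Finset.range (J + 1), w ^ J := by
          refine Finset.sum_le_sum fun j hj => ?_
          exact pow_le_pow_right₀ hw1 (by have := Finset.mem_range.1 hj; omega)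
      _ = ((J : ℝ) + 1) * w ^ J := by
          rw [Finset.sum_const, Finset.card_range, nsmul_eq_mul]
          push_cast
          ring
      _ ≤ Real.exp (η * n) * M := by
          have := hJc.trans hp2
          gcongr
      _ = _ := mul_comm _ _
  have haJ : a ^ (J - l) ≤ M⁻¹ * Real.exp (3 * η * n) := by
    have h1 : a ^ (J - l) ≤ Real.exp (-((1 / 2 - η) * n * h * (J - l))) := by
      rw [ha, ← Real.exp_nat_mul, Real.exp_le_exp]
      have h2 : (J : ℝ) - l ≤ ((J - l : ℕ) : ℝ) := by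
        have : J ≤ (J - l) + l := by omega
        have h3 : (J : ℝ) ≤ ((J - l : ℕ) : ℝ) + l := by exact_mod_cast this
        linarith
      have h3 : 0 ≤ (1 / 2 - η) * n * h := by positivity
      nlinarith
    refine h1.trans ?_
    have h2 : M⁻¹ * Real.exp (3 * η * n) = Real.exp (-Real.log M + 3 * η * n) := by
      rw [Real.exp_add, Real.exp_neg, Real.exp_log hM0]
    rw [h2, Real.exp_le_exp]
    have h3 : Real.log M / ((1 / 2 + η) * n * h) < J + 1 := by
      rw [hJ]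
      exact Nat.lt_floor_add_one _
    rw [div_lt_iff₀ (by positivity)] at h3
    -- (1/2 - η) (J + 1) n h ≥ (1 - 4 η) log M
    have h4 : (1 - 4 * η) * Real.log M ≤ (1 / 2 - η) * n * h * (J + 1) := by
      have h5 : (1 - 4 * η) * Real.log M ≤ (1 - 4 * η) * (((J : ℝ) + 1) * ((1 / 2 + η) * n * h)) := by
        apply mul_le_mul_of_nonneg_left h3.le
        linarith
      have h6 : (1 - 4 * η) * (1 / 2 + η) ≤ 1 / 2 - η := by nlinarith
      have h7 := mul_le_mul_of_nonneg_right h6 (by positivity : 0 ≤ ((J : ℝ) + 1) * (n * h))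
      nlinarith
    have h5 : (1 / 2 - η) * n * h * (J - l) = (1 / 2 - η) * n * h * (J + 1) - (1 / 2 - η) * n * δ := by
      rw [← hlh]
      ring
    rw [h5]
    have h6 : 4 * η * Real.log M ≤ 4 * η * (n * Real.log 2) := by gcongr
    have h7 : (1 / 2 - η) * n * δ ≤ 1 / 2 * n * (η / 36) := by
      gcongr
      linarith
    have h8 : 4 * η * (n * Real.log 2) ≤ 4 * η * (n * 0.7) := by
      gcongr
      linarith
    have h9 : 0 < η * n := by positivity
    nlinarith
  have hlamle : ((J : ℝ) + 1) * √(120 * n) * (R * √(4 * π / n)) ^ n * a ^ (J - l) ≤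
      R ^ n * √(4 * π / n) ^ n * M⁻¹ * Real.exp (4 * η * n) := by
    have h2 : √(120 * n) ≤ 120 * n := by
      apply Real.sqrt_le_iff.2
      constructor
      · positivity
      · nlinarith
    have h3 : ((J : ℝ) + 1) * √(120 * n) ≤ Real.exp (η * n) := by
      calc ((J : ℝ) + 1) * √(120 * n) ≤ c * (120 * n) := by gcongr
        _ = c * 120 * n := by ring
        _ ≤ _ := hp3
    calc ((J : ℝ) + 1) * √(120 * n) * (R * √(4 * π / n)) ^ n * a ^ (J - l) ≤
        Real.exp (η * n) * (R * √(4 * π / n)) ^ n * (M⁻¹ * Real.exp (3 * η * n)) := by gcongr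
      _ = R ^ n * √(4 * π / n) ^ n * M⁻¹ * (Real.exp (η * n) * Real.exp (3 * η * n)) := by
          rw [mul_pow]
          ring
      _ = _ := by
          rw [← Real.exp_add]
          congr 2
          ring
  have hmf := multi_fourier hn0 hR hρ0 hρ1 hwa ha0 ha1 hra (l := l) (J := J) (E' := E')
    (by rw [hE']; positivity) hgain hEa
  intro S Ω hS hΩ hΩb hSΩ hΩ0
  have h1 := supersat2 (d := n) (R := R) (J := J + 1) (w := fun j => w ^ j) (t := fun j => R * ρ ^ j)
    (lam := ((J : ℝ) + 1) * √(120 * n) * (R * √(4 * π / n)) ^ n * a ^ (J - l))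
    (M := M * Real.exp (η * n)) hR (fun j => by positivity) (Nat.succ_pos J) (pow_zero w)
    (by simp) (fun j => by positivity) (fun j => by
      have : ρ ^ j ≤ 1 := pow_le_one₀ hρ0.le hρ1.le
      nlinarith) (by positivity) hsum hmf hS hΩ hΩb hSΩ hΩ0
  have h2 : 0 ≤ volume.real S := measureReal_nonneg
  have h3 := mul_le_mul_of_nonneg_right hlamle h2
  linarith

end Pool.Agent.N628.EP
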