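import Pool.Agent.N628.EP.M1
import Pool.Agent.H818R2.Limit

/-!
N628/EP: the density of the hard sphere model at exponential fugacity: lower bounds.
-/

set_option autoImplicit false

open MeasureTheory Set Real Metric Filter Topology

namespace Pool.Agent.N628.EP

open Pool.Agent.Y509.LS
open Pool.Agent.H818R2 (rho Sep rate)

variable {n : ℕ} {L lam : ℝ}

lemma rho_rate (hn : 0 < n) : rho n = (2 : ℝ) ^ (-(rate n * n)) := by
  have h1 := Pool.Agent.H818R2.rate_mul hn
  have h2 : -(rate n * n) = Real.logb 2 (rho n) := by linarith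
  rw [h2, Real.rpow_logb (by norm_num) (by norm_num) (Pool.Agent.H818R2.rho_pos hn)]

lemma card_conf [NeZero n] (hL : 0 < L) {k : ℕ} (hk : rho n * (L + 2) ^ n < k * V1 n) :
    conf n k L = ∅ := by
  classical
  rw [Set.eq_empty_iff_forall_notMem]
  intro x hx
  have hinj : Function.Injective x := by
    intro i j hij
    by_contra hne
    have := hx.2 i j hne
    rw [hij, dist_self] at this
    linarith
  have h1 := Pool.Agent.H519R2.TSP.card_cube_le (d := n) hL.le (P := Finset.univ.image x) (by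
    intro a ha b hb hab
    rw [Finset.mem_image] at ha hb
    obtain ⟨i, _, rfl⟩ := ha
    obtain ⟨j, _, rfl⟩ := hb
    exact hx.2 i j fun h => hab (by rw [h])) (by
    intro a ha
    rw [Finset.mem_coe, Finset.mem_image] at ha
    obtain ⟨i, _, rfl⟩ := ha
    exact hx.1 i)
  rw [Finset.card_image_of_injective _ hinj, Finset.card_univ, Fintype.card_fin] at h1
  have h2 : (Pool.Agent.H519R2.TSP.V n) = V1 n := rfl
  rw [h2] at h1
  linarith

/-- the hard sphere model is not denser than the densest packings -/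
theorem hs_rho (κ : ℝ) {ε : ℝ} (hε : 0 < ε) : ∀ᶠ n : ℕ in atTop, ∀ L : ℝ, (n : ℝ) ^ 2 ≤ L →
    hsD n L (fug n κ) ≤ (2 : ℝ) ^ (-((rate n - ε) * n)) := by
  have hl2 : 0 < Real.log 2 := Real.log_pos (by norm_num)
  filter_upwards [eventually_gt_atTop 36, poly_ev 10 0 (mul_pos hε hl2)] with n hn36 hp L hL
  have hn : 0 < n := by omega
  have : NeZero n := ⟨hn.ne'⟩
  have hn' : (36 : ℝ) < n := by exact_mod_cast hn36
  have hn0 : (0 : ℝ) < n := by linarith
  have hL0 : 0 < L := lt_of_lt_of_le (by positivity) hL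
  have hV := V1_pos n
  have hLn : 0 < L ^ n := by positivity
  have hρ : 0 < rho n := Pool.Agent.H818R2.rho_pos hn
  obtain ⟨T, hT⟩ : ∃ T : ℝ, T = TT n L := ⟨_, rfl⟩
  have hTn : (n : ℝ) ≤ T := by rw [hT]; exact TT_large hn36 hL
  have hT0 : 0 < T := by linarith
  have hTL : T * (2 ^ n * V1 n) = L ^ n := by
    rw [hT]
    unfold TT
    field_simp
  have h1 : hsM n L (fug n κ) ≤ rho n * (L + 2) ^ n / V1 n + 2 := by
    refine hsM_upper hL0 (fug_pos n κ).le (by positivity) fun k hk => ?_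
    rw [div_lt_iff₀ hV] at hk
    unfold ut
    rw [card_conf hL0 hk]
    simp
  unfold hsD
  have h2 : (L + 2) ^ n ≤ L ^ n * Real.exp 1 := by
    refine (cube_enlarge hn hL (by norm_num)).trans ?_
    gcongr
    rw [div_le_one hn0]
    linarith
  have h3 : V1 n * hsM n L (fug n κ) / L ^ n ≤ 10 * rho n := by
    rw [div_le_iff₀ hLn]
    have he : Real.exp 1 ≤ 3 := by linarith [Real.exp_one_lt_d9]
    have h4 : (1 / 2 : ℝ) ^ n ≤ rho n := Pool.Agent.H818R2.le_rho hn
    calc V1 n * hsM n L (fug n κ) ≤ V1 n * (rho n * (L + 2) ^ n / V1 n + 2) := by gcongr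
      _ = rho n * (L + 2) ^ n + 2 * V1 n := by field_simp
      _ ≤ rho n * (L ^ n * 3) + 2 * (rho n * L ^ n) := by
          have h5 : V1 n ≤ rho n * L ^ n := by
            rw [← hTL]
            calc V1 n = (1 / 2 : ℝ) ^ n * (1 * (2 ^ n * V1 n)) := by
                  rw [one_div, inv_pow]
                  field_simp
              _ ≤ rho n * (T * (2 ^ n * V1 n)) := by
                  gcongr
                  linarith
          have h6 : (L + 2) ^ n ≤ L ^ n * 3 := h2.trans (by gcongr)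
          gcongr
      _ ≤ 10 * rho n * L ^ n := by nlinarith [mul_pos hρ hLn]
  refine h3.trans ?_
  rw [rho_rate hn]
  rw [pow_zero, mul_one] at hp
  have h4 : (2 : ℝ) ^ (-((rate n - ε) * n)) = Real.exp (ε * Real.log 2 * n) * (2 : ℝ) ^ (-(rate n * n)) := by
    rw [two_rpow, two_rpow, ← Real.exp_add]
    congr 1
    ring
  rw [h4]
  gcongr

/-- floor -/
lemma half_floor {y : ℝ} (hy : 1 ≤ y) : y / 2 ≤ (⌊y⌋₊ : ℝ) ∧ (⌊y⌋₊ : ℝ) ≤ y ∧ 0 < ⌊y⌋₊ := by
  have h1 : 1 ≤ ⌊y⌋₊ := Nat.one_le_floor_iff _ |>.2 hy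
  have h2 : y < ⌊y⌋₊ + 1 := Nat.lt_floor_add_one y
  have h3 : (1 : ℝ) ≤ ⌊y⌋₊ := by exact_mod_cast h1
  exact ⟨by linarith, Nat.floor_le (by linarith), h1⟩

/-- a general lower bound -/
lemma hsD_ge (hn : 0 < n) (hL : 0 < L) (hlam : 0 < lam) {k : ℕ} (hk : 0 < k) {c : ℝ} (hc : 0 ≤ c)
    (hc1 : c ≤ L ^ n) (hF : c ^ k ≤ volume.real (conf n k L)) (hlc : Real.exp 1 * k ≤ lam * c)
    {C : ℝ} (hC : 0 < C) (hlog : 2 * lam * L ^ n / k ≤ Real.exp (C * n)) :
    V1 n * k / (2 * C * n * L ^ n) ≤ hsD n L lam := by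
  have hn0 : (0 : ℝ) < n := by exact_mod_cast hn
  have hk0 : (0 : ℝ) < k := by exact_mod_cast hk
  have hV := V1_pos n
  have hLn : 0 < L ^ n := by positivity
  have h1 := hsM_ge (n := n) hL hlam hk hc hc1 hF hlc
  have h2 : Real.log (2 * lam * L ^ n / k) ≤ C * n := by
    rw [Real.log_le_iff_le_exp (by positivity)]
    exact hlog
  have h3 := hsM_nonneg (n := n) hL hlam.le
  have h4 : (k : ℝ) / 2 ≤ hsM n L lam * (C * n) :=
    h1.trans (mul_le_mul_of_nonneg_left h2 h3)
  unfold hsD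
  rw [div_le_div_iff₀ (by positivity) hLn]
  have h5 : (k : ℝ) ≤ hsM n L lam * (2 * C * n) := by linarith
  calc V1 n * k * L ^ n ≤ V1 n * (hsM n L lam * (2 * C * n)) * L ^ n := by gcongr
    _ = V1 n * hsM n L lam * (2 * C * n * L ^ n) := by ring

/-- the Minkowski density -/
theorem hs_mink {κ : ℝ} (hκ : -1 < κ) {ε : ℝ} (hε : 0 < ε) : ∀ᶠ n : ℕ in atTop, ∀ L : ℝ,
    (n : ℝ) ^ 2 ≤ L → (2 : ℝ) ^ (-((1 + ε) * n)) ≤ hsD n L (fug n κ) := by
  have hl2 : 0 < Real.log 2 := Real.log_pos (by norm_num)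
  obtain ⟨C, hC⟩ : ∃ C : ℝ, C = Real.log 2 * (κ + 1) + 1 := ⟨_, rfl⟩
  have hC0 : 0 < C := by
    rw [hC]
    have : 0 < κ + 1 := by linarith
    positivity
  filter_upwards [eventually_gt_atTop 36, ev_lin (1 / (Real.log 2 * (κ + 1))), poly_ev 8 0 one_pos,
    poly_ev (8 * C) 1 (mul_pos hε hl2)] with n hn36 hn1 hp1 hp2 L hL
  have hn : 0 < n := by omega
  have hn' : (36 : ℝ) < n := by exact_mod_cast hn36
  have hn0 : (0 : ℝ) < n := by linarith
  have hL0 : 0 < L := lt_of_lt_of_le (by positivity) hL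
  have hV := V1_pos n
  have hLn : 0 < L ^ n := by positivity
  obtain ⟨T, hT⟩ : ∃ T : ℝ, T = TT n L := ⟨_, rfl⟩
  have hTn : (n : ℝ) ≤ T := by rw [hT]; exact TT_large hn36 hL
  have hT0 : 0 < T := by linarith
  have hTL : T * (2 ^ n * V1 n) = L ^ n := by
    rw [hT]
    unfold TT
    field_simp
  obtain ⟨k, hk⟩ : ∃ k : ℕ, k = ⌊T / 2⌋₊ := ⟨_, rfl⟩
  obtain ⟨hk1, hk2, hk3⟩ := half_floor (y := T / 2) (by linarith)
  rw [← hk] at hk1 hk2 hk3
  have hk0 : (0 : ℝ) < k := by exact_mod_cast hk3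
  have hkL : (k : ℝ) * (2 ^ n * V1 n) ≤ L ^ n / 2 := by
    rw [← hTL]
    calc (k : ℝ) * (2 ^ n * V1 n) ≤ T / 2 * (2 ^ n * V1 n) := by gcongr
      _ = T * (2 ^ n * V1 n) / 2 := by ring
  have h1 := conf_low (n := n) hL0 (le_refl k) (by linarith)
  have h2κ : (0 : ℝ) < κ + 1 := by linarith
  have hge := hsD_ge (lam := fug n κ) hn hL0 (fug_pos n κ) hk3 (c := L ^ n - k * (2 ^ n * V1 n)) (by linarith)
    (by
      have : 0 ≤ (k : ℝ) * (2 ^ n * V1 n) := by positivity
      linarith) h1 (by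
      have e1 : Real.exp 1 ≤ (2 : ℝ) ^ (κ * n) * 2 ^ n := by
        rw [← Real.rpow_natCast 2 n, ← Real.rpow_add (by norm_num), two_rpow, Real.exp_le_exp]
        rw [div_le_iff₀ (by positivity)] at hn1
        linarith
      calc Real.exp 1 * k ≤ ((2 : ℝ) ^ (κ * n) * 2 ^ n) * (T / 2) := by gcongr
        _ = fug n κ * (L ^ n / 2) := by
            rw [← hTL]
            unfold fug
            field_simp
        _ ≤ fug n κ * (L ^ n - k * (2 ^ n * V1 n)) := by
            have := fug_pos n κ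
            gcongr
            linarith) hC0 (by
      rw [pow_zero, mul_one, one_mul] at hp1
      calc 2 * fug n κ * L ^ n / k ≤ 2 * fug n κ * L ^ n / (T / 2 / 2) := by
            have := fug_pos n κ
            gcongr
        _ = 8 * ((2 : ℝ) ^ (κ * n) * 2 ^ n) := by
            rw [← hTL]
            unfold fug
            field_simp
            ring
        _ ≤ Real.exp n * ((2 : ℝ) ^ (κ * n) * 2 ^ n) := by gcongr
        _ = Real.exp (C * n) := by
            rw [← Real.rpow_natCast 2 n, ← Real.rpow_add (by norm_num), two_rpow, ← Real.exp_add, hC]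
            congr 1
            ring)
  refine le_trans ?_ hge
  rw [pow_one] at hp2
  have e1 : (2 : ℝ) ^ (-((1 + ε) * n)) = (Real.exp (ε * Real.log 2 * n))⁻¹ * (1 / 2 ^ n) := by
    rw [one_div, ← Real.rpow_natCast 2 n, ← Real.rpow_neg (by norm_num), two_rpow, two_rpow,
      ← Real.exp_neg, ← Real.exp_add]
    congr 1
    ring
  rw [e1]
  calc (Real.exp (ε * Real.log 2 * n))⁻¹ * (1 / 2 ^ n) ≤ (8 * C * n)⁻¹ * (1 / 2 ^ n) := by
        gcongr
    _ = V1 n * (T / 2 / 2) / (2 * C * n * L ^ n) := by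
        rw [← hTL]
        field_simp
        ring
    _ ≤ V1 n * k / (2 * C * n * L ^ n) := by gcongr

end Pool.Agent.N628.EP
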