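import Pool.Agent.N628.EP.K1
import Pool.Agent.N628.EP.M2

/-!
N628/EP: containers and rarity at all densities.
-/

set_option autoImplicit false

open MeasureTheory Set Real Metric Filter Topology

namespace Pool.Agent.N628.EP

open Pool.Agent.Y509.LS
open Pool.Agent.H818R2 (rho Sep rate)

variable {n : ℕ} {L lam : ℝ}

lemma setup {η : ℝ} (hη : 0 < η) (hη8 : η ≤ 1 / 8) : ∀ᶠ n : ℕ in atTop, ∀ L : ℝ,
    (n : ℝ) ^ 2 ≤ L → ∀ M : ℝ, 1 ≤ M → M ≤ 2 ^ n →
    ∃ (r lam' M' m₀ b : ℝ) (q : ℕ), 0 < r ∧ r < 2 ∧ 0 < M' ∧ 0 ≤ lam' ∧ Sup n r lam' M' ∧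
      m₀ = lam' * (L + 4) ^ n / (1 / 2 * (r ^ n * V1 n)) ∧
      b = (1 - 1 / 2) * (r ^ n * V1 n) / (M' * (L + 4) ^ n) ∧ b ≤ 1 ∧
      L ^ n * (1 - b) ^ q < m₀ ∧ m₀ < L ^ n * M⁻¹ * Real.exp (-((b0 - 7 * η) * n)) ∧
      (q : ℝ) ≤ Real.exp (2 * η * n) * M * TT n L ∧ 0 ≤ m₀ := by
  have hb := b0_pos
  have hb' := b0_lt
  filter_upwards [sup_multi hη hη8, W_low (η := η) hη, ev_lin (4 / η), poly_ev 7 1 hη,
    eventually_gt_atTop 36] with n hSup hWn hn1 hn7 hn36 L hL M hM1 hM2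
  have hn : 0 < n := by omega
  have hn' : (36 : ℝ) < n := by exact_mod_cast hn36
  have hn0 : (0 : ℝ) < n := by linarith
  have hL0 : 0 < L := lt_of_lt_of_le (by positivity) hL
  obtain ⟨T, hT⟩ : ∃ T : ℝ, T = TT n L := ⟨_, rfl⟩
  have hTn : (n : ℝ) ≤ T := by rw [hT]; exact TT_large hn36 hL
  have hT0 : 0 < T := by linarith
  have hV := V1_pos n
  have h2V : (0 : ℝ) < 2 ^ n * V1 n := by positivity
  have hTL : T * (2 ^ n * V1 n) = L ^ n := by
    rw [hT]
    unfold TT
    field_simp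
  rw [← hT]
  have hLn : 0 < L ^ n := by positivity
  have hM0 : 0 < M := by linarith
  rw [pow_one] at hn7
  -- the radius
  obtain ⟨r, hr⟩ : ∃ r : ℝ, r = 2 * Real.exp (-(η / n)) := ⟨_, rfl⟩
  have hr0 : 0 < r := by rw [hr]; positivity
  have hr2 : r < 2 := by
    rw [hr]
    have : Real.exp (-(η / n)) < 1 := by
      rw [Real.exp_lt_one_iff]
      have : 0 < η / n := by positivity
      linarith
    linarith
  have hrn : r ^ n = 2 ^ n * Real.exp (-η) := by
    rw [hr, mul_pow, ← Real.exp_nat_mul]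
    congr 2
    field_simp
  have h4n : 4 / (n : ℝ) ≤ η := by
    rw [div_le_iff₀ hη] at hn1
    rw [div_le_iff₀ hn0]
    linarith
  have hL4 : (L + 4) ^ n ≤ L ^ n * Real.exp η := by
    refine (cube_enlarge hn hL (by norm_num)).trans ?_
    gcongr
  have hLle : L ^ n ≤ (L + 4) ^ n := pow_le_pow_left₀ hL0.le (by linarith) n
  have hL4p : 0 < (L + 4) ^ n := by positivity
  obtain ⟨κ, hκ⟩ : ∃ κ : ℝ, κ = √(n / (4 * π)) ^ n * V1 n := ⟨_, rfl⟩
  have hκ0 : 0 < κ := by rw [hκ]; positivity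
  have hsq : √(4 * π / n) ^ n = (√(n / (4 * π)) ^ n)⁻¹ := by
    rw [← inv_pow, ← Real.sqrt_inv, inv_div]
  have hκ1 : κ ≤ Real.exp (b0 * n) := by
    rw [hκ, mul_comm]
    exact V1_le hn
  have hκ2 : Real.exp ((b0 - η) * n) ≤ κ := by
    rw [hκ]
    refine le_trans (le_of_eq ?_) hWn
    unfold b0
    congr 1
    ring
  have hV4 : √(4 * π / n) ^ n = κ⁻¹ * V1 n := by
    rw [hsq, hκ]
    field_simp
  have hκi : 0 < κ⁻¹ := inv_pos.2 hκ0
  have hMi : 0 < M⁻¹ := inv_pos.2 hM0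
  have hexp1 : 1 ≤ Real.exp (η * n) := Real.one_le_exp (by positivity)
  have hexp4 : 1 ≤ Real.exp (4 * η * n) := Real.one_le_exp (by positivity)
  have hrV : 0 < r ^ n * V1 n := by positivity
  obtain ⟨b, hbdef⟩ : ∃ b : ℝ, b = (1 - 1 / 2) * (r ^ n * V1 n) /
    (M * Real.exp (η * n) * (L + 4) ^ n) := ⟨_, rfl⟩
  have hb0' : 0 < b := by
    rw [hbdef]
    have : (0 : ℝ) < 1 - 1 / 2 := by norm_num
    positivity
  have hb1 : b ≤ 1 := by
    rw [hbdef, div_le_one (by positivity)]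
    calc (1 - 1 / 2) * (r ^ n * V1 n) ≤ 1 * ((2 ^ n * 1) * V1 n) := by
          rw [hrn]
          gcongr
          · norm_num
          · rw [Real.exp_le_one_iff]; linarith
      _ = 1 * (2 ^ n * V1 n) := by ring
      _ ≤ T * (2 ^ n * V1 n) := by gcongr; linarith
      _ = 1 * 1 * L ^ n := by rw [hTL]; ring
      _ ≤ M * Real.exp (η * n) * (L + 4) ^ n := by gcongr
  have hbinv : 1 ≤ b * (3 * Real.exp (η * n) * M * T) := by
    have e1 : Real.exp (2 * η) ≤ 3 / 2 := by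
      have : Real.exp (2 * η) ≤ Real.exp (1 / 4) := by
        rw [Real.exp_le_exp]
        linarith
      refine this.trans ?_
      have h5 : Real.exp (1 / 4) ^ 4 ≤ (3 / 2) ^ 4 := by
        rw [← Real.exp_nat_mul]
        have : ((4 : ℕ) : ℝ) * (1 / 4) = 1 := by norm_num
        rw [this]
        refine (Real.exp_one_lt_d9.le).trans (by norm_num)
      exact le_of_pow_le_pow_left₀ (by norm_num) (by norm_num) h5
    have e2 : b * (3 * Real.exp (η * n) * M * T) =
        (3 / 2 * (2 ^ n * V1 n) * T * Real.exp (-η)) / (L + 4) ^ n := by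
      rw [hbdef, hrn]
      field_simp
      ring
    rw [e2, le_div_iff₀ hL4p, one_mul]
    have e3 : 3 / 2 * (2 ^ n * V1 n) * T * Real.exp (-η) = 3 / 2 * L ^ n * Real.exp (-η) := by
      rw [← hTL]
      ring
    rw [e3]
    calc (L + 4) ^ n ≤ L ^ n * Real.exp η := hL4
      _ = L ^ n * (Real.exp (2 * η) * Real.exp (-η)) := by
          rw [← Real.exp_add]
          congr 2
          ring
      _ ≤ L ^ n * (3 / 2 * Real.exp (-η)) := by gcongr
      _ = 3 / 2 * L ^ n * Real.exp (-η) := by ring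
  obtain ⟨q, hq⟩ : ∃ q : ℕ, q = ⌈2 * n / b⌉₊ := ⟨_, rfl⟩
  have hqb : 2 * n ≤ b * q := by
    have := Nat.le_ceil (2 * n / b)
    rw [← hq, div_le_iff₀ hb0'] at this
    linarith
  have hqT : (q : ℝ) ≤ Real.exp (2 * η * n) * M * T := by
    have e1 : (q : ℝ) < 2 * n / b + 1 := by
      rw [hq]
      exact Nat.ceil_lt_add_one (by positivity)
    have e2 : 2 * n / b ≤ 6 * n * (Real.exp (η * n) * M * T) := by
      rw [div_le_iff₀ hb0']
      have := mul_le_mul_of_nonneg_left hbinv (by positivity : (0 : ℝ) ≤ 2 * n)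
      linarith
    have e3 : 1 ≤ n * (Real.exp (η * n) * M * T) := by
      calc (1 : ℝ) = 1 * (1 * 1 * 1) := by norm_num
        _ ≤ n * (Real.exp (η * n) * M * T) := by
          gcongr
          · linarith
          · linarith
    have e4 : (q : ℝ) ≤ (7 * n) * (Real.exp (η * n) * M * T) := by linarith
    refine e4.trans ?_
    have e5 : Real.exp (2 * η * n) = Real.exp (η * n) * Real.exp (η * n) := by
      rw [← Real.exp_add]
      congr 1
      ring
    rw [e5]
    calc (7 * n) * (Real.exp (η * n) * M * T) ≤ Real.exp (η * n) * (Real.exp (η * n) * M * T) := by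
          gcongr
      _ = _ := by ring
  obtain ⟨lam', hlam'⟩ : ∃ lam' : ℝ, lam' = r ^ n * √(4 * π / n) ^ n * M⁻¹ *
    Real.exp (4 * η * n) := ⟨_, rfl⟩
  have hlam0 : 0 ≤ lam' := by rw [hlam']; positivity
  obtain ⟨m₀, hm₀⟩ : ∃ m₀ : ℝ, m₀ = lam' * (L + 4) ^ n / (1 / 2 * (r ^ n * V1 n)) := ⟨_, rfl⟩
  have hm₀' : m₀ = 2 * κ⁻¹ * M⁻¹ * Real.exp (4 * η * n) * (L + 4) ^ n := by
    rw [hm₀, hlam', hV4]
    have : 0 < r ^ n := by positivity
    field_simp
  refine ⟨r, lam', M * Real.exp (η * n), m₀, b, q, hr0, hr2, by positivity, hlam0, ?_, hm₀,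
    hbdef, hb1, ?_, ?_, hqT, ?_⟩
  · rw [hlam']
    exact hSup M hM1 hM2 r hr0
  · have e1 : (1 - b) ^ q ≤ Real.exp (-(2 * n)) := by
      calc (1 - b) ^ q ≤ Real.exp (-b) ^ q := by
            refine pow_le_pow_left₀ (by linarith) ?_ q
            have := Real.add_one_le_exp (-b)
            linarith
        _ = Real.exp (-(b * q)) := by rw [← Real.exp_nat_mul]; congr 1; ring
        _ ≤ Real.exp (-(2 * n)) := by
            rw [Real.exp_le_exp]
            linarith
    have e2 : κ * M ≤ Real.exp (2 * n) := by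
      have e3 : (2 : ℝ) ^ n = Real.exp (Real.log 2 * n) := by
        rw [mul_comm, Real.exp_nat_mul, Real.exp_log (by norm_num)]
      calc κ * M ≤ Real.exp (b0 * n) * Real.exp (Real.log 2 * n) := by
            rw [← e3]
            gcongr
        _ = Real.exp ((b0 + Real.log 2) * n) := by rw [← Real.exp_add]; congr 1; ring
        _ ≤ Real.exp (2 * n) := by
            rw [Real.exp_le_exp]
            have := Real.log_two_lt_d9
            gcongr
            linarith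
    have e3 : Real.exp (-(2 * n)) ≤ κ⁻¹ * M⁻¹ := by
      rw [← mul_inv, Real.exp_neg]
      exact inv_anti₀ (by positivity) e2
    rw [hm₀']
    calc L ^ n * (1 - b) ^ q ≤ L ^ n * (κ⁻¹ * M⁻¹) := by
          gcongr
          exact e1.trans e3
      _ = 1 * κ⁻¹ * M⁻¹ * 1 * L ^ n := by ring
      _ < 2 * κ⁻¹ * M⁻¹ * 1 * L ^ n := by gcongr; norm_num
      _ ≤ 2 * κ⁻¹ * M⁻¹ * Real.exp (4 * η * n) * (L + 4) ^ n := by gcongr
  · rw [hm₀']
    have e1 : κ⁻¹ ≤ Real.exp (-((b0 - η) * n)) := by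
      rw [Real.exp_neg]
      exact inv_anti₀ (Real.exp_pos _) hκ2
    have e2 : 2 * Real.exp η < Real.exp (2 * η * n) := by
      have e3 : (2 : ℝ) = Real.exp (Real.log 2) := (Real.exp_log (by norm_num)).symm
      have e4 : 2 * Real.exp η = Real.exp (Real.log 2 + η) := by
        rw [Real.exp_add, ← e3]
      rw [e4, Real.exp_lt_exp]
      rw [div_le_iff₀ hη] at hn1
      have := Real.log_two_lt_d9
      nlinarith
    calc 2 * κ⁻¹ * M⁻¹ * Real.exp (4 * η * n) * (L + 4) ^ n ≤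
        2 * Real.exp (-((b0 - η) * n)) * M⁻¹ * Real.exp (4 * η * n) * (L ^ n * Real.exp η) := by
          gcongr
      _ = L ^ n * M⁻¹ * ((2 * Real.exp η) * (Real.exp (-((b0 - η) * n)) * Real.exp (4 * η * n))) := by
          ring
      _ < L ^ n * M⁻¹ * (Real.exp (2 * η * n) * (Real.exp (-((b0 - η) * n)) *
            Real.exp (4 * η * n))) := by gcongr
      _ = L ^ n * M⁻¹ * Real.exp (-((b0 - 7 * η) * n)) := by
          rw [← Real.exp_add, ← Real.exp_add]
          congr 2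
          ring
  · rw [hm₀']
    positivity

/-- **containers** -/
theorem containers {ε : ℝ} (hε : 0 < ε) : ∀ᶠ n : ℕ in atTop, ∀ L : ℝ, (n : ℝ) ^ 2 ≤ L →
    ∀ M : ℝ, 1 ≤ M → M ≤ 2 ^ n →
    ∃ C : Finset (E n) → Set (E n), (∀ F, MeasurableSet (C F)) ∧
      (∀ F, volume (C F) ≤ ENNReal.ofReal ((2 : ℝ) ^ (-((be - ε) * n)) / M * L ^ n)) ∧
      ∀ X : Finset (E n), (∀ x ∈ X, x ∈ cube n L) → (∀ x ∈ X, ∀ y ∈ X, x ≠ y → 2 ≤ dist x y) →
        ∃ F ⊆ X, (F.card : ℝ) ≤ (2 : ℝ) ^ (ε * n) * M * TT n L ∧ ∀ x ∈ X, x ∉ F → x ∈ C F := by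
  have hl2 : 0 < Real.log 2 := Real.log_pos (by norm_num)
  obtain ⟨η, hη⟩ : ∃ η : ℝ, η = min (ε * Real.log 2 / 7) (1 / 8) := ⟨_, rfl⟩
  have hη0 : 0 < η := by rw [hη]; positivity
  have hη8 : η ≤ 1 / 8 := by rw [hη]; exact min_le_right _ _
  have hηε : η ≤ ε * Real.log 2 / 7 := by rw [hη]; exact min_le_left _ _
  filter_upwards [setup hη0 hη8, eventually_gt_atTop 36] with n hset hn36 L hL M hM1 hM2
  have hn : 0 < n := by omega
  have hn' : (36 : ℝ) < n := by exact_mod_cast hn36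
  have hn0 : (0 : ℝ) < n := by linarith
  have hL0 : 0 < L := lt_of_lt_of_le (by positivity) hL
  have hM0 : 0 < M := by linarith
  have hT0 : 0 < TT n L := by
    have := V1_pos n
    unfold TT
    positivity
  obtain ⟨r, lam', M', m₀, b, q, hr, hr2, hM', hlam', hSup, hm₀, hb, hb1, hq, hm2, hqT, hm0⟩ :=
    hset L hL M hM1 hM2
  obtain ⟨C, hCm, hCv, hC⟩ := cont_main hn hM' hlam' hSup hr hr2 hL0 (by norm_num) hm₀ hb hb1 hq hm2
  refine ⟨C, hCm, fun F => (hCv F).trans (ENNReal.ofReal_le_ofReal ?_), fun X hX hXs => ?_⟩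
  · have e1 : Real.exp (-((b0 - 7 * η) * n)) ≤ (2 : ℝ) ^ (-((be - ε) * n)) := by
      rw [two_rpow, Real.exp_le_exp, ← be_eq]
      nlinarith
    calc L ^ n * M⁻¹ * Real.exp (-((b0 - 7 * η) * n)) ≤
        L ^ n * M⁻¹ * (2 : ℝ) ^ (-((be - ε) * n)) := by gcongr
      _ = _ := by
          field_simp
  · obtain ⟨F, hFX, hFc, hF⟩ := hC X hX hXs
    refine ⟨F, hFX, ?_, hF⟩
    have e1 : (F.card : ℝ) ≤ q := by exact_mod_cast hFc
    refine e1.trans (hqT.trans ?_)
    gcongr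
    rw [two_rpow, Real.exp_le_exp]
    nlinarith

/-- **rarity of dense packings** -/
theorem rare2 {ε : ℝ} (hε : 0 < ε) : ∀ᶠ n : ℕ in atTop, ∀ L : ℝ, (n : ℝ) ^ 2 ≤ L →
    ∀ k : ℕ, (2 : ℝ) ^ (ε * n) * TT n L ≤ k →
    volume.real (conf n k L) / (L ^ n) ^ k ≤ ((2 : ℝ) ^ (-((be - ε) * n)) * TT n L / k) ^ k := by
  have hl2 : 0 < Real.log 2 := Real.log_pos (by norm_num)
  have hl2' := Real.log_two_lt_d9
  have hbp := b0_pos
  have hbp' := b0_lt
  obtain ⟨η, hη⟩ : ∃ η : ℝ, η = min (ε * Real.log 2 / 16) (b0 / 8) := ⟨_, rfl⟩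
  have hη0 : 0 < η := by rw [hη]; positivity
  have hηb : η ≤ b0 / 8 := by rw [hη]; exact min_le_right _ _
  have hη8 : η ≤ 1 / 8 := by linarith
  have hηε : η ≤ ε * Real.log 2 / 16 := by rw [hη]; exact min_le_left _ _
  filter_upwards [setup hη0 hη8, eventually_gt_atTop 36, ev_lin (2 / η), poly_ev (1 / η) 0 hη0]
    with n hset hn36 hn2 hnη L hL k hk
  have hn : 0 < n := by omega
  have : NeZero n := ⟨hn.ne'⟩
  have hn' : (36 : ℝ) < n := by exact_mod_cast hn36
  have hn0 : (0 : ℝ) < n := by linarith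
  have hL0 : 0 < L := lt_of_lt_of_le (by positivity) hL
  have hV := V1_pos n
  have h2V : (0 : ℝ) < 2 ^ n * V1 n := by positivity
  obtain ⟨T, hT⟩ : ∃ T : ℝ, T = TT n L := ⟨_, rfl⟩
  have hTn : (n : ℝ) ≤ T := by rw [hT]; exact TT_large hn36 hL
  have hT0 : 0 < T := by linarith
  have hTL : T * (2 ^ n * V1 n) = L ^ n := by
    rw [hT]
    unfold TT
    field_simp
  rw [← hT] at hk ⊢
  have hLn : 0 < L ^ n := by positivity
  have hk0 : (0 : ℝ) < k := lt_of_lt_of_le (by positivity) hk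
  rw [div_le_iff₀ hη0] at hn2
  rw [pow_zero, mul_one, div_le_iff₀ hη0] at hnη
  have hk4 : Real.exp (4 * η * n) * T ≤ k := by
    refine le_trans ?_ hk
    gcongr
    rw [two_rpow, Real.exp_le_exp]
    nlinarith
  obtain ⟨M, hM⟩ : ∃ M : ℝ, M = k / (Real.exp (4 * η * n) * T) := ⟨_, rfl⟩
  have hM1 : 1 ≤ M := by
    rw [hM, le_div_iff₀ (by positivity), one_mul]
    exact hk4
  have hM0 : 0 < M := by linarith
  rcases lt_or_ge (2 ^ n) M with hM2 | hM2
  · -- no packings
    have hemp : conf n k L = ∅ := by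
      refine card_conf hL0 ?_
      rw [hM, lt_div_iff₀ (by positivity)] at hM2
      have h1 : rho n ≤ 1 := Pool.Agent.H818R2.rho_le_one n
      have h2 : (L + 2) ^ n ≤ L ^ n * Real.exp (2 / n) := cube_enlarge hn hL (by norm_num)
      have h3 : Real.exp (2 / n) ≤ Real.exp (4 * η * n) := by
        rw [Real.exp_le_exp, div_le_iff₀ hn0]
        nlinarith
      calc rho n * (L + 2) ^ n ≤ 1 * (L ^ n * Real.exp (4 * η * n)) := by
            gcongr
            exact h2.trans (by gcongr)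
        _ = (2 ^ n * (Real.exp (4 * η * n) * T)) * V1 n := by rw [← hTL]; ring
        _ < k * V1 n := by gcongr
    rw [hemp]
    simp only [measureReal_empty, zero_div]
    positivity
  obtain ⟨r, lam', M', m₀, b, q, hr, hr2, hM', hlam', hSup, hm₀, hb, hb1, hq, hm2, hqT, hm0⟩ :=
    hset L hL M hM1 hM2
  rw [← hT] at hqT
  have hqk2 : (q : ℝ) ≤ η * k := by
    refine hqT.trans ?_
    have h1 : Real.exp (2 * η * n) * M * T = k * Real.exp (-(2 * η * n)) := by
      have h2 : Real.exp (4 * η * n) = Real.exp (2 * η * n) * Real.exp (2 * η * n) := by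
        rw [← Real.exp_add]; congr 1; ring
      rw [hM, h2, Real.exp_neg]
      field_simp
    rw [h1]
    have h2 : Real.exp (-(2 * η * n)) ≤ η := by
      have h3 : 1 ≤ η * Real.exp (2 * η * n) := by
        have h4 : Real.exp (η * n) ≤ Real.exp (2 * η * n) := by
          rw [Real.exp_le_exp]
          have : 0 < η * n := by positivity
          linarith
        nlinarith
      rw [Real.exp_neg, inv_le_iff_one_le_mul₀ (Real.exp_pos _)]
      exact h3
    nlinarith
  have hqk : q ≤ k := by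
    have : (q : ℝ) ≤ k := hqk2.trans (by nlinarith)
    exact_mod_cast this
  have hmain := conf_main2 hn hM' hlam' hSup hr hr2 hL0 (by norm_num) hqk hm₀ hb hb1 hq
  obtain ⟨x, hx⟩ : ∃ x : ℝ, x = M⁻¹ * Real.exp (-((b0 - 7 * η) * n)) := ⟨_, rfl⟩
  have hx0 : 0 < x := by rw [hx]; positivity
  have hmx : m₀ ≤ L ^ n * x := by rw [hx]; linarith
  rw [div_le_iff₀ (by positivity)]
  refine hmain.trans ?_
  have e5 : (L ^ n) ^ k = (L ^ n) ^ q * (L ^ n) ^ (k - q) := by
    rw [← pow_add]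
    congr 1
    omega
  have e6 : m₀ ^ (k - q) ≤ (L ^ n) ^ (k - q) * x ^ (k - q) := by
    rw [← mul_pow]
    exact pow_le_pow_left₀ hm0 hmx _
  have hxi : x⁻¹ ≤ Real.exp (2 * n) := by
    rw [hx, mul_inv, inv_inv, Real.exp_neg, inv_inv]
    have e3 : (2 : ℝ) ^ n = Real.exp (Real.log 2 * n) := by
      rw [mul_comm, Real.exp_nat_mul, Real.exp_log (by norm_num)]
    calc M * Real.exp ((b0 - 7 * η) * n) ≤ Real.exp (Real.log 2 * n) * Real.exp ((b0 - 7 * η) * n) := by
          rw [← e3]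
          gcongr
      _ ≤ Real.exp (2 * n) := by
          rw [← Real.exp_add, Real.exp_le_exp]
          nlinarith
  have e7 : x ^ (k - q) ≤ x ^ k * Real.exp (2 * η * n * k) := by
    have h1 : x ^ k = x ^ (k - q) * x ^ q := by
      rw [← pow_add]
      congr 1
      omega
    have h2 : x ^ (k - q) = x ^ k * (x⁻¹) ^ q := by
      rw [h1, mul_assoc, ← mul_pow, mul_inv_cancel₀ hx0.ne', one_pow, mul_one]
    rw [h2]
    gcongr
    calc (x⁻¹) ^ q ≤ Real.exp (2 * n) ^ q := by gcongr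
      _ = Real.exp (2 * n * q) := by rw [← Real.exp_nat_mul]; congr 1; ring
      _ ≤ Real.exp (2 * η * n * k) := by
          rw [Real.exp_le_exp]
          have := mul_le_mul_of_nonneg_left hqk2 (by positivity : (0 : ℝ) ≤ 2 * n)
          linarith
  have e8 : (2 : ℝ) ^ k ≤ Real.exp (η * n * k) := by
    have h1 : (2 : ℝ) ^ k = Real.exp (Real.log 2 * k) := by
      rw [mul_comm, Real.exp_nat_mul, Real.exp_log (by norm_num)]
    rw [h1, Real.exp_le_exp]
    nlinarith
  calc 2 ^ k * ((L ^ n) ^ q * m₀ ^ (k - q)) ≤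
      Real.exp (η * n * k) * ((L ^ n) ^ q * ((L ^ n) ^ (k - q) *
        (x ^ k * Real.exp (2 * η * n * k)))) := by
        gcongr
        exact e6.trans (by gcongr)
    _ = (x ^ k * (Real.exp (η * n * k) * Real.exp (2 * η * n * k))) * (L ^ n) ^ k := by
        rw [e5]
        ring
    _ ≤ ((2 : ℝ) ^ (-((be - ε) * n)) * T / k) ^ k * (L ^ n) ^ k := by
        gcongr
        have h1 : Real.exp (η * n * k) * Real.exp (2 * η * n * k) = Real.exp (3 * η * n) ^ k := by
          rw [← Real.exp_add, ← Real.exp_nat_mul]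
          congr 1
          ring
        rw [h1, ← mul_pow]
        refine pow_le_pow_left₀ (by positivity) ?_ k
        have h2 : x * Real.exp (3 * η * n) = Real.exp (-((b0 - 14 * η) * n)) * T / k := by
          have h3 : M⁻¹ = Real.exp (4 * η * n) * T / k := by rw [hM, inv_div]
          have h4 : Real.exp (-((b0 - 14 * η) * n)) = Real.exp (4 * η * n) *
              Real.exp (-((b0 - 7 * η) * n)) * Real.exp (3 * η * n) := by
            rw [← Real.exp_add, ← Real.exp_add]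
            congr 1
            ring
          rw [hx, h3, h4]
          ring
        rw [h2]
        gcongr
        rw [two_rpow, Real.exp_le_exp, ← be_eq]
        nlinarith

end Pool.Agent.N628.EP
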