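import Pool.Agent.N628.EP.M2

/-!
N628/EP: the hard sphere model from dense packings.
-/

set_option autoImplicit false

open MeasureTheory Set Real Metric Filter Topology

namespace Pool.Agent.N628.EP

open Pool.Agent.Y509.LS
open Pool.Agent.H818R2 (rho Sep rate)

variable {n : ℕ} {L lam : ℝ}

lemma TT_large2 (hn : 36 < n) {L : ℝ} (hL : (n : ℝ) ^ 2 ≤ L) : (n : ℝ) ^ n ≤ TT n L := by
  have hn' : (36 : ℝ) < n := by exact_mod_cast hn
  have h1 := V1_crude (n := n) (by omega)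
  unfold TT
  rw [le_div_iff₀ (mul_pos (by positivity) (V1_pos n))]
  calc (n : ℝ) ^ n * (2 ^ n * V1 n) ≤ n ^ n * (2 ^ n * 18 ^ n) := by gcongr
    _ = n ^ n * 36 ^ n := by rw [← mul_pow]; norm_num
    _ ≤ n ^ n * n ^ n := by
        have h2 : (36 : ℝ) ^ n ≤ n ^ n := pow_le_pow_left₀ (by norm_num) hn'.le n
        gcongr
    _ = ((n : ℝ) ^ 2) ^ n := by rw [← mul_pow]; ring_nf
    _ ≤ L ^ n := pow_le_pow_left₀ (by positivity) hL n

/-- **the hard sphere model from dense packings** -/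
theorem hs_dense (κ : ℝ) {ε : ℝ} (hε : 0 < ε) : ∀ᶠ n : ℕ in atTop, ∀ L : ℝ, (n : ℝ) ^ 2 ≤ L →
    (2 : ℝ) ^ (-((rate n + Real.logb 2 (1 + (2 : ℝ) ^ (-κ)) + ε) * n)) ≤ hsD n L (fug n κ) := by
  have hl2 : 0 < Real.log 2 := Real.log_pos (by norm_num)
  obtain ⟨a, ha⟩ : ∃ a : ℝ, a = (2 : ℝ) ^ (-κ) := ⟨_, rfl⟩
  have ha0 : 0 < a := by rw [ha]; positivity
  have hlog : -(κ * Real.log 2) ≤ Real.log (1 + a) := by
    have h1 : Real.log a = -(κ * Real.log 2) := by
      rw [ha, Real.log_rpow (by norm_num)]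
      ring
    rw [← h1]
    exact Real.log_le_log ha0 (by linarith)
  obtain ⟨C, hC⟩ : ∃ C : ℝ, C = Real.log 2 * (κ + 1) + Real.log (1 + a) + 1 := ⟨_, rfl⟩
  have hC0 : 0 < C := by
    rw [hC]
    nlinarith
  rw [← ha]
  filter_upwards [eventually_gt_atTop 36, ev_lin (12 * (1 + a)), poly_ev 48 0 one_pos,
    poly_ev (48 * C) 1 (mul_pos hε hl2)] with n hn36 hn1 hp1 hp2 L hL
  have hn : 0 < n := by omega
  have hn' : (36 : ℝ) < n := by exact_mod_cast hn36
  have hn0 : (0 : ℝ) < n := by linarith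
  have hL0 : 0 < L := lt_of_lt_of_le (by positivity) hL
  have hV := V1_pos n
  have hLn : 0 < L ^ n := by positivity
  have hρ : 0 < rho n := Pool.Agent.H818R2.rho_pos hn
  have hρ1 : rho n ≤ 1 := Pool.Agent.H818R2.rho_le_one n
  have hρ2 : (1 / 2 : ℝ) ^ n ≤ rho n := Pool.Agent.H818R2.le_rho hn
  obtain ⟨T, hT⟩ : ∃ T : ℝ, T = TT n L := ⟨_, rfl⟩
  have hTn : (n : ℝ) ^ n ≤ T := by rw [hT]; exact TT_large2 hn36 hL
  have hT0 : 0 < T := lt_of_lt_of_le (by positivity) hTn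
  have hTL : T * (2 ^ n * V1 n) = L ^ n := by
    rw [hT]
    unfold TT
    field_simp
  have he3 : Real.exp 1 ≤ 3 := by linarith [Real.exp_one_lt_d9]
  -- the radius
  obtain ⟨t, ht⟩ : ∃ t : ℝ, t = a * Real.exp (1 / n) := ⟨_, rfl⟩
  have ht0 : 0 < t := by rw [ht]; positivity
  have he1 : 1 ≤ Real.exp (1 / (n : ℝ)) := Real.one_le_exp (by positivity)
  have he2 : Real.exp (1 / (n : ℝ)) ≤ 3 := by
    refine le_trans (Real.exp_le_exp.2 ?_) he3
    rw [div_le_one hn0]
    linarith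
  have ht3 : t ≤ 3 * a := by
    rw [ht]
    nlinarith
  have htn : t ^ n = a ^ n * Real.exp 1 := by
    rw [ht, mul_pow, ← Real.exp_nat_mul]
    congr 2
    field_simp
  have h1t : (1 + t) ^ n ≤ 3 * (1 + a) ^ n := by
    have h1 : 1 + t ≤ (1 + a) * Real.exp (1 / n) := by
      rw [ht]
      nlinarith
    calc (1 + t) ^ n ≤ ((1 + a) * Real.exp (1 / n)) ^ n := pow_le_pow_left₀ (by positivity) h1 n
      _ = (1 + a) ^ n * Real.exp 1 := by
          rw [mul_pow, ← Real.exp_nat_mul]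
          congr 2
          field_simp
      _ ≤ 3 * (1 + a) ^ n := by
          rw [mul_comm]
          gcongr
  have h1t0 : 0 < (1 + t) ^ n := by positivity
  -- the shrinked cube
  have h2t : 2 * t * n ≤ L / 2 := by nlinarith
  have h2tL : 2 * t < L := by nlinarith
  have hLt : L ^ n / 2 ≤ (L - 2 * t) ^ n := by
    have h1 := one_add_mul_le_pow (a := -(2 * t / L)) (by
      have : 2 * t / L ≤ 1 := by rw [div_le_one hL0]; linarith
      linarith) n
    have h2 : (1 : ℝ) / 2 ≤ 1 + n * -(2 * t / L) := by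
      have : (n : ℝ) * (2 * t / L) ≤ 1 / 2 := by
        rw [← mul_div_assoc, div_le_iff₀ hL0]
        linarith
      linarith
    have h3 : (L - 2 * t) ^ n = L ^ n * (1 + -(2 * t / L)) ^ n := by
      rw [← mul_pow]
      congr 1
      field_simp
      ring
    rw [h3]
    have h4 := mul_le_mul_of_nonneg_left (h2.trans h1) hLn.le
    linarith
  have hLt2 : (L - 2 * t) ^ n ≤ L ^ n := pow_le_pow_left₀ (by linarith) (by linarith) n
  have hLt0 : 0 < (L - 2 * t) ^ n := by positivity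
  -- the number of points
  obtain ⟨y, hy⟩ : ∃ y : ℝ, y = rho n * (L - 2 * t) ^ n / (2 * (1 + t) ^ n * V1 n) := ⟨_, rfl⟩
  have hyV : rho n * (L - 2 * t) ^ n = y * (2 * (1 + t) ^ n * V1 n) := by
    rw [hy]
    field_simp
  have hy1 : 1 ≤ y := by
    rw [hy, le_div_iff₀ (by positivity), one_mul]
    have h12 : 12 * (1 + a) ^ n ≤ T := by
      refine le_trans ?_ hTn
      calc 12 * (1 + a) ^ n = 12 ^ 1 * (1 + a) ^ n := by ring
        _ ≤ 12 ^ n * (1 + a) ^ n := by
            gcongr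
            · norm_num
            · omega
        _ = (12 * (1 + a)) ^ n := by rw [mul_pow]
        _ ≤ (n : ℝ) ^ n := pow_le_pow_left₀ (by positivity) hn1 n
    calc 2 * (1 + t) ^ n * V1 n ≤ 2 * (3 * (1 + a) ^ n) * V1 n := by gcongr
      _ = 12 * (1 + a) ^ n * V1 n / 2 := by ring
      _ ≤ T * V1 n / 2 := by gcongr
      _ = (1 / 2 : ℝ) ^ n * (L ^ n / 2) := by
          rw [← hTL, one_div, inv_pow]
          field_simp
      _ ≤ rho n * (L - 2 * t) ^ n := by gcongr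
  obtain ⟨k, hk⟩ : ∃ k : ℕ, k = ⌊y⌋₊ := ⟨_, rfl⟩
  obtain ⟨hk1, hk2, hk3⟩ := half_floor hy1
  rw [← hk] at hk1 hk2 hk3
  have hk0 : (0 : ℝ) < k := by exact_mod_cast hk3
  have hconf := conf_dense (n := n) (k := k) ht0 h2tL (by
    rw [hyV]
    calc 2 * (k : ℝ) * ((1 + t) ^ n * V1 n) ≤ 2 * y * ((1 + t) ^ n * V1 n) := by gcongr
      _ = y * (2 * (1 + t) ^ n * V1 n) := by ring)
  have hcy : rho n * (L - 2 * t) ^ n * t ^ n / (2 * (1 + t) ^ n) = y * V1 n * t ^ n := by
    rw [hyV]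
    field_simp
  rw [hcy] at hconf
  have h2a : (2 : ℝ) ^ (κ * n) * a ^ n = 1 := by
    rw [ha, ← Real.rpow_natCast ((2 : ℝ) ^ (-κ)), ← Real.rpow_mul (by norm_num),
      ← Real.rpow_add (by norm_num)]
    have : κ * n + -κ * n = 0 := by ring
    rw [this, Real.rpow_zero]
  have hge := hsD_ge (lam := fug n κ) hn hL0 (fug_pos n κ) hk3 (c := y * V1 n * t ^ n) (by positivity)
    (by
      have h1 : y * V1 n * t ^ n = rho n * (L - 2 * t) ^ n * (t ^ n / (2 * (1 + t) ^ n)) := by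
        rw [← hcy]
        ring
      have h2 : t ^ n / (2 * (1 + t) ^ n) ≤ 1 := by
        rw [div_le_one (by positivity)]
        have : t ^ n ≤ (1 + t) ^ n := pow_le_pow_left₀ ht0.le (by linarith) n
        linarith
      rw [h1]
      calc rho n * (L - 2 * t) ^ n * (t ^ n / (2 * (1 + t) ^ n)) ≤ 1 * L ^ n * 1 := by gcongr
        _ = L ^ n := by ring) hconf (by
      calc Real.exp 1 * k ≤ Real.exp 1 * y := by gcongr
        _ = y * ((2 : ℝ) ^ (κ * n) * a ^ n) * Real.exp 1 := by rw [h2a]; ring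
        _ = fug n κ * (y * V1 n * t ^ n) := by
            rw [htn]
            unfold fug
            field_simp) hC0 (by
      rw [pow_zero, mul_one, one_mul] at hp1
      have h5 : L ^ n ≤ 2 * (L - 2 * t) ^ n := by linarith
      have h6 : 1 ≤ rho n * 2 ^ n := by
        have := mul_le_mul_of_nonneg_right hρ2 (show (0 : ℝ) ≤ 2 ^ n by positivity)
        rwa [← mul_pow, one_div, inv_mul_cancel₀ (by norm_num), one_pow] at this
      have hfug := fug_pos n κ
      have h7 : 2 * fug n κ * L ^ n ≤ 2 * fug n κ * (2 * (y * (2 * (1 + t) ^ n * V1 n) * 2 ^ n)) := by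
        rw [← hyV]
        have h8 : L ^ n ≤ 2 * (rho n * (L - 2 * t) ^ n * 2 ^ n) := by
          calc L ^ n ≤ 2 * (L - 2 * t) ^ n := h5
            _ = 2 * (1 * (L - 2 * t) ^ n) := by ring
            _ ≤ 2 * (rho n * 2 ^ n * (L - 2 * t) ^ n) := by gcongr
            _ = 2 * (rho n * (L - 2 * t) ^ n * 2 ^ n) := by ring
        gcongr
      calc 2 * fug n κ * L ^ n / k ≤ 2 * fug n κ * L ^ n / (y / 2) := by gcongr
        _ ≤ 2 * fug n κ * (2 * (y * (2 * (1 + t) ^ n * V1 n) * 2 ^ n)) / (y / 2) := by gcongr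
        _ = 16 * ((2 : ℝ) ^ (κ * n) * 2 ^ n) * (1 + t) ^ n := by
            unfold fug
            field_simp
            ring
        _ ≤ 16 * ((2 : ℝ) ^ (κ * n) * 2 ^ n) * (3 * (1 + a) ^ n) := by gcongr
        _ = 48 * ((2 : ℝ) ^ (κ * n) * 2 ^ n) * (1 + a) ^ n := by ring
        _ ≤ Real.exp n * ((2 : ℝ) ^ (κ * n) * 2 ^ n) * (1 + a) ^ n := by gcongr
        _ = Real.exp (C * n) := by
            have h9 : (1 + a) ^ n = Real.exp (Real.log (1 + a) * n) := by
              rw [mul_comm, Real.exp_nat_mul, Real.exp_log (by linarith)]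
            rw [h9, ← Real.rpow_natCast 2 n, ← Real.rpow_add (by norm_num), two_rpow,
              ← Real.exp_add, ← Real.exp_add, hC]
            congr 1
            ring)
  refine le_trans ?_ hge
  rw [pow_one] at hp2
  have e1 : (2 : ℝ) ^ (-((rate n + Real.logb 2 (1 + a) + ε) * n)) =
      (Real.exp (ε * Real.log 2 * n))⁻¹ * (rho n * ((1 + a) ^ n)⁻¹) := by
    have h9 : ((1 + a) ^ n)⁻¹ = Real.exp (-(Real.log (1 + a) * n)) := by
      rw [Real.exp_neg, mul_comm (Real.log (1 + a)), Real.exp_nat_mul, Real.exp_log (by linarith)]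
    rw [h9, rho_rate hn, two_rpow, two_rpow, ← Real.exp_neg, ← Real.exp_add, ← Real.exp_add]
    congr 1
    unfold Real.logb
    field_simp
    ring
  rw [e1]
  have h1a : 0 < (1 + a) ^ n := by positivity
  calc (Real.exp (ε * Real.log 2 * n))⁻¹ * (rho n * ((1 + a) ^ n)⁻¹) ≤
      (48 * C * n)⁻¹ * (rho n * ((1 + a) ^ n)⁻¹) := by gcongr
    _ = rho n * (L ^ n / 2) / (8 * C * n * (3 * (1 + a) ^ n) * L ^ n) := by
        field_simp
        ring
    _ ≤ rho n * (L - 2 * t) ^ n / (8 * C * n * (1 + t) ^ n * L ^ n) := by gcongr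
    _ = V1 n * (y / 2) / (2 * C * n * L ^ n) := by
        rw [hyV]
        field_simp
        ring
    _ ≤ V1 n * k / (2 * C * n * L ^ n) := by gcongr

end Pool.Agent.N628.EP
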