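import Pool.Agent.N628.EP.K2
import Pool.Agent.N628.EP.M3

/-!
N628/EP: the density of the hard sphere model at exponential fugacity: the upper bound.
-/

set_option autoImplicit false

open MeasureTheory Set Real Metric Filter Topology

namespace Pool.Agent.N628.EP

open Pool.Agent.Y509.LS
open Pool.Agent.H818R2 (rho Sep rate)

variable {n : ℕ} {L lam : ℝ}

/-- **upper bound for the density of the hard sphere model** -/
theorem hs_upper2 (κ : ℝ) {ε : ℝ} (hε : 0 < ε) : ∀ᶠ n : ℕ in atTop, ∀ L : ℝ, (n : ℝ) ^ 2 ≤ L →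
    hsD n L (fug n κ) ≤ (2 : ℝ) ^ (-((min 1 ((1 + be - κ) / 2) - ε) * n)) := by
  have hl2 : 0 < Real.log 2 := Real.log_pos (by norm_num)
  obtain ⟨x, hx⟩ : ∃ x : ℝ, x = ε / 2 := ⟨_, rfl⟩
  have hx0 : 0 < x := by rw [hx]; positivity
  filter_upwards [rare2 hx0, eventually_gt_atTop 36, poly_ev 7 0 (mul_pos hx0 hl2)]
    with n hrare hn36 hp L hL
  have hn : 0 < n := by omega
  have hn' : (36 : ℝ) < n := by exact_mod_cast hn36
  have hn0 : (0 : ℝ) < n := by linarith
  have hL0 : 0 < L := lt_of_lt_of_le (by positivity) hL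
  have hV := V1_pos n
  have hLn : 0 < L ^ n := by positivity
  obtain ⟨T, hT⟩ : ∃ T : ℝ, T = TT n L := ⟨_, rfl⟩
  have hTn : (n : ℝ) ≤ T := by rw [hT]; exact TT_large hn36 hL
  have hT0 : 0 < T := by linarith
  have hTL : T * (2 ^ n * V1 n) = L ^ n := by
    rw [hT]
    unfold TT
    field_simp
  have hrare' := hrare L hL
  rw [← hT] at hrare'
  rw [pow_zero, mul_one] at hp
  obtain ⟨m, hm⟩ : ∃ m : ℝ, m = min 1 ((1 + be - κ) / 2) := ⟨_, rfl⟩
  have hm1 : m ≤ 1 := by rw [hm]; exact min_le_left _ _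
  have hm2 : m ≤ (1 + be - κ) / 2 := by rw [hm]; exact min_le_right _ _
  rw [← hm]
  obtain ⟨y, hy⟩ : ∃ y : ℝ, y = (2 : ℝ) ^ ((1 + κ - be + x) * n / 2) := ⟨_, rfl⟩
  have hy0 : 0 < y := by rw [hy]; positivity
  obtain ⟨K, hK⟩ : ∃ K : ℝ, K = T * ((2 : ℝ) ^ (x * n) + 4 * y) := ⟨_, rfl⟩
  have hK0 : 0 < K := by rw [hK]; positivity
  have hfug : fug n κ * L ^ n = (2 : ℝ) ^ ((κ + 1) * n) * T := by
    unfold fug
    have h1 : (2 : ℝ) ^ ((κ + 1) * n) = (2 : ℝ) ^ (κ * n) * 2 ^ n := by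
      rw [← Real.rpow_natCast 2 n, ← Real.rpow_add (by norm_num)]
      congr 1
      ring
    rw [h1, ← hTL]
    field_simp
  have h1 : hsM n L (fug n κ) ≤ K + 2 := by
    refine hsM_upper hL0 (fug_pos n κ).le hK0.le fun k hk => ?_
    have hk0 : (0 : ℝ) < k := lt_trans hK0 hk
    have hkx : (2 : ℝ) ^ (x * n) * T ≤ k := by
      refine le_trans ?_ hk.le
      rw [hK]
      nlinarith [mul_pos hT0 hy0]
    have hky : 4 * y * T ≤ k := by
      refine le_trans ?_ hk.le
      rw [hK]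
      have : 0 < T * (2 : ℝ) ^ (x * n) := by positivity
      nlinarith
    have h2 := hrare' k hkx
    rw [div_le_iff₀ (by positivity)] at h2
    have hkf : (0 : ℝ) < k.factorial := by exact_mod_cast Nat.factorial_pos k
    have h3 : (k : ℝ) ^ k / k.factorial ≤ Real.exp k := Real.pow_div_factorial_le_exp _ hk0.le k
    have hf := fug_pos n κ
    have h4 : ut n L (fug n κ) k ≤ (1 / 4) ^ k := by
      unfold ut
      calc fug n κ ^ k / k.factorial * volume.real (conf n k L) ≤
          fug n κ ^ k / k.factorial * (((2 : ℝ) ^ (-((be - x) * n)) * T / k) ^ k * (L ^ n) ^ k) := by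
            gcongr
        _ = ((fug n κ * L ^ n) * ((2 : ℝ) ^ (-((be - x) * n)) * T) / k ^ 2) ^ k *
              ((k : ℝ) ^ k / k.factorial) := by
            generalize (2 : ℝ) ^ (-((be - x) * n)) * T = s
            generalize fug n κ = A
            generalize L ^ n = B
            rw [div_pow, div_pow, mul_pow, mul_pow, sq (k : ℝ), mul_pow (k : ℝ) k]
            field_simp
        _ ≤ ((fug n κ * L ^ n) * ((2 : ℝ) ^ (-((be - x) * n)) * T) / k ^ 2) ^ k * Real.exp 1 ^ k := by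
            have h5 : Real.exp 1 ^ k = Real.exp k := by
              rw [← Real.exp_nat_mul]
              congr 1
              ring
            rw [h5]
            gcongr
        _ = ((fug n κ * L ^ n) * ((2 : ℝ) ^ (-((be - x) * n)) * T) / k ^ 2 * Real.exp 1) ^ k := by
            rw [mul_pow]
        _ ≤ (1 / 4) ^ k := by
            refine pow_le_pow_left₀ (by positivity) ?_ k
            rw [hfug]
            have h5 : (2 : ℝ) ^ ((κ + 1) * n) * (2 : ℝ) ^ (-((be - x) * n)) = y ^ 2 := by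
              rw [hy, ← Real.rpow_add (by norm_num), ← Real.rpow_natCast, ← Real.rpow_mul (by norm_num)]
              congr 1
              push_cast
              ring
            have h6 : (2 : ℝ) ^ ((κ + 1) * n) * T * ((2 : ℝ) ^ (-((be - x) * n)) * T) / k ^ 2 *
                Real.exp 1 = (y * T) ^ 2 * Real.exp 1 / k ^ 2 := by
              rw [mul_pow, ← h5]
              ring
            rw [h6, div_le_iff₀ (by positivity)]
            have h7 : (4 * y * T) ^ 2 ≤ (k : ℝ) ^ 2 := pow_le_pow_left₀ (by positivity) hky 2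
            have h8 : Real.exp 1 ≤ 4 := by linarith [Real.exp_one_lt_d9]
            have h9 : 0 ≤ (y * T) ^ 2 := by positivity
            nlinarith
    have h5 : (k : ℝ) ≤ 2 ^ k := by exact_mod_cast Nat.lt_two_pow_self.le
    calc (k : ℝ) * ut n L (fug n κ) k ≤ 2 ^ k * (1 / 4) ^ k := by
          have := ut_nonneg (n := n) (L := L) hf.le k
          gcongr
      _ = (1 / 2) ^ k := by rw [← mul_pow]; norm_num
  unfold hsD
  have h2 : V1 n * hsM n L (fug n κ) / L ^ n ≤ V1 n * (K + 2) / L ^ n := by gcongr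
  refine h2.trans ?_
  have h3 : V1 n * (K + 2) / L ^ n = (1 / 2 ^ n) * ((2 : ℝ) ^ (x * n) + 4 * y + 2 / T) := by
    rw [← hTL, hK]
    field_simp
  rw [h3]
  obtain ⟨z, hz⟩ : ∃ z : ℝ, z = (2 : ℝ) ^ (-(m * n)) := ⟨_, rfl⟩
  have hz0 : 0 < z := by rw [hz]; positivity
  have h4 : (1 : ℝ) / 2 ^ n ≤ z := by
    rw [hz, one_div, ← Real.rpow_natCast, ← Real.rpow_neg (by norm_num)]
    refine Real.rpow_le_rpow_of_exponent_le (by norm_num) ?_
    have : m * n ≤ 1 * n := by gcongr
    linarith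
  obtain ⟨w, hw⟩ : ∃ w : ℝ, w = (2 : ℝ) ^ (x * n) := ⟨_, rfl⟩
  have hw1 : 7 ≤ w := by
    rw [hw, two_rpow]
    refine hp.trans (le_of_eq ?_)
    congr 1
    ring
  have h5 : (1 : ℝ) / 2 ^ n * y ≤ z * w := by
    rw [hz, hw, hy, one_div, ← Real.rpow_natCast, ← Real.rpow_neg (by norm_num),
      ← Real.rpow_add (by norm_num), ← Real.rpow_add (by norm_num)]
    refine Real.rpow_le_rpow_of_exponent_le (by norm_num) ?_
    have h6 : m * n ≤ (1 + be - κ) / 2 * n := by gcongr
    have h7 : 0 < x * n := by positivity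
    nlinarith
  have h6 : 2 / T ≤ 2 := by
    rw [div_le_iff₀ hT0]
    linarith
  have h7 : (2 : ℝ) ^ (-((m - ε) * n)) = z * w ^ 2 := by
    rw [hz, hw, ← Real.rpow_natCast, ← Real.rpow_mul (by norm_num), ← Real.rpow_add (by norm_num)]
    congr 1
    rw [hx]
    push_cast
    ring
  rw [h7, ← hw]
  have h8 : (1 : ℝ) / 2 ^ n * (w + 4 * y + 2 / T) ≤ z * w + 4 * (z * w) + z * 2 := by
    have e1 : (1 : ℝ) / 2 ^ n * w ≤ z * w := by gcongr
    have e2 : (1 : ℝ) / 2 ^ n * (2 / T) ≤ z * 2 := by gcongr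
    linarith
  have h9 : 0 < z * w := by positivity
  nlinarith

end Pool.Agent.N628.EP
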