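import Pool.Agent.N628.EP.A3
import Pool.Agent.N628.EP.J5

/-!
N628/EP: the pressure and the density of the hard sphere model.
-/

set_option autoImplicit false

open MeasureTheory Set Real Metric Filter Topology

namespace Pool.Agent.N628.EP

open Pool.Agent.Y509.LS

variable {n : ℕ} {L lam : ℝ}

/-- convexity of the pressure -/
lemma hsM_conv (hL : 0 < L) {lam₀ : ℝ} (h0 : 0 < lam₀) (hlam : 0 < lam) :
    Real.log (hsZ n L lam) - Real.log (hsZ n L lam₀) ≤ hsM n L lam * Real.log (lam / lam₀) := by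
  obtain ⟨M, hM⟩ : ∃ M : ℝ, M = hsM n L lam := ⟨_, rfl⟩
  obtain ⟨s, hs⟩ : ∃ s : ℝ, s = Real.log (lam / lam₀) := ⟨_, rfl⟩
  have hZ := one_le_hsZ (n := n) hL hlam.le
  have hZ0 := one_le_hsZ (n := n) hL h0.le
  have hes : Real.exp (-s) = lam₀ / lam := by
    rw [hs, Real.exp_neg, Real.exp_log (by positivity), inv_div]
  have h1 : ∀ k : ℕ, Real.exp (-(M * s)) * (1 + M * s) * ut n L lam k -
      Real.exp (-(M * s)) * s * (k * ut n L lam k) ≤ ut n L lam₀ k := by
    intro k
    have h2 : ut n L lam₀ k = Real.exp (-(k * s)) * ut n L lam k := by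
      unfold ut
      have h3 : Real.exp (-(k * s)) = (lam₀ / lam) ^ k := by
        rw [← hes, ← Real.exp_nat_mul]
        congr 1
        ring
      rw [h3, div_pow]
      field_simp
    have h3 : Real.exp (-(M * s)) * (1 - s * (k - M)) ≤ Real.exp (-(k * s)) := by
      have h4 : Real.exp (-(k * s)) = Real.exp (-(M * s)) * Real.exp (-(s * (k - M))) := by
        rw [← Real.exp_add]
        congr 1
        ring
      rw [h4]
      refine mul_le_mul_of_nonneg_left ?_ (Real.exp_pos _).le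
      have := Real.add_one_le_exp (-(s * (k - M)))
      linarith
    rw [h2]
    have h4 := mul_le_mul_of_nonneg_right h3 (ut_nonneg (n := n) (L := L) hlam.le k)
    refine le_trans (le_of_eq ?_) h4
    ring
  have hsum := ut_summable (n := n) hL hlam.le
  have hsum0 := ut_summable (n := n) hL h0.le
  have hks := kut_summable (n := n) hL hlam.le
  have h2 := ((hsum.mul_left (Real.exp (-(M * s)) * (1 + M * s))).sub
    (hks.mul_left (Real.exp (-(M * s)) * s))).tsum_le_tsum h1 hsum0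
  rw [(hsum.mul_left _).tsum_sub (hks.mul_left _), tsum_mul_left, tsum_mul_left, ← hsZ_eq,
    ← hsZ_eq] at h2
  have h3 : ∑' k : ℕ, (k : ℝ) * ut n L lam k = M * hsZ n L lam := by
    rw [hM, hsM_eq]
    field_simp
  rw [h3] at h2
  have h4 : Real.exp (-(M * s)) * hsZ n L lam ≤ hsZ n L lam₀ := by
    refine le_trans (le_of_eq ?_) h2
    ring
  have h5 := Real.log_le_log (by positivity) h4
  rw [Real.log_mul (Real.exp_pos _).ne' (by linarith), Real.log_exp] at h5
  rw [← hM, ← hs]
  linarith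

lemma log_lm (n : ℕ) (u u' : ℝ) : Real.log (lm n u / lm n u') = (u - u') * n := by
  have := V1_pos n
  have h1 : lm n u / lm n u' = Real.exp ((u - u') * n) := by
    have h2 : Real.exp ((u - u') * n) = Real.exp (u * n) / Real.exp (u' * n) := by
      rw [← Real.exp_sub]
      congr 1
      ring
    unfold lm
    rw [h2]
    field_simp
  rw [h1, Real.log_exp]

lemma hsZ_mono (hL : 0 < L) {lam₀ : ℝ} (h0 : 0 ≤ lam₀) (h : lam₀ ≤ lam) :
    hsZ n L lam₀ ≤ hsZ n L lam := by
  rw [hsZ_eq, hsZ_eq]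
  refine (ut_summable hL h0).tsum_le_tsum (fun k => ?_) (ut_summable hL (h0.trans h))
  unfold ut
  have : 0 ≤ volume.real (conf n k L) := measureReal_nonneg
  gcongr

lemma lm_mono (n : ℕ) {u u' : ℝ} (h : u ≤ u') : lm n u ≤ lm n u' := by
  have := V1_pos n
  unfold lm
  gcongr

/-- the terms -/
lemma ut_lm (hL : 0 < L) (u : ℝ) (k : ℕ) : ut n L (lm n u) k =
    (Real.exp (u * n) * TT n L) ^ k / k.factorial * (volume.real (conf n k L) / (L ^ n) ^ k) := by
  have hV := V1_pos n
  have hLn : 0 < L ^ n := by positivity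
  have h1 : lm n u = Real.exp (u * n) * TT n L / L ^ n := by
    unfold lm TT
    field_simp
  unfold ut
  rw [h1, div_pow]
  field_simp

lemma ut_le_rare (hL : 0 < L) {u v ε : ℝ} {k : ℕ}
    (h : volume.real (conf n k L) / (L ^ n) ^ k ≤
      Real.exp (-(n * (v * k - 1 / 2 * (v ^ 2 + ε) * n * TT n L)))) :
    ut n L (lm n u) k ≤ TT n L ^ k / k.factorial *
      (Real.exp ((u - v) * n * k) * Real.exp (1 / 2 * (v ^ 2 + ε) * n ^ 2 * TT n L)) := by
  have hV := V1_pos n
  have hT0 : 0 < TT n L := by unfold TT; positivity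
  rw [ut_lm hL]
  calc (Real.exp (u * n) * TT n L) ^ k / k.factorial * (volume.real (conf n k L) / (L ^ n) ^ k) ≤
      (Real.exp (u * n) * TT n L) ^ k / k.factorial *
        Real.exp (-(n * (v * k - 1 / 2 * (v ^ 2 + ε) * n * TT n L))) := by gcongr
    _ = TT n L ^ k / k.factorial * (Real.exp (u * n * k) *
        Real.exp (-(n * (v * k - 1 / 2 * (v ^ 2 + ε) * n * TT n L)))) := by
        have h1 : Real.exp (u * n * k) = Real.exp (u * n) ^ k := by
          rw [← Real.exp_nat_mul]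
          congr 1
          ring
        rw [h1, mul_pow]
        ring
    _ = _ := by
        rw [← Real.exp_add, ← Real.exp_add]
        congr 2
        ring

lemma tsum_TT (T : ℝ) : ∑' k : ℕ, T ^ k / k.factorial = Real.exp T := by
  rw [Real.exp_eq_exp_ℝ, NormedSpace.exp_eq_tsum_div]

/-- **upper bound for the pressure** -/
theorem press_upper {ε : ℝ} (hε : 0 < ε) (hεb : ε < b0) : ∀ᶠ n : ℕ in atTop, ∀ L : ℝ,
    (n : ℝ) ^ 2 ≤ L → ∀ u : ℝ, 0 ≤ u → u ≤ b0 - ε →
      Real.log (hsZ n L (lm n u)) ≤ 1 / 2 * (u ^ 2 + ε) * n ^ 2 * TT n L := by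
  have hb := b0_lt
  filter_upwards [rare3 (ε := ε / 2) (by positivity) (by linarith), ev_lin (4 / ε),
    eventually_gt_atTop 36] with n hrare hn1 hn36 L hL u hu0 hu
  have hn' : (36 : ℝ) < n := by exact_mod_cast hn36
  have hn0 : (0 : ℝ) < n := by linarith
  have hL0 : 0 < L := lt_of_lt_of_le (by positivity) hL
  have hT0 : 0 < TT n L := lt_of_lt_of_le hn0 (TT_large hn36 hL)
  have hlm := lm_pos n u
  have hZ1 := one_le_hsZ (n := n) hL0 hlm.le
  obtain ⟨X, hX⟩ : ∃ X : ℝ, X = Real.exp (1 / 2 * (u ^ 2 + ε / 2) * n ^ 2 * TT n L) := ⟨_, rfl⟩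
  have h1 : ∀ k : ℕ, ut n L (lm n u) k ≤ TT n L ^ k / k.factorial * X := by
    intro k
    have h2 := ut_le_rare (u := u) hL0 (hrare L hL u hu0 (by linarith) k)
    rw [sub_self, zero_mul, zero_mul, Real.exp_zero, one_mul, ← hX] at h2
    exact h2
  have h2 : hsZ n L (lm n u) ≤ Real.exp (TT n L) * X := by
    rw [hsZ_eq, ← tsum_TT, ← tsum_mul_right]
    exact (ut_summable hL0 hlm.le).tsum_le_tsum h1 ((Real.summable_pow_div_factorial _).mul_right X)
  have h3 := Real.log_le_log (by linarith) h2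
  rw [hX, ← Real.exp_add, Real.log_exp] at h3
  refine h3.trans ?_
  have h4 : TT n L ≤ 1 / 4 * ε * n ^ 2 * TT n L := by
    rw [div_le_iff₀ hε] at hn1
    have h5 : 1 ≤ 1 / 4 * ε * n ^ 2 := by nlinarith
    nlinarith
  linarith

/-- **lower bound for the pressure**, up to the end point -/
theorem press_lower' {ε : ℝ} (hε : 0 < ε) : ∀ᶠ n : ℕ in atTop, ∀ L : ℝ, (n : ℝ) ^ 2 ≤ L →
    ∀ u : ℝ, 0 ≤ u → u ≤ u1 →
      1 / 2 * (u ^ 2 - ε) * n ^ 2 * TT n L ≤ Real.log (hsZ n L (lm n u)) := by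
  have hu1 := u1_lt
  filter_upwards [press_lower (ε := ε / 2) (by positivity), eventually_gt_atTop 36]
    with n hlow hn36 L hL u hu0 hu
  have hn' : (36 : ℝ) < n := by exact_mod_cast hn36
  have hn0 : (0 : ℝ) < n := by linarith
  have hL0 : 0 < L := lt_of_lt_of_le (by positivity) hL
  have hT0 : 0 < TT n L := lt_of_lt_of_le hn0 (TT_large hn36 hL)
  have hlm := lm_pos n u
  rcases le_or_gt u (ε / 2) with h | h
  · have hZ1 := one_le_hsZ (n := n) hL0 hlm.le
    refine le_trans ?_ (Real.log_nonneg hZ1)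
    have h1 : u ^ 2 ≤ ε := by nlinarith
    have h2 : 0 ≤ (ε - u ^ 2) * n ^ 2 * TT n L := by
      have : 0 ≤ ε - u ^ 2 := by linarith
      positivity
    linarith
  · have h1 := hlow L hL (u - ε / 2) (by linarith) (by linarith)
    have h2 : hsZ n L (lm n (u - ε / 2)) ≤ hsZ n L (lm n u) :=
      hsZ_mono hL0 (lm_pos n _).le (lm_mono n (by linarith))
    have h3 := Real.log_le_log (lt_of_lt_of_le one_pos (one_le_hsZ (n := n) hL0 (lm_pos n _).le)) h2
    refine le_trans ?_ (h1.trans h3)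
    have h4 : u ^ 2 - ε ≤ (u - ε / 2) ^ 2 - ε / 2 := by nlinarith
    gcongr

lemma u1_pos : 0 < u1 := by
  unfold u1
  refine Real.log_pos ?_
  rw [lt_div_iff₀ (by positivity), one_mul, Real.sqrt_lt' (by norm_num)]
  norm_num

lemma u1_lt_b0 : u1 < b0 := by
  unfold u1 b0
  rw [Real.log_div (by norm_num) (by positivity), Real.log_sqrt (by norm_num)]
  have h1 : Real.log (8 / 3) < 1 := by
    rw [Real.log_lt_iff_lt_exp (by norm_num)]
    linarith [Real.exp_one_gt_d9]
  have h2 : Real.log (8 / 3) = 3 * Real.log 2 - Real.log 3 := by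
    rw [Real.log_div (by norm_num) (by norm_num)]
    have : (8 : ℝ) = 2 ^ 3 := by norm_num
    rw [this, Real.log_pow]
    norm_num
  linarith

/-- **the density of the hard sphere model** -/
theorem mean_asymp {ε : ℝ} (hε : 0 < ε) : ∀ᶠ n : ℕ in atTop, ∀ L : ℝ, (n : ℝ) ^ 2 ≤ L →
    ∀ u : ℝ, 0 ≤ u → u ≤ u1 → |hsM n L (lm n u) - u * n * TT n L| ≤ ε * n * TT n L := by
  have hu1 := u1_lt
  have hb : u1 < b0 := u1_lt_b0
  obtain ⟨δ, hδ⟩ : ∃ δ : ℝ, δ = min (ε / 2) (min ((b0 - u1) / 2) 1) := ⟨_, rfl⟩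
  have hbu : 0 < b0 - u1 := by linarith
  have hδ0 : 0 < δ := by rw [hδ]; positivity
  have hδε : δ ≤ ε / 2 := by rw [hδ]; exact min_le_left _ _
  have hδb : δ ≤ (b0 - u1) / 2 := by rw [hδ]; exact (min_le_right _ _).trans (min_le_left _ _)
  have hδ1 : δ ≤ 1 := by rw [hδ]; exact (min_le_right _ _).trans (min_le_right _ _)
  have hε' : 0 < min (δ ^ 2) (b0 - u1 - δ) := lt_min (by positivity) (by linarith)
  obtain ⟨ε', hε''⟩ : ∃ ε' : ℝ, ε' = min (δ ^ 2) (b0 - u1 - δ) := ⟨_, rfl⟩
  rw [← hε''] at hε'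
  have hε1 : ε' ≤ δ ^ 2 := by rw [hε'']; exact min_le_left _ _
  have hε2 : ε' ≤ b0 - u1 - δ := by rw [hε'']; exact min_le_right _ _
  have hu1p := u1_pos
  filter_upwards [press_upper hε' (by linarith), press_lower' hε',
    eventually_gt_atTop 36] with n hup hlow hn36 L hL u hu0 hu
  have hn' : (36 : ℝ) < n := by exact_mod_cast hn36
  have hn0 : (0 : ℝ) < n := by linarith
  have hL0 : 0 < L := lt_of_lt_of_le (by positivity) hL
  obtain ⟨T, hT⟩ : ∃ T : ℝ, T = TT n L := ⟨_, rfl⟩
  have hT0 : 0 < T := by rw [hT]; exact lt_of_lt_of_le hn0 (TT_large hn36 hL)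
  have hlm := lm_pos n u
  have hM0 := hsM_nonneg (n := n) hL0 hlm.le
  rw [← hT]
  rw [abs_le]
  have hnT : 0 < n * T := by positivity
  constructor
  · -- lower bound
    rcases le_or_gt u δ with h | h
    · have h1 : u * n * T ≤ ε * n * T := by
        gcongr
        linarith
      linarith
    · have h1 := hsM_conv (n := n) (lam := lm n u) (lam₀ := lm n (u - δ)) hL0 (lm_pos n _) hlm
      rw [log_lm] at h1
      have h2 := hlow L hL u hu0 hu
      have h3 := hup L hL (u - δ) (by linarith) (by linarith)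
      rw [← hT] at h2 h3
      have h4 : (u - δ - δ) * n * T ≤ hsM n L (lm n u) := by
        have h5 : δ * n * ((u - δ - δ) * n * T) ≤ δ * n * hsM n L (lm n u) := by
          have h6 : 1 / 2 * (u ^ 2 - ε') * n ^ 2 * T - 1 / 2 * ((u - δ) ^ 2 + ε') * n ^ 2 * T =
              (u * δ - δ ^ 2 / 2 - ε') * (n ^ 2 * T) := by ring
          have h7 : δ * (u - δ - δ) * (n ^ 2 * T) ≤ (u * δ - δ ^ 2 / 2 - ε') * (n ^ 2 * T) := by
            apply mul_le_mul_of_nonneg_right _ (by positivity)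
            nlinarith
          have h8 : u - (u - δ) = δ := by ring
          rw [h8] at h1
          linarith
        exact le_of_mul_le_mul_left h5 (by positivity)
      have h5 : 2 * δ * n * T ≤ ε * n * T := by
        gcongr
        linarith
      linarith
  · have h1 := hsM_conv (n := n) (lam := lm n u) (lam₀ := lm n (u + δ)) hL0 (lm_pos n _) hlm
    rw [log_lm] at h1
    have h2 := hlow L hL u hu0 hu
    have h3 := hup L hL (u + δ) (by linarith) (by linarith)
    rw [← hT] at h2 h3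
    have h4 : hsM n L (lm n u) ≤ (u + δ + δ) * n * T := by
      have h5 : δ * n * hsM n L (lm n u) ≤ δ * n * ((u + δ + δ) * n * T) := by
        have h6 : 1 / 2 * ((u + δ) ^ 2 + ε') * n ^ 2 * T - 1 / 2 * (u ^ 2 - ε') * n ^ 2 * T =
            (u * δ + δ ^ 2 / 2 + ε') * (n ^ 2 * T) := by ring
        have h7 : (u * δ + δ ^ 2 / 2 + ε') * (n ^ 2 * T) ≤ δ * (u + δ + δ) * (n ^ 2 * T) := by
          apply mul_le_mul_of_nonneg_right _ (by positivity)
          nlinarith
        have h8 : u - (u + δ) = -δ := by ring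
        rw [h8] at h1
        linarith
      exact le_of_mul_le_mul_left h5 (by positivity)
    have h5 : 2 * δ * n * T ≤ ε * n * T := by
      gcongr
      linarith
    linarith

end Pool.Agent.N628.EP
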