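import Pool.Agent.N628.EP.K4

/-!
N628/EP: the entropy of packings.
-/

set_option autoImplicit false

open MeasureTheory Set Real Metric Filter Topology

namespace Pool.Agent.N628.EP

open Pool.Agent.Y509.LS

variable {n : ℕ} {L lam : ℝ}

/-- deleting a point -/
lemma conf_step (hL : 0 < L) (k : ℕ) :
    volume.real (conf n (k + 1) L) ≤ L ^ n * volume.real (conf n k L) := by
  obtain ⟨e, he⟩ : ∃ e, e = (MeasurableEquiv.piFinSuccAbove (fun _ : Fin (k + 1) => E n) 0) := ⟨_, rfl⟩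
  have hmp : MeasurePreserving e.symm (volume.prod volume) volume := by
    rw [he]
    exact (volume_preserving_piFinSuccAbove (fun _ : Fin (k + 1) => E n) 0).symm
  have h1 : volume (conf n (k + 1) L) = (volume.prod volume) (e.symm ⁻¹' conf n (k + 1) L) :=
    (hmp.measure_preimage (conf_meas n (k + 1) L).nullMeasurableSet).symm
  have h2 : e.symm ⁻¹' conf n (k + 1) L ⊆ cube n L ×ˢ conf n k L := by
    rintro ⟨y, x⟩ h
    have h4 : e.symm (y, x) = Fin.cons y x := by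
      rw [he, MeasurableEquiv.piFinSuccAbove_symm_apply, Fin.insertNthEquiv_zero]
      rfl
    rw [mem_preimage, h4] at h
    refine ⟨h.1 0, fun i => h.1 i.succ, fun i j hij => ?_⟩
    exact h.2 i.succ j.succ fun h' => hij (Fin.succ_injective _ h')
  have hfin : volume (conf n k L) ≠ ⊤ := by
    have h4 : conf n k L ⊆ Set.pi univ fun _ => {x : E n | ∀ i, x i ∈ Icc 0 L} := by
      intro x hx i _ j
      exact hx.1 i j
    refine (lt_of_le_of_lt (measure_mono h4) ?_).ne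
    rw [volume_pi_pi]
    simp only [box_vol n hL.le]
    exact ENNReal.prod_lt_top fun _ _ => ENNReal.ofReal_lt_top
  have h3 : volume (conf n (k + 1) L) ≤ ENNReal.ofReal (L ^ n) * volume (conf n k L) := by
    rw [h1]
    refine (measure_mono h2).trans (le_of_eq ?_)
    rw [Measure.prod_prod, cube_eq, box_vol n hL.le, sub_zero]
  have h4 := ENNReal.toReal_mono (ENNReal.mul_ne_top ENNReal.ofReal_ne_top hfin) h3
  rwa [ENNReal.toReal_mul, ENNReal.toReal_ofReal (by positivity)] at h4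

lemma prob_anti (hL : 0 < L) {j k : ℕ} (h : k ≤ j) :
    volume.real (conf n j L) / (L ^ n) ^ j ≤ volume.real (conf n k L) / (L ^ n) ^ k := by
  have hLn : 0 < L ^ n := by positivity
  induction j, h using Nat.le_induction with
  | base => exact le_rfl
  | succ j _ ih =>
    refine le_trans ?_ ih
    rw [div_le_div_iff₀ (by positivity) (by positivity), pow_succ]
    have h1 := mul_le_mul_of_nonneg_right (conf_step (n := n) hL j) (by positivity : 0 ≤ (L ^ n) ^ j)
    linarith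

/-- the terms from below and from above -/
theorem entropy_lower {ε : ℝ} (hε : 0 < ε) : ∀ᶠ n : ℕ in atTop, ∀ L : ℝ, (n : ℝ) ^ 2 ≤ L →
    ∀ k : ℕ, (k : ℝ) ≤ (u1 - ε) * n * TT n L →
      Real.exp (-((k : ℝ) ^ 2 / (2 * TT n L) + ε * n ^ 2 * TT n L)) ≤
        volume.real (conf n k L) / (L ^ n) ^ k := by
  have hu1 := u1_lt
  have hu1p := u1_pos
  have hb := u1_lt_b0
  obtain ⟨δ, hδ⟩ : ∃ δ : ℝ, δ = min (ε / 4) (1 / 4) := ⟨_, rfl⟩
  have hδ0 : 0 < δ := by rw [hδ]; positivity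
  have hδε : δ ≤ ε / 4 := by rw [hδ]; exact min_le_left _ _
  have hδ1 : δ ≤ 1 / 4 := by rw [hδ]; exact min_le_right _ _
  obtain ⟨ε₁, hε₁⟩ : ∃ ε₁ : ℝ, ε₁ = min (δ ^ 2 / 4) (b0 - u1) := ⟨_, rfl⟩
  have hε₁0 : 0 < ε₁ := by
    rw [hε₁]
    exact lt_min (by positivity) (by linarith)
  have hε₁δ : ε₁ ≤ δ ^ 2 / 4 := by rw [hε₁]; exact min_le_left _ _
  have hε₁b : ε₁ ≤ b0 - u1 := by rw [hε₁]; exact min_le_right _ _
  filter_upwards [rare3 hε₁0 (by linarith), press_lower' hε₁0, eventually_gt_atTop 36,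
    ev_lin (4 / δ)] with n hrare hlow hn36 hn1 L hL k hk
  have hn' : (36 : ℝ) < n := by exact_mod_cast hn36
  have hn0 : (0 : ℝ) < n := by linarith
  have hL0 : 0 < L := lt_of_lt_of_le (by positivity) hL
  have hrare' := hrare L hL
  obtain ⟨T, hT⟩ : ∃ T : ℝ, T = TT n L := ⟨_, rfl⟩
  have hTn : (n : ℝ) ≤ T := by rw [hT]; exact TT_large hn36 hL
  have hT0 : 0 < T := by linarith
  rw [← hT] at hk ⊢
  have hnT : 0 < n * T := by positivity
  obtain ⟨y, hy⟩ : ∃ y : ℝ, y = k / (n * T) := ⟨_, rfl⟩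
  have hky : (k : ℝ) = y * (n * T) := by rw [hy]; field_simp
  have hy0 : 0 ≤ y := by rw [hy]; positivity
  have hy1 : y ≤ u1 - ε := by
    rw [hy, div_le_iff₀ hnT]
    linarith
  obtain ⟨u, hu⟩ : ∃ u : ℝ, u = y + δ := ⟨_, rfl⟩
  have hu0 : 0 ≤ u := by linarith
  have hδn : 2 ≤ n ^ 2 * δ ^ 2 / 4 := by
    rw [div_le_iff₀ hδ0] at hn1
    have : (4 : ℝ) ^ 2 ≤ (n * δ) ^ 2 := pow_le_pow_left₀ (by norm_num) hn1 2
    nlinarith
  have hlm := lm_pos n u
  obtain ⟨Z, hZ⟩ : ∃ Z : ℝ, Z = hsZ n L (lm n u) := ⟨_, rfl⟩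
  have hZ1 : 1 ≤ Z := by rw [hZ]; exact one_le_hsZ (n := n) hL0 hlm.le
  have hZlow : Real.exp (1 / 2 * (u ^ 2 - ε₁) * n ^ 2 * T) ≤ Z := by
    have h1 := hlow L hL u hu0 (by linarith)
    rw [← hT, ← hZ] at h1
    rwa [Real.le_log_iff_exp_le (by linarith)] at h1
  obtain ⟨P, hP⟩ : ∃ P : ℝ, P = volume.real (conf n k L) / (L ^ n) ^ k := ⟨_, rfl⟩
  have hP0 : 0 ≤ P := by
    rw [hP]
    have : 0 ≤ volume.real (conf n k L) := measureReal_nonneg
    positivity
  obtain ⟨X, hX⟩ : ∃ X : ℝ, X = Real.exp (n ^ 2 * T * (u ^ 2 / 2 - δ ^ 2 / 2 + ε₁ / 2)) := ⟨_, rfl⟩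
  obtain ⟨Y, hY⟩ : ∃ Y : ℝ, Y = Real.exp (u * n * ((u + δ) * (n * T))) := ⟨_, rfl⟩
  have hX0 : 0 < X := by rw [hX]; positivity
  have hY0 : 0 < Y := by rw [hY]; positivity
  have hterm : ∀ j : ℕ, ut n L (lm n u) j ≤ T ^ j / j.factorial * (X + P * Y) := by
    intro j
    have hjf : (0 : ℝ) < j.factorial := by exact_mod_cast Nat.factorial_pos j
    rcases Nat.le_total j k with hjk | hjk
    · -- few points
      have hjk' : (j : ℝ) ≤ k := by exact_mod_cast hjk
      have h1 := ut_le_rare (u := u) hL0 (hrare' y hy0 (by linarith) j)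
      rw [← hT] at h1
      refine h1.trans ?_
      refine mul_le_mul_of_nonneg_left ?_ (by positivity)
      have h2 : Real.exp ((u - y) * n * j) * Real.exp (1 / 2 * (y ^ 2 + ε₁) * n ^ 2 * T) ≤ X := by
        rw [hX, ← Real.exp_add, Real.exp_le_exp]
        have h3 : (u - y) * n * j ≤ δ * n * (y * (n * T)) := by
          have : u - y = δ := by rw [hu]; ring
          rw [this, ← hky]
          gcongr
        have h4 : n ^ 2 * T * (u ^ 2 / 2 - δ ^ 2 / 2 + ε₁ / 2) =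
            δ * n * (y * (n * T)) + 1 / 2 * (y ^ 2 + ε₁) * n ^ 2 * T := by
          rw [hu]
          ring
        linarith
      have h3 : 0 ≤ P * Y := by positivity
      linarith
    · rcases le_or_gt (j : ℝ) ((u + δ) * (n * T)) with hj | hj
      · -- the middle
        rw [ut_lm hL0, ← hT]
        have h1 := prob_anti (n := n) hL0 hjk
        rw [← hP] at h1
        have h2 : Real.exp (u * n) ^ j ≤ Y := by
          rw [hY, ← Real.exp_nat_mul, Real.exp_le_exp]
          have h3 : 0 ≤ u * n := by positivity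
          nlinarith
        calc (Real.exp (u * n) * T) ^ j / j.factorial * (volume.real (conf n j L) / (L ^ n) ^ j) ≤
            (Real.exp (u * n) * T) ^ j / j.factorial * P := by gcongr
          _ = T ^ j / j.factorial * (P * Real.exp (u * n) ^ j) := by rw [mul_pow]; ring
          _ ≤ T ^ j / j.factorial * (P * Y) := by gcongr
          _ ≤ T ^ j / j.factorial * (X + P * Y) := by
              gcongr
              linarith
      · -- many points
        have h1 := ut_le_rare (u := u) hL0 (hrare' (u + δ) (by linarith) (by linarith) j)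
        rw [← hT] at h1
        refine h1.trans ?_
        refine mul_le_mul_of_nonneg_left ?_ (by positivity)
        have h2 : Real.exp ((u - (u + δ)) * n * j) *
            Real.exp (1 / 2 * ((u + δ) ^ 2 + ε₁) * n ^ 2 * T) ≤ X := by
          rw [hX, ← Real.exp_add, Real.exp_le_exp]
          have h3 : (u - (u + δ)) * n * j ≤ -(δ * n * ((u + δ) * (n * T))) := by
            have h4 : (u - (u + δ)) * n * j = -(δ * n * j) := by ring
            rw [h4]
            have h5 : δ * n * ((u + δ) * (n * T)) ≤ δ * n * j := by gcongr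
            linarith
          have h4 : n ^ 2 * T * (u ^ 2 / 2 - δ ^ 2 / 2 + ε₁ / 2) =
              -(δ * n * ((u + δ) * (n * T))) + 1 / 2 * ((u + δ) ^ 2 + ε₁) * n ^ 2 * T := by
            ring
          linarith
        have h3 : 0 ≤ P * Y := by positivity
        linarith
  have hsum : Z ≤ Real.exp T * (X + P * Y) := by
    rw [hZ, hsZ_eq, ← tsum_TT, ← tsum_mul_right]
    exact (ut_summable hL0 hlm.le).tsum_le_tsum hterm
      ((Real.summable_pow_div_factorial _).mul_right _)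
  -- the first part is small
  have hδT : 2 * T ≤ n ^ 2 * δ ^ 2 / 4 * T := by gcongr
  have hXZ : 2 * (Real.exp T * X) ≤ Z := by
    refine le_trans ?_ hZlow
    have h1 : (2 : ℝ) = Real.exp (Real.log 2) := (Real.exp_log (by norm_num)).symm
    calc 2 * (Real.exp T * X) = Real.exp (Real.log 2 + (T +
          n ^ 2 * T * (u ^ 2 / 2 - δ ^ 2 / 2 + ε₁ / 2))) := by
          rw [Real.exp_add, Real.exp_add, ← h1, hX]
      _ ≤ _ := by
          rw [Real.exp_le_exp]
          have h2 := Real.log_two_lt_d9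
          have h3 : n ^ 2 * T * ε₁ ≤ n ^ 2 * T * (δ ^ 2 / 4) := by gcongr
          nlinarith
  have hPY : 1 / 2 * Z ≤ Real.exp T * (P * Y) := by
    have : Real.exp T * (X + P * Y) = Real.exp T * X + Real.exp T * (P * Y) := by ring
    linarith
  have hfin : 1 / 2 * Real.exp (1 / 2 * (u ^ 2 - ε₁) * n ^ 2 * T) * Real.exp (-T) *
      Real.exp (-(u * n * ((u + δ) * (n * T)))) ≤ P := by
    have h1 : P = Real.exp T * (P * Y) * Real.exp (-T) * Real.exp (-(u * n * ((u + δ) * (n * T)))) := by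
      have h2 : Real.exp T * Real.exp (-T) = 1 := by
        rw [← Real.exp_add, add_neg_cancel, Real.exp_zero]
      have h3 : Y * Real.exp (-(u * n * ((u + δ) * (n * T)))) = 1 := by
        rw [hY, ← Real.exp_add, add_neg_cancel, Real.exp_zero]
      calc P = P * (Real.exp T * Real.exp (-T)) * (Y * Real.exp (-(u * n * ((u + δ) * (n * T))))) := by
            rw [h2, h3]
            ring
        _ = _ := by ring
    rw [h1]
    have h2 : 1 / 2 * Real.exp (1 / 2 * (u ^ 2 - ε₁) * n ^ 2 * T) ≤ Real.exp T * (P * Y) := by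
      linarith
    gcongr
  rw [← hP]
  refine le_trans ?_ hfin
  have h1 : (1 / 2 : ℝ) = Real.exp (-Real.log 2) := by
    rw [Real.exp_neg, Real.exp_log (by norm_num)]
    norm_num
  have hcalc : 1 / 2 * Real.exp (1 / 2 * (u ^ 2 - ε₁) * n ^ 2 * T) * Real.exp (-T) *
      Real.exp (-(u * n * ((u + δ) * (n * T)))) =
      Real.exp (-Real.log 2 + 1 / 2 * (u ^ 2 - ε₁) * n ^ 2 * T + -T +
        -(u * n * ((u + δ) * (n * T)))) := by
    rw [Real.exp_add, Real.exp_add, Real.exp_add, ← h1]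
  rw [hcalc, Real.exp_le_exp]
  have h2 : (k : ℝ) ^ 2 / (2 * T) = 1 / 2 * y ^ 2 * (n ^ 2 * T) := by
    rw [hky]
    field_simp
  have h3 : T + Real.log 2 ≤ δ * (n ^ 2 * T) := by
    have g1 := Real.log_two_lt_d9
    have g2 : n ^ 2 * δ ^ 2 / 4 * T ≤ δ * (n ^ 2 * T) := by
      have : δ ^ 2 / 4 ≤ δ := by nlinarith
      have h4 : n ^ 2 * δ ^ 2 / 4 * T = δ ^ 2 / 4 * (n ^ 2 * T) := by ring
      rw [h4]
      gcongr
    linarith
  have h4 : u ^ 2 / 2 + u * δ + ε₁ / 2 + δ ≤ 1 / 2 * y ^ 2 + ε := by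
    rw [hu]
    have g1 : y * δ ≤ 1 / 4 * δ := by
      gcongr
      linarith
    have g2 : δ ^ 2 ≤ 1 / 4 * δ := by nlinarith
    nlinarith
  have h5 := mul_le_mul_of_nonneg_right h4 (by positivity : 0 ≤ n ^ 2 * T)
  rw [h2]
  have e1 : u * n * ((u + δ) * (n * T)) = (u ^ 2 + u * δ) * (n ^ 2 * T) := by ring
  have e2 : 1 / 2 * (u ^ 2 - ε₁) * n ^ 2 * T = (1 / 2 * u ^ 2 - 1 / 2 * ε₁) * (n ^ 2 * T) := by ring
  have e3 : ε * n ^ 2 * T = ε * (n ^ 2 * T) := by ring
  rw [e1, e2, e3]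
  obtain ⟨W, hW⟩ : ∃ W : ℝ, W = n ^ 2 * T := ⟨_, rfl⟩
  rw [← hW] at h3 h5 ⊢
  linarith

/-- the upper bound -/
theorem entropy_upper {ε : ℝ} (hε : 0 < ε) : ∀ᶠ n : ℕ in atTop, ∀ L : ℝ, (n : ℝ) ^ 2 ≤ L →
    ∀ k : ℕ, (k : ℝ) ≤ b0 * n * TT n L →
      volume.real (conf n k L) / (L ^ n) ^ k ≤
        Real.exp (-((k : ℝ) ^ 2 / (2 * TT n L) - ε * n ^ 2 * TT n L)) := by
  have hb0 := b0_pos
  have hb := b0_lt
  obtain ⟨δ, hδ⟩ : ∃ δ : ℝ, δ = min ε (b0 / 2) := ⟨_, rfl⟩
  have hδ0 : 0 < δ := by rw [hδ]; positivity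
  have hδε : δ ≤ ε := by rw [hδ]; exact min_le_left _ _
  have hδb : δ ≤ b0 / 2 := by rw [hδ]; exact min_le_right _ _
  filter_upwards [rare3 hδ0 (by linarith), eventually_gt_atTop 36] with n hrare hn36 L hL k hk
  have hn' : (36 : ℝ) < n := by exact_mod_cast hn36
  have hn0 : (0 : ℝ) < n := by linarith
  have hrare' := hrare L hL
  obtain ⟨T, hT⟩ : ∃ T : ℝ, T = TT n L := ⟨_, rfl⟩
  have hTn : (n : ℝ) ≤ T := by rw [hT]; exact TT_large hn36 hL
  have hT0 : 0 < T := by linarith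
  have hnT : 0 < n * T := by positivity
  obtain ⟨y, hy⟩ : ∃ y : ℝ, y = k / (n * T) := ⟨_, rfl⟩
  have hky : (k : ℝ) = y * (n * T) := by rw [hy]; field_simp
  have hy0 : 0 ≤ y := by rw [hy]; positivity
  have hyb : y ≤ b0 := by
    rw [hy, div_le_iff₀ hnT, hT]
    linarith
  obtain ⟨v, hv⟩ : ∃ v : ℝ, v = min y (b0 - δ) := ⟨_, rfl⟩
  have hv0 : 0 ≤ v := by rw [hv]; exact le_min hy0 (by linarith)
  have hvb : v ≤ b0 - δ := by rw [hv]; exact min_le_right _ _
  have hvy : v ≤ y := by rw [hv]; exact min_le_left _ _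
  have hvy2 : y - δ ≤ v := by
    rw [hv]
    exact le_min (by linarith) (by linarith)
  refine (hrare' v hv0 hvb k).trans ?_
  rw [Real.exp_le_exp, ← hT]
  have h2 : (k : ℝ) ^ 2 / (2 * T) = 1 / 2 * y ^ 2 * (n ^ 2 * T) := by
    rw [hky]
    field_simp
  rw [h2, hky]
  have h3 : 1 / 2 * y ^ 2 - ε ≤ v * y - 1 / 2 * (v ^ 2 + δ) := by
    have g1 : 1 / 2 * (y - v) ^ 2 ≤ 1 / 2 * δ := by
      have : y - v ≤ δ := by linarith
      have h0 : 0 ≤ y - v := by linarith
      nlinarith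
    nlinarith
  have h4 := mul_le_mul_of_nonneg_right h3 (by positivity : 0 ≤ n ^ 2 * T)
  have h5 : ↑n * (v * (y * (↑n * T)) - 1 / 2 * (v ^ 2 + δ) * ↑n * T) =
      (v * y - 1 / 2 * (v ^ 2 + δ)) * (n ^ 2 * T) := by ring
  rw [h5]
  linarith

end Pool.Agent.N628.EP
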