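import Pool.Agent.N628.EP.K5
import Pool.Agent.N628.EP.K3

/-!
N628/EP: the density of the hard sphere model: all fugacities.
-/

set_option autoImplicit false

open MeasureTheory Set Real Metric Filter Topology

namespace Pool.Agent.N628.EP

open Pool.Agent.Y509.LS
open Pool.Agent.H818R2 (rho rate)

variable {n : ℕ} {L lam : ℝ}

lemma fug_lm (n : ℕ) (κ : ℝ) : fug n κ = lm n ((1 + κ) * Real.log 2) := by
  unfold fug lm
  have h1 : Real.exp ((1 + κ) * Real.log 2 * n) = 2 ^ n * (2 : ℝ) ^ (κ * n) := by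
    rw [two_rpow, ← Real.rpow_natCast, two_rpow, ← Real.exp_add]
    congr 1
    ring
  have := V1_pos n
  rw [h1]
  field_simp

lemma hsD_eq (hL : 0 < L) : hsD n L lam = hsM n L lam / (2 ^ n * TT n L) := by
  have := V1_pos n
  unfold hsD TT
  field_simp

/-- the density is increasing -/
lemma hsM_mono (hL : 0 < L) {u u' : ℝ} (hn : 0 < n) (h : u ≤ u') :
    hsM n L (lm n u) ≤ hsM n L (lm n u') := by
  rcases h.eq_or_lt with rfl | h
  · exact le_rfl
  have hn0 : (0 : ℝ) < n := by exact_mod_cast hn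
  have h1 := hsM_conv (n := n) hL (lm_pos n u) (lm_pos n u')
  have h2 := hsM_conv (n := n) hL (lm_pos n u') (lm_pos n u)
  rw [log_lm] at h1 h2
  have h3 : (u' - u) * n * hsM n L (lm n u) ≤ (u' - u) * n * hsM n L (lm n u') := by
    have h4 : hsM n L (lm n u) * ((u - u') * n) = -((u' - u) * n * hsM n L (lm n u)) := by ring
    rw [h4] at h2
    linarith
  have h4 : 0 < (u' - u) * n := mul_pos (by linarith) hn0
  exact le_of_mul_le_mul_left h3 h4

/-- the density up to the fugacity `3^(-n/2) / v_n` -/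
theorem dens_asymp {ε : ℝ} (hε : 0 < ε) : ∀ᶠ n : ℕ in atTop, ∀ L : ℝ, (n : ℝ) ^ 2 ≤ L →
    ∀ κ : ℝ, -1 ≤ κ → (1 + κ) * Real.log 2 ≤ u1 →
      |hsD n L (fug n κ) / (n / 2 ^ n) - (1 + κ) * Real.log 2| ≤ ε := by
  have hl2 : 0 < Real.log 2 := Real.log_pos (by norm_num)
  filter_upwards [mean_asymp hε, eventually_gt_atTop 36] with n hmean hn36 L hL κ hκ hκ1
  have hn' : (36 : ℝ) < n := by exact_mod_cast hn36
  have hn0 : (0 : ℝ) < n := by linarith
  have hL0 : 0 < L := lt_of_lt_of_le (by positivity) hL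
  have h1 := hmean L hL ((1 + κ) * Real.log 2) (mul_nonneg (by linarith) hl2.le) hκ1
  rw [← fug_lm] at h1
  obtain ⟨T, hT⟩ : ∃ T : ℝ, T = TT n L := ⟨_, rfl⟩
  have hT0 : 0 < T := by rw [hT]; exact lt_of_lt_of_le hn0 (TT_large hn36 hL)
  rw [hsD_eq hL0]
  rw [← hT] at h1 ⊢
  have h2 : hsM n L (fug n κ) / (2 ^ n * T) / (n / 2 ^ n) - (1 + κ) * Real.log 2 =
      (hsM n L (fug n κ) - (1 + κ) * Real.log 2 * n * T) / (n * T) := by
    field_simp
  rw [h2, abs_div, abs_of_pos (by positivity : 0 < n * T), div_le_iff₀ (by positivity)]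
  linarith

/-- the lower bound for all larger fugacities -/
theorem dens_low {ε : ℝ} (hε : 0 < ε) : ∀ᶠ n : ℕ in atTop, ∀ L : ℝ, (n : ℝ) ^ 2 ≤ L →
    ∀ κ : ℝ, u1 ≤ (1 + κ) * Real.log 2 → (u1 - ε) * (n / 2 ^ n) ≤ hsD n L (fug n κ) := by
  have hu1p := u1_pos
  filter_upwards [mean_asymp hε, eventually_gt_atTop 36] with n hmean hn36 L hL κ hκ1
  have hn : 0 < n := by omega
  have hn' : (36 : ℝ) < n := by exact_mod_cast hn36
  have hn0 : (0 : ℝ) < n := by linarith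
  have hL0 : 0 < L := lt_of_lt_of_le (by positivity) hL
  have h1 := hmean L hL u1 hu1p.le le_rfl
  have h2 := hsM_mono (n := n) hL0 hn hκ1
  rw [← fug_lm] at h2
  obtain ⟨T, hT⟩ : ∃ T : ℝ, T = TT n L := ⟨_, rfl⟩
  have hT0 : 0 < T := by rw [hT]; exact lt_of_lt_of_le hn0 (TT_large hn36 hL)
  rw [hsD_eq hL0]
  rw [← hT] at h1 ⊢
  rw [abs_le] at h1
  rw [le_div_iff₀ (by positivity)]
  have h3 : (u1 - ε) * (n / 2 ^ n) * (2 ^ n * T) = u1 * n * T - ε * n * T := by
    field_simp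
  rw [h3]
  linarith [h1.1]

/-- the upper bound below the threshold -/
theorem dens_up {κ : ℝ} (hκ : (1 + κ) * Real.log 2 < b0) {ε : ℝ} (hε : 0 < ε) :
    ∀ᶠ n : ℕ in atTop, ∀ L : ℝ, (n : ℝ) ^ 2 ≤ L →
      hsD n L (fug n κ) ≤ (b0 ^ 2 / (2 * (b0 - (1 + κ) * Real.log 2)) + ε) * (n / 2 ^ n) := by
  have hb0 := b0_pos
  have hbl := b0_lt
  obtain ⟨u, hu⟩ : ∃ u : ℝ, u = (1 + κ) * Real.log 2 := ⟨_, rfl⟩
  rw [← hu] at hκ ⊢
  obtain ⟨Y, hY⟩ : ∃ Y : ℝ, Y = b0 ^ 2 / (2 * (b0 - u)) + ε / 2 := ⟨_, rfl⟩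
  have hbu : 0 < b0 - u := by linarith
  have hY0 : 0 < Y := by rw [hY]; positivity
  have hYb : b0 ^ 2 / 2 < (b0 - u) * Y := by
    rw [hY, mul_add]
    have h1 : (b0 - u) * (b0 ^ 2 / (2 * (b0 - u))) = b0 ^ 2 / 2 := by field_simp
    rw [h1]
    have : 0 < (b0 - u) * (ε / 2) := by positivity
    linarith
  -- the choice of `x`
  obtain ⟨x, hx0, hxb, hx1, hxY⟩ : ∃ x : ℝ, 0 < x ∧ x < b0 ∧ x < b0 - u ∧
      1 / 2 * ((b0 - x) ^ 2 + x) < (b0 - x - u - x) * Y := by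
    have h1 : Tendsto (fun x : ℝ => (b0 - x - u - x) * Y - 1 / 2 * ((b0 - x) ^ 2 + x)) (𝓝[>] 0)
        (𝓝 ((b0 - 0 - u - 0) * Y - 1 / 2 * ((b0 - 0) ^ 2 + 0))) :=
      (Continuous.tendsto (by fun_prop) 0).mono_left nhdsWithin_le_nhds
    have h2 : 0 < (b0 - 0 - u - 0) * Y - 1 / 2 * ((b0 - 0) ^ 2 + 0) := by
      have : (b0 - 0 - u - 0) * Y - 1 / 2 * ((b0 - 0) ^ 2 + 0) = (b0 - u) * Y - b0 ^ 2 / 2 := by ring
      rw [this]
      linarith
    have h3 := h1.eventually (lt_mem_nhds h2)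
    have h4 : ∀ᶠ x : ℝ in 𝓝[>] 0, x < b0 := nhdsWithin_le_nhds (gt_mem_nhds hb0)
    have h5 : ∀ᶠ x : ℝ in 𝓝[>] 0, x < b0 - u := nhdsWithin_le_nhds (gt_mem_nhds hbu)
    obtain ⟨x, ⟨⟨h6, h7⟩, h8⟩, h9⟩ := (((h3.and h4).and h5).and self_mem_nhdsWithin).exists
    exact ⟨x, h9, h7, h8, by linarith⟩
  filter_upwards [rare3 hx0 hxb, eventually_gt_atTop 36, ev_lin (4 / x), ev_lin (4 / Y),
    ev_lin (4 / ε)] with n hrare hn36 hnx hnY hnε L hL
  have hn : 0 < n := by omega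
  have hn' : (36 : ℝ) < n := by exact_mod_cast hn36
  have hn0 : (0 : ℝ) < n := by linarith
  have hL0 : 0 < L := lt_of_lt_of_le (by positivity) hL
  have hrare' := hrare L hL (b0 - x) (by linarith) le_rfl
  rw [fug_lm, ← hu]
  have hlm := lm_pos n u
  obtain ⟨T, hT⟩ : ∃ T : ℝ, T = TT n L := ⟨_, rfl⟩
  have hTn : (n : ℝ) ≤ T := by rw [hT]; exact TT_large hn36 hL
  have hT0 : 0 < T := by linarith
  rw [div_le_iff₀ hx0] at hnx
  rw [div_le_iff₀ hY0] at hnY
  rw [div_le_iff₀ hε] at hnε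
  have hM : hsM n L (lm n u) ≤ Y * n * T + 2 := by
    refine hsM_upper hL0 hlm.le (by positivity) fun k hk => ?_
    have hk0 : (0 : ℝ) < k := lt_trans (by positivity) hk
    have h1 := ut_le_rare (u := u) hL0 (hrare' k)
    rw [← hT] at h1
    have hkf : (0 : ℝ) < k.factorial := by exact_mod_cast Nat.factorial_pos k
    have h2 : T ^ k / k.factorial ≤ 1 := by
      have h3 : (k : ℝ) ^ k / k.factorial ≤ Real.exp k := Real.pow_div_factorial_le_exp _ hk0.le k
      have h4 : Real.exp 1 * T ≤ k := by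
        have h5 : Real.exp 1 ≤ 3 := by linarith [Real.exp_one_lt_d9]
        have h6 : 4 * T ≤ n * Y * T := by gcongr
        nlinarith
      calc T ^ k / k.factorial = (T / k) ^ k * ((k : ℝ) ^ k / k.factorial) := by
            rw [div_pow]
            field_simp
        _ ≤ (T / k) ^ k * Real.exp k := by gcongr
        _ = (T / k * Real.exp 1) ^ k := by
            rw [mul_pow, ← Real.exp_nat_mul, mul_one]
        _ ≤ 1 := by
            apply pow_le_one₀ (by positivity)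
            rw [div_mul_eq_mul_div, div_le_one hk0]
            linarith
    have h3 : Real.exp ((u - (b0 - x)) * n * k) *
        Real.exp (1 / 2 * ((b0 - x) ^ 2 + x) * n ^ 2 * T) ≤ Real.exp (-(x * n * k)) := by
      rw [← Real.exp_add, Real.exp_le_exp]
      have h4 : 1 / 2 * ((b0 - x) ^ 2 + x) * n ^ 2 * T ≤ (b0 - x - u - x) * n * k := by
        have h5 : 0 ≤ b0 - x - u - x := by
          by_contra h6
          rw [not_le] at h6
          have h7 : (b0 - x - u - x) * Y < 0 := mul_neg_of_neg_of_pos h6 hY0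
          have h8 : 0 ≤ 1 / 2 * ((b0 - x) ^ 2 + x) := by positivity
          linarith
        calc 1 / 2 * ((b0 - x) ^ 2 + x) * n ^ 2 * T = 1 / 2 * ((b0 - x) ^ 2 + x) * (n ^ 2 * T) := by
              ring
          _ ≤ (b0 - x - u - x) * Y * (n ^ 2 * T) := by gcongr
          _ = (b0 - x - u - x) * n * (Y * n * T) := by ring
          _ ≤ (b0 - x - u - x) * n * k := by gcongr
      linarith
    have h4 : ut n L (lm n u) k ≤ Real.exp (-(x * n * k)) := by
      refine h1.trans ?_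
      have h5 : 0 ≤ Real.exp ((u - (b0 - x)) * n * k) *
        Real.exp (1 / 2 * ((b0 - x) ^ 2 + x) * n ^ 2 * T) := by positivity
      calc _ ≤ 1 * (Real.exp ((u - (b0 - x)) * n * k) *
            Real.exp (1 / 2 * ((b0 - x) ^ 2 + x) * n ^ 2 * T)) := by gcongr
        _ ≤ _ := by rw [one_mul]; exact h3
    have h5 : (k : ℝ) ≤ 2 ^ k := by exact_mod_cast Nat.lt_two_pow_self.le
    have h6 : Real.exp (-(x * n * k)) ≤ (1 / 4) ^ k := by
      have h7 : Real.exp (-(x * n * k)) = Real.exp (-(x * n)) ^ k := by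
        rw [← Real.exp_nat_mul]
        congr 1
        ring
      rw [h7]
      refine pow_le_pow_left₀ (Real.exp_pos _).le ?_ k
      rw [Real.exp_neg, one_div]
      apply inv_anti₀ (by norm_num)
      have := Real.add_one_le_exp (x * n)
      linarith
    have h7 := ut_nonneg (n := n) (L := L) hlm.le k
    calc (k : ℝ) * ut n L (lm n u) k ≤ 2 ^ k * (1 / 4) ^ k := by
          gcongr
          exact h4.trans h6
      _ = (1 / 2) ^ k := by rw [← mul_pow]; norm_num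
  rw [hsD_eq hL0, ← hT, div_le_iff₀ (by positivity)]
  have h1 : (b0 ^ 2 / (2 * (b0 - u)) + ε) * (n / 2 ^ n) * (2 ^ n * T) =
      (b0 ^ 2 / (2 * (b0 - u)) + ε) * n * T := by
    field_simp
  rw [h1]
  have h2 : b0 ^ 2 / (2 * (b0 - u)) + ε = Y + ε / 2 := by rw [hY]; ring
  rw [h2]
  have h3 : 2 ≤ ε / 2 * n * T := by nlinarith
  nlinarith

end Pool.Agent.N628.EP
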