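import Pool.Agent.N628.EP.J8
import Pool.Agent.N628.EP.K6

/-!
N628/EP: densities and entropy in the whole container range.
-/

set_option autoImplicit false

open MeasureTheory Set Real Metric Filter Topology

namespace Pool.Agent.N628.EP

open Pool.Agent.Y509.LS

variable {n : ℕ} {L lam : ℝ}

lemma b0_lt_half_log : b0 < Real.log 2 / 2 := by
  have h1 := Real.log_two_gt_d9
  unfold b0
  linarith

/-- **the density of the hard sphere model** -/
theorem mean_asymp2 {ε : ℝ} (hε : 0 < ε) : ∀ᶠ n : ℕ in atTop, ∀ L : ℝ, (n : ℝ) ^ 2 ≤ L →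
    ∀ u : ℝ, 0 ≤ u → u ≤ b0 - ε → |hsM n L (lm n u) - u * n * TT n L| ≤ ε * n * TT n L := by
  have hb0 := b0_pos
  have hbh := b0_lt_half_log
  obtain ⟨δ, hδ⟩ : ∃ δ : ℝ, δ = min (ε / 2) 1 := ⟨_, rfl⟩
  have hδ0 : 0 < δ := by rw [hδ]; positivity
  have hδε : δ ≤ ε / 2 := by rw [hδ]; exact min_le_left _ _
  have hδ1 : δ ≤ 1 := by rw [hδ]; exact min_le_right _ _
  obtain ⟨ε', hε''⟩ : ∃ ε' : ℝ, ε' = min (δ ^ 2) (min (ε / 2) (b0 / 2)) := ⟨_, rfl⟩
  have hε' : 0 < ε' := by rw [hε'']; positivity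
  have hε1 : ε' ≤ δ ^ 2 := by rw [hε'']; exact min_le_left _ _
  have hε2 : ε' ≤ ε / 2 := by rw [hε'']; exact (min_le_right _ _).trans (min_le_left _ _)
  have hε3 : ε' ≤ b0 / 2 := by rw [hε'']; exact (min_le_right _ _).trans (min_le_right _ _)
  filter_upwards [press_upper hε' (by linarith), press_lower2 hε',
    eventually_gt_atTop 36] with n hup hlow hn36 L hL u hu0 hu
  have hn' : (36 : ℝ) < n := by exact_mod_cast hn36
  have hn0 : (0 : ℝ) < n := by linarith
  have hL0 : 0 < L := lt_of_lt_of_le (by positivity) hL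
  obtain ⟨T, hT⟩ : ∃ T : ℝ, T = TT n L := ⟨_, rfl⟩
  have hT0 : 0 < T := by rw [hT]; exact lt_of_lt_of_le hn0 (TT_large hn36 hL)
  have hlm := lm_pos n u
  have hM0 := hsM_nonneg (n := n) hL0 hlm.le
  rw [← hT]
  rw [abs_le]
  have hnT : 0 < n * T := by positivity
  constructor
  · -- lower bound
    rcases le_or_gt u δ with h | h
    · have h1 : u * n * T ≤ ε * n * T := by
        gcongr
        linarith
      linarith
    · have h1 := hsM_conv (n := n) (lam := lm n u) (lam₀ := lm n (u - δ)) hL0 (lm_pos n _) hlm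
      rw [log_lm] at h1
      have h2 := hlow L hL u hu0 (by linarith)
      have h3 := hup L hL (u - δ) (by linarith) (by linarith)
      rw [← hT] at h2 h3
      have h4 : (u - δ - δ) * n * T ≤ hsM n L (lm n u) := by
        have h5 : δ * n * ((u - δ - δ) * n * T) ≤ δ * n * hsM n L (lm n u) := by
          have h6 : 1 / 2 * (u ^ 2 - ε') * n ^ 2 * T - 1 / 2 * ((u - δ) ^ 2 + ε') * n ^ 2 * T =
              (u * δ - δ ^ 2 / 2 - ε') * (n ^ 2 * T) := by ring
          have h7 : δ * (u - δ - δ) * (n ^ 2 * T) ≤ (u * δ - δ ^ 2 / 2 - ε') * (n ^ 2 * T) := by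
            apply mul_le_mul_of_nonneg_right _ (by positivity)
            nlinarith
          have h8 : u - (u - δ) = δ := by ring
          rw [h8] at h1
          linarith
        exact le_of_mul_le_mul_left h5 (by positivity)
      have h5 : 2 * δ * n * T ≤ ε * n * T := by
        gcongr
        linarith
      linarith
  · have h1 := hsM_conv (n := n) (lam := lm n u) (lam₀ := lm n (u + δ)) hL0 (lm_pos n _) hlm
    rw [log_lm] at h1
    have h2 := hlow L hL u hu0 (by linarith)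
    have h3 := hup L hL (u + δ) (by linarith) (by linarith)
    rw [← hT] at h2 h3
    have h4 : hsM n L (lm n u) ≤ (u + δ + δ) * n * T := by
      have h5 : δ * n * hsM n L (lm n u) ≤ δ * n * ((u + δ + δ) * n * T) := by
        have h6 : 1 / 2 * ((u + δ) ^ 2 + ε') * n ^ 2 * T - 1 / 2 * (u ^ 2 - ε') * n ^ 2 * T =
            (u * δ + δ ^ 2 / 2 + ε') * (n ^ 2 * T) := by ring
        have h7 : (u * δ + δ ^ 2 / 2 + ε') * (n ^ 2 * T) ≤ δ * (u + δ + δ) * (n ^ 2 * T) := by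
          apply mul_le_mul_of_nonneg_right _ (by positivity)
          nlinarith
        have h8 : u - (u + δ) = -δ := by ring
        rw [h8] at h1
        linarith
      exact le_of_mul_le_mul_left h5 (by positivity)
    have h5 : 2 * δ * n * T ≤ ε * n * T := by
      gcongr
      linarith
    linarith

/-- the terms from below and from above -/
theorem entropy_lower2 {ε : ℝ} (hε : 0 < ε) : ∀ᶠ n : ℕ in atTop, ∀ L : ℝ, (n : ℝ) ^ 2 ≤ L →
    ∀ k : ℕ, (k : ℝ) ≤ (b0 - ε) * n * TT n L →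
      Real.exp (-((k : ℝ) ^ 2 / (2 * TT n L) + ε * n ^ 2 * TT n L)) ≤
        volume.real (conf n k L) / (L ^ n) ^ k := by
  have hb0 := b0_pos
  have hb0' := b0_lt
  have hbh := b0_lt_half_log
  have hb04 : b0 < 1 / 4 := by
    have := Real.log_two_gt_d9
    unfold b0
    linarith
  obtain ⟨δ, hδ⟩ : ∃ δ : ℝ, δ = min (ε / 4) (1 / 4) := ⟨_, rfl⟩
  have hδ0 : 0 < δ := by rw [hδ]; positivity
  have hδε : δ ≤ ε / 4 := by rw [hδ]; exact min_le_left _ _
  have hδ1 : δ ≤ 1 / 4 := by rw [hδ]; exact min_le_right _ _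
  obtain ⟨ε₁, hε₁⟩ : ∃ ε₁ : ℝ, ε₁ = min (δ ^ 2 / 4) (min (ε / 2) (b0 / 2)) := ⟨_, rfl⟩
  have hε₁0 : 0 < ε₁ := by
    rw [hε₁]
    positivity
  have hε₁δ : ε₁ ≤ δ ^ 2 / 4 := by rw [hε₁]; exact min_le_left _ _
  have hε₁b : ε₁ ≤ ε / 2 := by rw [hε₁]; exact (min_le_right _ _).trans (min_le_left _ _)
  have hε₁c : ε₁ ≤ b0 / 2 := by rw [hε₁]; exact (min_le_right _ _).trans (min_le_right _ _)
  filter_upwards [rare3 hε₁0 (by linarith), press_lower2 hε₁0, eventually_gt_atTop 36,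
    ev_lin (4 / δ)] with n hrare hlow hn36 hn1 L hL k hk
  have hn' : (36 : ℝ) < n := by exact_mod_cast hn36
  have hn0 : (0 : ℝ) < n := by linarith
  have hL0 : 0 < L := lt_of_lt_of_le (by positivity) hL
  have hrare' := hrare L hL
  obtain ⟨T, hT⟩ : ∃ T : ℝ, T = TT n L := ⟨_, rfl⟩
  have hTn : (n : ℝ) ≤ T := by rw [hT]; exact TT_large hn36 hL
  have hT0 : 0 < T := by linarith
  rw [← hT] at hk ⊢
  have hnT : 0 < n * T := by positivity
  obtain ⟨y, hy⟩ : ∃ y : ℝ, y = k / (n * T) := ⟨_, rfl⟩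
  have hky : (k : ℝ) = y * (n * T) := by rw [hy]; field_simp
  have hy0 : 0 ≤ y := by rw [hy]; positivity
  have hy1 : y ≤ b0 - ε := by
    rw [hy, div_le_iff₀ hnT]
    linarith
  obtain ⟨u, hu⟩ : ∃ u : ℝ, u = y + δ := ⟨_, rfl⟩
  have hu0 : 0 ≤ u := by linarith
  have hδn : 2 ≤ n ^ 2 * δ ^ 2 / 4 := by
    rw [div_le_iff₀ hδ0] at hn1
    have : (4 : ℝ) ^ 2 ≤ (n * δ) ^ 2 := pow_le_pow_left₀ (by norm_num) hn1 2
    nlinarith
  have hlm := lm_pos n u
  obtain ⟨Z, hZ⟩ : ∃ Z : ℝ, Z = hsZ n L (lm n u) := ⟨_, rfl⟩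
  have hZ1 : 1 ≤ Z := by rw [hZ]; exact one_le_hsZ (n := n) hL0 hlm.le
  have hZlow : Real.exp (1 / 2 * (u ^ 2 - ε₁) * n ^ 2 * T) ≤ Z := by
    have h1 := hlow L hL u hu0 (by linarith)
    rw [← hT, ← hZ] at h1
    rwa [Real.le_log_iff_exp_le (by linarith)] at h1
  obtain ⟨P, hP⟩ : ∃ P : ℝ, P = volume.real (conf n k L) / (L ^ n) ^ k := ⟨_, rfl⟩
  have hP0 : 0 ≤ P := by
    rw [hP]
    have : 0 ≤ volume.real (conf n k L) := measureReal_nonneg
    positivity
  obtain ⟨X, hX⟩ : ∃ X : ℝ, X = Real.exp (n ^ 2 * T * (u ^ 2 / 2 - δ ^ 2 / 2 + ε₁ / 2)) := ⟨_, rfl⟩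
  obtain ⟨Y, hY⟩ : ∃ Y : ℝ, Y = Real.exp (u * n * ((u + δ) * (n * T))) := ⟨_, rfl⟩
  have hX0 : 0 < X := by rw [hX]; positivity
  have hY0 : 0 < Y := by rw [hY]; positivity
  have hterm : ∀ j : ℕ, ut n L (lm n u) j ≤ T ^ j / j.factorial * (X + P * Y) := by
    intro j
    have hjf : (0 : ℝ) < j.factorial := by exact_mod_cast Nat.factorial_pos j
    rcases Nat.le_total j k with hjk | hjk
    · -- few points
      have hjk' : (j : ℝ) ≤ k := by exact_mod_cast hjk
      have h1 := ut_le_rare (u := u) hL0 (hrare' y hy0 (by linarith) j)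
      rw [← hT] at h1
      refine h1.trans ?_
      refine mul_le_mul_of_nonneg_left ?_ (by positivity)
      have h2 : Real.exp ((u - y) * n * j) * Real.exp (1 / 2 * (y ^ 2 + ε₁) * n ^ 2 * T) ≤ X := by
        rw [hX, ← Real.exp_add, Real.exp_le_exp]
        have h3 : (u - y) * n * j ≤ δ * n * (y * (n * T)) := by
          have : u - y = δ := by rw [hu]; ring
          rw [this, ← hky]
          gcongr
        have h4 : n ^ 2 * T * (u ^ 2 / 2 - δ ^ 2 / 2 + ε₁ / 2) =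
            δ * n * (y * (n * T)) + 1 / 2 * (y ^ 2 + ε₁) * n ^ 2 * T := by
          rw [hu]
          ring
        linarith
      have h3 : 0 ≤ P * Y := by positivity
      linarith
    · rcases le_or_gt (j : ℝ) ((u + δ) * (n * T)) with hj | hj
      · -- the middle
        rw [ut_lm hL0, ← hT]
        have h1 := prob_anti (n := n) hL0 hjk
        rw [← hP] at h1
        have h2 : Real.exp (u * n) ^ j ≤ Y := by
          rw [hY, ← Real.exp_nat_mul, Real.exp_le_exp]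
          have h3 : 0 ≤ u * n := by positivity
          nlinarith
        calc (Real.exp (u * n) * T) ^ j / j.factorial * (volume.real (conf n j L) / (L ^ n) ^ j) ≤
            (Real.exp (u * n) * T) ^ j / j.factorial * P := by gcongr
          _ = T ^ j / j.factorial * (P * Real.exp (u * n) ^ j) := by rw [mul_pow]; ring
          _ ≤ T ^ j / j.factorial * (P * Y) := by gcongr
          _ ≤ T ^ j / j.factorial * (X + P * Y) := by
              gcongr
              linarith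
      · -- many points
        have h1 := ut_le_rare (u := u) hL0 (hrare' (u + δ) (by linarith) (by linarith) j)
        rw [← hT] at h1
        refine h1.trans ?_
        refine mul_le_mul_of_nonneg_left ?_ (by positivity)
        have h2 : Real.exp ((u - (u + δ)) * n * j) *
            Real.exp (1 / 2 * ((u + δ) ^ 2 + ε₁) * n ^ 2 * T) ≤ X := by
          rw [hX, ← Real.exp_add, Real.exp_le_exp]
          have h3 : (u - (u + δ)) * n * j ≤ -(δ * n * ((u + δ) * (n * T))) := by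
            have h4 : (u - (u + δ)) * n * j = -(δ * n * j) := by ring
            rw [h4]
            have h5 : δ * n * ((u + δ) * (n * T)) ≤ δ * n * j := by gcongr
            linarith
          have h4 : n ^ 2 * T * (u ^ 2 / 2 - δ ^ 2 / 2 + ε₁ / 2) =
              -(δ * n * ((u + δ) * (n * T))) + 1 / 2 * ((u + δ) ^ 2 + ε₁) * n ^ 2 * T := by
            ring
          linarith
        have h3 : 0 ≤ P * Y := by positivity
        linarith
  have hsum : Z ≤ Real.exp T * (X + P * Y) := by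
    rw [hZ, hsZ_eq, ← tsum_TT, ← tsum_mul_right]
    exact (ut_summable hL0 hlm.le).tsum_le_tsum hterm
      ((Real.summable_pow_div_factorial _).mul_right _)
  -- the first part is small
  have hδT : 2 * T ≤ n ^ 2 * δ ^ 2 / 4 * T := by gcongr
  have hXZ : 2 * (Real.exp T * X) ≤ Z := by
    refine le_trans ?_ hZlow
    have h1 : (2 : ℝ) = Real.exp (Real.log 2) := (Real.exp_log (by norm_num)).symm
    calc 2 * (Real.exp T * X) = Real.exp (Real.log 2 + (T +
          n ^ 2 * T * (u ^ 2 / 2 - δ ^ 2 / 2 + ε₁ / 2))) := by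
          rw [Real.exp_add, Real.exp_add, ← h1, hX]
      _ ≤ _ := by
          rw [Real.exp_le_exp]
          have h2 := Real.log_two_lt_d9
          have h3 : n ^ 2 * T * ε₁ ≤ n ^ 2 * T * (δ ^ 2 / 4) := by gcongr
          nlinarith
  have hPY : 1 / 2 * Z ≤ Real.exp T * (P * Y) := by
    have : Real.exp T * (X + P * Y) = Real.exp T * X + Real.exp T * (P * Y) := by ring
    linarith
  have hfin : 1 / 2 * Real.exp (1 / 2 * (u ^ 2 - ε₁) * n ^ 2 * T) * Real.exp (-T) *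
      Real.exp (-(u * n * ((u + δ) * (n * T)))) ≤ P := by
    have h1 : P = Real.exp T * (P * Y) * Real.exp (-T) * Real.exp (-(u * n * ((u + δ) * (n * T)))) := by
      have h2 : Real.exp T * Real.exp (-T) = 1 := by
        rw [← Real.exp_add, add_neg_cancel, Real.exp_zero]
      have h3 : Y * Real.exp (-(u * n * ((u + δ) * (n * T)))) = 1 := by
        rw [hY, ← Real.exp_add, add_neg_cancel, Real.exp_zero]
      calc P = P * (Real.exp T * Real.exp (-T)) * (Y * Real.exp (-(u * n * ((u + δ) * (n * T))))) := by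
            rw [h2, h3]
            ring
        _ = _ := by ring
    rw [h1]
    have h2 : 1 / 2 * Real.exp (1 / 2 * (u ^ 2 - ε₁) * n ^ 2 * T) ≤ Real.exp T * (P * Y) := by
      linarith
    gcongr
  rw [← hP]
  refine le_trans ?_ hfin
  have h1 : (1 / 2 : ℝ) = Real.exp (-Real.log 2) := by
    rw [Real.exp_neg, Real.exp_log (by norm_num)]
    norm_num
  have hcalc : 1 / 2 * Real.exp (1 / 2 * (u ^ 2 - ε₁) * n ^ 2 * T) * Real.exp (-T) *
      Real.exp (-(u * n * ((u + δ) * (n * T)))) =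
      Real.exp (-Real.log 2 + 1 / 2 * (u ^ 2 - ε₁) * n ^ 2 * T + -T +
        -(u * n * ((u + δ) * (n * T)))) := by
    rw [Real.exp_add, Real.exp_add, Real.exp_add, ← h1]
  rw [hcalc, Real.exp_le_exp]
  have h2 : (k : ℝ) ^ 2 / (2 * T) = 1 / 2 * y ^ 2 * (n ^ 2 * T) := by
    rw [hky]
    field_simp
  have h3 : T + Real.log 2 ≤ δ * (n ^ 2 * T) := by
    have g1 := Real.log_two_lt_d9
    have g2 : n ^ 2 * δ ^ 2 / 4 * T ≤ δ * (n ^ 2 * T) := by
      have : δ ^ 2 / 4 ≤ δ := by nlinarith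
      have h4 : n ^ 2 * δ ^ 2 / 4 * T = δ ^ 2 / 4 * (n ^ 2 * T) := by ring
      rw [h4]
      gcongr
    linarith
  have h4 : u ^ 2 / 2 + u * δ + ε₁ / 2 + δ ≤ 1 / 2 * y ^ 2 + ε := by
    rw [hu]
    have g1 : y * δ ≤ 1 / 4 * δ := by
      gcongr
      linarith
    have g2 : δ ^ 2 ≤ 1 / 4 * δ := by nlinarith
    nlinarith
  have h5 := mul_le_mul_of_nonneg_right h4 (by positivity : 0 ≤ n ^ 2 * T)
  rw [h2]
  have e1 : u * n * ((u + δ) * (n * T)) = (u ^ 2 + u * δ) * (n ^ 2 * T) := by ring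
  have e2 : 1 / 2 * (u ^ 2 - ε₁) * n ^ 2 * T = (1 / 2 * u ^ 2 - 1 / 2 * ε₁) * (n ^ 2 * T) := by ring
  have e3 : ε * n ^ 2 * T = ε * (n ^ 2 * T) := by ring
  rw [e1, e2, e3]
  obtain ⟨W, hW⟩ : ∃ W : ℝ, W = n ^ 2 * T := ⟨_, rfl⟩
  rw [← hW] at h3 h5 ⊢
  linarith

/-- the density up to the fugacity `3^(-n/2) / v_n` -/
theorem dens_asymp2 {ε : ℝ} (hε : 0 < ε) : ∀ᶠ n : ℕ in atTop, ∀ L : ℝ, (n : ℝ) ^ 2 ≤ L →
    ∀ κ : ℝ, -1 ≤ κ → (1 + κ) * Real.log 2 ≤ b0 - ε →
      |hsD n L (fug n κ) / (n / 2 ^ n) - (1 + κ) * Real.log 2| ≤ ε := by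
  have hl2 : 0 < Real.log 2 := Real.log_pos (by norm_num)
  filter_upwards [mean_asymp2 hε, eventually_gt_atTop 36] with n hmean hn36 L hL κ hκ hκ1
  have hn' : (36 : ℝ) < n := by exact_mod_cast hn36
  have hn0 : (0 : ℝ) < n := by linarith
  have hL0 : 0 < L := lt_of_lt_of_le (by positivity) hL
  have h1 := hmean L hL ((1 + κ) * Real.log 2) (mul_nonneg (by linarith) hl2.le) hκ1
  rw [← fug_lm] at h1
  obtain ⟨T, hT⟩ : ∃ T : ℝ, T = TT n L := ⟨_, rfl⟩
  have hT0 : 0 < T := by rw [hT]; exact lt_of_lt_of_le hn0 (TT_large hn36 hL)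
  rw [hsD_eq hL0]
  rw [← hT] at h1 ⊢
  have h2 : hsM n L (fug n κ) / (2 ^ n * T) / (n / 2 ^ n) - (1 + κ) * Real.log 2 =
      (hsM n L (fug n κ) - (1 + κ) * Real.log 2 * n * T) / (n * T) := by
    field_simp
  rw [h2, abs_div, abs_of_pos (by positivity : 0 < n * T), div_le_iff₀ (by positivity)]
  linarith


/-- the lower bound for all fugacities -/
theorem dens_low2 {ε : ℝ} (hε : 0 < ε) : ∀ᶠ n : ℕ in atTop, ∀ L : ℝ, (n : ℝ) ^ 2 ≤ L →
    ∀ κ : ℝ, -1 ≤ κ → (min ((1 + κ) * Real.log 2) b0 - ε) * (n / 2 ^ n) ≤ hsD n L (fug n κ) := by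
  have hb0 := b0_pos
  have hl2 : 0 < Real.log 2 := Real.log_pos (by norm_num)
  obtain ⟨ε', hε'⟩ : ∃ ε' : ℝ, ε' = min (ε / 2) (b0 / 2) := ⟨_, rfl⟩
  have hε0 : 0 < ε' := by rw [hε']; positivity
  have hε1 : ε' ≤ ε / 2 := by rw [hε']; exact min_le_left _ _
  have hε2 : ε' ≤ b0 / 2 := by rw [hε']; exact min_le_right _ _
  filter_upwards [mean_asymp2 hε0, eventually_gt_atTop 36] with n hmean hn36 L hL κ hκ
  have hn : 0 < n := by omega
  have hn' : (36 : ℝ) < n := by exact_mod_cast hn36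
  have hn0 : (0 : ℝ) < n := by linarith
  have hL0 : 0 < L := lt_of_lt_of_le (by positivity) hL
  obtain ⟨u, hu⟩ : ∃ u : ℝ, u = min ((1 + κ) * Real.log 2) (b0 - ε') := ⟨_, rfl⟩
  have hu0 : 0 ≤ u := by
    rw [hu]
    exact le_min (mul_nonneg (by linarith) hl2.le) (by linarith)
  have hub : u ≤ b0 - ε' := by rw [hu]; exact min_le_right _ _
  have huκ : u ≤ (1 + κ) * Real.log 2 := by rw [hu]; exact min_le_left _ _
  have hum : min ((1 + κ) * Real.log 2) b0 - ε' ≤ u := by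
    rw [hu]
    refine le_min ?_ ?_
    · have := min_le_left ((1 + κ) * Real.log 2) b0
      linarith
    · have := min_le_right ((1 + κ) * Real.log 2) b0
      linarith
  have h1 := hmean L hL u hu0 hub
  have h2 := hsM_mono (n := n) hL0 hn huκ
  rw [← fug_lm] at h2
  obtain ⟨T, hT⟩ : ∃ T : ℝ, T = TT n L := ⟨_, rfl⟩
  have hT0 : 0 < T := by rw [hT]; exact lt_of_lt_of_le hn0 (TT_large hn36 hL)
  rw [hsD_eq hL0]
  rw [← hT] at h1 ⊢
  rw [abs_le] at h1
  rw [le_div_iff₀ (by positivity)]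
  obtain ⟨a, ha⟩ : ∃ a : ℝ, a = min ((1 + κ) * Real.log 2) b0 - ε := ⟨_, rfl⟩
  rw [← ha]
  have h3 : a * (n / 2 ^ n) * (2 ^ n * T) = a * n * T := by
    field_simp
  rw [h3]
  have h4 : a * n * T ≤ (u - ε') * n * T := by
    have : a ≤ u - ε' := by linarith
    gcongr
  linarith [h1.1]

end Pool.Agent.N628.EP
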