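import Pool.Agent.N628.EP.K7
import Pool.Agent.N628.EP.M3

/-!
N628/EP: the final forms.
-/

set_option autoImplicit false

open MeasureTheory Set Real Metric Filter Topology

namespace Pool.Agent.N628.EP

open Pool.Agent.Y509.LS
open Pool.Agent.H818R2 (rho rate)

lemma b0_gt : 3 / 20 < b0 := by
  have h1 := Real.log_two_lt_d9
  unfold b0
  linarith

lemma P_nonneg (n k : ℕ) {L : ℝ} (hL : 0 < L) : 0 ≤ volume.real (conf n k L) / (L ^ n) ^ k := by
  have : 0 ≤ volume.real (conf n k L) := measureReal_nonneg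
  positivity

/-- **the entropy of packings** -/
theorem entropy {ε : ℝ} (hε : 0 < ε) : ∀ᶠ n : ℕ in atTop, ∀ L : ℝ, (n : ℝ) ^ 2 ≤ L →
    ∀ k : ℕ, (k : ℝ) ≤ (b0 - ε) * n * TT n L →
      0 < volume.real (conf n k L) / (L ^ n) ^ k ∧
      |Real.log (volume.real (conf n k L) / (L ^ n) ^ k) + (k : ℝ) ^ 2 / (2 * TT n L)| ≤
        ε * n ^ 2 * TT n L := by
  filter_upwards [entropy_lower2 hε, entropy_upper hε, eventually_gt_atTop 36] with
    n h1 h2 hn36 L hL k hk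
  have hn' : (36 : ℝ) < n := by exact_mod_cast hn36
  have hn0 : (0 : ℝ) < n := by linarith
  have hT0 : 0 < TT n L := lt_of_lt_of_le hn0 (TT_large hn36 hL)
  have h3 := h1 L hL k hk
  have h4 := h2 L hL k (hk.trans (by
    have : 0 ≤ ε * (n * TT n L) := by positivity
    linarith))
  have hP : 0 < volume.real (conf n k L) / (L ^ n) ^ k := lt_of_lt_of_le (Real.exp_pos _) h3
  refine ⟨hP, ?_⟩
  have h5 := (Real.le_log_iff_exp_le hP).2 h3
  have h6 := (Real.log_le_iff_le_exp hP).2 h4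
  rw [abs_le]
  constructor <;> linarith

/-- **larger numbers of balls** -/
theorem entropy_beyond {ε : ℝ} (hε : 0 < ε) : ∀ᶠ n : ℕ in atTop, ∀ L : ℝ, (n : ℝ) ^ 2 ≤ L →
    ∀ k : ℕ, b0 * n * TT n L ≤ k →
      volume.real (conf n k L) / (L ^ n) ^ k ≤
        Real.exp (-((b0 - ε) * n * k + k * Real.log (k / TT n L) - 1 / 2 * b0 ^ 2 * n ^ 2 * TT n L)) := by
  have hb0 := b0_pos
  have hb1 := b0_gt
  obtain ⟨ε', hε'⟩ : ∃ ε' : ℝ, ε' = min (ε / 6) (b0 / 2) := ⟨_, rfl⟩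
  have hε0 : 0 < ε' := by rw [hε']; positivity
  have hε1 : ε' ≤ ε / 6 := by rw [hε']; exact min_le_left _ _
  have hε2 : ε' ≤ b0 / 2 := by rw [hε']; exact min_le_right _ _
  have hl2 : 0 < Real.log 2 := Real.log_pos (by norm_num)
  have hl2' : Real.log 2 < 1 := by linarith [Real.log_two_lt_d9]
  filter_upwards [rare3 hε0 (by linarith), rare2 hε0, eventually_gt_atTop 36] with
    n h1 h2 hn36 L hL k hk
  have hn' : (36 : ℝ) < n := by exact_mod_cast hn36
  have hn0 : (0 : ℝ) < n := by linarith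
  obtain ⟨T, hT⟩ : ∃ T : ℝ, T = TT n L := ⟨_, rfl⟩
  have hT0 : 0 < T := by rw [hT]; exact lt_of_lt_of_le hn0 (TT_large hn36 hL)
  rw [← hT] at hk ⊢
  have hk0 : (0 : ℝ) < k := lt_of_lt_of_le (by positivity) hk
  rcases le_or_gt ((2 : ℝ) ^ (ε' * n) * T) k with hk2 | hk2
  · have h3 := h2 L hL k (by rw [← hT]; exact hk2)
    rw [← hT] at h3
    refine h3.trans ?_
    have h4 : (2 : ℝ) ^ (-((be - ε') * n)) * T / k =
        Real.exp (-((b0 - ε' * Real.log 2) * n) - Real.log (k / T)) := by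
      rw [Real.exp_sub, Real.exp_log (by positivity), two_rpow, ← be_eq]
      have : Real.log 2 * -((be - ε') * n) = -((be * Real.log 2 - ε' * Real.log 2) * n) := by ring
      rw [this]
      field_simp
    rw [h4, ← Real.exp_nat_mul, Real.exp_le_exp]
    have h5 : 0 ≤ 1 / 2 * b0 ^ 2 * n ^ 2 * T := by positivity
    have h6 : ε' * Real.log 2 * (n * k) ≤ ε * (n * k) := by
      refine mul_le_mul_of_nonneg_right ?_ (by positivity)
      nlinarith
    have h7 : (k : ℝ) * (-((b0 - ε' * Real.log 2) * n) - Real.log (k / T)) =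
        -(b0 * (n * k)) + ε' * Real.log 2 * (n * k) - k * Real.log (k / T) := by ring
    rw [h7]
    have h8 : (b0 - ε) * n * k = b0 * (n * k) - ε * (n * k) := by ring
    rw [h8]
    linarith
  · have h3 := h1 L hL (b0 - ε') (by linarith) le_rfl k
    rw [← hT] at h3
    refine h3.trans ?_
    rw [Real.exp_le_exp]
    have h4 : Real.log (k / T) ≤ ε' * n := by
      have h5 : (k : ℝ) / T ≤ (2 : ℝ) ^ (ε' * n) := by
        rw [div_le_iff₀ hT0]
        exact hk2.le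
      have h6 := Real.log_le_log (by positivity) h5
      rw [Real.log_rpow (by norm_num)] at h6
      refine h6.trans ?_
      have : 0 < ε' * n := by positivity
      nlinarith
    have h5 : (k : ℝ) * Real.log (k / T) ≤ ε' * (n * k) := by
      have := mul_le_mul_of_nonneg_left h4 hk0.le
      linarith
    have h6 : n * T ≤ 20 / 3 * k := by
      have h7 : 3 / 20 * (n * T) ≤ b0 * n * T := by
        have := mul_le_mul_of_nonneg_right hb1.le (by positivity : 0 ≤ n * T)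
        linarith
      linarith
    have h7 : 1 / 2 * ((b0 - ε') ^ 2 + ε') * n ^ 2 * T ≤ 1 / 2 * b0 ^ 2 * n ^ 2 * T + 4 * ε' * (n * k) := by
      have h8 : (b0 - ε') ^ 2 ≤ b0 ^ 2 := pow_le_pow_left₀ (by linarith) (by linarith) 2
      have h9 : 1 / 2 * ((b0 - ε') ^ 2 + ε') * n ^ 2 * T ≤ 1 / 2 * (b0 ^ 2 + ε') * n ^ 2 * T := by
        gcongr
      have h10 : ε' * n * (n * T) ≤ ε' * n * (20 / 3 * k) :=
        mul_le_mul_of_nonneg_left h6 (by positivity)
      have h11 : 0 ≤ ε' * n * k := by positivity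
      linarith
    have h8 : n * ((b0 - ε') * k - 1 / 2 * ((b0 - ε') ^ 2 + ε') * n * T) =
        b0 * (n * k) - ε' * (n * k) - 1 / 2 * ((b0 - ε') ^ 2 + ε') * n ^ 2 * T := by ring
    rw [h8]
    have h9 : (b0 - ε) * n * k = b0 * (n * k) - ε * (n * k) := by ring
    rw [h9]
    have h10 : 6 * ε' * (n * k) ≤ ε * (n * k) := by
      refine mul_le_mul_of_nonneg_right ?_ (by positivity)
      linarith
    linarith

/-- **the pressure** -/
theorem pressure {ε : ℝ} (hε : 0 < ε) : ∀ᶠ n : ℕ in atTop, ∀ L : ℝ, (n : ℝ) ^ 2 ≤ L →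
    ∀ κ : ℝ, -1 ≤ κ → κ ≤ be - 1 - ε →
      |Real.log (hsZ n L (fug n κ)) - ((1 + κ) * Real.log 2) ^ 2 / 2 * n ^ 2 * TT n L| ≤
        ε * n ^ 2 * TT n L ∧
      |hsD n L (fug n κ) - (1 + κ) * Real.log 2 * (n / 2 ^ n)| ≤ ε * (n / 2 ^ n) := by
  have hb0 := b0_pos
  have hbh := b0_lt_half_log
  have hl2 : 0 < Real.log 2 := Real.log_pos (by norm_num)
  have hl2' : Real.log 2 < 1 := by linarith [Real.log_two_lt_d9]
  obtain ⟨ε', hε'⟩ : ∃ ε' : ℝ, ε' = min (ε * Real.log 2) (b0 / 2) := ⟨_, rfl⟩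
  have hε0 : 0 < ε' := by rw [hε']; positivity
  have hε1 : ε' ≤ ε * Real.log 2 := by rw [hε']; exact min_le_left _ _
  have hε2 : ε' ≤ b0 / 2 := by rw [hε']; exact min_le_right _ _
  have hε3 : ε' ≤ ε := by nlinarith
  filter_upwards [press_upper hε0 (by linarith), press_lower2 hε0, dens_asymp2 hε0,
    eventually_gt_atTop 36] with n h1 h2 h3 hn36 L hL κ hκ hκ1
  have hn' : (36 : ℝ) < n := by exact_mod_cast hn36
  have hn0 : (0 : ℝ) < n := by linarith
  obtain ⟨u, hu⟩ : ∃ u : ℝ, u = (1 + κ) * Real.log 2 := ⟨_, rfl⟩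
  have hu0 : 0 ≤ u := by rw [hu]; exact mul_nonneg (by linarith) hl2.le
  have hub : u ≤ b0 - ε' := by
    have h4 : (1 + κ) * Real.log 2 ≤ (be - ε) * Real.log 2 :=
      mul_le_mul_of_nonneg_right (by linarith) hl2.le
    rw [sub_mul, be_eq] at h4
    rw [hu]
    linarith
  have h4 := h1 L hL u hu0 hub
  have h5 := h2 L hL u hu0 (by linarith)
  have h6 := h3 L hL κ hκ (by rw [← hu]; exact hub)
  rw [← hu] at h6 ⊢
  have hfl : fug n κ = lm n u := by rw [fug_lm, hu]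
  rw [← hfl] at h4 h5
  obtain ⟨T, hT⟩ : ∃ T : ℝ, T = TT n L := ⟨_, rfl⟩
  have hT0 : 0 < T := by rw [hT]; exact lt_of_lt_of_le hn0 (TT_large hn36 hL)
  rw [← hT] at h4 h5 ⊢
  constructor
  · have h7 : ε' * (n ^ 2 * T) ≤ ε * (n ^ 2 * T) := mul_le_mul_of_nonneg_right hε3 (by positivity)
    have h8 : 0 ≤ ε' * (n ^ 2 * T) := by positivity
    rw [abs_le]
    constructor <;> linarith
  · have h7 : 0 < (n : ℝ) / 2 ^ n := by positivity
    have h8 : hsD n L (fug n κ) - u * (n / 2 ^ n) =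
        (hsD n L (fug n κ) / (n / 2 ^ n) - u) * (n / 2 ^ n) := by
      rw [sub_mul, div_mul_cancel₀ _ h7.ne']
    rw [h8, abs_mul, abs_of_pos h7]
    exact mul_le_mul_of_nonneg_right (h6.trans hε3) h7.le

/-- **all fugacities** -/
theorem all_fug (κ : ℝ) {ε : ℝ} (hε : 0 < ε) : ∀ᶠ n : ℕ in atTop, ∀ L : ℝ, (n : ℝ) ^ 2 ≤ L →
    (2 : ℝ) ^ (-((rate n + Real.logb 2 (1 + (2 : ℝ) ^ (-κ)) + ε) * n)) ≤ hsD n L (fug n κ) ∧
    hsD n L (fug n κ) ≤ (2 : ℝ) ^ (-((rate n - ε) * n)) ∧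
    hsD n L (fug n κ) ≤ (2 : ℝ) ^ (-((min 1 ((1 + be - κ) / 2) - ε) * n)) := by
  filter_upwards [hs_dense κ hε, hs_rho κ hε, hs_upper2 κ hε] with n h1 h2 h3 L hL
  exact ⟨h1 L hL, h2 L hL, h3 L hL⟩

/-- the threshold -/
theorem threshold {κ γ : ℝ} (hγ : γ < 1)
    (h : ∃ᶠ n : ℕ in atTop, ∃ L : ℝ, (n : ℝ) ^ 2 ≤ L ∧ (2 : ℝ) ^ (-(γ * n)) ≤ hsD n L (fug n κ)) :
    1 + be - 2 * γ ≤ κ := by
  by_contra hκ
  rw [not_le] at hκ
  obtain ⟨m, hm⟩ : ∃ m : ℝ, m = min 1 ((1 + be - κ) / 2) := ⟨_, rfl⟩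
  have hmγ : γ < m := by
    rw [hm]
    exact lt_min hγ (by linarith)
  obtain ⟨n, ⟨L, hL, h1⟩, h2, hn⟩ := (h.and_eventually ((hs_upper2 κ
    (by linarith : 0 < (m - γ) / 2)).and (eventually_gt_atTop 0))).exists
  have h3 := h2 L hL
  rw [← hm] at h3
  have hn0 : (0 : ℝ) < n := by exact_mod_cast hn
  have h4 := h1.trans h3
  rw [Real.rpow_le_rpow_left_iff (by norm_num)] at h4
  have h5 : (m - (m - γ) / 2) * n ≤ γ * n := by linarith
  have h6 := le_of_mul_le_mul_right h5 hn0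
  linarith

lemma exists_kappa {c : ℝ} (hc : 0 < c) : ∃ κ : ℝ, Real.logb 2 (1 + (2 : ℝ) ^ (-κ)) ≤ c := by
  have h1 : 0 < (2 : ℝ) ^ c - 1 := by
    have := Real.one_lt_rpow (by norm_num : (1 : ℝ) < 2) hc
    linarith
  refine ⟨-Real.logb 2 ((2 : ℝ) ^ c - 1), ?_⟩
  rw [neg_neg, Real.rpow_logb (by norm_num) (by norm_num) h1]
  have h2 : 1 + ((2 : ℝ) ^ c - 1) = 2 ^ c := by ring
  rw [h2, Real.logb_rpow (by norm_num) (by norm_num)]

/-- **the criterion for the limsup** -/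
theorem crit_sup : limsup rate atTop < 1 ↔ ∃ κ γ : ℝ, γ < 1 ∧ ∀ᶠ n : ℕ in atTop,
    ∀ L : ℝ, (n : ℝ) ^ 2 ≤ L → (2 : ℝ) ^ (-(γ * n)) ≤ hsD n L (fug n κ) := by
  constructor
  · intro h
    obtain ⟨c, hc, hc1⟩ := exists_between h
    have hev : ∀ᶠ n : ℕ in atTop, rate n < c :=
      eventually_lt_of_limsup_lt hc (Pool.Agent.H818R2.rate_bdd _)
    obtain ⟨κ, hκ⟩ := exists_kappa (by linarith : 0 < (1 - c) / 4)
    refine ⟨κ, (1 + c) / 2, by linarith, ?_⟩
    filter_upwards [hev, hs_dense κ (by linarith : 0 < (1 - c) / 4)] with n h1 h2 L hL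
    refine le_trans ?_ (h2 L hL)
    rw [Real.rpow_le_rpow_left_iff (by norm_num)]
    have hn0 : (0 : ℝ) ≤ n := Nat.cast_nonneg n
    have h3 : rate n + Real.logb 2 (1 + (2 : ℝ) ^ (-κ)) + (1 - c) / 4 ≤ (1 + c) / 2 := by linarith
    have := mul_le_mul_of_nonneg_right h3 hn0
    linarith
  · rintro ⟨κ, γ, hγ, h⟩
    have hev : ∀ᶠ n : ℕ in atTop, rate n ≤ (1 + γ) / 2 := by
      filter_upwards [h, hs_rho κ (by linarith : 0 < (1 - γ) / 2), eventually_gt_atTop 0] with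
        n h1 h2 hn
      have hn0 : (0 : ℝ) < n := by exact_mod_cast hn
      have h3 := (h1 _ le_rfl).trans (h2 _ le_rfl)
      rw [Real.rpow_le_rpow_left_iff (by norm_num)] at h3
      have h4 : (rate n - (1 - γ) / 2) * n ≤ γ * n := by linarith
      have h5 := le_of_mul_le_mul_right h4 hn0
      linarith
    have h1 : limsup rate atTop ≤ (1 + γ) / 2 :=
      limsup_le_of_le ((Pool.Agent.H818R2.rate_bdd' _).isCoboundedUnder_le) hev
    linarith

/-- **the criterion for the liminf** -/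
theorem crit_inf : liminf rate atTop < 1 ↔ ∃ κ γ : ℝ, γ < 1 ∧ ∃ᶠ n : ℕ in atTop,
    ∀ L : ℝ, (n : ℝ) ^ 2 ≤ L → (2 : ℝ) ^ (-(γ * n)) ≤ hsD n L (fug n κ) := by
  constructor
  · intro h
    obtain ⟨c, hc, hc1⟩ := exists_between h
    have hev : ∃ᶠ n : ℕ in atTop, rate n < c :=
      frequently_lt_of_liminf_lt ((Pool.Agent.H818R2.rate_bdd _).isCoboundedUnder_ge) hc
    obtain ⟨κ, hκ⟩ := exists_kappa (by linarith : 0 < (1 - c) / 4)
    refine ⟨κ, (1 + c) / 2, by linarith, ?_⟩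
    refine (hev.and_eventually (hs_dense κ (by linarith : 0 < (1 - c) / 4))).mono ?_
    rintro n ⟨h1, h2⟩ L hL
    refine le_trans ?_ (h2 L hL)
    rw [Real.rpow_le_rpow_left_iff (by norm_num)]
    have hn0 : (0 : ℝ) ≤ n := Nat.cast_nonneg n
    have h3 : rate n + Real.logb 2 (1 + (2 : ℝ) ^ (-κ)) + (1 - c) / 4 ≤ (1 + c) / 2 := by linarith
    have := mul_le_mul_of_nonneg_right h3 hn0
    linarith
  · rintro ⟨κ, γ, hγ, h⟩
    have hev : ∃ᶠ n : ℕ in atTop, rate n ≤ (1 + γ) / 2 := by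
      refine (h.and_eventually ((hs_rho κ (by linarith : 0 < (1 - γ) / 2)).and
        (eventually_gt_atTop 0))).mono ?_
      rintro n ⟨h1, h2, hn⟩
      have hn0 : (0 : ℝ) < n := by exact_mod_cast hn
      have h3 := (h1 _ le_rfl).trans (h2 _ le_rfl)
      rw [Real.rpow_le_rpow_left_iff (by norm_num)] at h3
      have h4 : (rate n - (1 - γ) / 2) * n ≤ γ * n := by linarith
      have h5 := le_of_mul_le_mul_right h4 hn0
      linarith
    have h1 : liminf rate atTop ≤ (1 + γ) / 2 :=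
      liminf_le_of_frequently_le hev (Pool.Agent.H818R2.rate_bdd' _)
    linarith

end Pool.Agent.N628.EP
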