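import Pool.Agent.N628.EP.A1
import Pool.Agent.H519R2.TSP.Pack

/-!
N628/EP: lower bounds for the volume of the space of packings.
-/

set_option autoImplicit false

open MeasureTheory Set Real Metric Filter Topology

namespace Pool.Agent.N628.EP

open Pool.Agent.Y509.LS

variable {n : ℕ}

lemma cube_eq (n : ℕ) (L : ℝ) : cube n L = {x : E n | ∀ i, x i ∈ Icc 0 L} := rfl

lemma conf_meas (n k : ℕ) (L : ℝ) : MeasurableSet (conf n k L) := by
  have h1 : conf n k L = (⋂ i, {x : Fin k → E n | x i ∈ cube n L}) ∩
      ⋂ i, ⋂ j, {x : Fin k → E n | i ≠ j → 2 ≤ dist (x i) (x j)} := by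
    ext x
    simp [conf]
  rw [h1]
  refine (MeasurableSet.iInter fun i => ?_).inter (MeasurableSet.iInter fun i =>
    MeasurableSet.iInter fun j => ?_)
  · exact (box_meas n 0 L).preimage (measurable_pi_apply i)
  · by_cases hij : i = j
    · simp [hij]
    · have : {x : Fin k → E n | i ≠ j → 2 ≤ dist (x i) (x j)} =
          {x : Fin k → E n | 2 ≤ dist (x i) (x j)} := by
        ext x
        simp [hij]
      rw [this]
      exact measurableSet_le measurable_const
        ((measurable_pi_apply i).dist (measurable_pi_apply j))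

lemma ball2_vol (y : E n) : volume (ball y 2) = ENNReal.ofReal (2 ^ n * V1 n) := by
  rw [Measure.addHaar_ball_of_pos _ _ (by norm_num), finrank_euclideanSpace_fin]
  unfold V1
  rw [ENNReal.ofReal_mul (by positivity), ofReal_measureReal measure_ball_lt_top.ne]

/-- one more point -/
lemma conf_succ {L : ℝ} (hL : 0 < L) (k : ℕ) :
    (L ^ n - k * (2 ^ n * V1 n)) * volume.real (conf n k L) ≤ volume.real (conf n (k + 1) L) := by
  obtain ⟨e, he⟩ : ∃ e, e = (MeasurableEquiv.piFinSuccAbove (fun _ : Fin (k + 1) => E n) 0) := ⟨_, rfl⟩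
  have hmp : MeasurePreserving e.symm (volume.prod volume) volume := by
    rw [he]
    exact (volume_preserving_piFinSuccAbove (fun _ : Fin (k + 1) => E n) 0).symm
  have h1 : volume (conf n (k + 1) L) = (volume.prod volume) (e.symm ⁻¹' conf n (k + 1) L) :=
    (hmp.measure_preimage (conf_meas n (k + 1) L).nullMeasurableSet).symm
  have hmeas : MeasurableSet (e.symm ⁻¹' conf n (k + 1) L) :=
    (conf_meas n (k + 1) L).preimage e.symm.measurable
  have h2 : ∀ x ∈ conf n k L, ENNReal.ofReal (L ^ n - k * (2 ^ n * V1 n)) ≤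
      volume ((fun y : E n => (y, x)) ⁻¹' (e.symm ⁻¹' conf n (k + 1) L)) := by
    intro x hx
    have h3 : cube n L \ (⋃ i, ball (x i) 2) ⊆
        (fun y : E n => (y, x)) ⁻¹' (e.symm ⁻¹' conf n (k + 1) L) := by
      rintro y ⟨hy1, hy2⟩
      have hy3 : ∀ i, 2 ≤ dist y (x i) := by
        intro i
        by_contra h
        apply hy2
        rw [mem_iUnion]
        exact ⟨i, mem_ball.2 (not_le.1 h)⟩
      have h4 : e.symm (y, x) = Fin.cons y x := by
        rw [he, MeasurableEquiv.piFinSuccAbove_symm_apply, Fin.insertNthEquiv_zero]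
        rfl
      rw [mem_preimage, mem_preimage, h4]
      constructor
      · intro i
        refine Fin.cases ?_ (fun i => ?_) i
        · exact hy1
        · exact hx.1 i
      · intro i j
        refine Fin.cases ?_ (fun i => ?_) i
        · refine Fin.cases ?_ (fun j => ?_) j
          · intro h
            exact absurd rfl h
          · intro _
            exact hy3 j
        · refine Fin.cases ?_ (fun j => ?_) j
          · intro _
            have := hy3 i
            rwa [dist_comm] at this
          · intro h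
            exact hx.2 i j fun h' => h (by rw [h'])
    refine le_trans ?_ (measure_mono h3)
    refine le_trans ?_ (le_measure_sdiff)
    have h4 : volume (cube n L) = ENNReal.ofReal (L ^ n) := by
      rw [cube_eq, box_vol n hL.le, sub_zero]
    have h5 : volume (⋃ i, ball (x i) 2) ≤ ENNReal.ofReal (k * (2 ^ n * V1 n)) := by
      refine (measure_iUnion_le _).trans (le_of_eq ?_)
      rw [tsum_fintype]
      simp only [ball2_vol, Finset.sum_const, Finset.card_univ, Fintype.card_fin, nsmul_eq_mul]
      rw [ENNReal.ofReal_mul (Nat.cast_nonneg k), ENNReal.ofReal_natCast]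
    rw [h4]
    have hV := V1_pos n
    rw [ENNReal.ofReal_sub _ (by positivity)]
    exact tsub_le_tsub_left h5 _
  have h3 : ENNReal.ofReal (L ^ n - k * (2 ^ n * V1 n)) * volume (conf n k L) ≤
      volume (conf n (k + 1) L) := by
    rw [h1, Measure.prod_apply_symm hmeas]
    calc ENNReal.ofReal (L ^ n - k * (2 ^ n * V1 n)) * volume (conf n k L) =
        ∫⁻ x in conf n k L, ENNReal.ofReal (L ^ n - k * (2 ^ n * V1 n)) := by
          rw [setLIntegral_const]
      _ ≤ ∫⁻ x in conf n k L, volume ((fun y : E n => (y, x)) ⁻¹' (e.symm ⁻¹' conf n (k + 1) L)) :=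
          setLIntegral_mono' (conf_meas n k L) h2
      _ ≤ _ := setLIntegral_le_lintegral _ _
  have hfin : ∀ m, volume (conf n m L) ≠ ⊤ := by
    intro m
    have h4 : conf n m L ⊆ Set.pi univ fun _ => {x : E n | ∀ i, x i ∈ Icc 0 L} := by
      intro x hx i _ j
      exact hx.1 i j
    refine (lt_of_le_of_lt (measure_mono h4) ?_).ne
    rw [volume_pi_pi]
    simp only [box_vol n hL.le]
    exact ENNReal.prod_lt_top fun _ _ => ENNReal.ofReal_lt_top
  rcases le_or_gt 0 (L ^ n - k * (2 ^ n * V1 n)) with h0 | h0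
  · have h4 := ENNReal.toReal_mono (hfin (k + 1)) h3
    rwa [ENNReal.toReal_mul, ENNReal.toReal_ofReal h0] at h4
  · have : (L ^ n - k * (2 ^ n * V1 n)) * volume.real (conf n k L) ≤ 0 :=
      mul_nonpos_of_nonpos_of_nonneg h0.le measureReal_nonneg
    exact this.trans measureReal_nonneg

lemma conf_zero (n : ℕ) (L : ℝ) : volume.real (conf n 0 L) = 1 := by
  have h1 : conf n 0 L = Set.pi univ fun i : Fin 0 => (Fin.elim0 i : Set (E n)) := by
    ext x
    simp [conf]
  rw [measureReal_def, h1, volume_pi_pi]
  simp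

/-- below the Minkowski density -/
theorem conf_low {L : ℝ} (hL : 0 < L) {k m : ℕ} (hkm : m ≤ k) (hk : (k : ℝ) * (2 ^ n * V1 n) ≤ L ^ n) :
    (L ^ n - k * (2 ^ n * V1 n)) ^ m ≤ volume.real (conf n m L) := by
  have hV := V1_pos n
  induction m with
  | zero => rw [pow_zero, conf_zero]
  | succ m ih =>
    have h1 := ih (by omega)
    refine le_trans ?_ (conf_succ hL m)
    rw [pow_succ, mul_comm]
    have h2 : (m : ℝ) ≤ k := by exact_mod_cast (by omega : m ≤ k)
    have h3 : L ^ n - k * (2 ^ n * V1 n) ≤ L ^ n - m * (2 ^ n * V1 n) := by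
      have : (m : ℝ) * (2 ^ n * V1 n) ≤ k * (2 ^ n * V1 n) := by gcongr
      linarith
    exact mul_le_mul h3 h1 (pow_nonneg (by linarith) _) (by linarith)

end Pool.Agent.N628.EP
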