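import Pool.Agent.N628.EP.L1

/-!
N628/EP: lower bounds from dense packings.
-/

set_option autoImplicit false

open MeasureTheory Set Real Metric Filter Topology

namespace Pool.Agent.N628.EP

open Pool.Agent.Y509.LS
open Pool.Agent.H818R2 (rho Sep)

variable {n : ℕ}

lemma conf_fin {L : ℝ} (hL : 0 < L) (m : ℕ) : volume (conf n m L) ≠ ⊤ := by
  have h4 : conf n m L ⊆ Set.pi univ fun _ => {x : E n | ∀ i, x i ∈ Icc 0 L} := by
    intro x hx i _ j
    exact hx.1 i j
  refine (lt_of_le_of_lt (measure_mono h4) ?_).ne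
  rw [volume_pi_pi]
  simp only [box_vol n hL.le]
  exact ENNReal.prod_lt_top fun _ _ => ENNReal.ofReal_lt_top

lemma cb_vol (y : E n) {t : ℝ} (ht : 0 ≤ t) : volume (closedBall y t) = ENNReal.ofReal (t ^ n * V1 n) := by
  rw [Measure.addHaar_closedBall _ _ ht, finrank_euclideanSpace_fin]
  unfold V1
  rw [ENNReal.ofReal_mul (by positivity), ofReal_measureReal measure_ball_lt_top.ne]

/-- **packings of all smaller densities** -/
theorem conf_dense {t L : ℝ} (ht : 0 < t) (hL : 2 * t < L) {k : ℕ}
    (hk : 2 * k * ((1 + t) ^ n * V1 n) ≤ rho n * (L - 2 * t) ^ n) :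
    (rho n * (L - 2 * t) ^ n * t ^ n / (2 * (1 + t) ^ n)) ^ k ≤ volume.real (conf n k L) := by
  have hV := V1_pos n
  have h1t : 0 < (1 + t) ^ n := by positivity
  obtain ⟨P, hP, hPC, hPc⟩ := Pool.Agent.H519R2.TSP.exists_cube n (L := (L - 2 * t) / (1 + t))
    (div_pos (by linarith) (by linarith))
  have hVV : Pool.Agent.H519R2.TSP.V n = V1 n := rfl
  rw [hVV, div_pow, ← mul_div_assoc, div_le_iff₀ h1t] at hPc
  -- the number of points
  have hN : 2 * k ≤ P.card := by
    have h1 : 2 * (k : ℝ) * ((1 + t) ^ n * V1 n) ≤ P.card * ((1 + t) ^ n * V1 n) := by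
      calc 2 * (k : ℝ) * ((1 + t) ^ n * V1 n) ≤ rho n * (L - 2 * t) ^ n := hk
        _ ≤ P.card * V1 n * (1 + t) ^ n := hPc
        _ = P.card * ((1 + t) ^ n * V1 n) := by ring
    have h2 := le_of_mul_le_mul_right h1 (by positivity)
    exact_mod_cast h2
  -- the centres
  obtain ⟨c, hc⟩ : ∃ c : E n → E n, c = fun p => (1 + t) • p + WithLp.toLp 2 (fun _ => t) := ⟨_, rfl⟩
  have hcd : ∀ p q : E n, dist (c p) (c q) = (1 + t) * dist p q := by
    intro p q
    rw [hc]
    simp only [dist_add_right]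
    rw [dist_smul₀, Real.norm_of_nonneg (by linarith)]
  obtain ⟨box, hbox⟩ : ∃ box : (Fin k ↪ P) → Set (Fin k → E n),
      box = fun σ => Set.pi univ fun i => closedBall (c (σ i : E n)) t := ⟨_, rfl⟩
  have hsub : (⋃ σ, box σ) ⊆ conf n k L := by
    intro x hx
    rw [mem_iUnion] at hx
    obtain ⟨σ, hσ⟩ := hx
    rw [hbox] at hσ
    have h1 : ∀ i, dist (x i) (c (σ i : E n)) ≤ t := fun i => mem_closedBall.1 (hσ i (mem_univ i))
    constructor
    · intro i j
      have h2 := hPC (σ i).2 j
      have h3 : |x i j - c (σ i : E n) j| ≤ t := by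
        have := h1 i
        rw [dist_eq_norm] at this
        have h4 := (PiLp.norm_apply_le (x i - c (σ i : E n)) j).trans this
        rwa [PiLp.sub_apply, Real.norm_eq_abs] at h4
      have h4 : c (σ i : E n) j = (1 + t) * (σ i : E n) j + t := by
        rw [hc]
        simp
      rw [h4, abs_le] at h3
      have h5 : (1 + t) * (σ i : E n) j ≤ L - 2 * t := by
        have := h2.2
        rw [le_div_iff₀ (by linarith)] at this
        linarith
      have h6 : 0 ≤ (1 + t) * (σ i : E n) j := mul_nonneg (by linarith) h2.1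
      exact ⟨by linarith [h3.1], by linarith [h3.2]⟩
    · intro i j hij
      have h2 : (σ i : E n) ≠ σ j := by
        intro h
        exact hij (σ.injective (Subtype.ext h))
      have h3 : 2 ≤ dist (σ i : E n) (σ j) := hP _ (σ i).2 _ (σ j).2 h2
      have h4 := hcd (σ i : E n) (σ j)
      have h5 : dist (c (σ i : E n)) (c (σ j : E n)) ≤ dist (x i) (c (σ i : E n)) + dist (x i) (x j) +
          dist (x j) (c (σ j : E n)) := by
        rw [dist_comm (x i) (c _)]
        exact dist_triangle4 _ _ _ _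
      have h6 := h1 i
      have h7 := h1 j
      nlinarith
  have hdisj : Pairwise (Function.onFun Disjoint box) := by
    intro σ τ hστ
    rw [Function.onFun, Set.disjoint_left]
    intro x hx hx'
    apply hστ
    refine DFunLike.ext _ _ fun i => Subtype.ext ?_
    by_contra hne
    rw [hbox] at hx hx'
    have h1 := mem_closedBall.1 (hx i (mem_univ i))
    have h2 := mem_closedBall.1 (hx' i (mem_univ i))
    have h2 : dist (x i) (c (τ i : E n)) ≤ t := h2
    have h3 : 2 ≤ dist (σ i : E n) (τ i) := hP _ (σ i).2 _ (τ i).2 hne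
    have h4 := hcd (σ i : E n) (τ i)
    have h5 : dist (c (σ i : E n)) (c (τ i : E n)) ≤ dist (x i) (c (σ i : E n)) + dist (x i) (c (τ i : E n)) := by
      rw [dist_comm (x i) (c (σ i : E n))]
      exact dist_triangle _ _ _
    nlinarith
  have hvol : volume (⋃ σ, box σ) = ENNReal.ofReal ((P.card.descFactorial k : ℕ) * (t ^ n * V1 n) ^ k) := by
    rw [measure_iUnion hdisj, tsum_fintype]
    · have h1 : ∀ σ, volume (box σ) = ENNReal.ofReal ((t ^ n * V1 n) ^ k) := by
        intro σ
        rw [hbox]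
        simp only
        rw [volume_pi_pi]
        simp only [cb_vol _ ht.le, Finset.prod_const, Finset.card_univ, Fintype.card_fin]
        rw [ENNReal.ofReal_pow (by positivity)]
      simp only [h1, Finset.sum_const, Finset.card_univ, nsmul_eq_mul]
      rw [Fintype.card_embedding_eq, Fintype.card_coe, Fintype.card_fin,
        ENNReal.ofReal_mul (Nat.cast_nonneg _), ENNReal.ofReal_natCast]
    · intro σ
      rw [hbox]
      exact MeasurableSet.univ_pi fun _ => isClosed_closedBall.measurableSet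
  have h1 : (P.card.descFactorial k : ℕ) * (t ^ n * V1 n) ^ k ≤ volume.real (conf n k L) := by
    have h2 := measure_mono hsub (μ := volume)
    rw [hvol] at h2
    have hL0 : 0 < L := by linarith
    have h3 := ENNReal.toReal_mono (conf_fin hL0 k) h2
    rwa [ENNReal.toReal_ofReal (by positivity)] at h3
  refine le_trans ?_ h1
  have h2 : ((P.card : ℝ) / 2) ^ k ≤ (P.card.descFactorial k : ℕ) := by
    have h3 := Nat.pow_sub_le_descFactorial P.card k
    have h4 : ((P.card : ℝ) / 2) ≤ ((P.card + 1 - k : ℕ) : ℝ) := by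
      rw [div_le_iff₀ (by norm_num)]
      exact_mod_cast (by omega : P.card ≤ (P.card + 1 - k) * 2)
    calc ((P.card : ℝ) / 2) ^ k ≤ ((P.card + 1 - k : ℕ) : ℝ) ^ k :=
          pow_le_pow_left₀ (by positivity) h4 k
      _ ≤ _ := by exact_mod_cast h3
  have hρ0 : 0 ≤ rho n := Pool.Agent.H818R2.rho_nonneg n
  have hLt : 0 ≤ L - 2 * t := by linarith
  calc (rho n * (L - 2 * t) ^ n * t ^ n / (2 * (1 + t) ^ n)) ^ k ≤
      ((P.card : ℝ) / 2 * (t ^ n * V1 n)) ^ k := by
        refine pow_le_pow_left₀ (by positivity) ?_ k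
        rw [div_le_iff₀ (by positivity)]
        have : 0 ≤ t ^ n := by positivity
        nlinarith [mul_le_mul_of_nonneg_right hPc this]
    _ = ((P.card : ℝ) / 2) ^ k * (t ^ n * V1 n) ^ k := by rw [mul_pow]
    _ ≤ _ := by gcongr

end Pool.Agent.N628.EP
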